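import Pool.Agent.P.MP_7bb7e1_gt.H.Mov

/-! Signs of permutations and additivity over disjoint convex supports. -/

namespace Pool.Agent.P.MP_7bb7e1_gt.H

open Pool.Agent.P.MP_7bb7e1_gt.D Filter Topology Set

noncomputable section

variable {m : ℕ} {A : Type} [AddCommGroup A] {c : St (E (m + 2)) → A} {F : St (E (m + 2))}

lemma IsCls.c_trl (hc : IsCls c) (hF : Cpt F) (v : E (m + 2)) : c (pull (trl v) F) = c F :=
  (hc.cc (hF.cc_trl v)).symm

lemma Add_norm {n : ℕ} {x y : E n} (h : ∀ k, ∃ j, |x k| ≤ |y j|) : ‖x‖ ≤ ‖y‖ :=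
  (pi_norm_le_iff_of_nonneg (norm_nonneg y)).mpr fun k =>
    (h k).elim fun j hj => hj.trans (norm_le_pi_norm y j)

lemma Add_cpt_mir (hF : Cpt F) (i : Fin (m + 2)) : Cpt (pull (mir i) F) :=
  hF.pull _ fun R => ⟨R, fun x hx => hx.trans (Add_norm fun k => ⟨k, by
    by_cases h : k = i
    · simp [mir_apply, h]
    · simp [mir_apply, Function.update_of_ne h]⟩)⟩

lemma Add_cpt_prm (hF : Cpt F) (τ : Equiv.Perm (Fin (m + 2))) : Cpt (pull (prm τ) F) :=
  hF.pull _ fun R => ⟨R, fun x hx => hx.trans (Add_norm fun k => ⟨τ.symm k, by simp⟩)⟩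

lemma Add_half (hc : IsCls c) (hF : Cpt F) (h0 : Ag F triv {x | 0 ≤ x 0}) :
    c (pull (mir 0) F) = -c F := by
  let f : ℝ → C(E (m + 2), E (m + 2)) := fun t =>
    ⟨fun x => Function.update x 0 (-|x 0| - t), by fun_prop⟩
  have a1 : c (pull (f 0) F) = c F + c (pull (mir 0) F) :=
    hc.split 0 hF (Add_cpt_mir hF 0)
      (ag_pull_self (fun y (hy : y 0 ≤ 0) => by simp [f, abs_of_nonpos hy]) F)
      (ag_pull_congr (fun (y : E (m + 2)) (hy : 0 ≤ y 0) => by simp [f, mir_apply, abs_of_nonneg hy]) F) h0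
      (h0.pull_triv _ fun (y : E (m + 2)) (hy : y 0 ≤ 0) => by simpa [mir_apply] using hy)
  obtain ⟨R, hR⟩ := id hF
  have a2 : Cc (pull (f 0) F) (pull (f |R|) F) := by
    refine hF.cc_pull ⟨fun z => Function.update z.1 0 (-|z.1 0| - z.2.1 * |R|), by fun_prop⟩
      (fun R' => ⟨R', fun x s hx => hx.trans (Add_norm fun k => ⟨k, ?_⟩)⟩)
      (fun y => by simp [f]) fun y => by simp [f]
    by_cases h : k = 0
    · have := mul_nonneg s.2.1 (abs_nonneg R)
      simp only [h, ContinuousMap.coe_mk, Function.update_self]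
      exact le_trans (by linarith) (neg_le_abs _)
    · simp [Function.update_of_ne h]
  have a3 : pull (f |R|) F = triv := by
    rw [hR.pull_eq _ fun y => ?_, pull_triv]
    refine le_trans ?_ (norm_le_pi_norm _ 0)
    simp only [f, ContinuousMap.coe_mk, Function.update_self, Real.norm_eq_abs]
    exact le_trans (by linarith [le_abs_self R, abs_nonneg (y 0)]) (neg_le_abs _)
  rw [hc.cc a2, a3, hc.c_triv] at a1
  exact eq_neg_of_add_eq_zero_right a1.symm

lemma Add_zero (hc : IsCls c) (hF : Cpt F) : c (pull (mir 0) F) = -c F := by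
  obtain ⟨R, hR⟩ := id hF
  have a := Add_half hc (hF.cc_trl fun _ => R).right (hR.pull_triv _ fun y (hy : 0 ≤ y 0) =>
    le_trans (le_trans (by simpa using hy) (le_abs_self ((y + fun _ => R : E (m + 2)) 0)))
      (norm_le_pi_norm (y + fun _ => R : E (m + 2)) 0))
  rw [hc.c_trl hF] at a
  rw [← a, ← hc.c_trl (Add_cpt_mir hF 0) (mir 0 fun _ => R), pull_comp, pull_comp]
  refine congrArg c (pull_congr (fun x => funext fun k => ?_) F)
  by_cases h : k = 0
  · simp [mir_apply, h, add_comm]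
  · simp [mir_apply, Function.update_of_ne h]

/-- Hints. For `i = 0` translate `F` into `x 0 ≤ 0`, use `split` for the pull-back along
`x ↦ update x 0 (-|x 0|)`, which is null-homotopic (push by `-|x 0| - s L`). For `i ≠ 0`,
`mir i` is `mir 0` composed with `rot 0 i` twice (`Cpt.cc_rot`). -/
theorem IsCls.c_mir (hc : IsCls c) (hF : Cpt F) (i : Fin (m + 2)) :
    c (pull (mir i) F) = -c F := by
  by_cases hi : (0 : Fin (m + 2)) = i
  · exact hi ▸ Add_zero hc hF
  have a1 := (Add_cpt_mir hF 0).cc_rot hi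
  rw [← Add_zero hc hF, hc.cc (a1.trans (a1.right.cc_rot hi)), pull_comp, pull_comp]
  refine congrArg c (pull_congr (fun x => funext fun k => ?_) F)
  have hi' : i ≠ 0 := fun h => hi h.symm
  by_cases h : k = 0
  · simp [mir_apply, rot_apply, h, Function.update_of_ne hi]
  by_cases h' : k = i
  · simp [mir_apply, rot_apply, h', Function.update_of_ne hi, Function.update_of_ne hi']
  · simp [mir_apply, rot_apply, Function.update_of_ne h, Function.update_of_ne h']

/-- Hints. `Equiv.Perm.swap_induction_on`; a swap is a `rot` composed with a `mir`. -/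
theorem IsCls.c_prm (hc : IsCls c) (hF : Cpt F) (τ : Equiv.Perm (Fin (m + 2))) :
    c (pull (prm τ) F) = (Equiv.Perm.sign τ : ℤ) • c F := by
  induction τ using Equiv.Perm.swap_induction_on with
  | one =>
    rw [pull_congr (f := prm 1) (g := ContinuousMap.id _) (fun _ => rfl), pull_id]
    simp
  | swap_mul f i j hij ih =>
    have a1 := Add_cpt_prm hF f
    have a2 : pull (prm (Equiv.swap i j * f)) F =
        pull (rot i j) (pull (mir i) (pull (prm f) F)) := by
      rw [pull_comp, pull_comp]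
      refine pull_congr (fun x => funext fun k => ?_) F
      simp only [prm_apply, ContinuousMap.comp_apply, Equiv.Perm.mul_apply]
      generalize f k = l
      by_cases h : l = i
      · simp [mir_apply, rot_apply, h, Function.update_of_ne hij]
      by_cases h' : l = j
      · simp [mir_apply, rot_apply, h', Function.update_of_ne hij.symm]
      · simp [mir_apply, rot_apply, Function.update_of_ne h, Function.update_of_ne h',
          Equiv.swap_apply_of_ne_of_ne h h']
    rw [a2, ← hc.cc ((Add_cpt_mir a1 i).cc_rot hij), hc.c_mir a1, ih]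
    simp [Equiv.Perm.sign_swap hij]

/-- additivity over disjoint slabs -/
lemma Add_slab (hc : IsCls c) {ι : Type} (T : ι → ℝ) (ε : ℝ)
    (F : ι → St (E (m + 2))) (s : Finset ι) : ∀ W : St (E (m + 2)), Cpt W →
    (∀ i ∈ s, ∀ j ∈ s, i ≠ j → 2 * ε ≤ |T i - T j|) → (∀ i ∈ s, Cpt (F i)) →
    (∀ i ∈ s, Ag (F i) triv {x | ε ≤ |x 0 - T i|}) → (∀ i ∈ s, Ag W (F i) {x | |x 0 - T i| ≤ ε}) →
    Ag W triv {x | ∀ i ∈ s, ε ≤ |x 0 - T i|} → c W = ∑ i ∈ s, c (F i) := by
  classical
  induction s using Finset.induction_on_max_value T with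
  | empty => exact fun W _ _ _ _ _ h => by rw [h.eq fun x => by simp, hc.c_triv, Finset.sum_empty]
  | insert i s hi hm ih =>
    intro W hW hd h0 h1 h2 h3
    have mi := Finset.mem_insert_self i s
    have ms : ∀ {j}, j ∈ s → j ∈ insert i s := Finset.mem_insert_of_mem
    have hT : ∀ j ∈ s, T j + 2 * ε ≤ T i := fun j hj => by
      have := hd i mi j (ms hj) fun e => hi (e ▸ hj)
      rw [abs_of_nonneg (sub_nonneg.mpr (hm j hj))] at this
      linarith
    have lo : ∀ x : E (m + 2), x 0 ≤ T i - ε → ε ≤ |x 0 - T i| := fun x hx =>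
      le_trans (by linarith) (neg_le_abs _)
    have up : ∀ x : E (m + 2), T i - ε ≤ x 0 → ∀ j ∈ s, ε ≤ |x 0 - T j| := fun x hx j hj =>
      le_trans (by linarith [hT j hj]) (le_abs_self _)
    have c1 : IsClosed {x : E (m + 2) | x 0 ≤ T i - ε} := isClosed_le (by fun_prop) (by fun_prop)
    have c2 : IsClosed {x : E (m + 2) | T i - ε ≤ x 0} := isClosed_le (by fun_prop) (by fun_prop)
    obtain ⟨V, v1, v2⟩ := glue2 (F := W) (F' := triv) c1 c2 (fun x => le_total (x 0) _)
      (h3.mono fun x hx => Finset.forall_mem_insert _ _ _ |>.mpr ⟨lo x hx.1, up x hx.2⟩)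
    have hV : Cpt V := hW.imp fun R hR => ag_union c1 c2 (fun x _ => le_total (x 0) _)
      ((v1.mono inter_subset_right).trans (hR.mono inter_subset_left)) (v2.mono inter_subset_right)
    rw [Finset.sum_insert hi, add_comm, ← ih V hV (fun a ha b hb => hd a (ms ha) b (ms hb))
      (fun j hj => h0 j (ms hj)) (fun j hj => h1 j (ms hj))
      (fun j hj => (v1.mono fun x (hx : |x 0 - T j| ≤ ε) => show x 0 ≤ T i - ε by
        linarith [hT j hj, (abs_le.mp hx).2]).trans (h2 j (ms hj)))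
      (ag_union c1 c2 (fun x _ => le_total (x 0) _) ((v1.mono inter_subset_right).trans
        (h3.mono fun x hx => Finset.forall_mem_insert _ _ _ |>.mpr ⟨lo x hx.2, hx.1⟩))
        (v2.mono inter_subset_right))]
    refine hc.split (T i - ε) hV (h0 i mi) v1.symm ?_ v2 ((h1 i mi).mono lo)
    exact ag_union (S := {x | |x 0 - T i| ≤ ε}) (S' := {x | ε ≤ |x 0 - T i|})
      (isClosed_le (by fun_prop) (by fun_prop)) (isClosed_le (by fun_prop) (by fun_prop))
      (fun x _ => le_total |x 0 - T i| _) ((h2 i mi).mono inter_subset_right)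
      ((h3.mono fun x hx => Finset.forall_mem_insert _ _ _ |>.mpr ⟨hx.2, up x hx.1⟩).trans
        ((h1 i mi).symm.mono inter_subset_right))

/-- centres with distinct first coordinates -/
lemma Add_centre {ι : Type} (O : ι → Set (E (m + 2))) (s : Finset ι) (ho : ∀ i ∈ s, IsOpen (O i))
    (hn : ∀ i ∈ s, (O i).Nonempty) :
    ∃ z : ι → E (m + 2), (∀ i ∈ s, z i ∈ O i) ∧ ∀ i ∈ s, ∀ j ∈ s, i ≠ j → z i 0 ≠ z j 0 := by
  classical
  induction s using Finset.induction_on with
  | empty => exact ⟨fun _ => 0, by simp, by simp⟩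
  | insert i s hi ih =>
    obtain ⟨z, h1, h2⟩ := ih (fun j hj => ho j (Finset.mem_insert_of_mem hj))
      fun j hj => hn j (Finset.mem_insert_of_mem hj)
    obtain ⟨w, hw⟩ := hn i (Finset.mem_insert_self i s)
    have hop : IsOpen {t : ℝ | Function.update w 0 t ∈ O i} :=
      (ho i (Finset.mem_insert_self i s)).preimage (by fun_prop)
    obtain ⟨t, t1, t2⟩ := (infinite_of_mem_nhds (w 0) (hop.mem_nhds (by simpa using hw))
      ).exists_notMem_finset (s.image fun j => z j 0)
    have e : ∀ j ∈ s, Function.update z i (Function.update w 0 t) j = z j := fun j hj =>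
      Function.update_of_ne (fun e : j = i => hi (e ▸ hj)) _ _
    have e' : ∀ j ∈ s, z j 0 ≠ t := fun j hj h => t2 (Finset.mem_image.mpr ⟨j, hj, h⟩)
    refine ⟨Function.update z i (Function.update w 0 t), fun j hj => ?_, fun a ha b hb hab => ?_⟩
    · rcases Finset.mem_insert.mp hj with rfl | hj
      · simpa using t1
      · exact e j hj ▸ h1 j hj
    · rcases Finset.mem_insert.mp ha with ha | ha <;> rcases Finset.mem_insert.mp hb with hb | hb
      · exact absurd (ha.trans hb.symm) hab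
      · simpa [ha, e b hb] using (e' b hb).symm
      · simpa [hb, e a ha] using e' a ha
      · rw [e a ha, e b hb]
        exact h2 a ha b hb hab

lemma Add_sum (hc : IsCls c) {ι : Type} (s : Finset ι) (O : ι → Set (E (m + 2)))
    (F : ι → St (E (m + 2))) (W : St (E (m + 2))) (ho : ∀ i ∈ s, IsOpen (O i))
    (hn : ∀ i ∈ s, (O i).Nonempty)
    (hv : ∀ i ∈ s, Convex ℝ (O i)) (hb : ∀ i ∈ s, Bornology.IsBounded (O i))
    (hd : ∀ i ∈ s, ∀ j ∈ s, i ≠ j → Disjoint (O i) (O j)) (h1 : ∀ i ∈ s, Ag (F i) triv (O i)ᶜ)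
    (h2 : ∀ i ∈ s, Ag W (F i) (closure (O i))) (h3 : Ag W triv {x | ∀ i ∈ s, x ∉ O i}) :
    c W = ∑ i ∈ s, c (F i) := by
  obtain ⟨z, hz, hz'⟩ := Add_centre O s ho hn
  obtain ⟨ε, hε, hε'⟩ : ∃ ε : ℝ, 0 < ε ∧ ∀ i ∈ s, ∀ j ∈ s, i ≠ j → 2 * ε ≤ |z i 0 - z j 0| := by
    have : ∀ᶠ ε in 𝓝[>] (0 : ℝ), ∀ i ∈ s, ∀ j ∈ s, i ≠ j → 2 * ε ≤ |z i 0 - z j 0| := by
      refine (eventually_all_finset s).mpr fun i hi => (eventually_all_finset s).mpr fun j hj => ?_
      by_cases hij : i = j
      · exact .of_forall fun _ h => absurd hij h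
      have := half_pos (abs_pos.mpr (sub_ne_zero.mpr (hz' i hi j hj hij)))
      filter_upwards [mem_nhdsWithin_of_mem_nhds (Iic_mem_nhds this)] with ε (h : ε ≤ _) _
      linarith
    exact (this.and self_mem_nhdsWithin).exists.imp fun _ h => ⟨h.2, h.1⟩
  obtain ⟨R, hR⟩ := ((Bornology.isBounded_biUnion_finset s).mpr hb).exists_norm_le
  replace hR : ∀ i ∈ s, ∀ x ∈ O i, ‖x‖ ≤ R := fun i hi x hx => hR x (mem_biUnion hi hx)
  have hout : ∀ i ∈ s, ∀ x : E (m + 2), R + 1 ≤ ‖x‖ → x ∉ O i := fun i hi x hx h => by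
    linarith [hR i hi x h]
  let L : ℝ := 2 * |R| / ε
  have hL : 0 ≤ L := by positivity
  let G : ι → C(E (m + 2) × Tm, E (m + 2)) := fun i =>
    ⟨fun p => z i + (1 + p.2.1 * L) • (p.1 - z i), by fun_prop⟩
  have hG : ∀ i ∈ s, ∀ p : E (m + 2) × Tm, p.1 ∉ O i → G i p ∉ O i := fun i hi p hp h => by
    have a : 0 < 1 + p.2.1 * L := by have := p.2.2.1; positivity
    have b := (hv i hi).add_smul_sub_mem (hz i hi) h (t := (1 + p.2.1 * L)⁻¹)
      ⟨by positivity, inv_le_one_of_one_le₀ (by have := mul_nonneg p.2.2.1 hL; linarith)⟩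
    refine hp ?_
    simpa [G, smul_smul, inv_mul_cancel₀ a.ne'] using b
  have hGt : ∀ i ∈ s, ∀ S : Set (E (m + 2) × Tm), (∀ p ∈ S, p.1 ∉ O i) →
      Ag (pull (G i) (F i)) triv S := fun i hi S hS =>
    (h1 i hi).pull_triv _ fun p hp => hG i hi p (hS p hp)
  have hG0 : ∀ i, pull (sl 0) (pull (G i) (F i)) = F i := fun i => by
    rw [pull_comp, pull_congr (g := ContinuousMap.id _) (fun x => by simp [G]), pull_id]
  have hcl : ∀ i ∈ s, ∀ j ∈ s, i ≠ j → ∀ x ∈ closure (O j), x ∉ O i := fun i hi j hj hij x hx h =>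
    disjoint_left.mp ((hd i hi j hj hij).closure_right (ho i hi)) h hx
  let K : Option s → Set (E (m + 2)) := fun o =>
    o.elim {x | ∀ i ∈ s, x ∉ O i} fun i => closure (O i)
  have hK : ∀ o, IsClosed (K o) := fun o => by
    cases o with
    | none =>
      have : K none = ⋂ i ∈ s, (O i)ᶜ := by ext x; simp [K]
      rw [this]
      exact isClosed_biInter fun i hi => (ho i hi).isClosed_compl
    | some i => exact isClosed_closure
  have hU : ∀ x, ∃ o, x ∈ K o := fun x => by
    by_cases h : ∀ i ∈ s, x ∉ O i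
    · exact ⟨none, h⟩
    · push Not at h
      obtain ⟨i, hi, h⟩ := h
      exact ⟨some ⟨i, hi⟩, subset_closure h⟩
  obtain ⟨V, hV, hV'⟩ := exists_ht (F := W) (S := {x | R + 1 ≤ ‖x‖})
    (T := fun o => {p | p.1 ∈ K o}) (locallyFinite_of_finite _)
    (fun o => (hK o).preimage continuous_fst) (fun p => hU p.1)
    (fun o => o.elim triv fun i => pull (G i) (F i)) (fun o o' => by
      rcases o with _ | i <;> rcases o' with _ | j
      · exact .refl _ _
      · exact (hGt j j.2 _ fun p hp => hp.1 j j.2).symm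
      · exact hGt i i.2 _ fun p hp => hp.2 i i.2
      · by_cases hij : i = j
        · exact hij ▸ .refl _ _
        have hij' : i.1 ≠ j.1 := fun h => hij (Subtype.ext h)
        exact (hGt i i.2 _ fun p hp => hcl i i.2 j j.2 hij' _ hp.2).trans
          (hGt j j.2 _ fun p hp => hcl j j.2 i i.2 hij'.symm _ hp.1).symm) (fun o => by
      rcases o with _ | i
      · exact pull_triv (sl (0 : Tm) : C(E (m + 2), _)) ▸ h3
      · exact (hG0 i).symm ▸ h2 i i.2) (fun o => by
      rcases o with _ | i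
      · exact .refl _ _
      · exact hGt i i.2 _ fun p hp => hout i i.2 _ hp.1)
  let F' : ι → St (E (m + 2)) := fun i => pull (sl 1) (pull (G i) (F i))
  have f1 : ∀ i ∈ s, Cc (F i) (F' i) := fun i hi =>
    ⟨R + 1, _, hG0 i, rfl, hGt i hi _ fun p hp => hout i hi _ hp⟩
  have f2 : ∀ i ∈ s, Ag (F' i) triv (O i)ᶜ := fun i hi =>
    (hGt i hi {p | p.1 ∉ O i} fun _ hp => hp).pull_triv _ fun _ hx => hx
  have f3 : ∀ i ∈ s, Ag (F' i) triv {x | ε ≤ |x 0 - z i 0|} := fun i hi => by
    simp only [F', pull_comp]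
    refine (h1 i hi).pull_triv _ fun x (hx : ε ≤ |x 0 - z i 0|) h => ?_
    have a1 := abs_le.mp ((norm_le_pi_norm _ 0).trans (hR i hi _ h))
    have a2 := abs_le.mp ((norm_le_pi_norm _ 0).trans (hR i hi _ (hz i hi)))
    have a3 : (1 + L) * ε ≤ |(1 + L) * (x 0 - z i 0)| := by
      rw [abs_mul, abs_of_nonneg (by linarith : 0 ≤ 1 + L)]
      gcongr
    have a4 : L * ε = 2 * |R| := div_mul_cancel₀ _ hε.ne'
    have a5 : ((G i).comp (sl 1)) x 0 = z i 0 + (1 + L) * (x 0 - z i 0) := by simp [G]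
    rw [a5] at a1
    have a6 : |(1 + L) * (x 0 - z i 0)| ≤ 2 * R := abs_le.mpr ⟨by linarith, by linarith⟩
    nlinarith [le_abs_self R]
  have cov : ∀ (Q : St (E (m + 2))) (S : Set (E (m + 2))), Ag Q triv (S ∩ K none) →
      (∀ j ∈ s, Ag (F' j) Q (S ∩ closure (O j))) → Ag V Q S := fun Q S a b =>
    ag_of_cover (locallyFinite_of_finite K) hK (fun x _ => hU x) fun o => by
      rcases o with _ | j
      · have : Ag V (pull (sl 1) triv) (K none) := hV' none
        rw [pull_triv] at this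
        exact (this.mono inter_subset_right).trans a.symm
      · exact ((hV' (some j)).mono inter_subset_right).trans (b j j.2)
  rw [hc.cc ⟨_, hV⟩, Finset.sum_congr rfl fun i hi => hc.cc (f1 i hi)]
  refine Add_slab hc (fun i => z i 0) ε F' s V ⟨_, hV.right⟩ hε' (fun i hi => (f1 i hi).right) f3
    (fun i hi => cov _ _ ((f2 i hi).mono fun x hx => hx.2 i hi) fun j hj => ?_)
    (cov _ _ (.refl _ _) fun j hj => (f3 j hj).mono fun x hx => hx.1 j hj)
  by_cases hij : i = j
  · exact hij ▸ .refl _ _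
  refine ((f3 j hj).mono fun x hx => ?_).trans
    ((f2 i hi).symm.mono fun x hx => hcl i hi j hj hij x hx.2)
  have a1 : |x 0 - z i 0| ≤ ε := hx.1
  have a2 := abs_sub_le (z i 0) (x 0) (z j 0)
  rw [abs_sub_comm (z i 0) (x 0)] at a2
  change ε ≤ |x 0 - z j 0|
  linarith [hε' i hi j hj hij]

/-- Hints. Discard the empty `O i` (there `F i = triv`). Choose `z i ∈ O i` with distinct
coordinates `z i 0`. Shrink: `ht_of_glue` or `exists_ht` on the cover by the `closure (O i) × Tm` and
`(⋃ O i)ᶜ × Tm` with the pull-backs of `F i` along `(x, s) ↦ z i + (1 + s L) • (x - z i)`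
(convexity keeps the complement of `O i` in the complement of `O i`). For large `L` the new supports
lie in disjoint slabs `|x 0 - z i 0| < ε`; induct on the slabs ordered by `z i 0` with `split`. -/
theorem IsCls.c_sum (hc : IsCls c) {ι : Type} (s : Finset ι) (O : ι → Set (E (m + 2)))
    (F : ι → St (E (m + 2))) (W : St (E (m + 2))) (ho : ∀ i ∈ s, IsOpen (O i))
    (hv : ∀ i ∈ s, Convex ℝ (O i)) (hb : ∀ i ∈ s, Bornology.IsBounded (O i))
    (hd : ∀ i ∈ s, ∀ j ∈ s, i ≠ j → Disjoint (O i) (O j)) (h1 : ∀ i ∈ s, Ag (F i) triv (O i)ᶜ)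
    (h2 : ∀ i ∈ s, Ag W (F i) (closure (O i))) (h3 : Ag W triv {x | ∀ i ∈ s, x ∉ O i}) :
    c W = ∑ i ∈ s, c (F i) := by
  classical
  have ms : ∀ {i}, i ∈ s.filter (fun i => (O i).Nonempty) → i ∈ s := Finset.mem_of_mem_filter _
  rw [Add_sum hc (s.filter fun i => (O i).Nonempty) O F W (fun i hi => ho i (ms hi))
    (fun i hi => (Finset.mem_filter.mp hi).2) (fun i hi => hv i (ms hi)) (fun i hi => hb i (ms hi))
    (fun i hi j hj => hd i (ms hi) j (ms hj)) (fun i hi => h1 i (ms hi)) (fun i hi => h2 i (ms hi))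
    (h3.mono fun x hx i hi h => hx i (Finset.mem_filter.mpr ⟨hi, x, h⟩) h)]
  refine Finset.sum_filter_of_ne fun i hi h => ?_
  by_contra h'
  exact h (by rw [(h1 i hi).eq fun x hx => h' ⟨x, hx⟩, hc.c_triv])

end

end Pool.Agent.P.MP_7bb7e1_gt.H
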