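import Pool.Agent.P.MP_7bb7e1_gt.H.Kap

/-! Families of structures indexed by the singular simplices of the nerve. -/

namespace Pool.Agent.P.MP_7bb7e1_gt.H

open Pool.Agent.P.MP_7bb7e1_gt.D Filter Topology Set

noncomputable section

variable {p q N : ℕ}

/-- cells -/
abbrev Ce (p q : ℕ) : Type := C(Sx q, Nv p)

/-- horizontal faces of a prism -/
def fh (i : Fin (p + 2)) : C(Pz p q, Pz (p + 1) q) := (incl i).prodMap (ContinuousMap.id _)

/-- vertical faces of a prism -/
def fv (j : Fin (q + 2)) : C(Pz p q, Pz p (q + 1)) := (ContinuousMap.id _).prodMap (incl j)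

@[simp] lemma fh_apply (i : Fin (p + 2)) (z : Pz p q) : fh i z = (incl i z.1, z.2) := rfl

@[simp] lemma fv_apply (j : Fin (q + 2)) (z : Pz p q) : fv j z = (z.1, incl j z.2) := rfl

/-- compatibility with the faces up to the dimension `N` -/
def Cmp (N : ℕ) (V : ∀ p q, Ce p q → St (Pz p q)) : Prop :=
  (∀ p q, p + 1 + q ≤ N → ∀ i σ, V p q ((face i).comp σ) = pull (fh i) (V (p + 1) q σ)) ∧
    ∀ p q, p + (q + 1) ≤ N → ∀ j σ, V p q (σ.comp (incl j)) = pull (fv j) (V p (q + 1) σ)

/-- the same for homotopies -/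
def CmpT (N : ℕ) (W : ∀ p q, Ce p q → St (Pz p q × Tm)) : Prop :=
  (∀ p q, p + 1 + q ≤ N → ∀ i σ, W p q ((face i).comp σ) = pull (xt (fh i)) (W (p + 1) q σ)) ∧
    ∀ p q, p + (q + 1) ≤ N → ∀ j σ, W p q (σ.comp (incl j)) = pull (xt (fv j)) (W p (q + 1) σ)

lemma CmpT.sl {W : ∀ p q, Ce p q → St (Pz p q × Tm)} (h : CmpT N W) (s : Tm) :
    Cmp N fun p q σ => pull (sl s) (W p q σ) :=
  ⟨fun p q hN i σ => by simp only [h.1 p q hN, pull_sl_xt],
    fun p q hN j σ => by simp only [h.2 p q hN, pull_sl_xt]⟩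

/-- a retraction onto a face -/
lemma exists_dg (i : Fin (p + 2)) : ∃ d : C(Sx (p + 1), Sx p), (∀ x, d (incl i x) = x) ∧
    ∀ x, x i = 0 → incl i (d x) = x := by
  obtain ⟨r, hr⟩ := (Fin.succAbove_right_injective (p := i)).hasLeftInverse
  have h : ∀ x : Sx p, stdSimplex.map r (incl i x) = x := fun x => by
    change stdSimplex.map r (stdSimplex.map i.succAbove x) = x
    rw [stdSimplex.map_comp_apply, show r ∘ i.succAbove = id from funext hr, stdSimplex.map_id_apply]
  refine ⟨⟨stdSimplex.map r, stdSimplex.continuous_map _⟩, h, fun x hx => ?_⟩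
  have : ∃ y, incl i y = x := by
    refine ⟨⟨fun j => x (i.succAbove j), fun j => stdSimplex.zero_le x _, ?_⟩, ?_⟩
    · have := stdSimplex.sum_eq_one x
      rwa [Fin.sum_univ_succAbove _ i, hx, zero_add] at this
    · ext k
      refine Fin.succAboveCases i ?_ (fun j => ?_) k
      · rw [incl_self, hx]
      · rw [incl_above]; rfl
  obtain ⟨y, rfl⟩ := this
  exact congrArg (incl i) (h y)

lemma sx_zero_ne (x : Sx 0) (i : Fin 1) : x i ≠ 0 := by
  rw [stdSimplex.eq_one_of_unique (X := Fin 1) x i]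
  exact one_ne_zero

lemma Cmp.bd {V : ∀ p q, Ce p q → St (Pz p q)} (h : Cmp N V) {k : ℕ}
    (h0 : ∀ p q σ, p + q < k → V p q σ = triv) (h1 : p + q ≤ k) (h2 : p + q ≤ N) (σ : Ce p q) :
    Ag (V p q σ) triv (Bd p q) := by
  refine ag_of_cover (T := fun k => {z | co k z = 0}) (locallyFinite_of_finite _)
    (fun k => isClosed_eq (continuous_co k) continuous_const) (fun z hz => hz) fun k => ?_
  rcases k with i | j
  · rcases p with _ | p
    · exact ag_empty fun z hz => sx_zero_ne z.1 i hz.2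
    · obtain ⟨d, -, hd⟩ := exists_dg i
      refine (ag_pull_self (f := (fh i).comp (d.prodMap (ContinuousMap.id _)))
        (fun z hz => Prod.ext (hd z.1 hz.2) rfl) _).symm.trans ?_
      rw [← pull_comp, ← h.1 p q h2, h0 p q _ (by omega), pull_triv]
      exact .refl _ _
  · rcases q with _ | q
    · exact ag_empty fun z hz => sx_zero_ne z.2 j hz.2
    · obtain ⟨d, -, hd⟩ := exists_dg j
      refine (ag_pull_self (f := (fv j).comp ((ContinuousMap.id _).prodMap d))
        (fun z hz => Prod.ext rfl (hd z.2 hz.2)) _).symm.trans ?_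
      rw [← pull_comp, ← h.2 p q h2, h0 p q _ (by omega), pull_triv]
      exact .refl _ _

end

end Pool.Agent.P.MP_7bb7e1_gt.H
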