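import Pool.Agent.P.MP_7bb7e1_gt.H.RealB

/-! The chain of the grid is a cycle. -/

namespace Pool.Agent.P.MP_7bb7e1_gt.H

open Pool.Agent.P.MP_7bb7e1_gt.D Filter Topology Set

noncomputable section

/-! Hints. For vertices `w 0 ≤ ... ≤ w n ≤ w 0 + 1` the front and back faces give a chain map
(`dh_of`, `dv_of`, `GD.face_cell`, `GD.cell_incl`): for instance for `n = 3`
`dh [w0 w1 w2 w3 | w3] + dv [w0 w1 w2 | w2 w3]` is the alternating sum over the faces `(x0, x1, x2)` of
`[x0 x1 x2 | x2]`. Write cells with explicit vectors (`![..]`, `funext`, `fin_cases`). The signed sum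
over `τ` of the faces is `∑ i, ± (S i (v + e i) - S i v)` with `S i v` the signed sum over the two
triangles of a square (one edge for `n = 2`); enumerate the permutations (`Equiv.Perm.decomposeFin`,
`Finset.univ_perm_fin_succ`, or `decide` on an explicit list). For `n = 3`, `S i` has finite support (far
cells are `tc`); for `n = 2`, subtract the constant `of (tc ..)` first. Then
`finsum_sub_distrib`, `finsum_comp_equiv`, `AddMonoidHom.map_finsum`, `GD.wv_finite`. -/

/-- skip the place `i` -/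
def cycSkip (i k : ℕ) : ℕ := if k < i then k else k + 1

lemma cyc_succAbove {r : ℕ} (i : Fin (r + 1)) (k : Fin r) :
    (i.succAbove k).1 = cycSkip i k := by
  unfold cycSkip
  rw [Fin.succAbove]
  split_ifs with h1 h2 h2
  · rfl
  · exact absurd h1 h2
  · exact absurd h2 h1
  · rfl

/-- front and back face of a sequence of vertices -/
def cycC {n : ℕ} (ψ : Zn n → E n → Om) (p q : ℕ) (x : ℕ → Zn n) : Ch p q :=
  .of (cell ψ (fun i : Fin (p + 1) => x i) fun j : Fin (q + 1) => x (p + j))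

lemma cycC_congr {n : ℕ} (ψ : Zn n → E n → Om) {p q : ℕ} {x y : ℕ → Zn n}
    (h : ∀ k ≤ p + q, x k = y k) : cycC ψ p q x = cycC ψ p q y := by
  have e1 : (fun i : Fin (p + 1) => x i) = fun i : Fin (p + 1) => y i :=
    funext fun i => h _ (by omega)
  have e2 : (fun j : Fin (q + 1) => x (p + j)) = fun j : Fin (q + 1) => y (p + j) :=
    funext fun j => h _ (by omega)
  rw [cycC, cycC, e1, e2]

lemma cyc_chain {n : ℕ} {F : St (E n)} {ψ : Zn n → E n → Om} (h : GD F ψ) (p q : ℕ)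
    {x : ℕ → Zn n} (hx : Monotone x) (hx' : ∀ k l, x k ≤ x l + 1) :
    dh (cycC ψ (p + 1) q x) + (-1 : ℤ) ^ p • dv (cycC ψ p (q + 1) x) =
      ∑ i ∈ Finset.range (p + 1 + (q + 1)), (-1 : ℤ) ^ i • cycC ψ p q fun k => x (cycSkip i k) := by
  have n1 : Nr (fun i : Fin (p + 2) => x i) fun j : Fin (q + 1) => x (p + 1 + j) :=
    fun i j => ⟨hx (by omega), hx' _ _⟩
  have n2 : Nr (fun i : Fin (p + 1) => x i) fun j : Fin (q + 2) => x (p + j) :=
    fun i j => ⟨hx (by omega), hx' _ _⟩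
  rw [cycC, cycC, dh_of, dv_of, Finset.sum_range_add]
  simp only [h.face_cell n1, h.cell_incl n2, cyc_succAbove]
  rw [Fin.sum_univ_castSucc (n := p + 1), Fin.sum_univ_succ (n := q + 1),
    ← Fin.sum_univ_eq_sum_range
    (fun i => (-1 : ℤ) ^ i • cycC ψ p q fun k => x (cycSkip i k)), ← Fin.sum_univ_eq_sum_range
    (fun i => (-1 : ℤ) ^ (p + 1 + i) • cycC ψ p q fun k => x (cycSkip (p + 1 + i) k))]
  have a1 : ∀ i : Fin (p + 1), FreeAbelianGroup.of (cell ψ
      (fun k : Fin (p + 1) => x (cycSkip i k))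
      fun j : Fin (q + 1) => x (p + 1 + j)) = cycC ψ p q fun k => x (cycSkip i k) := fun i => by
    have e : (fun j : Fin (q + 1) => x (p + 1 + j)) =
        fun j : Fin (q + 1) => x (cycSkip i (p + j)) := funext fun j => by
      rw [cycSkip, if_neg (by omega)]
      congr 1
      omega
    rw [e]
    rfl
  have a2 : ∀ j : Fin (q + 1), FreeAbelianGroup.of (cell ψ (fun k : Fin (p + 1) => x k)
      fun l : Fin (q + 1) => x (p + cycSkip (j + 1) l)) =
      cycC ψ p q fun k => x (cycSkip (p + 1 + j) k) := fun j => by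
    have e1 : (fun k : Fin (p + 1) => x k) =
        fun k : Fin (p + 1) => x (cycSkip (p + 1 + j) k) := funext fun k => by
      rw [cycSkip, if_pos (by omega)]
    have e2 : (fun l : Fin (q + 1) => x (p + cycSkip (j + 1) l)) =
        fun l : Fin (q + 1) => x (cycSkip (p + 1 + j) (p + l)) := funext fun l => by
      congr 1
      simp only [cycSkip]
      split_ifs <;> omega
    rw [e1, e2]
    rfl
  have a3 : (fun k : Fin (p + 1) => x (cycSkip (p + 1) k)) =
      fun k : Fin (p + 1) => x k := funext fun k => by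
    rw [cycSkip, if_pos k.2]
  have a4 : (fun l : Fin (q + 1) => x (p + cycSkip 0 l)) =
      fun l : Fin (q + 1) => x (p + 1 + l) := funext fun l => by
    congr 1
    simp only [cycSkip]
    split_ifs <;> omega
  simp only [a1, a2, a3, a4, Fin.val_castSucc, Fin.val_last, Fin.val_zero, Fin.val_succ, pow_zero,
    one_smul, smul_add, Finset.smul_sum, smul_smul, ← pow_add]
  have a5 : ∀ j : Fin (q + 1), p + (j.1 + 1) = p + 1 + j := fun j => by omega
  simp only [a5]
  rw [pow_succ, mul_neg, mul_one, neg_smul]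
  abel

lemma cyc_mid {N p q : ℕ} (ψ : Zn (N + 1) → E (N + 1) → Om) (v : Zn (N + 1)) {i : ℕ} (hi : i < N) :
    ∑ τ : Equiv.Perm (Fin (N + 1)), (Equiv.Perm.sign τ : ℤ) •
      cycC ψ p q (fun k => vt v τ (cycSkip (i + 1) k)) = 0 := by
  have hab : (⟨i, by omega⟩ : Fin (N + 1)) ≠ ⟨i + 1, by omega⟩ := by simp
  refine Finset.sum_involution (fun τ _ => τ * Equiv.swap ⟨i, by omega⟩ ⟨i + 1, by omega⟩)
    (fun τ _ => ?_) (fun τ _ _ e => ?_) (fun _ _ => Finset.mem_univ _) fun τ _ => ?_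
  · have e : (fun k => vt v (τ * Equiv.swap ⟨i, by omega⟩ ⟨i + 1, by omega⟩) (cycSkip (i + 1) k)) =
        fun k => vt v τ (cycSkip (i + 1) k) := by
      funext k m
      simp only [vt]
      congr 1
      have : (τ * Equiv.swap (⟨i, by omega⟩ : Fin (N + 1)) ⟨i + 1, by omega⟩).symm m =
          Equiv.swap (⟨i, by omega⟩ : Fin (N + 1)) ⟨i + 1, by omega⟩ (τ.symm m) := rfl
      rw [this, Equiv.swap_apply_def]
      refine if_congr ?_ rfl rfl
      simp only [Fin.ext_iff, cycSkip]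
      split_ifs <;> simp only [] <;> omega
    rw [e, Equiv.Perm.sign_mul, Equiv.Perm.sign_swap hab]
    simp
  · exact hab (Equiv.swap_eq_one_iff.mp (mul_eq_left.mp e))
  · rw [mul_assoc, Equiv.swap_mul_self, mul_one]

lemma cyc_rot {N : ℕ} (v : Zn (N + 1)) (τ : Equiv.Perm (Fin (N + 1))) {k : ℕ} (hk : k ≤ N) :
    vt v (τ * finRotate (N + 1)) k = vt (v - Pi.single (τ 0) 1) τ (k + 1) := by
  funext m
  obtain ⟨s, rfl⟩ := (τ * finRotate (N + 1)).surjective m
  simp only [vt, Equiv.symm_apply_apply]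
  simp only [Equiv.Perm.mul_apply, Equiv.symm_apply_apply, Pi.sub_apply, Pi.single_apply,
    τ.injective.eq_iff, Fin.ext_iff, coe_finRotate, Fin.val_zero, Fin.val_last]
  have := s.2
  by_cases hs : s.1 = N
  · simp only [hs, if_true]
    split_ifs <;> omega
  · simp only [hs, if_false, Nat.add_one_ne_zero]
    split_ifs <;> omega

lemma cyc_wv {N p q : ℕ} (hN : p + q = N) {F : St (E (N + 1))} {ψ : Zn (N + 1) → E (N + 1) → Om}
    (h : GD F ψ) (v : Zn (N + 1)) :
    dh (wv ψ (p + 1) q v) + (-1 : ℤ) ^ p • dv (wv ψ p (q + 1) v) =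
      ∑ τ : Equiv.Perm (Fin (N + 1)), (Equiv.Perm.sign τ : ℤ) •
        ((cycC ψ p q (fun k => vt v τ (k + 1)) - .of (tc p q)) -
          (cycC ψ p q (fun k => vt (v - Pi.single (τ 0) 1) τ (k + 1)) - .of (tc p q))) := by
  have e1 : dh (wv ψ (p + 1) q v) + (-1 : ℤ) ^ p • dv (wv ψ p (q + 1) v) =
      ∑ τ : Equiv.Perm (Fin (N + 1)), (Equiv.Perm.sign τ : ℤ) •
        (dh (cycC ψ (p + 1) q (vt v τ)) + (-1 : ℤ) ^ p • dv (cycC ψ p (q + 1) (vt v τ))) := by
    simp only [wv, map_sum, map_zsmul, smul_add, Finset.sum_add_distrib, Finset.smul_sum,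
      smul_comm ((-1 : ℤ) ^ p)]
    rfl
  have e2 : p + 1 + (q + 1) = N + 1 + 1 := by omega
  rw [e1]
  simp only [cyc_chain h p q (vt_mono v _) (vt_le v _), e2, Finset.smul_sum,
    smul_comm _ ((-1 : ℤ) ^ _)]
  rw [Finset.sum_comm, Finset.sum_range_succ, Finset.sum_range_succ', Finset.sum_eq_zero
    (s := Finset.range N) fun i hi => by
      rw [← Finset.smul_sum, cyc_mid ψ v (Finset.mem_range.mp hi), smul_zero], zero_add,
    ← Equiv.sum_comp (Equiv.mulRight (finRotate (N + 1))) (fun τ => (-1 : ℤ) ^ (N + 1) •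
      (Equiv.Perm.sign τ : ℤ) • cycC ψ p q fun k => vt v τ (cycSkip (N + 1) k)),
    ← Finset.sum_add_distrib]
  refine Finset.sum_congr rfl fun τ _ => ?_
  have e3 : cycC ψ p q (fun k => vt v (Equiv.mulRight (finRotate (N + 1)) τ) (cycSkip (N + 1) k)) =
      cycC ψ p q (fun k => vt (v - Pi.single (τ 0) 1) τ (k + 1)) := cycC_congr ψ fun k hk => by
    rw [cycSkip, if_pos (by omega)]
    exact cyc_rot v τ (by omega)
  have e4 : (fun k => vt v τ (cycSkip 0 k)) = fun k => vt v τ (k + 1) := rfl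
  have e5 : (-1 : ℤ) ^ (N + 1) * (Equiv.Perm.sign (Equiv.mulRight (finRotate (N + 1)) τ) : ℤ) =
      -(Equiv.Perm.sign τ : ℤ) := by
    rw [Equiv.coe_mulRight, Equiv.Perm.sign_mul, sign_finRotate]
    rcases neg_one_pow_eq_or ℤ N with e | e <;> simp [pow_succ, e]
  rw [e3, e4, smul_smul ((-1 : ℤ) ^ (N + 1)), e5, pow_zero, one_smul, sub_sub_sub_cancel_right,
    smul_sub, neg_smul, ← sub_eq_add_neg]

lemma cyc_fin {n p q : ℕ} {F : St (E n)} {ψ : Zn n → E n → Om} (h : GD F ψ)
    (τ : Equiv.Perm (Fin n)) : (Function.support fun v =>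
      cycC ψ p q (fun k => vt v τ (k + 1)) - .of (tc p q)).Finite := by
  obtain ⟨R, hR⟩ := h.far
  refine (finite_cst (R + 1)).subset fun v hv => ?_
  by_contra hc
  refine hv ?_
  have hc' : R + 1 ≤ ‖cst v‖ := not_lt.mp hc
  beta_reduce
  rw [cycC, cell_far fun i => hR _ ?_, sub_self]
  have := norm_vt v τ (i + 1)
  have := norm_sub_norm_le (cst v) (cst (vt v τ (i + 1)))
  rw [norm_sub_rev] at this
  linarith

theorem cyc_gen {N p q : ℕ} (h1 : 1 ≤ N) (hN : p + q = N) {F : St (E (N + 1))}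
    {ψ : Zn (N + 1) → E (N + 1) → Om} (h : GD F ψ) :
    dh (wch ψ (p + 1) q) + (-1 : ℤ) ^ p • dv (wch ψ p (q + 1)) = 0 := by
  have f1 := h.wv_finite (by omega) (p + 1) q
  have f2 := h.wv_finite (by omega) p (q + 1)
  have f3 : (Function.support fun v => dh (wv ψ (p + 1) q v)).Finite :=
    f1.subset fun v hv e => hv (by simp [e])
  have f4 : (Function.support fun v => dv (wv ψ p (q + 1) v)).Finite :=
    f2.subset fun v hv e => hv (by simp [e])
  have f5 : (Function.support fun v => (-1 : ℤ) ^ p • dv (wv ψ p (q + 1) v)).Finite :=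
    f2.subset fun v hv e => hv (by simp [e])
  have g1 := fun τ => cyc_fin (p := p) (q := q) h τ
  have g2 : ∀ τ : Equiv.Perm (Fin (N + 1)), (Function.support fun v =>
      cycC ψ p q (fun k => vt (v - Pi.single (τ 0) 1) τ (k + 1)) - .of (tc p q)).Finite := fun τ =>
    (g1 τ).preimage (f := fun v : Zn (N + 1) => v - Pi.single (τ 0) 1)
      fun _ _ _ _ e => sub_left_inj.mp e
  have g3 : ∀ τ : Equiv.Perm (Fin (N + 1)), (Function.support fun v =>
      (cycC ψ p q (fun k => vt v τ (k + 1)) - .of (tc p q)) -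
        (cycC ψ p q (fun k => vt (v - Pi.single (τ 0) 1) τ (k + 1)) - .of (tc p q))).Finite :=
    fun τ => ((g1 τ).union (g2 τ)).subset (Function.support_sub _ _)
  rw [wch, wch, dh.map_finsum f1, dv.map_finsum f2, smul_finsum' _ f4, ← finsum_add_distrib f3 f5,
    finsum_congr (cyc_wv hN h), finsum_sum_comm _ _ fun τ _ =>
      (g3 τ).subset fun v hv e => hv (by simp only [e, smul_zero])]
  refine Finset.sum_eq_zero fun τ _ => ?_
  rw [← smul_finsum' _ (g3 τ), finsum_sub_distrib (g1 τ) (g2 τ)]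
  have := finsum_comp_equiv (Equiv.subRight (Pi.single (τ 0) 1 : Zn (N + 1)))
    (f := fun v => cycC ψ p q (fun k => vt v τ (k + 1)) - .of (tc p q))
  simp only [Equiv.subRight_apply] at this
  rw [this, sub_self, smul_zero]

theorem cyc_two {F : St (E 2)} {ψ : Zn 2 → E 2 → Om} (h : GD F ψ) :
    dh (wch ψ 2 0) - dv (wch ψ 1 1) = 0 ∧ dh (wch ψ 1 1) + dv (wch ψ 0 2) = 0 := by
  have h1 := cyc_gen (N := 1) (p := 1) (q := 0) le_rfl rfl h
  have h2 := cyc_gen (N := 1) (p := 0) (q := 1) le_rfl rfl h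
  rw [pow_one, neg_smul, one_smul, ← sub_eq_add_neg] at h1
  rw [pow_zero, one_smul] at h2
  exact ⟨h1, h2⟩

theorem cyc_three {F : St (E 3)} {ψ : Zn 3 → E 3 → Om} (h : GD F ψ) :
    IsCycle (wch ψ 3 0, wch ψ 2 1, wch ψ 1 2, wch ψ 0 3) := by
  have h0 := cyc_gen (N := 2) (p := 2) (q := 0) one_le_two rfl h
  have h1 := cyc_gen (N := 2) (p := 1) (q := 1) one_le_two rfl h
  have h2 := cyc_gen (N := 2) (p := 0) (q := 2) one_le_two rfl h
  rw [neg_one_sq, one_smul] at h0
  rw [pow_one, neg_smul, one_smul, ← sub_eq_add_neg] at h1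
  rw [pow_zero, one_smul] at h2
  exact ⟨h0, h1, h2⟩

end

end Pool.Agent.P.MP_7bb7e1_gt.H
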