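import Mathlib

/-!
Germs along the zero section of smooth codimension one foliations of `ℝⁿ × ℝ` transverse to the
fibres, their Godbillon-Vey number and concordance.
-/

namespace Pool.Agent.P.MP_7bb7e1_gt.HF

open Filter Topology
open scoped ContDiff

noncomputable section

/-- near the zero section, `dt = ∑ a i dx i` is the tangent plane field of a smooth foliation
transverse to the fibres: it has local smooth first integrals `Y` with `∂Y/∂t ≠ 0` -/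
def IsFol {n : ℕ} (a : (Fin n → ℝ) × ℝ → Fin n → ℝ) : Prop :=
  ∀ x : Fin n → ℝ, ∃ Y : (Fin n → ℝ) × ℝ → ℝ, ∀ᶠ p in 𝓝 (x, (0 : ℝ)),
    ContDiffAt ℝ ∞ Y p ∧ fderiv ℝ Y p (0, 1) ≠ 0 ∧
      ∀ v : Fin n → ℝ, fderiv ℝ Y p (v, ∑ i, a p i * v i) = 0

/-- the foliation is horizontal over the complement of a ball -/
def IsCpt (a : (Fin 3 → ℝ) × ℝ → Fin 3 → ℝ) : Prop :=
  ∃ R : ℝ, ∀ x : Fin 3 → ℝ, R ≤ ‖x‖ → ∀ᶠ p in 𝓝 (x, (0 : ℝ)), a p = 0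

/-- the coefficients on the zero section of the form `η = ∑ (∂ a i / ∂ t) dx i`, which satisfies
`dω = η ∧ ω` for `ω = dt - ∑ a i dx i` -/
def eta (a : (Fin 3 → ℝ) × ℝ → Fin 3 → ℝ) (i : Fin 3) (x : Fin 3 → ℝ) : ℝ :=
  deriv (fun t => a (x, t) i) 0

/-- the Godbillon-Vey number, the integral of `η ∧ dη` over the zero section -/
def gv (a : (Fin 3 → ℝ) × ℝ → Fin 3 → ℝ) : ℝ :=
  ∫ x : Fin 3 → ℝ, ∑ i : Fin 3, eta a i x *
    (fderiv ℝ (eta a (i + 2)) x (Pi.single (i + 1) 1) -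
      fderiv ℝ (eta a (i + 1)) x (Pi.single (i + 2) 1))

/-- concordance: a foliation over `ℝ × ℝ³`, horizontal over the complement of a cylinder, that
restricts to `a₀` over `{0} × ℝ³` and to `a₁` over `{1} × ℝ³` -/
def Conc (a₀ a₁ : (Fin 3 → ℝ) × ℝ → Fin 3 → ℝ) : Prop :=
  ∃ A : (Fin 4 → ℝ) × ℝ → Fin 4 → ℝ, IsFol A ∧
    (∃ R : ℝ, ∀ z : Fin 4 → ℝ, R ≤ ‖fun i : Fin 3 => z i.succ‖ →
      ∀ᶠ p in 𝓝 (z, (0 : ℝ)), A p = 0) ∧
    ∀ x : Fin 3 → ℝ, ∀ᶠ p in 𝓝 (x, (0 : ℝ)), ∀ i : Fin 3,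
      A (Matrix.vecCons 0 p.1, p.2) i.succ = a₀ p i ∧ A (Matrix.vecCons 1 p.1, p.2) i.succ = a₁ p i

end

end Pool.Agent.P.MP_7bb7e1_gt.HF
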