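import Pool.Agent.P.MP_7bb7e1_gt.D.GV

/-! The value of the cocycle on a path. -/

namespace Pool.Agent.P.MP_7bb7e1_gt.H

open Pool.Agent.P.MP_7bb7e1_gt.D Filter Topology Set
open scoped ContDiff

noncomputable section

lemma edge_loc {I : Ch 2 1 →+ ℝ} (hI : IsGV I) (σ : C(Sx 1, Nv 2)) {S L M : ℝ → ℝ} {f g : Gc}
    {B : Set ℝ} (hB : IsOpen B) (hc : Convex ℝ B)
    (h : ∀ s ∈ B, ContDiffAt ℝ 1 S s ∧
      L s = Real.log (deriv (fn f) (S s)) ∧ M s = Real.log (deriv (fn g) (f • S s)) ∧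
        ∀ u : Sx 1, u 1 = s → σ u = sec (v2 (f, g)) (S s)) :
    (∀ s ∈ B, ContinuousAt (fun s => M s * deriv L s) s) ∧
      ∀ a b : Sx 1, a 1 ∈ B → b 1 ∈ B →
        I (A1 σ a b) = ∫ s in a 1..b 1, M s * deriv L s := by
  have hom : Continuous (om (fn f) (fn g)) :=
    continuous_iff_continuousAt.mpr fun x => continuousAt_om (locDiff_fn f x) (locDiff_fn g _)
  have hS : ∀ s ∈ B, HasDerivAt S (deriv S s) s := fun s hs =>
    ((h s hs).1.differentiableAt one_ne_zero).hasDerivAt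
  have hS' : ∀ s ∈ B, ContinuousAt (deriv S) s := fun s hs =>
    ((h s hs).1.derivWithin (m := 0) (by simp)).continuousAt
  have e : ∀ s ∈ B, M s * deriv L s = om (fn f) (fn g) (S s) * deriv S s := fun s hs => by
    have a1 : ContDiffAt ℝ 1 (deriv (fn f)) (S s) :=
      (fn_smooth f).contDiffAt.derivWithin (WithTop.coe_le_coe.mpr le_top)
    have a2 := (((a1.differentiableAt one_ne_zero).hasDerivAt.comp s (hS s hs)).log
      (fn_pos f _).ne').congr_of_eventuallyEq
      (f₁ := L) (eventually_of_mem (hB.mem_nhds hs) fun t ht => (h t ht).2.1)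
    rw [a2.deriv, (h s hs).2.2.1, om]
    simp only [Function.comp_apply, fn]
    ring
  refine ⟨fun s hs => ?_, fun a b ha hb => ?_⟩
  · exact ((hom.continuousAt.comp (hS s hs).continuousAt).mul (hS' s hs)).congr
      (eventually_of_mem (hB.mem_nhds hs) fun t ht => (e t ht).symm)
  · have hu : uIcc (a 1) (b 1) ⊆ B := hc.ordConnected.uIcc_subset ha hb
    have hm : ∀ t : Sx 1, D.aff ![a, b] t 1 ∈ B := fun t => by
      rw [D.aff_apply, Fin.sum_univ_two]
      refine hc ha hb (stdSimplex.zero_le t 0) (stdSimplex.zero_le t 1) ?_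
      exact (Fin.sum_univ_two t).symm.trans (stdSimplex.sum_eq_one t)
    rw [A1, hI.2 _ (fun t => S (D.aff ![a, b] t 1)) (fn f) (fn g) fun t => by
      rw [ContinuousMap.comp_apply, (h _ (hm t)).2.2.2 _ rfl]
      exact ⟨by simp [sec, v2], by simp [sec, v2, fn]⟩]
    rw [intervalIntegral.integral_congr fun s hs => e s (hu hs)]
    have := intervalIntegral.integral_comp_mul_deriv (fun s hs => hS s (hu hs))
      (fun s hs => (hS' s (hu hs)).continuousWithinAt) hom
    simp only [aff_vx]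
    exact this.symm

/-- Hints. For `u ∈ [0, 1]` let `P u` be the point of `Sx 1` with last coordinate `u`, and
`Q u = I (A1 σ (P 0) (P u)) - ∫ s in 0..u, M s * deriv L s`. By `hI.1` and `dv_A2`, `Q u' - Q u` is
`I (A1 σ (P u) (P u'))` minus the integral from `u` to `u'`, which vanishes for `u, u'` near a given point
(`hI.2` with the path `S`, `intervalIntegral.integral_comp_mul_deriv`). So `Q` is locally constant. -/
theorem edge {I : Ch 2 1 →+ ℝ} (hI : IsGV I) (σ : C(Sx 1, Nv 2)) (S L M : ℝ → ℝ)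
    (h : ∀ s₀ ∈ Icc (0 : ℝ) 1, ∃ f g : Gc, ∀ᶠ s in 𝓝 s₀, ContDiffAt ℝ 1 S s ∧
      L s = Real.log (deriv (fn f) (S s)) ∧ M s = Real.log (deriv (fn g) (f • S s)) ∧
        ∀ u : Sx 1, u 1 = s → σ u = sec (v2 (f, g)) (S s)) :
    I (.of σ) = ∫ s in (0 : ℝ)..1, M s * deriv L s := by
  have hb : ∀ s₀ ∈ Icc (0 : ℝ) 1, ∃ B ∈ 𝓝 s₀,
      (∀ s ∈ B, ContinuousAt (fun s => M s * deriv L s) s) ∧
      ∀ a b : Sx 1, a 1 ∈ B → b 1 ∈ B →
        I (A1 σ a b) = ∫ s in a 1..b 1, M s * deriv L s := fun s₀ hs => by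
    obtain ⟨f, g, h1⟩ := h s₀ hs
    obtain ⟨r, hr, h2⟩ := Metric.eventually_nhds_iff_ball.1 h1
    exact ⟨_, Metric.ball_mem_nhds _ hr, edge_loc hI σ Metric.isOpen_ball (convex_ball _ _) h2⟩
  have hm : ∀ a : Sx 1, a 1 ∈ Icc (0 : ℝ) 1 := fun a =>
    ⟨stdSimplex.zero_le a 1, stdSimplex.le_one a 1⟩
  have hi : ∀ a ∈ Icc (0 : ℝ) 1, ∀ b ∈ Icc (0 : ℝ) 1,
      IntervalIntegrable (fun s => M s * deriv L s) MeasureTheory.volume a b := fun a ha b hb' => by
    refine ContinuousOn.intervalIntegrable fun s hs => ?_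
    obtain ⟨B, h1, h2, -⟩ := hb s (uIcc_subset_Icc ha hb' hs)
    exact (h2 s (mem_of_mem_nhds h1)).continuousWithinAt
  have h3 : ∀ a b c : Sx 1, I (A1 σ a c) = I (A1 σ a b) + I (A1 σ b c) := fun a b c => by
    have := hI.1 (A2 σ a b c)
    rw [dv_A2, map_add, map_sub] at this
    linarith
  have : PreconnectedSpace (Sx 1) :=
    isPreconnected_iff_preconnectedSpace.mp (convex_stdSimplex ℝ _).isPreconnected
  have lc : IsLocallyConstant fun a : Sx 1 =>
      I (A1 σ (vx 0) a) - ∫ s in (0 : ℝ)..a 1, M s * deriv L s := by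
    refine (IsLocallyConstant.iff_eventually_eq _).2 fun a => ?_
    obtain ⟨B, h1, -, h2⟩ := hb _ (hm a)
    have hc : Continuous fun t : Sx 1 => t 1 := (continuous_apply 1).comp continuous_subtype_val
    filter_upwards [hc.continuousAt.eventually_mem h1] with b hb'
    rw [h3 _ a b, h2 a b (mem_of_mem_nhds h1) hb',
      ← intervalIntegral.integral_add_adjacent_intervals (hi 0 (by simp) _ (hm a))
        (hi _ (hm a) _ (hm b))]
    ring
  have e := lc.apply_eq_of_preconnectedSpace (vx 1) (vx 0)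
  have e0 := h3 (vx 0) (vx 0) (vx 0)
  have v0 : (vx 0 : Sx 1) 1 = 0 := by simp
  have v1 : (vx 1 : Sx 1) 1 = 1 := by simp
  simp only [v0, v1, intervalIntegral.integral_same] at e
  rw [of_eq_A1]
  linarith

end

end Pool.Agent.P.MP_7bb7e1_gt.H
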