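import Pool.Agent.P.MP_7bb7e1_gt.H.SmB

/-! A homotopy of structures gives a smooth concordance. -/

namespace Pool.Agent.P.MP_7bb7e1_gt.H

open Pool.Agent.P.MP_7bb7e1_gt.D Filter Topology Set
open scoped ContDiff

noncomputable section

/-- the projection that forgets the time -/
def endTl : C(E 4, E 3) := ⟨fun z i => z i.succ, by fun_prop⟩

/-- the pull-back of a slope field along the projection -/
def endUp (a : E 3 × ℝ → E 3) (p : E 4 × ℝ) : E 4 := Matrix.vecCons 0 (a (endTl p.1, p.2))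

lemma end_tend (z : E 4) :
    Tendsto (fun p : E 4 × ℝ => (endTl p.1, p.2)) (𝓝 (z, 0)) (𝓝 (endTl z, 0)) :=
  (by fun_prop : Continuous fun p : E 4 × ℝ => (endTl p.1, p.2)).tendsto _

lemma end_fi {a : E 3 × ℝ → E 3} {Y : E 3 × ℝ → ℝ} {z : E 4} (h : FI a Y (endTl z))
    {a' : E 4 × ℝ → E 4} (e : ∀ᶠ p in 𝓝 (z, (0 : ℝ)), a' p = endUp a p) :
    FI a' (fun p => Y (endTl p.1, p.2)) z := by
  let L : (E 4 × ℝ) →L[ℝ] E 3 × ℝ :=
    (ContinuousLinearMap.pi fun i : Fin 3 => ContinuousLinearMap.proj i.succ).prodMap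
      (ContinuousLinearMap.id ℝ ℝ)
  have d : ∀ p : E 4 × ℝ, ContDiffAt ℝ ∞ Y (endTl p.1, p.2) → ∀ w : E 4 × ℝ,
      fderiv ℝ (fun p : E 4 × ℝ => Y (endTl p.1, p.2)) p w =
        fderiv ℝ Y (endTl p.1, p.2) (endTl w.1, w.2) :=
    fun p hp w => A.dd_comp (φ := L) hp L.hasFDerivAt w
  refine ⟨((end_tend z).eventually h.1).mono fun p hp =>
    ⟨ContDiffAt.comp (f := L) p hp.1 L.contDiff.contDiffAt, ?_⟩, ?_⟩
  · rw [d p hp.1]
    exact hp.2
  · filter_upwards [(end_tend z).eventually h.1, (end_tend z).eventually h.2, e] with p b1 b2 b3 v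
    rw [d p b1.1, ← b2 (endTl v), b3, Fin.sum_univ_succ]
    simp only [endUp, Matrix.cons_val_zero, zero_mul, zero_add, Matrix.cons_val_succ]
    rfl

/-- Hints. Pull the homotopy back along `z ↦ (tail z, projIcc 0 1 (3 * z 0 - 1))`; let `a` be the
pull-back `Fin.cons 0 (a₀ (tail p.1, p.2))` for `p.1 0 < 1 / 2` and that of `a₁` otherwise;
`U = {z 0 < 1 / 3} ∪ {2 / 3 < z 0} ∪ {R < ‖tail z‖}`, `C = {z 0 ≤ 0} ∪ {1 ≤ z 0} ∪ {R + 1 ≤ ‖tail z‖}`;
`Ag.ch`, `St.pull_ch`, `fi_snd`, `oy_snd`, `triv_ch`, `smooth`, `isFol_iff`. -/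
theorem conc_of_cc {a₀ a₁ : E 3 × ℝ → E 3} {F₀ F₁ : St (E 3)}
    (h0 : ∀ x, ∃ Y, FI a₀ Y x ∧ F₀.ch x (oy Y)) (h1 : ∀ x, ∃ Y, FI a₁ Y x ∧ F₁.ch x (oy Y))
    (c0 : HF.IsCpt a₀) (c1 : HF.IsCpt a₁) (h : Cc F₀ F₁) : HF.Conc a₀ a₁ := by
  classical
  obtain ⟨R, W, w0, w1, w2⟩ := h
  obtain ⟨R₀, c0⟩ := c0
  obtain ⟨R₁, c1⟩ := c1
  let π : C(E 4, E 3 × Tm) :=
    ⟨fun z => (endTl z, projIcc 0 1 zero_le_one (3 * z 0 - 1)), by fun_prop⟩
  let a : E 4 × ℝ → E 4 := fun p => if p.1 0 < 1 / 2 then endUp a₀ p else endUp a₁ p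
  have c4 : Continuous fun p : E 4 × ℝ => p.1 0 := by fun_prop
  have e0 : ∀ z : E 4, z 0 < 1 / 2 → ∀ᶠ p in 𝓝 (z, (0 : ℝ)), a p = endUp a₀ p := fun z hz =>
    (c4.continuousAt.eventually (gt_mem_nhds hz)).mono fun p hp => if_pos hp
  have e1 : ∀ z : E 4, 1 / 2 < z 0 → ∀ᶠ p in 𝓝 (z, (0 : ℝ)), a p = endUp a₁ p := fun z hz =>
    (c4.continuousAt.eventually (lt_mem_nhds hz)).mono fun p hp => if_neg (not_lt.mpr hp.le)
  set M := max R (max R₀ R₁) with hM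
  have e2 : ∀ z : E 4, M ≤ ‖endTl z‖ → ∀ᶠ p in 𝓝 (z, (0 : ℝ)), a p = 0 := fun z hz => by
    filter_upwards [(end_tend z).eventually (c0 _ (le_of_max_le_left (le_of_max_le_right hz))),
      (end_tend z).eventually (c1 _ (le_of_max_le_right (le_of_max_le_right hz)))] with p b1 b2
    simp only [a, endUp, b1, b2, ite_self, Matrix.cons_zero_zero]
  have o0' : IsOpen {z : E 4 | z 0 < 1 / 3} := isOpen_lt (by fun_prop) continuous_const
  have o1 : IsOpen {z : E 4 | 2 / 3 < z 0} := isOpen_lt continuous_const (by fun_prop)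
  have o2 : IsOpen {z : E 4 | M < ‖endTl z‖} := isOpen_lt continuous_const (by fun_prop)
  obtain ⟨A, hA, hC⟩ := smooth (pull π W) a (U := {z | z 0 < 1 / 3} ∪ {z | 2 / 3 < z 0} ∪
      {z | M < ‖endTl z‖}) (C := {z | z 0 ≤ 0} ∪ {z | 1 ≤ z 0} ∪ {z | M + 1 ≤ ‖endTl z‖})
    ((o0'.union o1).union o2) (((isClosed_le (by fun_prop) continuous_const).union
      (isClosed_le continuous_const (by fun_prop))).union
        (isClosed_le continuous_const (by fun_prop)))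
    (by
      rintro z ((hz | hz) | hz)
      · exact .inl (.inl (lt_of_le_of_lt hz (show (0 : ℝ) < 1 / 3 by norm_num)))
      · exact .inl (.inr (lt_of_lt_of_le (show (2 / 3 : ℝ) < 1 by norm_num) hz))
      · exact .inr (lt_of_lt_of_le (lt_add_one M) hz))
    (by
      rintro z ((hz | hz) | hz)
      · obtain ⟨Y, y1, y2⟩ := h0 (endTl z)
        refine ⟨_, end_fi y1 (e0 z (lt_trans hz (by norm_num))), Ag.ch ?_ (o0'.mem_nhds hz)
          (St.pull_ch endTl y2)⟩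
        rw [← w0, pull_comp]
        exact ag_pull_congr (f := π) (g := (sl 0).comp endTl) (fun (y : E 4) (hy : y 0 < 1 / 3) =>
          Prod.ext rfl (projIcc_of_le_left zero_le_one (show 3 * y 0 - 1 ≤ 0 by linarith))) W
      · obtain ⟨Y, y1, y2⟩ := h1 (endTl z)
        refine ⟨_, end_fi y1 (e1 z (lt_trans (by norm_num) hz)), Ag.ch ?_ (o1.mem_nhds hz)
          (St.pull_ch endTl y2)⟩
        rw [← w1, pull_comp]
        exact ag_pull_congr (f := π) (g := (sl 1).comp endTl) (fun (y : E 4) (hy : 2 / 3 < y 0) =>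
          Prod.ext rfl (projIcc_of_right_le zero_le_one (show 1 ≤ 3 * y 0 - 1 by linarith))) W
      · refine ⟨_, fi_snd (e2 z (le_of_lt hz)), ?_⟩
        rw [oy_snd]
        exact Ag.ch (w2.pull_triv π fun y (hy : M < ‖endTl y‖) => le_of_max_le_left hy.le)
          (o2.mem_nhds hz) (triv_ch z o0))
  refine ⟨A, isFol_iff.mpr hA, ⟨M + 1, fun z hz => ?_⟩, fun x => ?_⟩
  · filter_upwards [hC z (.inr hz), e2 z ((le_add_of_nonneg_right zero_le_one).trans hz)]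
      with p b1 b2
    rw [b1, b2]
  · have t : ∀ s : ℝ, Tendsto (fun p : E 3 × ℝ => ((Matrix.vecCons s p.1 : E 4), p.2)) (𝓝 (x, 0))
        (𝓝 (Matrix.vecCons s x, 0)) := fun s =>
      (by fun_prop : Continuous fun p : E 3 × ℝ => ((Matrix.vecCons s p.1 : E 4), p.2)).tendsto _
    filter_upwards [(t 0).eventually ((hC _ (.inl (.inl (le_refl (0 : ℝ))))).and (e0 _ (by norm_num))),
      (t 1).eventually ((hC _ (.inl (.inr (le_refl (1 : ℝ))))).and (e1 _ (by norm_num)))] with p b1 b2 i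
    rw [b1.1, b1.2, b2.1, b2.2]
    exact ⟨rfl, rfl⟩

end

end Pool.Agent.P.MP_7bb7e1_gt.H
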