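import Pool.Agent.P.MP_7bb7e1_gt.H.Defs

/-! Directional derivatives and the local form of `η`. -/

namespace Pool.Agent.P.MP_7bb7e1_gt.H.A

open Pool.Agent.P.MP_7bb7e1_gt.HF Filter Topology
open scoped ContDiff

noncomputable section

section dd

variable {E : Type} [NormedAddCommGroup E] [NormedSpace ℝ E]

/-- the derivative along a fixed vector -/
def dd (w : E) (u : E → ℝ) (z : E) : ℝ := fderiv ℝ u z w

lemma dd_smAt {u : E → ℝ} {z : E} (h : ContDiffAt ℝ ∞ u z) (w : E) :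
    ContDiffAt ℝ ∞ (dd w u) z :=
  (h.fderiv_right (m := ∞) le_rfl).clm_apply contDiffAt_const

lemma dd_sm {u : E → ℝ} (h : ContDiff ℝ ∞ u) (w : E) : ContDiff ℝ ∞ (dd w u) :=
  contDiff_iff_contDiffAt.mpr fun _ => dd_smAt h.contDiffAt w

lemma dd_congr {u u' : E → ℝ} {z : E} (h : u =ᶠ[𝓝 z] u') (w : E) : dd w u z = dd w u' z := by
  rw [dd, dd, h.fderiv_eq]

lemma dd_congr_ev {u u' : E → ℝ} {z : E} (h : u =ᶠ[𝓝 z] u') (w : E) :
    dd w u =ᶠ[𝓝 z] dd w u' :=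
  h.eventuallyEq_nhds.mono fun _ hy => dd_congr hy w

lemma smAt_diff {F : Type} [NormedAddCommGroup F] [NormedSpace ℝ F] {u : E → F} {z : E}
    (h : ContDiffAt ℝ ∞ u z) : DifferentiableAt ℝ u z := h.differentiableAt (by simp)

lemma dd_dd {u : E → ℝ} {z : E} (h : ContDiffAt ℝ ∞ u z) (v w : E) :
    dd v (dd w u) z = fderiv ℝ (fderiv ℝ u) z v w := by
  have h1 := (smAt_diff (h.fderiv_right (m := ∞) le_rfl)).hasFDerivAt
  have h2 := (h1.clm_apply (hasFDerivAt_const w z)).fderiv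
  change fderiv ℝ (fun z => fderiv ℝ u z w) z v = _
  rw [h2]
  simp

lemma dd_comm {u : E → ℝ} {z : E} (h : ContDiffAt ℝ ∞ u z) (v w : E) :
    dd v (dd w u) z = dd w (dd v u) z := by
  rw [dd_dd h, dd_dd h]
  exact (h.isSymmSndFDerivAt (by
    rw [minSmoothness_of_isRCLikeNormedField]
    exact WithTop.coe_le_coe.mpr le_top)).eq v w

lemma dd_add {u u' : E → ℝ} {z : E} (h : ContDiffAt ℝ ∞ u z) (h' : ContDiffAt ℝ ∞ u' z) (w : E) :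
    dd w (fun y => u y + u' y) z = dd w u z + dd w u' z := by
  rw [dd, fderiv_fun_add (smAt_diff h) (smAt_diff h')]; rfl

lemma dd_sub {u u' : E → ℝ} {z : E} (h : ContDiffAt ℝ ∞ u z) (h' : ContDiffAt ℝ ∞ u' z) (w : E) :
    dd w (fun y => u y - u' y) z = dd w u z - dd w u' z := by
  rw [dd, fderiv_fun_sub (smAt_diff h) (smAt_diff h')]; rfl

lemma dd_neg {u : E → ℝ} {z : E} (w : E) : dd w (fun y => -u y) z = -dd w u z := by
  rw [dd, fderiv_fun_neg]; rfl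

lemma dd_mul {u u' : E → ℝ} {z : E} (h : ContDiffAt ℝ ∞ u z) (h' : ContDiffAt ℝ ∞ u' z) (w : E) :
    dd w (fun y => u y * u' y) z = dd w u z * u' z + u z * dd w u' z := by
  rw [dd, fderiv_fun_mul (smAt_diff h) (smAt_diff h')]
  simp only [dd, add_apply, smul_apply, smul_eq_mul]
  ring

lemma dd_const (c : ℝ) (z w : E) : dd w (fun _ => c) z = 0 := by simp [dd]

lemma dd_log {u : E → ℝ} {z : E} (h : ContDiffAt ℝ ∞ u z) (h0 : u z ≠ 0) (w : E) :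
    dd w (fun y => Real.log (u y)) z = dd w u z / u z := by
  rw [dd, ((smAt_diff h).hasFDerivAt.log h0).fderiv]
  simp [dd, div_eq_inv_mul]

lemma dd_comp {F : Type} [NormedAddCommGroup F] [NormedSpace ℝ F] {u : E → ℝ} {φ : F → E}
    {φ' : F →L[ℝ] E} {z : F} (h : ContDiffAt ℝ ∞ u (φ z)) (hφ : HasFDerivAt φ φ' z) (w : F) :
    dd w (fun y => u (φ y)) z = dd (φ' w) u (φ z) := by
  have := ((smAt_diff h).hasFDerivAt.comp z hφ).fderiv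
  rw [dd]
  change fderiv ℝ (u ∘ φ) z w = _
  rw [this]; rfl

lemma hasDerivAt_dd {u : E → ℝ} {c : ℝ → E} {w : E} {t : ℝ} (h : ContDiffAt ℝ ∞ u (c t))
    (hc : HasDerivAt c w t) : HasDerivAt (fun s => u (c s)) (dd w u (c t)) t :=
  (smAt_diff h).hasFDerivAt.comp_hasDerivAt t hc

end dd

variable {n : ℕ}

/-- `Y` is a first integral of the slope field `a` at `p` -/
def FI (a : (Fin n → ℝ) × ℝ → Fin n → ℝ) (Y : (Fin n → ℝ) × ℝ → ℝ) (p : (Fin n → ℝ) × ℝ) : Prop :=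
  ContDiffAt ℝ ∞ Y p ∧ fderiv ℝ Y p (0, 1) ≠ 0 ∧
    ∀ v : Fin n → ℝ, fderiv ℝ Y p (v, ∑ i, a p i * v i) = 0

lemma isFol_iff {a : (Fin n → ℝ) × ℝ → Fin n → ℝ} :
    IsFol a ↔ ∀ x, ∃ Y, ∀ᶠ p in 𝓝 (x, (0 : ℝ)), FI a Y p := Iff.rfl

lemma FI.slope {a : (Fin n → ℝ) × ℝ → Fin n → ℝ} {Y} {p} (h : FI a Y p) (i : Fin n) :
    a p i = -dd (Pi.single i 1, 0) Y p / dd (0, 1) Y p := by
  have h1 := h.2.2 (Pi.single i 1)
  have h2 : ∑ j, a p j * (Pi.single i 1 : Fin n → ℝ) j = a p i := by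
    simp [Pi.single_apply]
  have h3 : ((Pi.single i 1 : Fin n → ℝ), a p i) =
      ((Pi.single i 1 : Fin n → ℝ), (0 : ℝ)) + a p i • ((0 : Fin n → ℝ), (1 : ℝ)) := by simp
  rw [h2, h3, map_add, map_smul, smul_eq_mul] at h1
  have h4 := h.2.1
  simp only [dd]
  field_simp
  linarith

/-- the coefficients of `η` in any dimension -/
def etaN (a : (Fin n → ℝ) × ℝ → Fin n → ℝ) (i : Fin n) (x : Fin n → ℝ) : ℝ :=
  deriv (fun t => a (x, t) i) 0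

lemma eta_eq (a : (Fin 3 → ℝ) × ℝ → Fin 3 → ℝ) : eta a = etaN a := rfl

/-- the value of a first integral on the zero section -/
def fz (Y : (Fin n → ℝ) × ℝ → ℝ) (x : Fin n → ℝ) : ℝ := Y (x, 0)

/-- the logarithm of the fibre derivative on the zero section -/
def gz (Y : (Fin n → ℝ) × ℝ → ℝ) (x : Fin n → ℝ) : ℝ := Real.log (dd (0, 1) Y (x, 0))

/-- the nonlinearity on the zero section -/
def kz (Y : (Fin n → ℝ) × ℝ → ℝ) (x : Fin n → ℝ) : ℝ :=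
  dd (0, 1) (dd (0, 1) Y) (x, 0) / dd (0, 1) Y (x, 0) ^ 2

lemma hasF_in (x : Fin n → ℝ) : HasFDerivAt (fun y : Fin n → ℝ => (y, (0 : ℝ)))
    (ContinuousLinearMap.inl ℝ (Fin n → ℝ) ℝ) x := (ContinuousLinearMap.inl ℝ (Fin n → ℝ) ℝ).hasFDerivAt

lemma sm_in (x : Fin n → ℝ) : ContDiffAt ℝ ∞ (fun y : Fin n → ℝ => (y, (0 : ℝ))) x :=
  contDiffAt_id.prodMk contDiffAt_const

lemma tend_in (x : Fin n → ℝ) :
    Tendsto (fun y : Fin n → ℝ => (y, (0 : ℝ))) (𝓝 x) (𝓝 (x, 0)) := (sm_in x).continuousAt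

lemma fz_sm {Y : (Fin n → ℝ) × ℝ → ℝ} {x} (h : ContDiffAt ℝ ∞ Y (x, 0)) :
    ContDiffAt ℝ ∞ (fz Y) x := h.comp x (sm_in x)

lemma dd_fz {Y : (Fin n → ℝ) × ℝ → ℝ} {x} (h : ContDiffAt ℝ ∞ Y (x, 0)) (w : Fin n → ℝ) :
    dd w (fz Y) x = dd (w, 0) Y (x, 0) :=
  dd_comp (φ := fun y : Fin n → ℝ => (y, (0 : ℝ))) h (hasF_in x) w

lemma gz_sm {Y : (Fin n → ℝ) × ℝ → ℝ} {x} (h : ContDiffAt ℝ ∞ Y (x, 0))
    (h0 : fderiv ℝ Y (x, 0) (0, 1) ≠ 0) : ContDiffAt ℝ ∞ (gz Y) x :=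
  (fz_sm (dd_smAt h (0, 1))).log h0

lemma kz_sm {Y : (Fin n → ℝ) × ℝ → ℝ} {x} (h : ContDiffAt ℝ ∞ Y (x, 0))
    (h0 : fderiv ℝ Y (x, 0) (0, 1) ≠ 0) : ContDiffAt ℝ ∞ (kz Y) x :=
  (fz_sm (dd_smAt (dd_smAt h (0, 1)) (0, 1))).div ((fz_sm (dd_smAt h (0, 1))).pow 2)
    (pow_ne_zero 2 h0)

/-- the local form `η = -dg + k df` -/
theorem eta_at {a : (Fin n → ℝ) × ℝ → Fin n → ℝ} {Y} {x : Fin n → ℝ}
    (h : ∀ᶠ p in 𝓝 (x, (0 : ℝ)), FI a Y p) (i : Fin n) :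
    etaN a i x = -dd (Pi.single i 1) (gz Y) x + kz Y x * dd (Pi.single i 1) (fz Y) x := by
  have h0 := h.self_of_nhds
  have hc : HasDerivAt (fun t : ℝ => (x, t)) ((0 : Fin n → ℝ), (1 : ℝ)) 0 :=
    (hasDerivAt_const _ _).prodMk (hasDerivAt_id _)
  have e1 : (fun t => a (x, t) i) =ᶠ[𝓝 0] fun t =>
      -dd (Pi.single i 1, 0) Y (x, t) / dd (0, 1) Y (x, t) :=
    (hc.continuousAt.eventually h).mono fun t ht => ht.slope i
  have d1 := hasDerivAt_dd (c := fun t : ℝ => (x, t)) (dd_smAt h0.1 (Pi.single i 1, 0)) hc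
  have d2 := hasDerivAt_dd (c := fun t : ℝ => (x, t)) (dd_smAt h0.1 (0, 1)) hc
  have d3 := (d1.neg.div d2 h0.2.1).deriv
  have e2 : dd (Pi.single i 1) (gz Y) x =
      dd (Pi.single i 1, 0) (dd (0, 1) Y) (x, 0) / dd (0, 1) Y (x, 0) := by
    have := dd_log (fz_sm (dd_smAt h0.1 (0, 1))) h0.2.1 (Pi.single i 1)
    rw [dd_fz (dd_smAt h0.1 _)] at this
    exact this
  have e3 : dd (Pi.single i 1) (fz Y) x = dd (Pi.single i 1, 0) Y (x, 0) :=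
    dd_fz h0.1 _
  have h4 : dd (0, 1) Y (x, 0) ≠ 0 := h0.2.1
  rw [etaN, e1.deriv_eq]
  refine d3.trans ?_
  rw [e2, e3, kz, dd_comm h0.1 (Pi.single i 1, 0) (0, 1)]
  simp only [Pi.neg_apply]
  field_simp
  ring

theorem eta_ev {a : (Fin n → ℝ) × ℝ → Fin n → ℝ} {Y} {x : Fin n → ℝ}
    (h : ∀ᶠ p in 𝓝 (x, (0 : ℝ)), FI a Y p) (i : Fin n) : etaN a i =ᶠ[𝓝 x] fun y =>
      -dd (Pi.single i 1) (gz Y) y + kz Y y * dd (Pi.single i 1) (fz Y) y :=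
  ((tend_in x).eventually h.eventually_nhds).mono fun _ hy => eta_at hy i

theorem eta_sm {a : (Fin n → ℝ) × ℝ → Fin n → ℝ} (h : IsFol a) (i : Fin n) :
    ContDiff ℝ ∞ (etaN a i) := by
  refine contDiff_iff_contDiffAt.mpr fun x => ?_
  obtain ⟨Y, hY⟩ := isFol_iff.mp h x
  have h0 := hY.self_of_nhds
  exact (((dd_smAt (gz_sm h0.1 h0.2.1) _).neg).add ((kz_sm h0.1 h0.2.1).mul
    (dd_smAt (fz_sm h0.1) _))).congr_of_eventuallyEq (eta_ev hY i)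

/-- the local form `dη = dk ∧ df` -/
theorem deta_at {a : (Fin n → ℝ) × ℝ → Fin n → ℝ} {Y} {x : Fin n → ℝ}
    (h : ∀ᶠ p in 𝓝 (x, (0 : ℝ)), FI a Y p) (i j : Fin n) :
    dd (Pi.single i 1) (etaN a j) x - dd (Pi.single j 1) (etaN a i) x =
      dd (Pi.single i 1) (kz Y) x * dd (Pi.single j 1) (fz Y) x -
        dd (Pi.single j 1) (kz Y) x * dd (Pi.single i 1) (fz Y) x := by
  have h0 := h.self_of_nhds
  have hg := gz_sm h0.1 h0.2.1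
  have hk := kz_sm h0.1 h0.2.1
  have hf := fz_sm h0.1
  rw [dd_congr (eta_ev h j), dd_congr (eta_ev h i),
    dd_add (dd_smAt hg _).neg (hk.mul (dd_smAt hf _)),
    dd_add (dd_smAt hg _).neg (hk.mul (dd_smAt hf _)), dd_neg, dd_neg,
    dd_mul hk (dd_smAt hf _), dd_mul hk (dd_smAt hf _), dd_comm hg (Pi.single i 1),
    dd_comm hf (Pi.single i 1)]
  ring

lemma eta_zero {a : (Fin n → ℝ) × ℝ → Fin n → ℝ} {x : Fin n → ℝ}
    (h : ∀ᶠ p in 𝓝 (x, (0 : ℝ)), a p = 0) (i : Fin n) : etaN a i =ᶠ[𝓝 x] fun _ => 0 := by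
  refine ((tend_in x).eventually h.eventually_nhds).mono fun y hy => ?_
  have hc : Continuous fun t : ℝ => (y, t) := by fun_prop
  have : (fun t => a (y, t) i) =ᶠ[𝓝 0] fun _ => 0 :=
    (hc.continuousAt.eventually hy).mono fun t ht => by simp [ht]
  rw [etaN, this.deriv_eq, deriv_const]

end

end Pool.Agent.P.MP_7bb7e1_gt.H.A
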