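import Pool.Agent.P.MP_7bb7e1_gt.H.Cell

/-! Extension of homotopies from the boundary of a prism. -/

namespace Pool.Agent.P.MP_7bb7e1_gt.H

open Pool.Agent.P.MP_7bb7e1_gt.D Filter Topology Set

noncomputable section

variable {p q : ℕ}

/-- dilation from the barycentre -/
def extDil (u : Sx p) (μ : ℝ) (h0 : 0 < μ) (h : ∀ i, 1 - (p + 1) * u i ≤ μ) : Sx p :=
  ⟨fun i => (u i - (1 - μ) / (p + 1)) / μ, fun i => div_nonneg (by
    rw [sub_nonneg, div_le_iff₀ (by positivity)]; linarith [h i]) h0.le, by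
    rw [← Finset.sum_div, Finset.sum_sub_distrib, stdSimplex.sum_eq_one u, Finset.sum_const,
      Finset.card_univ, Fintype.card_fin, nsmul_eq_mul]
    push_cast
    field_simp
    ring⟩

lemma extDil_apply (u : Sx p) (μ : ℝ) (h0 h) (i : Fin (p + 1)) :
    extDil u μ h0 h i = (u i - (1 - μ) / (p + 1)) / μ := rfl

/-- the weights -/
def extW (k : Fin (p + 1) ⊕ Fin (q + 1)) : ℝ := Sum.elim (fun _ => p + 1) (fun _ => q + 1) k

/-- the gauge -/
def extMu (z : Pz p q × Tm) : ℝ :=
  max (Finset.univ.sup' Finset.univ_nonempty fun k => 1 - extW k * co k z.1) (1 - z.2.1 / 2)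

lemma ext_le_mu (z : Pz p q × Tm) (k : Fin (p + 1) ⊕ Fin (q + 1)) :
    1 - extW k * co k z.1 ≤ extMu z :=
  (Finset.le_sup' (fun k => 1 - extW k * co k z.1) (Finset.mem_univ k)).trans (le_max_left _ _)

lemma ext_le_mu' (z : Pz p q × Tm) : 1 - z.2.1 / 2 ≤ extMu z := le_max_right _ _

lemma ext_mu_pos (z : Pz p q × Tm) : 0 < extMu z := by linarith [ext_le_mu' z, z.2.2.2]

lemma ext_mu_le (z : Pz p q × Tm) : extMu z ≤ 1 := by
  refine max_le (Finset.sup'_le _ _ fun k _ => ?_) (by linarith [z.2.2.1])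
  have : 0 ≤ extW k * co k z.1 := by
    rcases k with i | j
    · exact mul_nonneg (by simp only [extW, Sum.elim_inl]; positivity) (stdSimplex.zero_le z.1.1 i)
    · exact mul_nonneg (by simp only [extW, Sum.elim_inr]; positivity) (stdSimplex.zero_le z.1.2 j)
  linarith

lemma ext_mu_cont : Continuous (extMu : Pz p q × Tm → ℝ) :=
  (Continuous.finset_sup'_apply Finset.univ_nonempty fun k _ => continuous_const.sub
    (continuous_const.mul ((continuous_co k).comp continuous_fst))).max (by fun_prop)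

lemma ext_ret : ∃ r : C(Pz p q × Tm, Pz p q × Tm),
    (∀ z, (r z).2 = 0 ∨ ∃ k, co k (r z).1 = 0) ∧ (∀ z, z.2 = 0 → r z = z) ∧
      ∀ z k, co k z.1 = 0 → r z = z := by
  have hc := ext_mu_cont (p := p) (q := q)
  have hne : ∀ z : Pz p q × Tm, extMu z ≠ 0 := fun z => (ext_mu_pos z).ne'
  let r : C(Pz p q × Tm, Pz p q × Tm) := ⟨fun z =>
    ((extDil z.1.1 (extMu z) (ext_mu_pos z) fun i => ext_le_mu z (Sum.inl i),
      extDil z.1.2 (extMu z) (ext_mu_pos z) fun j => ext_le_mu z (Sum.inr j)),
      ⟨2 - (2 - z.2.1) / extMu z, by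
        rw [sub_nonneg, div_le_iff₀ (ext_mu_pos z)]; linarith [ext_le_mu' z], by
        have : 1 ≤ (2 - z.2.1) / extMu z := by
          rw [le_div_iff₀ (ext_mu_pos z)]; linarith [ext_mu_le z, z.2.2.2]
        linarith⟩), by
    refine Continuous.prodMk (Continuous.prodMk (Continuous.subtype_mk (continuous_pi fun i => ?_) _)
      (Continuous.subtype_mk (continuous_pi fun i => ?_) _)) (Continuous.subtype_mk ?_ _)
    · exact (((cont_coord i).comp (continuous_fst.comp continuous_fst)).sub
        ((continuous_const.sub hc).div_const _)).div hc hne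
    · exact (((cont_coord i).comp (continuous_snd.comp continuous_fst)).sub
        ((continuous_const.sub hc).div_const _)).div hc hne
    · exact continuous_const.sub ((continuous_const.sub (by fun_prop)).div hc hne)⟩
  have one : ∀ z, 1 ≤ extMu z → r z = z := fun z hz => by
    have e : extMu z = 1 := le_antisymm (ext_mu_le z) hz
    refine Prod.ext (Prod.ext ?_ ?_) (Subtype.ext ?_)
    · ext i
      change (z.1.1 i - (1 - extMu z) / (p + 1)) / extMu z = z.1.1 i
      rw [e]; simp
    · ext i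
      change (z.1.2 i - (1 - extMu z) / (q + 1)) / extMu z = z.1.2 i
      rw [e]; simp
    · change 2 - (2 - z.2.1) / extMu z = z.2.1
      rw [e]; ring
  refine ⟨r, fun z => ?_, fun z hz => one z ?_, fun z k hz => one z ?_⟩
  · have h0 := hne z
    rcases max_choice (Finset.univ.sup' Finset.univ_nonempty fun k => 1 - extW k * co k z.1)
      (1 - z.2.1 / 2) with h | h
    · obtain ⟨k, -, hk⟩ := Finset.exists_mem_eq_sup' Finset.univ_nonempty
        fun k => 1 - extW k * co k z.1
      have e : extMu z = 1 - extW k * co k z.1 := h.trans hk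
      refine Or.inr ⟨k, ?_⟩
      rcases k with i | j
      · change (z.1.1 i - (1 - extMu z) / (p + 1)) / extMu z = 0
        have e' : extMu z = 1 - (p + 1) * z.1.1 i := e
        rw [div_eq_zero_iff, e']
        left; field_simp; ring
      · change (z.1.2 j - (1 - extMu z) / (q + 1)) / extMu z = 0
        have e' : extMu z = 1 - (q + 1) * z.1.2 j := e
        rw [div_eq_zero_iff, e']
        left; field_simp; ring
    · refine Or.inl (Subtype.ext ?_)
      change 2 - (2 - z.2.1) / extMu z = 0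
      have e : extMu z = 1 - z.2.1 / 2 := h
      rw [sub_eq_zero, eq_div_iff h0, e]; ring
  · have := ext_le_mu' z
    rw [hz] at this
    simpa using this
  · have := ext_le_mu z k
    rw [hz] at this
    simpa using this

/-- Hints. With the barycentre `c`, the gauge `γ z = 1 - inf over k of (w k * co k z)` (`w k = p + 1`
or `q + 1`; `γ = 1` on the boundary, `0 ≤ γ ≤ 1`) and `μ = max (γ z) (1 - s / 2)`, the map
`r (z, s) = (c + (z - c) / μ, 2 - (2 - s) / μ)` is a retraction of `Pz p q × Tm` onto the union of the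
bottom and the sides. `glue` the pull-backs along `r` of the `G k` and of `pull fst V` over the
preimages of the sides and the bottom; then `ag_pull_self`. -/
theorem ext_ht (V : St (Pz p q)) (G : Fin (p + 1) ⊕ Fin (q + 1) → St (Pz p q × Tm))
    (hG : ∀ k l, Ag (G k) (G l) {z | co k z.1 = 0 ∧ co l z.1 = 0})
    (h0 : ∀ k, Ag V (pull (sl 0) (G k)) {z | co k z = 0}) :
    ∃ W, pull (sl 0) W = V ∧ ∀ k, Ag W (G k) {z | co k z.1 = 0} := by
  obtain ⟨r, r1, r2, r3⟩ := ext_ret (p := p) (q := q)
  let A : Option (Fin (p + 1) ⊕ Fin (q + 1)) → St (Pz p q × Tm) := fun i =>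
    i.elim (pull ContinuousMap.fst V) G
  let B : Option (Fin (p + 1) ⊕ Fin (q + 1)) → Set (Pz p q × Tm) := fun i =>
    i.elim {z | z.2 = 0} fun k => {z | co k z.1 = 0}
  have hB : ∀ i, IsClosed (B i) := fun i => by
    rcases i with _ | k
    · exact isClosed_eq continuous_snd continuous_const
    · exact isClosed_eq ((continuous_co k).comp continuous_fst) continuous_const
  have a0 : ∀ k, Ag (A none) (A (some k)) (B none ∩ B (some k)) := fun k => by
    refine ((h0 k).pull ContinuousMap.fst fun z hz => hz.2).trans ?_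
    rw [pull_comp]
    exact ag_pull_self (fun z hz => Prod.ext rfl (Eq.symm hz.1)) _
  have hA : ∀ i j, Ag (A i) (A j) (B i ∩ B j) := fun i j => by
    rcases i with _ | k <;> rcases j with _ | l
    · exact .refl _ _
    · exact a0 l
    · exact (a0 k).symm.mono fun z hz => ⟨hz.2, hz.1⟩
    · exact hG k l
  have fx : ∀ i, ∀ z ∈ B i, r z = z := fun i z hz => by
    rcases i with _ | k
    exacts [r2 z hz, r3 z k hz]
  obtain ⟨W, hW⟩ := glue (T := fun i => r ⁻¹' B i) (locallyFinite_of_finite _)
    (fun i => (hB i).preimage r.continuous)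
    (fun z => (r1 z).elim (fun h => ⟨none, h⟩) fun ⟨k, h⟩ => ⟨some k, h⟩) (fun i => pull r (A i))
    fun i j => (hA i j).pull r fun z hz => hz
  have key : ∀ i, Ag W (A i) (B i) := fun i =>
    ((hW i).mono fun z hz => by rw [mem_preimage, fx i z hz]; exact hz).trans
      (ag_pull_self (fx i) _)
  exact ⟨W, ((key none).pull_eq (sl 0) fun _ => rfl).trans (pull_sl_fst 0 V), fun k => key (some k)⟩

/-- Hints. `pull (kap k p q) V` is trivial off `Op` (`kap_bd`), so `Cpt` (`cpt_of_bdd`); pull its
null-homotopy back along `(z, s) ↦ (c + (1 + L * min (2 s) 1) • (iot z - c), max (2 s - 1) 0)` with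
`c ∈ Op` and `L` large (`convex_Op`, `isOpen_Op`, `iot_mem`, `kap_iot`); or use `ht_pull`, `Ht.pull`
and `Ht.trans`. -/
theorem fill {k : ℕ} (h : p + q = k) (hE : ∀ F : St (E k), Cpt F → Cc F triv) (V : St (Pz p q))
    (hV : Ag V triv (Bd p q)) : Ht V triv (Bd p q) := by
  have hF : Ag (pull (kap k p q) V) triv (Op k p q)ᶜ := hV.pull_triv _ fun x hx => kap_bd hx
  have hb : Bornology.IsBounded (Op k p q) := by
    refine (Metric.isBounded_closedBall (x := (0 : E k)) (r := 1)).subset fun x hx => ?_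
    rw [mem_closedBall_zero_iff]
    refine (pi_norm_le_iff_of_nonneg zero_le_one).mpr fun j => ?_
    have := Op_subset_oc h hx j
    rw [Real.norm_eq_abs, abs_le]
    constructor <;> linarith [this.1, this.2]
  obtain ⟨R, hR⟩ := hE _ (cpt_of_bdd hb hF)
  obtain ⟨c, hc⟩ := Op_nonempty h
  obtain ⟨ε, ε0, hε⟩ := Metric.isOpen_iff.mp isOpen_Op c hc
  obtain ⟨L, hL⟩ : ∃ L, L = (|R| + ‖c‖) / ε := ⟨_, rfl⟩
  have L0 : 0 ≤ L := by rw [hL]; positivity
  have hi := (iot k p q).continuous
  let f : C(Pz p q, E k) := ⟨fun z => c + (1 + L) • (iot k p q z - c), by fun_prop⟩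
  have h1 := ht_pull (T := Bd p q) (f₀ := iot k p q) (f₁ := f)
    ⟨fun z : Pz p q × Tm => c + (1 + L * z.2.1) • (iot k p q z.1 - c), by fun_prop⟩ hF
    (fun z hz s hs => by
      have t0 : 0 < 1 + L * s.1 := by nlinarith [s.2.1]
      have t1 : (1 + L * s.1)⁻¹ ≤ 1 := inv_le_one_of_one_le₀ (by nlinarith [s.2.1])
      have := convex_Op.add_smul_sub_mem hc hs ⟨(inv_pos.mpr t0).le, t1⟩
      change c + (1 + L * s.1)⁻¹ • (c + (1 + L * s.1) • (iot k p q z - c) - c) ∈ _ at this
      rw [add_sub_cancel_left, smul_smul, inv_mul_cancel₀ t0.ne', one_smul, add_sub_cancel] at this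
      exact (iot_mem h z).mp this hz)
    (fun z => by simp) fun z => by simp [f]
  have h2 := hR.pull f (T := Bd p q) fun z hz => by
    have a1 : ε ≤ ‖iot k p q z - c‖ := by
      by_contra hn
      exact (iot_mem h z).mp (hε (by rw [mem_ball_iff_norm]; exact not_le.mp hn)) hz
    have a2 := norm_sub_le (f z) c
    have a3 : ‖f z - c‖ = (1 + L) * ‖iot k p q z - c‖ := by
      change ‖c + (1 + L) • (iot k p q z - c) - c‖ = _
      rw [add_sub_cancel_left, norm_smul, Real.norm_of_nonneg (by linarith)]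
    have a4 : L * ε = |R| + ‖c‖ := by rw [hL]; field_simp
    change R ≤ ‖f z‖
    nlinarith [le_abs_self R, mul_le_mul_of_nonneg_left a1 L0]
  rw [pull_triv] at h2
  have e : pull (iot k p q) (pull (kap k p q) V) = V := by
    rw [pull_comp]
    exact (pull_congr (g := ContinuousMap.id _) (kap_iot h) V).trans (pull_id V)
  rw [e] at h1
  exact h1.trans h2

end

end Pool.Agent.P.MP_7bb7e1_gt.H
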