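import Pool.Agent.P.MP_7bb7e1_gt.H.Ht

/-! Elementary motions of euclidean space. -/

namespace Pool.Agent.P.MP_7bb7e1_gt.H

open Filter Topology Set

noncomputable section

variable {n : ℕ} {F : St (E n)}

/-- translation -/
def trl (v : E n) : C(E n, E n) := ⟨fun x => x + v, by fun_prop⟩

/-- scaling -/
def scl (δ : ℝ) : C(E n, E n) := ⟨fun x => δ • x, by fun_prop⟩

/-- permutation of the coordinates -/
def prm (τ : Equiv.Perm (Fin n)) : C(E n, E n) := ⟨fun x k => x (τ k), by fun_prop⟩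

/-- reflection in a coordinate hyperplane -/
def mir (i : Fin n) : C(E n, E n) := ⟨fun x => Function.update x i (-x i), by fun_prop⟩

/-- rotation by a right angle in a coordinate plane -/
def rot (i j : Fin n) : C(E n, E n) :=
  ⟨fun x => Function.update (Function.update x i (-x j)) j (x i), by fun_prop⟩

/-- projection onto the unit cube -/
def cl01 : C(E n, E n) := ⟨fun x i => max 0 (min (x i) 1), by fun_prop⟩

/-- the open unit cube -/
def oc (n : ℕ) : Set (E n) := {x | ∀ j, 0 < x j ∧ x j < 1}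

@[simp] lemma trl_apply (v x : E n) : trl v x = x + v := rfl
@[simp] lemma scl_apply (δ : ℝ) (x : E n) : scl δ x = δ • x := rfl
@[simp] lemma prm_apply (τ : Equiv.Perm (Fin n)) (x : E n) (k : Fin n) : prm τ x k = x (τ k) := rfl
lemma mir_apply (i : Fin n) (x : E n) : mir i x = Function.update x i (-x i) := rfl
lemma rot_apply (i j : Fin n) (x : E n) :
    rot i j x = Function.update (Function.update x i (-x j)) j (x i) := rfl
lemma cl01_apply (x : E n) (i : Fin n) : cl01 x i = max 0 (min (x i) 1) := rfl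

/-- the pull-back along a proper homotopy -/
lemma Cpt.cc_pull (hF : Cpt F) (h : C(E n × Tm, E n))
    (hp : ∀ R : ℝ, ∃ R' : ℝ, ∀ x s, R' ≤ ‖x‖ → R ≤ ‖h (x, s)‖) {f₀ f₁ : C(E n, E n)}
    (h0 : ∀ y, h (y, 0) = f₀ y) (h1 : ∀ y, h (y, 1) = f₁ y) : Cc (pull f₀ F) (pull f₁ F) := by
  obtain ⟨R, hF⟩ := hF
  obtain ⟨R', hp⟩ := hp R
  exact ⟨R', ht_pull h hF (fun y hy s => hp y s hy) h0 h1⟩

lemma Cpt.cc_pull' (hF : Cpt F) (h : C(E n × Tm, E n))
    (hp : ∀ R : ℝ, ∃ R' : ℝ, ∀ x s, R' ≤ ‖x‖ → R ≤ ‖h (x, s)‖) {f : C(E n, E n)}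
    (h0 : ∀ y, h (y, 0) = y) (h1 : ∀ y, h (y, 1) = f y) : Cc F (pull f F) := by
  have := hF.cc_pull h hp (f₀ := ContinuousMap.id _) h0 h1
  rwa [pull_id] at this

lemma Cpt.pull (hF : Cpt F) {k : ℕ} (f : C(E k, E n))
    (hp : ∀ R : ℝ, ∃ R' : ℝ, ∀ x, R' ≤ ‖x‖ → R ≤ ‖f x‖) : Cpt (pull f F) := by
  obtain ⟨R, hF⟩ := hF
  obtain ⟨R', hp⟩ := hp R
  exact ⟨R', hF.pull_triv f hp⟩

lemma cpt_of_bdd {O : Set (E n)} (hO : Bornology.IsBounded O) (h : Ag F triv Oᶜ) : Cpt F := by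
  obtain ⟨R, hR⟩ := hO.exists_norm_le
  exact ⟨R + 1, h.mono fun x (hx : R + 1 ≤ ‖x‖) hx' => by linarith [hR x hx']⟩

lemma Cpt.cc_trl (hF : Cpt F) (v : E n) : Cc F (H.pull (trl v) F) := by
  refine hF.cc_pull' ⟨fun z => z.1 + z.2.1 • v, by fun_prop⟩ (fun R => ⟨R + ‖v‖, fun x s hx => ?_⟩)
    (fun y => by simp) fun y => by simp
  have h1 : ‖s.1 • v‖ ≤ ‖v‖ := by
    rw [norm_smul, Real.norm_of_nonneg s.2.1]
    exact mul_le_of_le_one_left (norm_nonneg _) s.2.2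
  have h2 := norm_sub_le (x + s.1 • v) (s.1 • v)
  rw [add_sub_cancel_right] at h2
  change R ≤ ‖x + s.1 • v‖
  linarith

lemma Cpt.cc_scl (hF : Cpt F) {δ : ℝ} (hδ : 0 < δ) : Cc F (H.pull (scl δ) F) := by
  refine hF.cc_pull' ⟨fun z => (1 - z.2.1 + z.2.1 * δ) • z.1, by fun_prop⟩
    (fun R => ⟨R / min 1 δ, fun x s hx => ?_⟩) (fun y => by simp) fun y => by simp
  have h0 : 0 < min 1 δ := lt_min one_pos hδ
  have h1 : min 1 δ ≤ 1 - s.1 + s.1 * δ := by
    nlinarith [min_le_left 1 δ, min_le_right 1 δ, s.2.1, s.2.2]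
  change R ≤ ‖(1 - s.1 + s.1 * δ) • x‖
  rw [norm_smul, Real.norm_of_nonneg (h0.le.trans h1)]
  rw [div_le_iff₀ h0] at hx
  nlinarith [norm_nonneg x]

lemma Cpt.cc_rot (hF : Cpt F) {i j : Fin n} (hij : i ≠ j) : Cc F (H.pull (rot i j) F) := by
  refine hF.cc_pull' ⟨fun z => (1 - z.2.1) • z.1 + z.2.1 • rot i j z.1, by fun_prop⟩
    (fun R => ⟨2 * R, fun x s hx => ?_⟩) (fun y => by simp) fun y => by simp
  change R ≤ ‖(1 - s.1) • x + s.1 • rot i j x‖
  set y := (1 - s.1) • x + s.1 • rot i j x with hy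
  have a1 : y i = (1 - s.1) * x i - s.1 * x j := by
    simp [hy, rot_apply, Function.update_of_ne hij, sub_eq_add_neg]
  have a2 : y j = (1 - s.1) * x j + s.1 * x i := by simp [hy, rot_apply]
  have b1 := abs_le.mp (norm_le_pi_norm y i)
  have b2 := abs_le.mp (norm_le_pi_norm y j)
  have s0 := s.2.1
  have s1 := s.2.2
  have hn := norm_nonneg y
  have : ‖x‖ ≤ 2 * ‖y‖ := by
    refine (pi_norm_le_iff_of_nonneg (by positivity)).mpr fun k => ?_
    have c : 1 / 2 ≤ (1 - s.1) ^ 2 + s.1 ^ 2 := by nlinarith [sq_nonneg (1 - 2 * s.1)]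
    have key : ∀ u w : ℝ, ((1 - s.1) ^ 2 + s.1 ^ 2) * u = w → |w| ≤ ‖y‖ → ‖u‖ ≤ 2 * ‖y‖ := by
      intro u w e hw
      rw [← e, abs_mul, abs_of_nonneg (by positivity)] at hw
      rw [Real.norm_eq_abs]
      nlinarith [abs_nonneg u]
    by_cases hi : k = i
    · refine hi ▸ key _ ((1 - s.1) * y i + s.1 * y j) (by rw [a1, a2]; ring) (abs_le.mpr ⟨?_, ?_⟩) <;>
        nlinarith
    by_cases hj : k = j
    · refine hj ▸ key _ ((1 - s.1) * y j - s.1 * y i) (by rw [a1, a2]; ring) (abs_le.mpr ⟨?_, ?_⟩) <;>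
        nlinarith
    have : y k = x k := by
      simp only [hy, rot_apply, Pi.add_apply, Pi.smul_apply, smul_eq_mul, Function.update_of_ne hi,
        Function.update_of_ne hj]
      ring
    rw [← this]
    linarith [norm_le_pi_norm y k]
  linarith

end

end Pool.Agent.P.MP_7bb7e1_gt.H
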