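import Pool.Agent.P.MP_7bb7e1_gt.H.Fib
import Pool.Agent.P.MP_7bb7e1_gt.H.Mov

/-! First integrals and the structure of a smooth foliation. -/

namespace Pool.Agent.P.MP_7bb7e1_gt.H

open Pool.Agent.P.MP_7bb7e1_gt.D Filter Topology Set
open scoped ContDiff

noncomputable section

variable {n : ℕ} {a : E n × ℝ → E n} {Y Y' T : E n × ℝ → ℝ} {x : E n} {r : ℝ}

/-- smooth near `z` and increasing along the fibres -/
def Sv (Y : E n × ℝ → ℝ) (z : E n × ℝ) : Prop :=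
  ∀ᶠ p in 𝓝 z, ContDiffAt ℝ ∞ Y p ∧ 0 < fderiv ℝ Y p (0, 1)

/-- `Y` is a first integral of `a` near `(x, 0)` -/
def FI (a : E n × ℝ → E n) (Y : E n × ℝ → ℝ) (x : E n) : Prop :=
  Sv Y (x, 0) ∧ ∀ᶠ p in 𝓝 (x, (0 : ℝ)), ∀ v : E n, fderiv ℝ Y p (v, ∑ i, a p i * v i) = 0

/-- the chart given by a first integral -/
def oy (Y : E n × ℝ → ℝ) (x : E n) : Om := og fun t => Y (x, t)

/-- the slope of the level sets -/
def slp (Y : E n × ℝ → ℝ) (p : E n × ℝ) : E n :=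
  fun i => -fderiv ℝ Y p (Pi.single i 1, 0) / fderiv ℝ Y p (0, 1)

lemma ev_zero_section {P : E n × ℝ → Prop} (h : ∀ᶠ p in 𝓝 (x, (0 : ℝ)), P p) :
    ∀ᶠ y in 𝓝 x, ∀ᶠ p in 𝓝 (y, (0 : ℝ)), P p :=
  (Continuous.prodMk_left (0 : ℝ)).continuousAt.eventually h.eventually_nhds

lemma ev_fibre {P : E n × ℝ → Prop} (h : ∀ᶠ p in 𝓝 (x, r), P p) : ∀ᶠ t in 𝓝 r, P (x, t) :=
  (Continuous.prodMk_right x).continuousAt.eventually h

lemma ev_base {P : E n × ℝ → Prop} (h : ∀ᶠ p in 𝓝 (x, r), P p) : ∀ᶠ y in 𝓝 x, P (y, r) :=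
  (Continuous.prodMk_left r).continuousAt.eventually h

lemma Sv.ev {z : E n × ℝ} (h : Sv Y z) : ∀ᶠ p in 𝓝 z, Sv Y p := h.eventually_nhds

lemma FI.ev (h : FI a Y x) : ∀ᶠ y in 𝓝 x, FI a Y y :=
  (ev_zero_section h.1).and (ev_zero_section h.2)

lemma fi_iff : FI a Y x ↔ A.FU a Y x :=
  ⟨fun h => (h.1.and h.2).mono fun _ hp => ⟨⟨hp.1.1, hp.1.2.ne', hp.2⟩, hp.1.2⟩,
    fun h => ⟨h.up, h.mono fun _ hp => hp.1.2.2⟩⟩

/-- a smooth function with positive fibre derivative at the point -/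
lemma sv_of {z : E n × ℝ} (h : ∀ᶠ p in 𝓝 z, ContDiffAt ℝ ∞ Y p) (hd : 0 < fderiv ℝ Y z (0, 1)) :
    Sv Y z :=
  h.and ((A.dd_smAt h.self_of_nhds (0, 1)).continuousAt.eventually (lt_mem_nhds hd))

lemma Sv.congr {z : E n × ℝ} (h : Sv Y z) (e : ∀ᶠ p in 𝓝 z, Y p = Y' p) : Sv Y' z :=
  A.Up.congr h (e.mono fun _ hp => hp.symm)

lemma isFol_iff : HF.IsFol a ↔ ∀ x, ∃ Y, FI a Y x :=
  ⟨fun h x => (A.exists_fu h x).imp fun _ => fi_iff.mpr,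
    fun h => A.isFol_of_fu fun x => (h x).imp fun _ => fi_iff.mp⟩

lemma Sv.deriv_fibre (h : Sv Y (x, r)) :
    HasDerivAt (fun t => Y (x, t)) (fderiv ℝ Y (x, r) (0, 1)) r :=
  A.hasDerivAt_dd (c := fun t : ℝ => (x, t)) h.self_of_nhds.1
    ((hasDerivAt_const _ _).prodMk (hasDerivAt_id _))

lemma Sv.locDiff (h : Sv Y (x, r)) : LocDiff (fun t => Y (x, t)) r := A.Up.locDiff h

lemma Sv.ev_oy (h : Sv Y (x, 0)) : H.ev (oy Y x) = Y (x, 0) := ev_og h.locDiff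

lemma Sv.oy_smul (h : Sv Y (x, 0)) {g : Gc} (e : ∀ᶠ p in 𝓝 (x, (0 : ℝ)), Y' p = g • Y p) :
    ∀ᶠ y in 𝓝 x, oy Y' y = g • oy Y y :=
  ((ev_zero_section h).and (ev_zero_section e)).mono fun _ hy =>
    og_smul (Sv.locDiff hy.1) (ev_fibre hy.2)

lemma sv_snd (z : E n × ℝ) : Sv Prod.snd z := A.up_snd z

lemma oy_snd : oy (Prod.snd : E n × ℝ → ℝ) = fun _ => o0 := funext fun _ => og_id

lemma fi_snd (h : ∀ᶠ p in 𝓝 (x, (0 : ℝ)), a p = 0) : FI a Prod.snd x :=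
  fi_iff.mpr (A.fu_zero h)

lemma FI.slp (h : FI a Y x) : ∀ᶠ p in 𝓝 (x, (0 : ℝ)), a p = slp Y p :=
  (fi_iff.mp h).sl_eq

lemma fi_of_slp (h : Sv Y (x, 0)) (e : ∀ᶠ p in 𝓝 (x, (0 : ℝ)), a p = slp Y p) : FI a Y x :=
  fi_iff.mpr ((A.Up.fu h).congr e)

lemma Sv.slp_smul {z : E n × ℝ} (h : Sv Y z) {g : Gc} (e : ∀ᶠ p in 𝓝 z, Y' p = g • Y p) :
    ∀ᶠ p in 𝓝 z, slp Y' p = slp Y p := by
  filter_upwards [h, e.eventually_nhds] with p h1 h2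
  ext i
  have := (fn_pos g (Y p)).ne'
  change -A.dd _ Y' p / A.dd _ Y' p = -A.dd _ Y p / A.dd _ Y p
  rw [A.dd_congr h2, A.dd_congr h2, A.dd_fn g h1.1, A.dd_fn g h1.1]
  field_simp

end

end Pool.Agent.P.MP_7bb7e1_gt.H
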