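import Pool.Agent.P.MP_7bb7e1_gt.H.FI

/-! Inversion along the fibres and transitions between first integrals. -/

namespace Pool.Agent.P.MP_7bb7e1_gt.H

open Pool.Agent.P.MP_7bb7e1_gt.D Filter Topology Set
open scoped ContDiff

noncomputable section

variable {n : ℕ} {a : E n × ℝ → E n} {Y Y' T : E n × ℝ → ℝ} {x : E n} {r : ℝ}

/-- Hints. Inverse function theorem for `p ↦ (p.1, T p)` (`ContDiffAt.toOpenPartialHomeomorph`,
`OpenPartialHomeomorph.contDiffAt_symm` at the nearby points). -/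
theorem Sv.inv (h : Sv T (x, r)) : ∃ S : E n × ℝ → ℝ, Sv S (x, T (x, r)) ∧
    (∀ᶠ p in 𝓝 (x, T (x, r)), T (p.1, S p) = p.2) ∧ ∀ᶠ p in 𝓝 (x, r), S (p.1, T p) = p.2 := by
  obtain ⟨S, h1, -, h2, h3⟩ := A.fib_inv h
  exact ⟨S, h1, h2, h3⟩

lemma Sv.comp {S : E n × ℝ → ℝ} {z : E n × ℝ} (hS : Sv S z) (h : Sv Y (z.1, S z)) :
    Sv (fun p => Y (p.1, S p)) z := A.Up.comp hS h

/-- the map `p ↦ (p.1, T p)` is open -/
lemma Sv.ev_of (h : Sv T (x, r)) {P : E n × ℝ → Prop} (hP : ∀ᶠ p in 𝓝 (x, r), P (p.1, T p)) :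
    ∀ᶠ p in 𝓝 (x, T (x, r)), P p := by
  obtain ⟨S, h1, h2, h3, -⟩ := A.fib_inv h
  have c := (continuousAt_fst.prodMk h1.sm.continuousAt).tendsto
  rw [h2] at c
  filter_upwards [c.eventually hP, h3] with p a1 a2
  rwa [a2] at a1

/-- the zeros at nearby points -/
lemma Sv.zero_near (h : Sv T (x, r)) (h0 : T (x, r) = 0) {P : E n × ℝ → Prop}
    (hP : ∀ᶠ p in 𝓝 (x, r), P p) : ∀ᶠ y in 𝓝 x, ∃ r', T (y, r') = 0 ∧ P (y, r') := by
  obtain ⟨S, h1, h2, h3, -⟩ := A.fib_inv h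
  have c := (continuousAt_fst.prodMk h1.sm.continuousAt).tendsto
  rw [h2] at c
  rw [h0] at c h3
  exact (ev_base ((c.eventually hP).and h3)).mono fun y hy => ⟨_, hy.2, hy.1⟩

/-- change of the fibre coordinate -/
lemma Sv.exists_chart (hY : Sv Y (x, r)) (h : Sv T (x, r)) (h0 : T (x, r) = 0) :
    ∃ Z, Sv Z (x, 0) ∧ ∀ᶠ p in 𝓝 (x, r), Z (p.1, T p) = Y p := by
  obtain ⟨S, h1, h2, -, h4⟩ := A.fib_inv h
  refine ⟨fun p => Y (p.1, S p), h0 ▸ h1.comp (by rw [h2]; exact hY), h4.mono fun p hp => ?_⟩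
  simp only [hp]

/-- Hints. With `S` from `Sv.inv` for `Y`, the function `Z p = Y' (p.1, S p)` has no derivative along
the base near `(x, Y (x, 0))`, so `Z (y, u) = Z (x, u)` on a ball; `exists_ext sAff` for
`u ↦ Z (x, u)` (`Sv.locDiff`). -/
theorem FI.trans (h : FI a Y x) (h' : FI a Y' x) :
    ∃ g : Gc, ∀ᶠ p in 𝓝 (x, (0 : ℝ)), Y' p = g • Y p :=
  (fi_iff.mp h).unique (fi_iff.mp h')

theorem exists_st (h : ∀ x, ∃ Y, FI a Y x) : ∃ F : St (E n), ∀ x Y, FI a Y x → F.ch x (oy Y) := by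
  obtain ⟨F, hF⟩ := A.exists_rep (isFol_iff.mpr h)
  exact ⟨F, fun x Y hY => hF.ch trivial (fi_iff.mp hY)⟩

end

end Pool.Agent.P.MP_7bb7e1_gt.H
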