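import Pool.Agent.P.MP_7bb7e1_gt.H.Om

/-! Haefliger structures with a pointwise trivialisation: a functor with gluing. -/

namespace Pool.Agent.P.MP_7bb7e1_gt.H

open Pool.Agent.P.MP_7bb7e1_gt.D Filter Topology Set

noncomputable section

variable {X Y Z : Type} [TopologicalSpace X] [TopologicalSpace Y] [TopologicalSpace Z]

/-- two charts differ near `x` by an element of the group -/
def Lo (x : X) (ψ ψ' : X → Om) : Prop := ∃ g : Gc, ∀ᶠ y in 𝓝 x, ψ' y = g • ψ y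

lemma Lo.refl (x : X) (ψ : X → Om) : Lo x ψ ψ := ⟨1, .of_forall fun _ => (one_smul _ _).symm⟩

lemma Lo.symm {x : X} {ψ ψ' : X → Om} (h : Lo x ψ ψ') : Lo x ψ' ψ := by
  obtain ⟨g, h⟩ := h
  exact ⟨g⁻¹, h.mono fun y hy => by rw [hy, inv_smul_smul]⟩

lemma Lo.trans {x : X} {ψ ψ' ψ'' : X → Om} (h : Lo x ψ ψ') (h' : Lo x ψ' ψ'') : Lo x ψ ψ'' := by
  obtain ⟨g, h⟩ := h
  obtain ⟨g', h'⟩ := h'
  exact ⟨g' * g, (h.and h').mono fun y hy => by rw [hy.2, hy.1, mul_smul]⟩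

lemma Lo.ev {x : X} {ψ ψ' : X → Om} (h : Lo x ψ ψ') : ∀ᶠ y in 𝓝 x, Lo y ψ ψ' := by
  obtain ⟨g, h⟩ := h
  exact h.eventually_nhds.mono fun y hy => ⟨g, hy⟩

lemma Lo.cont {x : X} {ψ ψ' : X → Om} (h : Lo x ψ ψ') (hc : ContinuousAt (fun y => H.ev (ψ y)) x) :
    ContinuousAt (fun y => H.ev (ψ' y)) x := by
  obtain ⟨g, h⟩ := h
  exact ((fn_cont g).continuousAt.comp hc).congr (h.mono fun y hy => by
    simp only [hy, ev_smul, Function.comp_apply, fn])

lemma Lo.comp {f : X → Y} {x : X} (hf : ContinuousAt f x) {ψ ψ' : Y → Om} (h : Lo (f x) ψ ψ') :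
    Lo x (fun y => ψ (f y)) fun y => ψ' (f y) := by
  obtain ⟨g, h⟩ := h
  exact ⟨g, hf.eventually h⟩

lemma Lo.of_eq {x : X} {ψ ψ' : X → Om} (h : ∀ᶠ y in 𝓝 x, ψ y = ψ' y) : Lo x ψ ψ' :=
  ⟨1, h.mono fun y hy => by rw [one_smul, hy]⟩

/-- structures on a space -/
structure St (X : Type) [TopologicalSpace X] where
  ch : X → (X → Om) → Prop
  ex : ∀ x, ∃ ψ, ch x ψ
  rel : ∀ {x ψ ψ'}, ch x ψ → (ch x ψ' ↔ Lo x ψ ψ')
  op : ∀ {x ψ}, ch x ψ → ∀ᶠ y in 𝓝 x, ch y ψ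
  cont : ∀ {x ψ}, ch x ψ → ContinuousAt (fun y => ev (ψ y)) x

lemma St.ext' {F F' : St X} (h : ∀ x, ∃ ψ, F.ch x ψ ∧ F'.ch x ψ) : F = F' := by
  have : F.ch = F'.ch := by
    ext x ψ'
    obtain ⟨ψ, h1, h2⟩ := h x
    rw [F.rel h1, F'.rel h2]
  cases F
  cases F'
  congr

lemma St.smul {F : St X} {x : X} {ψ : X → Om} (h : F.ch x ψ) (g : Gc) :
    F.ch x fun y => g • ψ y := (F.rel h).mpr ⟨g, .of_forall fun _ => rfl⟩

lemma St.congr {F : St X} {x : X} {ψ ψ' : X → Om} (h : F.ch x ψ) (e : ∀ᶠ y in 𝓝 x, ψ y = ψ' y) :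
    F.ch x ψ' := (F.rel h).mpr (.of_eq e)

/-- a chart with a given value at the centre -/
lemma St.ex_val (F : St X) (x : X) (ω : Om) : ∃ ψ, F.ch x ψ ∧ ψ x = ω := by
  obtain ⟨ψ, h⟩ := F.ex x
  obtain ⟨g, hg⟩ := exists_smul (ψ x) ω
  exact ⟨_, St.smul h g, hg⟩

/-- charts with the same value at the centre agree -/
lemma St.eq_of_val {F : St X} {x : X} {ψ ψ' : X → Om} (h : F.ch x ψ) (h' : F.ch x ψ')
    (e : ψ x = ψ' x) : ∀ᶠ y in 𝓝 x, ψ y = ψ' y := by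
  obtain ⟨g, hg⟩ := (F.rel h).mp h'
  have : (1 : Gc) • ψ x = g • ψ x := by rw [one_smul, ← hg.self_of_nhds, e]
  filter_upwards [hg, smul_eventually this (F.cont h)] with y h1 h2
  rw [h1, ← h2, one_smul]

/-- the structure given by a chart at each point -/
def mkSt (c : X → X → Om) (h1 : ∀ x, ContinuousAt (fun y => ev (c x y)) x)
    (h2 : ∀ x, ∀ᶠ y in 𝓝 x, Lo y (c x) (c y)) : St X where
  ch x ψ := Lo x (c x) ψ
  ex x := ⟨c x, .refl _ _⟩
  rel h := ⟨fun h' => h.symm.trans h', fun h' => h.trans h'⟩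
  op {x _} h := ((h2 x).and h.ev).mono fun _ hy => hy.1.symm.trans hy.2
  cont h := h.cont (h1 _)

lemma mkSt_ch (c : X → X → Om) (h1 h2) (x : X) : (mkSt c h1 h2).ch x (c x) := Lo.refl _ _

/-- the pull-back -/
def pull (f : C(X, Y)) (F : St Y) : St X where
  ch x ψ := ∃ θ, F.ch (f x) θ ∧ Lo x (fun y => θ (f y)) ψ
  ex x := (F.ex (f x)).imp' (fun θ y => θ (f y)) fun θ h => ⟨θ, h, .refl _ _⟩
  rel := fun ⟨θ, h1, h2⟩ => ⟨fun ⟨_, h3, h4⟩ =>
    h2.symm.trans ((((F.rel h1).mp h3).comp f.continuous.continuousAt).trans h4),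
    fun h => ⟨θ, h1, h2.trans h⟩⟩
  op := fun ⟨θ, h1, h2⟩ => ((f.continuous.continuousAt.eventually (F.op h1)).and h2.ev).mono
    fun _ hy => ⟨θ, hy⟩
  cont := fun ⟨_, h1, h2⟩ => h2.cont ((F.cont h1).comp f.continuous.continuousAt)

lemma St.pull_ch {F : St Y} (f : C(X, Y)) {x : X} {θ : Y → Om} (h : F.ch (f x) θ) :
    (pull f F).ch x fun y => θ (f y) := ⟨θ, h, .refl _ _⟩

lemma pull_id (F : St X) : pull (ContinuousMap.id X) F = F :=
  St.ext' fun x => (F.ex x).imp fun _ h => ⟨St.pull_ch (ContinuousMap.id X) h, h⟩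

lemma pull_comp (f : C(X, Y)) (g : C(Y, Z)) (F : St Z) :
    pull f (pull g F) = pull (g.comp f) F :=
  St.ext' fun x => (F.ex (g (f x))).imp' (fun θ y => θ (g (f y))) fun _ h =>
    ⟨St.pull_ch f (St.pull_ch g h), St.pull_ch (g.comp f) h⟩

lemma pull_congr {f g : C(X, Y)} (h : ∀ x, f x = g x) (F : St Y) : pull f F = pull g F := by
  rw [ContinuousMap.ext h]

/-- the structure with a global chart -/
def glob (ψ : X → Om) (h : Continuous fun y => ev (ψ y)) : St X :=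
  mkSt (fun _ => ψ) (fun _ => h.continuousAt) fun _ => .of_forall fun _ => .refl _ _

lemma glob_ch (ψ : X → Om) (h) (x : X) : (glob ψ h).ch x ψ := Lo.refl _ _

lemma eq_glob {F : St X} {ψ : X → Om} (h : ∀ x, F.ch x ψ) :
    F = glob ψ (continuous_iff_continuousAt.mpr fun x => F.cont (h x)) :=
  St.ext' fun x => ⟨ψ, h x, glob_ch _ _ x⟩

lemma pull_glob (f : C(X, Y)) (ψ : Y → Om) (h) :
    pull f (glob ψ h) = glob (fun x => ψ (f x)) (h.comp f.continuous) :=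
  St.ext' fun x => ⟨_, St.pull_ch f (glob_ch ψ h (f x)), glob_ch _ _ x⟩

/-- the trivial structure -/
def triv : St X := glob (fun _ => o0) continuous_const

lemma triv_ch (x : X) (ω : Om) : (triv : St X).ch x fun _ => ω := by
  obtain ⟨g, rfl⟩ := exists_smul o0 ω
  exact St.smul (glob_ch _ _ x) g

lemma pull_triv (f : C(X, Y)) : pull f triv = triv := pull_glob _ _ _

/-- the inclusion of a subset -/
def inc (S : Set X) : C(S, X) := ⟨Subtype.val, continuous_subtype_val⟩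

/-- agreement on a subset -/
def Ag (F F' : St X) (S : Set X) : Prop := pull (inc S) F = pull (inc S) F'

variable {F F' F'' : St X} {S S' : Set X}

lemma Ag.refl (F : St X) (S : Set X) : Ag F F S := rfl

lemma Ag.symm (h : Ag F F' S) : Ag F' F S := Eq.symm h

lemma Ag.trans (h : Ag F F' S) (h' : Ag F' F'' S) : Ag F F'' S := Eq.trans h h'

lemma Ag.pull_eq (h : Ag F F' S) (f : C(Y, X)) (hf : ∀ y, f y ∈ S) : pull f F = pull f F' := by
  have e : f = (inc S).comp ⟨fun y => ⟨f y, hf y⟩, f.continuous.subtype_mk _⟩ := rfl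
  rw [e, ← pull_comp, ← pull_comp, h]

lemma Ag.pull (h : Ag F F' S) (f : C(Y, X)) {T : Set Y} (hf : ∀ y ∈ T, f y ∈ S) :
    Ag (pull f F) (pull f F') T := by
  rw [Ag, pull_comp, pull_comp]
  exact h.pull_eq _ fun y => hf y y.2

/-- the pull-back of a structure that is trivial on a set -/
lemma Ag.pull_triv (h : Ag F triv S) (f : C(Y, X)) {T : Set Y} (hf : ∀ y ∈ T, f y ∈ S) :
    Ag (H.pull f F) triv T := H.pull_triv f ▸ h.pull f hf

lemma Ag.mono (h : Ag F F' S) (hS : S' ⊆ S) : Ag F F' S' := h.pull_eq _ fun y => hS y.2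

lemma Ag.eq (h : Ag F F' S) (hS : ∀ x, x ∈ S) : F = F' := by
  rw [← pull_id F, ← pull_id F']
  exact h.pull_eq _ hS

lemma ag_pull_congr {f g : C(Y, X)} {T : Set Y} (h : ∀ y ∈ T, f y = g y) (F : St X) :
    Ag (pull f F) (pull g F) T := by
  rw [Ag, pull_comp, pull_comp]
  exact pull_congr (fun y : T => h y y.2) F

lemma ag_pull_self {f : C(X, X)} (h : ∀ y ∈ S, f y = y) (F : St X) : Ag (pull f F) F S := by
  have := ag_pull_congr (g := ContinuousMap.id X) h F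
  rwa [pull_id] at this

lemma ag_of_ch (h : ∀ x ∈ S, ∃ ψ ψ', F.ch x ψ ∧ F'.ch x ψ' ∧ ∀ᶠ y in 𝓝[S] x, ψ y = ψ' y) :
    Ag F F' S := by
  refine St.ext' fun x => ?_
  obtain ⟨ψ, ψ', h1, h2, h3⟩ := h x x.2
  refine ⟨_, St.pull_ch (inc S) h1, St.congr (St.pull_ch (inc S) h2) ?_⟩
  rw [nhds_subtype_eq_comap_nhdsWithin]
  exact (h3.comap _).mono fun y hy => hy.symm

lemma ag_empty (h : ∀ x, x ∉ S) : Ag F F' S := ag_of_ch fun x hx => absurd hx (h x)

lemma Ag.ch_eq (h : Ag F F' S) {x : X} (hx : x ∈ S) {ψ ψ' : X → Om} (h1 : F.ch x ψ)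
    (h2 : F'.ch x ψ') (e : ψ x = ψ' x) : ∀ᶠ y in 𝓝[S] x, ψ y = ψ' y := by
  have a1 := St.pull_ch (inc S) (x := ⟨x, hx⟩) h1
  rw [h] at a1
  have a2 := St.eq_of_val a1 (St.pull_ch (inc S) (x := ⟨x, hx⟩) h2) e
  rw [← map_nhds_subtype_val ⟨x, hx⟩]
  exact a2

lemma Ag.ch (h : Ag F F' S) {x : X} (hx : S ∈ 𝓝 x) {ψ : X → Om} (h2 : F'.ch x ψ) : F.ch x ψ := by
  obtain ⟨θ, h1, e⟩ := F.ex_val x (ψ x)
  have := h.ch_eq (mem_of_mem_nhds hx) h1 h2 e
  rw [nhdsWithin_eq_nhds.mpr hx] at this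
  exact St.congr h1 this

/-- agreement is local for locally finite closed covers -/
theorem ag_of_cover {ι : Type} {T : ι → Set X} (hT : LocallyFinite T) (hc : ∀ i, IsClosed (T i))
    (hS : ∀ x ∈ S, ∃ i, x ∈ T i) (h : ∀ i, Ag F F' (S ∩ T i)) : Ag F F' S := by
  refine ag_of_ch fun x hx => ?_
  obtain ⟨ψ, h1, e1⟩ := F.ex_val x o0
  obtain ⟨ψ', h2, e2⟩ := F'.ex_val x o0
  refine ⟨ψ, ψ', h1, h2, ?_⟩
  have e : S = ⋃ i, S ∩ T i := by
    ext y
    simp only [mem_iUnion, mem_inter_iff]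
    exact ⟨fun hy => (hS y hy).imp fun i hi => ⟨hy, hi⟩, fun ⟨_, hy⟩ => hy.1⟩
  rw [e, (hT.subset fun i => inter_subset_right).nhdsWithin_iUnion, eventually_iSup]
  intro i
  by_cases hi : x ∈ T i
  · exact (h i).ch_eq ⟨hx, hi⟩ h1 h2 (e1.trans e2.symm)
  · filter_upwards [self_mem_nhdsWithin, mem_nhdsWithin_of_mem_nhds ((hc i).isOpen_compl.mem_nhds hi)]
      with y a b using absurd a.2 b

/-- gluing along a locally finite closed cover -/
theorem glue {ι : Type} {T : ι → Set X} (hT : LocallyFinite T) (hc : ∀ i, IsClosed (T i))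
    (hU : ∀ x, ∃ i, x ∈ T i) (F : ι → St X) (h : ∀ i j, Ag (F i) (F j) (T i ∩ T j)) :
    ∃ W, ∀ i, Ag W (F i) (T i) := by
  choose k hk using hU
  choose ψ h1 h2 using fun i x => (F i).ex_val x o0
  have a0 : ∀ x, ∀ᶠ y in 𝓝 x, ∀ i, y ∈ T i → x ∈ T i := fun x => by
    filter_upwards [hT.iInter_compl_mem_nhds hc x] with y hy i hi
    by_contra hx
    exact mem_iInter₂.mp hy i hx hi
  have fin : ∀ x (P : ι → X → Prop), (∀ i, x ∈ T i → ∀ᶠ y in 𝓝 x, P i y) →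
      ∀ᶠ y in 𝓝 x, ∀ i, x ∈ T i → P i y := fun x P hP =>
    (eventually_all_finite (hT.point_finite x)).mpr hP
  have a1 : ∀ x i, x ∈ T i → ∀ᶠ y in 𝓝[T i] x, ψ (k y) x y = ψ i x y := fun x i hi => by
    have := fin x (fun j y => y ∈ T j ∩ T i → ψ j x y = ψ i x y) fun j hj =>
      eventually_nhdsWithin_iff.mp ((h j i).ch_eq ⟨hj, hi⟩ (h1 j x) (h1 i x)
        ((h2 j x).trans (h2 i x).symm))
    filter_upwards [self_mem_nhdsWithin, mem_nhdsWithin_of_mem_nhds this,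
      mem_nhdsWithin_of_mem_nhds (a0 x)] with y b1 b2 b3
    exact b2 _ (b3 _ (hk y)) ⟨hk y, b1⟩
  have a2 : ∀ x (P : X → Prop), (∀ i, x ∈ T i → ∀ᶠ y in 𝓝[T i] x, P y) → ∀ᶠ y in 𝓝 x, P y :=
    fun x P hP => by
      filter_upwards [a0 x, fin x (fun i y => y ∈ T i → P y) fun i hi =>
        eventually_nhdsWithin_iff.mp (hP i hi)] with y b1 b2
      exact b2 _ (b1 _ (hk y)) (hk y)
  refine ⟨mkSt (fun x y => ψ (k y) x y) (fun x => ?_) fun x => ?_, fun i =>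
    ag_of_ch fun x hx => ⟨_, _, mkSt_ch _ _ _ x, h1 i x, a1 x i hx⟩⟩
  · intro U hU
    refine a2 x (fun y => ev (ψ (k y) x y) ∈ U) fun i hi => ?_
    have := ((F i).cont (h1 i x)).eventually (p := (· ∈ U)) (by
      simp only [h2] at hU ⊢; exact hU)
    filter_upwards [a1 x i hi, mem_nhdsWithin_of_mem_nhds this] with y b1 b2
    rwa [b1]
  · filter_upwards [a0 x, fin x (fun i y => (F i).ch y (ψ i x)) fun i _ => (F i).op (h1 i x),
      fin x (fun i y => ∀ᶠ z in 𝓝 y, z ∈ T i → ψ (k z) x z = ψ i x z) fun i hi =>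
        (eventually_nhdsWithin_iff.mp (a1 x i hi)).eventually_nhds] with y b1 b2 b3
    obtain ⟨g, hg⟩ := exists_smul (ψ (k y) x y) o0
    refine ⟨g, a2 y _ fun i hi => ?_⟩
    have c1 := b3 i (b1 i hi)
    have c2 := St.eq_of_val (h1 i y) (St.smul (b2 i (b1 i hi)) g) (by
      rw [h2, ← c1.self_of_nhds hi, hg])
    filter_upwards [self_mem_nhdsWithin, a1 y i hi, mem_nhdsWithin_of_mem_nhds c1,
      mem_nhdsWithin_of_mem_nhds c2] with z d1 d2 d3 d4
    rw [d2, d4, d3 d1]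

lemma ag_union (hS : IsClosed S) (hS' : IsClosed S') {A : Set X} (hA : ∀ x ∈ A, x ∈ S ∨ x ∈ S')
    (h : Ag F F' (A ∩ S)) (h' : Ag F F' (A ∩ S')) : Ag F F' A :=
  ag_of_cover (T := fun b : Bool => if b then S else S') (locallyFinite_of_finite _)
    (fun b => by cases b <;> simpa) (fun x hx => by simpa [or_comm] using hA x hx)
    fun b => by cases b <;> simpa

lemma glue2 (hS : IsClosed S) (hS' : IsClosed S') (hU : ∀ x, x ∈ S ∨ x ∈ S')
    (h : Ag F F' (S ∩ S')) : ∃ W, Ag W F S ∧ Ag W F' S' := by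
  obtain ⟨W, hW⟩ := glue (T := fun b : Bool => if b then S else S') (locallyFinite_of_finite _)
    (fun b => by cases b <;> simpa) (fun x => by simpa [or_comm] using hU x)
    (fun b => if b then F else F') fun i j => by
      cases i <;> cases j
      · exact .refl _ _
      · simpa [inter_comm] using h.symm
      · simpa using h
      · exact .refl _ _
  exact ⟨W, by simpa using hW true, by simpa using hW false⟩

/-- a family of equivariant maps that keep the value at the origin -/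
def IsRl (R : X → Om → Om) : Prop :=
  (∀ x (g : Gc) ω, R x (g • ω) = g • R x ω) ∧ ∀ x ω, ev (R x ω) = ev ω

lemma IsRl.lo {R : X → Om → Om} (h : IsRl R) {x : X} {ψ ψ' : X → Om} (e : Lo x ψ ψ') :
    Lo x (fun y => R y (ψ y)) fun y => R y (ψ' y) := by
  obtain ⟨g, e⟩ := e
  exact ⟨g, e.mono fun y hy => by simp only [hy, h.1]⟩

/-- change of the pointwise trivialisation -/
def relab (R : X → Om → Om) (h : IsRl R) (F : St X) : St X where
  ch x ψ := ∃ θ, F.ch x θ ∧ Lo x (fun y => R y (θ y)) ψ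
  ex x := (F.ex x).imp' (fun θ y => R y (θ y)) fun θ h => ⟨θ, h, .refl _ _⟩
  rel := fun ⟨θ, h1, h2⟩ => ⟨fun ⟨_, h3, h4⟩ =>
    h2.symm.trans ((h.lo ((F.rel h1).mp h3)).trans h4), fun h => ⟨θ, h1, h2.trans h⟩⟩
  op := fun ⟨θ, h1, h2⟩ => ((F.op h1).and h2.ev).mono fun _ hy => ⟨θ, hy⟩
  cont := fun ⟨_, h1, h2⟩ => h2.cont (by simpa only [h.2] using F.cont h1)

lemma St.relab_ch {R : X → Om → Om} (h : IsRl R) {x : X} {θ : X → Om} (e : F.ch x θ) :
    (relab R h F).ch x fun y => R y (θ y) := ⟨θ, e, .refl _ _⟩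

omit [TopologicalSpace X] [TopologicalSpace Y] in
lemma IsRl.comp {R : X → Om → Om} (h : IsRl R) (f : Y → X) : IsRl fun y => R (f y) :=
  ⟨fun _ => h.1 _, fun _ => h.2 _⟩

lemma pull_relab (f : C(Y, X)) {R : X → Om → Om} (h : IsRl R) (F : St X) :
    pull f (relab R h F) = relab (fun y => R (f y)) (h.comp f) (pull f F) :=
  St.ext' fun x => by
    obtain ⟨θ, e⟩ := F.ex (f x)
    exact ⟨_, St.pull_ch f (St.relab_ch h e), St.relab_ch (h.comp f) (St.pull_ch f e)⟩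

lemma ag_relab {R : X → Om → Om} (h : IsRl R) (e : ∀ x ∈ S, ∀ ω, R x ω = ω) (F : St X) :
    Ag (relab R h F) F S :=
  ag_of_ch fun x _ => (F.ex x).elim fun θ hθ => ⟨_, θ, St.relab_ch h hθ, hθ,
    eventually_nhdsWithin_of_forall fun y hy => e y hy _⟩

lemma ag_glob {ψ ψ' : X → Om} (h h') (e : ∀ x ∈ S, ψ x = ψ' x) : Ag (glob ψ h) (glob ψ' h') S :=
  ag_of_ch fun x _ => ⟨ψ, ψ', glob_ch _ _ x, glob_ch _ _ x, eventually_nhdsWithin_of_forall e⟩

end

end Pool.Agent.P.MP_7bb7e1_gt.H
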