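import Pool.Agent.P.MP_7bb7e1_gt.H.Eta
import Pool.Agent.P.MP_7bb7e1_gt.H.St

/-! First integrals: inversion along the fibres, uniqueness, the structure of a foliation. -/

namespace Pool.Agent.P.MP_7bb7e1_gt.H.A

open Pool.Agent.P.MP_7bb7e1_gt.HF Pool.Agent.P.MP_7bb7e1_gt.D Filter Topology Set
open scoped ContDiff

noncomputable section

section gen

variable {E : Type} [NormedAddCommGroup E] [NormedSpace ℝ E]

/-- smooth with positive fibre derivative near `p` -/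
def Up (Y : E × ℝ → ℝ) (p : E × ℝ) : Prop :=
  ∀ᶠ q in 𝓝 p, ContDiffAt ℝ ∞ Y q ∧ 0 < dd (0, 1) Y q

lemma Up.ev {Y : E × ℝ → ℝ} {p : E × ℝ} (h : Up Y p) : ∀ᶠ q in 𝓝 p, Up Y q := h.eventually_nhds

lemma Up.sm {Y : E × ℝ → ℝ} {p : E × ℝ} (h : Up Y p) : ContDiffAt ℝ ∞ Y p := h.self_of_nhds.1

lemma Up.pos {Y : E × ℝ → ℝ} {p : E × ℝ} (h : Up Y p) : 0 < dd (0, 1) Y p := h.self_of_nhds.2

lemma Up.congr {Y Y' : E × ℝ → ℝ} {p : E × ℝ} (h : Up Y p) (e : Y' =ᶠ[𝓝 p] Y) : Up Y' p :=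
  (h.and e.eventuallyEq_nhds).mono fun _ hq =>
    ⟨hq.1.1.congr_of_eventuallyEq hq.2, by rw [dd_congr hq.2]; exact hq.1.2⟩

lemma dd_split (Y : E × ℝ → ℝ) (p : E × ℝ) (v : E) (s : ℝ) :
    dd (v, s) Y p = dd (v, 0) Y p + s * dd (0, 1) Y p := by
  have : (v, s) = (v, (0 : ℝ)) + s • ((0 : E), (1 : ℝ)) := by simp
  rw [dd, this, map_add, map_smul]
  rfl

lemma dd_snd (w p : E × ℝ) : dd w (fun q : E × ℝ => q.2) p = w.2 := by
  rw [dd, fderiv_snd]; rfl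

/-- the chain rule for a fibre preserving map -/
lemma dd_fib {Y σ : E × ℝ → ℝ} {p : E × ℝ} (hσ : ContDiffAt ℝ ∞ σ p)
    (hY : ContDiffAt ℝ ∞ Y (p.1, σ p)) (w : E × ℝ) :
    dd w (fun q => Y (q.1, σ q)) p = dd (w.1, dd w σ p) Y (p.1, σ p) :=
  dd_comp (φ := fun q : E × ℝ => (q.1, σ q)) hY
    ((hasFDerivAt_fst (𝕜 := ℝ) (p := p)).prodMk (smAt_diff hσ).hasFDerivAt) w

lemma dd_fn {F : Type} [NormedAddCommGroup F] [NormedSpace ℝ F] (g : Gc) {Y : F → ℝ} {p : F}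
    (hY : ContDiffAt ℝ ∞ Y p) (w : F) :
    dd w (fun q => g • Y q) p = deriv (fn g) (Y p) * dd w Y p := by
  have := ((fn_diff g (Y p)).hasDerivAt.comp_hasFDerivAt p (smAt_diff hY).hasFDerivAt).fderiv
  change fderiv ℝ (fn g ∘ Y) p w = _
  rw [this]; rfl

lemma sm_fn {F : Type} [NormedAddCommGroup F] [NormedSpace ℝ F] (g : Gc) {Y : F → ℝ} {p : F}
    (hY : ContDiffAt ℝ ∞ Y p) : ContDiffAt ℝ ∞ (fun q => g • Y q) p :=
  (fn_smooth g).contDiffAt.comp p hY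

lemma Up.smul {Y : E × ℝ → ℝ} {p : E × ℝ} (h : Up Y p) (g : Gc) : Up (fun q => g • Y q) p :=
  h.mono fun _ hq => ⟨sm_fn g hq.1, by rw [dd_fn g hq.1]; exact mul_pos (fn_pos g _) hq.2⟩

lemma Up.comp {Y σ : E × ℝ → ℝ} {p : E × ℝ} (hσ : Up σ p) (hY : Up Y (p.1, σ p)) :
    Up (fun q => Y (q.1, σ q)) p := by
  have c : ContinuousAt (fun q : E × ℝ => (q.1, σ q)) p :=
    continuousAt_fst.prodMk hσ.sm.continuousAt
  filter_upwards [hσ, c.eventually hY] with q h1 h2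
  refine ⟨h2.1.comp q (contDiffAt_fst.prodMk h1.1), ?_⟩
  rw [dd_fib h1.1 h2.1, dd_split]
  have : dd ((0 : E), (0 : ℝ)) Y (q.1, σ q) = 0 := map_zero _
  rw [this, zero_add]
  exact mul_pos h1.2 h2.2

lemma up_snd (p : E × ℝ) : Up (fun q : E × ℝ => q.2) p :=
  .of_forall fun q => ⟨contDiffAt_snd, by rw [dd_snd]; exact one_pos⟩

lemma Up.locDiff {Y : E × ℝ → ℝ} {x : E} {u : ℝ} (h : Up Y (x, u)) :
    LocDiff (fun t => Y (x, t)) u := by
  have hc : ContDiff ℝ ∞ fun t : ℝ => (x, t) := contDiff_const.prodMk contDiff_id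
  refine ⟨(hc.continuous.continuousAt.eventually h).mono fun t ht => ht.1.comp t hc.contDiffAt, ?_⟩
  rw [(hasDerivAt_dd (c := fun t : ℝ => (x, t)) h.sm
    ((hasDerivAt_const _ _).prodMk (hasDerivAt_id _))).deriv]
  exact h.pos

lemma exists_equiv {T : E × ℝ → ℝ} {q : E × ℝ} (h : ContDiffAt ℝ ∞ T q) (h0 : 0 < dd (0, 1) T q) :
    ∃ L : (E × ℝ) ≃L[ℝ] E × ℝ, HasFDerivAt (fun q : E × ℝ => (q.1, T q)) (L : E × ℝ →L[ℝ] E × ℝ) q := by
  refine ⟨ContinuousLinearEquiv.equivOfInverse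
    ((ContinuousLinearMap.fst ℝ E ℝ).prod (fderiv ℝ T q))
    ((ContinuousLinearMap.fst ℝ E ℝ).prod ((dd (0, 1) T q)⁻¹ • (ContinuousLinearMap.snd ℝ E ℝ -
      (fderiv ℝ T q).comp ((ContinuousLinearMap.inl ℝ E ℝ).comp (ContinuousLinearMap.fst ℝ E ℝ)))))
    (fun w => ?_) (fun w => ?_), hasFDerivAt_fst.prodMk (smAt_diff h).hasFDerivAt⟩
  · refine Prod.ext rfl ?_
    change (dd (0, 1) T q)⁻¹ * (dd (w.1, w.2) T q - dd (w.1, 0) T q) = w.2
    rw [dd_split T q w.1 w.2]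
    field_simp
    ring
  · refine Prod.ext rfl ?_
    change dd (w.1, (dd (0, 1) T q)⁻¹ * (w.2 - dd (w.1, 0) T q)) T q = w.2
    rw [dd_split]
    field_simp
    ring

/-- inversion along the fibres -/
theorem fib_inv [CompleteSpace E] {T : E × ℝ → ℝ} {x : E} {u : ℝ} (h : Up T (x, u)) :
    ∃ σ : E × ℝ → ℝ, Up σ (x, T (x, u)) ∧ σ (x, T (x, u)) = u ∧
      (∀ᶠ q in 𝓝 (x, T (x, u)), T (q.1, σ q) = q.2) ∧ ∀ᶠ q in 𝓝 (x, u), σ (q.1, T q) = q.2 := by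
  obtain ⟨L, hL⟩ := exists_equiv h.sm h.pos
  have sm : ContDiffAt ℝ ∞ (fun q : E × ℝ => (q.1, T q)) (x, u) := contDiffAt_fst.prodMk h.sm
  let e := sm.toOpenPartialHomeomorph _ hL (by simp)
  have s0 : (x, u) ∈ e.source := sm.mem_toOpenPartialHomeomorph_source hL _
  have t0 : (x, T (x, u)) ∈ e.target := e.map_source s0
  have e0 : e.symm (x, T (x, u)) = (x, u) := e.left_inv s0
  have r : ∀ᶠ q in 𝓝 (x, T (x, u)), (q.1, (e.symm q).2) = e.symm q ∧ T (e.symm q) = q.2 :=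
    (e.eventually_right_inverse t0).mono fun q hq =>
      ⟨Prod.ext (congrArg Prod.fst hq).symm rfl, congrArg Prod.snd hq⟩
  have r' : ∀ᶠ q in 𝓝 (x, T (x, u)), T (q.1, (e.symm q).2) = q.2 :=
    r.mono fun q hq => by rw [hq.1, hq.2]
  have c : Tendsto e.symm (𝓝 (x, T (x, u))) (𝓝 (x, u)) := by
    have := (e.continuousAt_symm t0).tendsto
    rwa [e0] at this
  refine ⟨fun q => (e.symm q).2, ?_, congrArg Prod.snd e0, r',
    (e.eventually_left_inverse s0).mono fun q hq => congrArg Prod.snd hq⟩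
  filter_upwards [e.open_target.mem_nhds t0, c.eventually h, r, r'.eventually_nhds]
    with q h1 h2 h3 h4
  obtain ⟨L', hL'⟩ := exists_equiv h2.1 h2.2
  have s1 : ContDiffAt ℝ ∞ (fun q => (e.symm q).2) q :=
    contDiffAt_snd.comp q (e.contDiffAt_symm h1 hL' (contDiffAt_fst.prodMk h2.1))
  refine ⟨s1, ?_⟩
  have d := dd_fib (Y := T) s1 (by rw [h3.1]; exact h2.1) (0, 1)
  rw [dd_congr h4, dd_snd, dd_split, h3.1] at d
  have z : dd ((0 : E), (0 : ℝ)) T (e.symm q) = 0 := map_zero _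
  rw [z, zero_add] at d
  exact (pos_iff_pos_of_mul_pos (d ▸ one_pos)).mpr h2.2

/-- a function with vanishing horizontal derivative depends on the fibre coordinate only -/
lemma eq_of_hor {G : E × ℝ → ℝ} {x : E} {u : ℝ}
    (h : ∀ᶠ q in 𝓝 (x, u), ContDiffAt ℝ ∞ G q ∧ ∀ v, dd (v, 0) G q = 0) :
    ∀ᶠ q in 𝓝 (x, u), G q = G (x, q.2) := by
  obtain ⟨ε, ε0, hε⟩ := Metric.eventually_nhds_iff_ball.mp h
  filter_upwards [Metric.ball_mem_nhds (x, u) ε0] with q hq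
  rw [← ball_prod_same] at hq
  have m : ∀ y ∈ Metric.ball x ε, (y, q.2) ∈ Metric.ball (x, u) ε := fun y hy => by
    rw [← ball_prod_same]; exact ⟨hy, hq.2⟩
  have d : ∀ y ∈ Metric.ball x ε, HasFDerivAt (fun y => G (y, q.2))
      ((fderiv ℝ G (y, q.2)).comp (ContinuousLinearMap.inl ℝ E ℝ)) y := fun y hy =>
    (smAt_diff (hε _ (m y hy)).1).hasFDerivAt.comp y (hasFDerivAt_prodMk_left y q.2)
  refine Metric.isOpen_ball.is_const_of_fderiv_eq_zero (𝕜 := ℝ) (f := fun y => G (y, q.2))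
    (convex_ball x ε).isPreconnected
    (fun y hy => (d y hy).differentiableAt.differentiableWithinAt) (fun y hy => ?_) hq.1
    (Metric.mem_ball_self ε0)
  rw [(d y hy).fderiv]
  ext v
  exact (hε _ (m y hy)).2 v

end gen

variable {n : ℕ}

/-- a first integral near `(x, 0)` that increases along the fibres -/
def FU (a : (Fin n → ℝ) × ℝ → Fin n → ℝ) (Y : (Fin n → ℝ) × ℝ → ℝ) (x : Fin n → ℝ) : Prop :=
  ∀ᶠ p in 𝓝 (x, (0 : ℝ)), FI a Y p ∧ 0 < dd (0, 1) Y p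

variable {a a' : (Fin n → ℝ) × ℝ → Fin n → ℝ} {Y Y' : (Fin n → ℝ) × ℝ → ℝ} {x : Fin n → ℝ}

lemma FU.up (h : FU a Y x) : Up Y (x, 0) := h.mono fun _ hp => ⟨hp.1.1, hp.2⟩

lemma FU.fi (h : FU a Y x) : ∀ᶠ p in 𝓝 (x, (0 : ℝ)), FI a Y p := h.mono fun _ hp => hp.1

lemma FU.ev (h : FU a Y x) : ∀ᶠ y in 𝓝 x, FU a Y y := (tend_in x).eventually h.eventually_nhds

lemma FU.congr (h : FU a Y x) (e : a' =ᶠ[𝓝 (x, 0)] a) : FU a' Y x :=
  (h.and e).mono fun _ hp => ⟨⟨hp.1.1.1, hp.1.1.2.1, by rw [hp.2]; exact hp.1.1.2.2⟩, hp.1.2⟩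

lemma FU.smul (h : FU a Y x) (g : Gc) : FU a (fun q => g • Y q) x :=
  (h.and (h.up.smul g)).mono fun p hp => ⟨⟨hp.2.1, hp.2.2.ne', fun v => by
    have := dd_fn g hp.1.1.1 (v, ∑ i, a p i * v i)
    rw [dd, dd, hp.1.1.2.2 v, mul_zero] at this
    exact this⟩, hp.2.2⟩

lemma exists_fu (h : IsFol a) (x : Fin n → ℝ) : ∃ Y, FU a Y x := by
  obtain ⟨Y, hY⟩ := isFol_iff.mp h x
  have h0 := hY.self_of_nhds
  have c := (dd_smAt h0.1 (0, 1)).continuousAt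
  rcases lt_or_gt_of_ne h0.2.1 with h1 | h1
  · refine ⟨fun q => -Y q, (hY.and (c.eventually (gt_mem_nhds h1))).mono fun p hp => ?_⟩
    have : 0 < dd (0, 1) (fun q => -Y q) p := by rw [dd_neg]; exact neg_pos.mpr hp.2
    refine ⟨⟨hp.1.1.neg, this.ne', fun v => ?_⟩, this⟩
    rw [fderiv_fun_neg, neg_apply, hp.1.2.2 v, neg_zero]
  · exact ⟨Y, hY.and (c.eventually (lt_mem_nhds h1))⟩

lemma isFol_of_fu (h : ∀ x, ∃ Y, FU a Y x) : IsFol a := fun x => (h x).imp fun _ h => h.fi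

/-- two first integrals differ by a diffeomorphism -/
theorem FU.unique (h : FU a Y x) (h' : FU a Y' x) :
    ∃ k : Gc, ∀ᶠ p in 𝓝 (x, (0 : ℝ)), Y' p = k • Y p := by
  obtain ⟨σ, s1, s2, s3, s4⟩ := fib_inv h.up
  have c : Tendsto (fun q : (Fin n → ℝ) × ℝ => (q.1, σ q)) (𝓝 (x, Y (x, 0))) (𝓝 (x, 0)) := by
    have := (continuousAt_fst.prodMk s1.sm.continuousAt).tendsto
    rwa [s2] at this
  have up : Up (fun q => Y' (q.1, σ q)) (x, Y (x, 0)) := s1.comp (by rw [s2]; exact h'.up)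
  have hor := eq_of_hor (G := fun q => Y' (q.1, σ q)) (x := x) (u := Y (x, 0)) (by
    filter_upwards [up, s1, s3.eventually_nhds, c.eventually h, c.eventually h']
      with q h1 h2 h3 h4 h5
    refine ⟨h1.1, fun v => ?_⟩
    have d := dd_fib h2.1 h4.1.1 (v, 0)
    rw [dd_congr h3, dd_snd, dd_split] at d
    have d' : dd (v, ∑ i, a (q.1, σ q) i * v i) Y (q.1, σ q) = 0 := h4.1.2.2 v
    rw [dd_split] at d'
    have e : dd (v, 0) σ q = ∑ i, a (q.1, σ q) i * v i :=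
      mul_right_cancel₀ h4.2.ne' (by linarith)
    rw [dd_fib h2.1 h5.1.1, e]
    exact h5.1.2.2 v)
  obtain ⟨k, hk⟩ := exists_ext sAff up.locDiff
  have c' : Tendsto (fun q : (Fin n → ℝ) × ℝ => (q.1, Y q)) (𝓝 (x, 0)) (𝓝 (x, Y (x, 0))) :=
    continuousAt_fst.prodMk h.up.sm.continuousAt
  refine ⟨k, ?_⟩
  filter_upwards [s4, c'.eventually hor, h.up.sm.continuousAt.eventually hk] with p h1 h2 h3
  simp only [h1] at h2
  exact h2.trans h3.symm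

/-- the chart given by a first integral -/
def oc (Y : (Fin n → ℝ) × ℝ → ℝ) (y : Fin n → ℝ) : Om := og fun t => Y (y, t)

lemma ev_oc (h : Up Y (x, 0)) : ev (oc Y x) = Y (x, 0) := ev_og h.locDiff

lemma oc_smul (h : Up Y (x, 0)) {k : Gc} (e : ∀ᶠ p in 𝓝 (x, (0 : ℝ)), Y' p = k • Y p) :
    ∀ᶠ y in 𝓝 x, oc Y' y = k • oc Y y := by
  filter_upwards [(tend_in x).eventually h.ev, (tend_in x).eventually e.eventually_nhds]
    with y h1 h2
  exact og_smul h1.locDiff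
    ((show Continuous fun t : ℝ => (y, t) by fun_prop).continuousAt.eventually h2)

lemma FU.lo (h : FU a Y x) (h' : FU a Y' x) : Lo x (oc Y) (oc Y') :=
  (h.unique h').imp fun _ hk => oc_smul h.up hk

/-- over `V`, the structure `F` is the one given by the first integrals of `a` -/
def Rep (a : (Fin n → ℝ) × ℝ → Fin n → ℝ) (F : St (Fin n → ℝ)) (V : Set (Fin n → ℝ)) : Prop :=
  ∀ x ∈ V, ∃ Y, FU a Y x ∧ F.ch x (oc Y)

variable {F F' : St (Fin n → ℝ)} {V : Set (Fin n → ℝ)}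

lemma Rep.ch (h : Rep a F V) (hx : x ∈ V) (hY : FU a Y x) : F.ch x (oc Y) := by
  obtain ⟨Z, h1, h2⟩ := h x hx
  exact (F.rel h2).mpr (h1.lo hY)

theorem exists_rep (h : IsFol a) : ∃ F, Rep a F univ := by
  choose Y hY using exists_fu h
  refine ⟨mkSt (fun x => oc (Y x)) (fun x => ?_) fun x => (hY x).ev.mono fun y hy => hy.lo (hY y),
    fun x _ => ⟨Y x, hY x, mkSt_ch _ _ _ x⟩⟩
  refine (fz_sm (hY x).up.sm).continuousAt.congr ?_
  exact ((tend_in x).eventually (hY x).up.ev).mono fun y hy => (ev_oc hy).symm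

lemma fu_zero (h : ∀ᶠ p in 𝓝 (x, (0 : ℝ)), a p = 0) : FU a (fun q => q.2) x :=
  h.mono fun p hp => by
    have : 0 < dd (0, 1) (fun q : (Fin n → ℝ) × ℝ => q.2) p := by rw [dd_snd]; exact one_pos
    refine ⟨⟨contDiffAt_snd, this.ne', fun v => ?_⟩, this⟩
    rw [fderiv_snd, hp]
    simp

lemma oc_snd : oc (fun q : (Fin n → ℝ) × ℝ => q.2) = fun _ => o0 := funext fun _ => og_id

/-- the structure is trivial where the foliation is horizontal -/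
lemma Rep.ag_triv (h : Rep a F V) {S : Set (Fin n → ℝ)} (hS : S ⊆ V)
    (h0 : ∀ x ∈ S, ∀ᶠ p in 𝓝 (x, (0 : ℝ)), a p = 0) : Ag F triv S :=
  ag_of_ch fun x hx => ⟨_, _, h.ch (hS hx) (fu_zero (h0 x hx)), triv_ch x o0,
    .of_forall fun y => congrFun oc_snd y⟩

lemma Rep.ag (h : Rep a F V) (h' : Rep a F' V) : Ag F F' V :=
  ag_of_ch fun x hx => (h x hx).elim fun _ hY =>
    ⟨_, _, hY.2, h'.ch hx hY.1, .of_forall fun _ => rfl⟩

/-- the slope field of the level sets -/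
def sl (Y : (Fin n → ℝ) × ℝ → ℝ) (p : (Fin n → ℝ) × ℝ) (i : Fin n) : ℝ :=
  -dd (Pi.single i 1, 0) Y p / dd (0, 1) Y p

lemma FU.sl_eq (h : FU a Y x) : a =ᶠ[𝓝 (x, 0)] sl Y :=
  h.mono fun _ hp => funext fun i => hp.1.slope i

lemma Up.fu (h : Up Y (x, 0)) : FU (sl Y) Y x :=
  h.mono fun p hp => ⟨⟨hp.1, hp.2.ne', fun v => by
    have e : dd (v, 0) Y p = ∑ i, v i * dd (Pi.single i 1, 0) Y p := by
      have : ((v, 0) : (Fin n → ℝ) × ℝ) = ∑ i, v i • ((Pi.single i 1 : Fin n → ℝ), (0 : ℝ)) := by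
        refine Prod.ext ?_ ?_
        · simp only [Prod.fst_sum, Prod.smul_fst]
          exact pi_eq_sum_univ' v
        · simp [Prod.snd_sum]
      rw [dd, this, map_sum]
      simp only [map_smul, smul_eq_mul, dd]
    change dd _ Y p = 0
    rw [dd_split, e, Finset.sum_mul, ← Finset.sum_add_distrib]
    refine Finset.sum_eq_zero fun i _ => ?_
    have := hp.2.ne'
    rw [sl]
    field_simp
    ring⟩, hp.2⟩

lemma sl_smul (h : Up Y (x, 0)) {k : Gc} (e : ∀ᶠ p in 𝓝 (x, (0 : ℝ)), Y' p = k • Y p) :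
    sl Y' =ᶠ[𝓝 (x, 0)] sl Y := by
  filter_upwards [h, e.eventually_nhds] with p h1 h2
  ext i
  have := (fn_pos k (Y p)).ne'
  rw [sl, sl, dd_congr h2, dd_congr h2, dd_fn k h1.1, dd_fn k h1.1]
  field_simp

end

end Pool.Agent.P.MP_7bb7e1_gt.H.A
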