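import Pool.Agent.P.MP_7bb7e1_gt.H.GDef

/-! Geometry of the doubled grid. -/

namespace Pool.Agent.P.MP_7bb7e1_gt.H

open Pool.Agent.P.MP_7bb7e1_gt.D Filter Topology Set

noncomputable section

variable {n p q p' q' : ℕ}

lemma grid_sta_fract (t : ℝ) :
    sta t = t / 2 + (min 1 (2 * Int.fract (t / 2)) - Int.fract (t / 2)) := by
  have e : t - 2 * (⌊t / 2⌋ : ℝ) = 2 * Int.fract (t / 2) := by
    rw [Int.fract]; ring
  rw [sta, e, Int.fract]
  ring

lemma grid_sta_lo {c : ℤ} {t : ℝ} (h1 : 2 * (c : ℝ) ≤ t) (h2 : t ≤ 2 * c + 1) : sta t = t - c := by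
  have e : ⌊t / 2⌋ = c := Int.floor_eq_iff.mpr ⟨by linarith, by linarith⟩
  rw [sta, e, min_eq_right (by linarith)]
  ring

lemma grid_sta_hi {c : ℤ} {t : ℝ} (h1 : 2 * (c : ℝ) + 1 ≤ t) (h2 : t ≤ 2 * c + 2) :
    sta t = c + 1 := by
  rcases h2.lt_or_eq with h2 | h2
  · have e : ⌊t / 2⌋ = c := Int.floor_eq_iff.mpr ⟨by linarith, by linarith⟩
    rw [sta, e, min_eq_left (by linarith)]
  · have := grid_sta_lo (c := c + 1) (t := t) (by push_cast; linarith) (by push_cast; linarith)
    rw [this]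
    push_cast
    linarith

lemma grid_le_pt {a : Fin (p + 1) → Zn n} {m : Fin n} {c : ℤ} (h : ∀ i, c ≤ a i m) (u : Sx p) :
    (c : ℝ) ≤ pt a u m := by
  rw [pt_apply]
  calc (c : ℝ) = ∑ i, u i * (c : ℝ) := by rw [← Finset.sum_mul, stdSimplex.sum_eq_one, one_mul]
    _ ≤ _ := Finset.sum_le_sum fun i _ =>
      mul_le_mul_of_nonneg_left (by exact_mod_cast h i) (stdSimplex.zero_le u i)

lemma grid_pt_le {a : Fin (p + 1) → Zn n} {m : Fin n} {c : ℤ} (h : ∀ i, a i m ≤ c) (u : Sx p) :
    pt a u m ≤ (c : ℝ) := by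
  rw [pt_apply]
  calc _ ≤ ∑ i, u i * (c : ℝ) := Finset.sum_le_sum fun i _ =>
      mul_le_mul_of_nonneg_left (by exact_mod_cast h i) (stdSimplex.zero_le u i)
    _ = (c : ℝ) := by rw [← Finset.sum_mul, stdSimplex.sum_eq_one, one_mul]

lemma continuous_sta : Continuous sta := by
  have h : Continuous ((fun f : ℝ => min 1 (2 * f) - f) ∘ Int.fract) :=
    ContinuousOn.comp_fract'' (by fun_prop) (by norm_num)
  have e : sta = fun t => t / 2 + ((fun f : ℝ => min 1 (2 * f) - f) ∘ Int.fract) (t / 2) :=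
    funext grid_sta_fract
  rw [e]
  exact (continuous_id.div_const 2).add (h.comp (continuous_id.div_const 2))

lemma sta_bound (t : ℝ) : |sta t - t / 2| ≤ 1 / 2 := by
  rw [grid_sta_fract, add_sub_cancel_left, abs_le]
  have h0 := Int.fract_nonneg (t / 2)
  have h1 := Int.fract_lt_one (t / 2)
  rcases le_total 1 (2 * Int.fract (t / 2)) with h | h
  · rw [min_eq_left h]; constructor <;> linarith
  · rw [min_eq_right h]; constructor <;> linarith

/-- Hints. In the coordinate `m` put `c = a 0 m`; either all `a i m = c` and `b j m ∈ {c, c + 1}`, or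
all `b j m = c + 1` and `a i m ∈ {c, c + 1}`. -/
lemma sta_jm {a : Fin (p + 1) → Zn n} {b : Fin (q + 1) → Zn n} (ha : Monotone a) (h : Nr a b)
    (z : Pz p q) (m : Fin n) : sta (jm a b z m) = pt b z.2 m := by
  have a1 : ∀ i, a 0 m ≤ a i m := fun i => ha (Fin.zero_le i) m
  have b1 : ∀ j, a 0 m ≤ b j m := fun j => (h 0 j).1 m
  have b2 : ∀ j, b j m ≤ a 0 m + 1 := fun j => (h 0 j).2 m
  have ab : ∀ i j, a i m ≤ b j m := fun i j => (h i j).1 m
  have e : jm a b z m = pt a z.1 m + pt b z.2 m := rfl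
  have x1 := grid_le_pt a1 z.1
  have x2 := grid_pt_le (c := a 0 m + 1) (fun i => (ab i 0).trans (b2 0)) z.1
  have y1 := grid_le_pt b1 z.2
  have y2 := grid_pt_le b2 z.2
  push_cast at x2 y2
  by_cases hc : ∀ i, a i m ≤ a 0 m
  · have x3 := grid_pt_le hc z.1
    rw [e, grid_sta_lo (c := a 0 m) (by linarith) (by linarith)]
    linarith
  · push Not at hc
    obtain ⟨i, hi⟩ := hc
    have y3 := grid_le_pt (c := a 0 m + 1) (fun j => le_trans (by omega) (ab i j)) z.2
    push_cast at y3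
    rw [e, grid_sta_hi (c := a 0 m) (by linarith) (by linarith)]
    linarith

lemma floor_pt {a : Fin (p + 1) → Zn n} (ha : Monotone a) (h : ∀ i j, a i ≤ a j + 1) (u : Sx p)
    (m : Fin n) : ⌊pt a u m⌋ = a (fi u) m := by
  have e : pt a u m - a (fi u) m = ∑ i, u i * ((a i m : ℝ) - a (fi u) m) := by
    simp only [pt_apply, mul_sub, Finset.sum_sub_distrib, ← Finset.sum_mul, stdSimplex.sum_eq_one,
      one_mul]
  have h1 : 0 ≤ pt a u m - a (fi u) m := by
    rw [e]
    refine Finset.sum_nonneg fun i _ => ?_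
    rcases lt_or_ge i (fi u) with hi | hi
    · rw [fi_min u hi, zero_mul]
    · have : a (fi u) m ≤ a i m := ha hi m
      exact mul_nonneg (stdSimplex.zero_le u i) (sub_nonneg.mpr (by exact_mod_cast this))
  have h2 : pt a u m - a (fi u) m < 1 := by
    rw [e, ← stdSimplex.sum_eq_one u]
    refine Finset.sum_lt_sum (fun i _ => mul_le_of_le_one_right (stdSimplex.zero_le u i) ?_)
      ⟨fi u, Finset.mem_univ _, ?_⟩
    · have : a i m ≤ a (fi u) m + 1 := h i (fi u) m
      exact sub_le_iff_le_add'.mpr (by exact_mod_cast this)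
    · rw [sub_self, mul_zero]
      exact lt_of_le_of_ne (stdSimplex.zero_le u _) (fi_ne u).symm
  exact Int.floor_eq_iff.mpr ⟨by linarith, by linarith⟩

lemma grid_sum_le_one (u : Sx p) (s : Finset (Fin (p + 1))) : ∑ i ∈ s, u i ≤ 1 := by
  rw [← stdSimplex.sum_eq_one u]
  exact Finset.sum_le_sum_of_subset_of_nonneg (Finset.subset_univ _)
    fun i _ _ => stdSimplex.zero_le u i

lemma grid_coord {a : Fin (p + 1) → Zn n} (ha : Monotone a) (h : ∀ i j, a i ≤ a j + 1) (u : Sx p)
    (m : Fin n) (c : ℤ) : ∑ i with c ≤ a i m, u i = max 0 (min 1 (pt a u m - c + 1)) := by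
  have a1 : ∀ i, a 0 m ≤ a i m := fun i => ha (Fin.zero_le i) m
  have a2 : ∀ i, a i m ≤ a 0 m + 1 := fun i => h i 0 m
  have x1 := grid_le_pt a1 u
  have x2 := grid_pt_le a2 u
  push_cast at x2
  rcases lt_trichotomy c (a 0 m + 1) with hc | hc | hc
  · have hc' : (c : ℝ) ≤ a 0 m := by exact_mod_cast (by omega : c ≤ a 0 m)
    rw [Finset.filter_true_of_mem fun i _ => le_trans (by omega) (a1 i), stdSimplex.sum_eq_one,
      min_eq_left (by linarith), max_eq_right zero_le_one]
  · have hc' : (c : ℝ) = a 0 m + 1 := by exact_mod_cast hc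
    rw [min_eq_right (by linarith), max_eq_right (by linarith), Finset.sum_filter]
    have e : pt a u m - c + 1 = ∑ i, u i * ((a i m : ℝ) - a 0 m) := by
      simp only [pt_apply, mul_sub, Finset.sum_sub_distrib, ← Finset.sum_mul,
        stdSimplex.sum_eq_one, one_mul, hc']
      ring
    rw [e]
    refine Finset.sum_congr rfl fun i _ => ?_
    have b1 := a1 i
    have b2 := a2 i
    split_ifs with hi
    · rw [show a i m = a 0 m + 1 by omega]
      push_cast
      ring
    · rw [show a i m = a 0 m by omega, sub_self, mul_zero]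
  · have hc' : (a 0 m : ℝ) + 2 ≤ c := by exact_mod_cast (by omega : a 0 m + 2 ≤ c)
    rw [Finset.filter_false_of_mem fun i _ => by have := a2 i; omega, Finset.sum_empty,
      max_eq_left (min_le_of_right_le (by linarith))]

open Classical in
lemma grid_tail_le {a : Fin (p + 1) → Zn n} {a' : Fin (p' + 1) → Zn n} (ha : Monotone a)
    (ha' : Monotone a') (h : ∀ i j, a i ≤ a j + 1) (h' : ∀ i j, a' i ≤ a' j + 1) {u : Sx p}
    {u' : Sx p'} (e : pt a u = pt a' u') (w : Zn n) :
    ∑ i with w ≤ a i, u i ≤ ∑ i with w ≤ a' i, u' i := by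
  by_cases hw : ∀ i, w ≤ a' i
  · rw [Finset.filter_true_of_mem (s := Finset.univ) fun i _ => hw i, stdSimplex.sum_eq_one]
    exact grid_sum_le_one u _
  · push Not at hw
    obtain ⟨i₀, hi₀, hmax⟩ := Finset.exists_max_image
      (Finset.univ.filter fun i => ¬w ≤ a' i) id (hw.imp fun i hi => by simpa using hi)
    have h0 : ¬w ≤ a' i₀ := (Finset.mem_filter.mp hi₀).2
    obtain ⟨m, hm⟩ : ∃ m, a' i₀ m < w m := by
      by_contra! hc
      exact h0 hc
    have e1 : (Finset.univ.filter fun i => w ≤ a' i) =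
        Finset.univ.filter fun i => w m ≤ a' i m := by
      refine Finset.filter_congr fun i _ => ⟨fun hi => hi m, fun hi => ?_⟩
      by_contra hc
      have : a' i m ≤ a' i₀ m := ha' (hmax i (by simpa using hc)) m
      omega
    rw [e1, grid_coord ha' h', ← e, ← grid_coord ha h]
    refine Finset.sum_le_sum_of_subset_of_nonneg (fun i hi => ?_) fun i _ _ => stdSimplex.zero_le u i
    exact Finset.mem_filter.mpr ⟨Finset.mem_univ _, (Finset.mem_filter.mp hi).2 m⟩

open Classical in
/-- Hints. For a lattice point `w` let `T w` be the sum of the `u i` with `w ≤ a i`, and `T m w` the sum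
of those with `w m ≤ a i m`, which is `pt a u m - w m + 1` projected to the unit interval. Then
`T w ≤ T m w`, and `T w = 1` or `T w = T m w` for some `m` (take the largest `i` with `¬ w ≤ a i`). So
`T w` depends only on the point `pt a u`. -/
lemma tail_eq {a : Fin (p + 1) → Zn n} {a' : Fin (p' + 1) → Zn n} (ha : Monotone a)
    (ha' : Monotone a') (h : ∀ i j, a i ≤ a j + 1) (h' : ∀ i j, a' i ≤ a' j + 1) {u : Sx p}
    {u' : Sx p'} (e : pt a u = pt a' u') (w : Zn n) :
    ∑ i with w ≤ a i, u i = ∑ i with w ≤ a' i, u' i := by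
  exact le_antisymm (grid_tail_le ha ha' h h' e w) (grid_tail_le ha' ha h' h e.symm w)

lemma pt_injective {a : Fin (p + 1) → Zn n} (ha : StrictMono a) (h : ∀ i j, a i ≤ a j + 1) :
    Function.Injective (pt a) := by
  classical
  intro u u' e
  ext k
  change u k = u' k
  induction k using WellFoundedGT.induction with
  | ind k ih =>
    have t := tail_eq ha.monotone ha.monotone h h e (a k)
    have e1 : (Finset.univ.filter fun i => a k ≤ a i) =
        insert k (Finset.univ.filter fun i => k < i) := by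
      ext i
      simp only [Finset.mem_filter, Finset.mem_univ, true_and, Finset.mem_insert, ha.le_iff_le]
      omega
    have e2 : ∑ i with k < i, u i = ∑ i with k < i, u' i :=
      Finset.sum_congr rfl fun i hi => ih i (Finset.mem_filter.mp hi).2
    have t' : ∑ i ∈ insert k (Finset.univ.filter fun i => k < i), u i =
        ∑ i ∈ insert k (Finset.univ.filter fun i => k < i), u' i := by
      rw [← e1]
      convert t
    rw [Finset.sum_insert (by simp), Finset.sum_insert (by simp), e2] at t'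
    exact add_right_cancel t'

lemma grid_range {a : Fin (p + 1) → Zn n} {a' : Fin (p' + 1) → Zn n} (ha : Monotone a)
    (ha' : Monotone a') (h : ∀ i j, a i ≤ a j + 1) (h' : ∀ i j, a' i ≤ a' j + 1) {u : Sx p}
    {u' : Sx p'} (e : pt a u = pt a' u') {k : Fin (p + 1)} (hu : u k ≠ 0) : ∃ l, a' l = a k := by
  classical
  have hk : 0 < u k := lt_of_le_of_ne (stdSimplex.zero_le u k) hu.symm
  have t := tail_eq ha ha' h h' e
  have hne : (Finset.univ.filter fun i => a k ≤ a' i).Nonempty := by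
    by_contra hc
    have t1 := t (a k)
    have t2 : u k ≤ ∑ i with a k ≤ a i, u i :=
      Finset.single_le_sum (f := fun i => u i) (fun i _ => stdSimplex.zero_le u i) (by simp)
    have t3 : ∑ i with a k ≤ a' i, u' i = 0 := by
      rw [Finset.not_nonempty_iff_eq_empty.mp hc, Finset.sum_empty]
    have t4 : ∑ i with a k ≤ a i, u i = ∑ i with a k ≤ a' i, u' i := by convert t1
    linarith
  obtain ⟨l, hl, hmin⟩ := Finset.exists_min_image _ id hne
  have hl' : a k ≤ a' l := (Finset.mem_filter.mp hl).2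
  refine ⟨l, ?_⟩
  by_contra hc
  have e1 : (Finset.univ.filter fun i => a' l ≤ a' i) = Finset.univ.filter fun i => a k ≤ a' i :=
    Finset.filter_congr fun i _ => ⟨fun hi => hl'.trans hi, fun hi => ha' (hmin i (by simpa using hi))⟩
  have t4 : ∑ i with a k ≤ a i, u i = ∑ i with a k ≤ a' i, u' i := by convert t (a k)
  have t5 : ∑ i with a' l ≤ a i, u i = ∑ i with a' l ≤ a' i, u' i := by convert t (a' l)
  have t6 : ∑ i with a' l ≤ a i, u i < ∑ i with a k ≤ a i, u i := by
    refine Finset.sum_lt_sum_of_subset (i := k) (fun i hi => ?_) (by simp) ?_ hk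
      fun i _ _ => stdSimplex.zero_le u i
    · exact Finset.mem_filter.mpr ⟨Finset.mem_univ _, hl'.trans (Finset.mem_filter.mp hi).2⟩
    · exact fun hi => hc (le_antisymm (Finset.mem_filter.mp hi).2 hl')
  rw [t4, t5, e1] at t6
  exact lt_irrefl _ t6

/-- an interior point determines the chain -/
lemma chain_eq {a : Fin (p + 1) → Zn n} {a' : Fin (p' + 1) → Zn n} (ha : StrictMono a)
    (ha' : StrictMono a') (h : ∀ i j, a i ≤ a j + 1) (h' : ∀ i j, a' i ≤ a' j + 1) {u : Sx p}
    {u' : Sx p'} (e : pt a u = pt a' u') (hu : ∀ i, u i ≠ 0) (hu' : ∀ i, u' i ≠ 0) :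
    (⟨p, a⟩ : Σ r, Fin (r + 1) → Zn n) = ⟨p', a'⟩ := by
  have r : range a = range a' := by
    ext w
    constructor
    · rintro ⟨k, rfl⟩
      exact grid_range ha.monotone ha'.monotone h h' e (hu k)
    · rintro ⟨k, rfl⟩
      exact grid_range ha'.monotone ha.monotone h' h e.symm (hu' k)
  have c : p = p' := by
    have c1 := Set.ncard_range_of_injective ha.injective
    have c2 := Set.ncard_range_of_injective ha'.injective
    rw [r, c2] at c1
    simpa using c1.symm
  subst c
  rw [(ha.range_inj ha').mp r]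

lemma grid_left {a : Fin (p + 1) → Zn n} {b : Fin (q + 1) → Zn n} (h : Nr a b) (i j : Fin (p + 1)) :
    a i ≤ a j + 1 := (h i 0).1.trans (h j 0).2

lemma grid_right {a : Fin (p + 1) → Zn n} {b : Fin (q + 1) → Zn n} (h : Nr a b)
    (i j : Fin (q + 1)) : b i ≤ b j + 1 := fun m => by
  have h1 : b i m ≤ a 0 m + 1 := (h 0 i).2 m
  have h2 : a 0 m ≤ b j m := (h 0 j).1 m
  change b i m ≤ b j m + 1
  omega

lemma grid_split {a : Fin (p + 1) → Zn n} {b : Fin (q + 1) → Zn n} {a' : Fin (p' + 1) → Zn n}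
    {b' : Fin (q' + 1) → Zn n} (h : Vd a b) (h' : Vd a' b') {z : Pz p q} {z' : Pz p' q'}
    (e : jm a b z = jm a' b' z') : pt a z.1 = pt a' z'.1 ∧ pt b z.2 = pt b' z'.2 := by
  have e2 : pt b z.2 = pt b' z'.2 := by
    funext m
    rw [← sta_jm h.1.monotone h.2.2, ← sta_jm h'.1.monotone h'.2.2, e]
  rw [jm_apply, jm_apply, e2] at e
  exact ⟨add_right_cancel e, e2⟩

lemma Vd.jm_injective {a : Fin (p + 1) → Zn n} {b : Fin (q + 1) → Zn n} (h : Vd a b) :
    Function.Injective (jm a b) := by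
  intro z z' e
  obtain ⟨e1, e2⟩ := grid_split h h e
  exact Prod.ext (pt_injective h.1 (grid_left h.2.2) e1) (pt_injective h.2.1 (grid_right h.2.2) e2)

lemma Vd.eq_of_jm {a : Fin (p + 1) → Zn n} {b : Fin (q + 1) → Zn n} {a' : Fin (p' + 1) → Zn n}
    {b' : Fin (q' + 1) → Zn n} (h : Vd a b) (h' : Vd a' b') {z : Pz p q} {z' : Pz p' q'}
    (e : jm a b z = jm a' b' z') (hz : z ∉ Bd p q) (hz' : z' ∉ Bd p' q') :
    (⟨p, a⟩ : Σ r, Fin (r + 1) → Zn n) = ⟨p', a'⟩ ∧
      (⟨q, b⟩ : Σ r, Fin (r + 1) → Zn n) = ⟨q', b'⟩ := by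
  obtain ⟨e1, e2⟩ := grid_split h h' e
  exact ⟨chain_eq h.1 h'.1 (grid_left h.2.2) (grid_left h'.2.2) e1 (fun i hi => hz ⟨.inl i, hi⟩)
      fun i hi => hz' ⟨.inl i, hi⟩,
    chain_eq h.2.1 h'.2.1 (grid_right h.2.2) (grid_right h'.2.2) e2 (fun i hi => hz ⟨.inr i, hi⟩)
      fun i hi => hz' ⟨.inr i, hi⟩⟩

lemma pt_incl (a : Fin (p + 2) → Zn n) (i : Fin (p + 2)) (u : Sx p) :
    pt a (incl i u) = pt (fun k => a (i.succAbove k)) u := by
  funext m
  rw [pt_apply, pt_apply, Fin.sum_univ_succAbove _ i, incl_self, zero_mul, zero_add]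
  exact Finset.sum_congr rfl fun k _ => by rw [incl_above]

end

end Pool.Agent.P.MP_7bb7e1_gt.H
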