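import Pool.Agent.P.MP_7bb7e1_gt.H.Add

/-! The homotopy addition theorem for the cube. -/

namespace Pool.Agent.P.MP_7bb7e1_gt.H

open Pool.Agent.P.MP_7bb7e1_gt.D Filter Topology Set

noncomputable section

/-- the faces of the unit cube -/
def fc {n : ℕ} (i : Fin (n + 1)) (ε : ℝ) : C(E n, E (n + 1)) :=
  ⟨fun x => Fin.insertNth i ε (cl01 x), by fun_prop⟩

/-- the tent function -/
def haNu (t : ℝ) : ℝ := max 0 (min (1 + t) (min 1 (2 - t)))

lemma haNu_cont : Continuous haNu := by
  unfold haNu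
  fun_prop

lemma haNu_nonneg (t : ℝ) : 0 ≤ haNu t := le_max_left _ _

lemma haNu_le (t : ℝ) : haNu t ≤ 1 :=
  max_le zero_le_one ((min_le_right _ _).trans (min_le_left _ _))

lemma haNu_one {t : ℝ} (h0 : 0 ≤ t) (h1 : t ≤ 1) : haNu t = 1 := by
  rw [haNu, min_eq_left (show (1 : ℝ) ≤ 2 - t by linarith), min_eq_right (by linarith),
    max_eq_right zero_le_one]

lemma haNu_lo {t : ℝ} (h : t ≤ 0) : haNu t = max 0 (min (t + 1) 1) := by
  rw [haNu, min_eq_left (show (1 : ℝ) ≤ 2 - t by linarith), add_comm]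

lemma haNu_hi {t : ℝ} (h : 1 ≤ t) : haNu t = max 0 (min (-t + 2) 1) := by
  rw [haNu, min_eq_right (show 2 - t ≤ (1 : ℝ) by linarith), min_eq_right (by linarith),
    min_eq_left (by linarith)]
  congr 1
  ring

lemma haNu_zero {t : ℝ} (h : t ≤ -1 ∨ 2 ≤ t) : haNu t = 0 := by
  refine max_eq_left ?_
  rcases h with h | h
  · exact (min_le_left _ _).trans (by linarith)
  · exact (min_le_right _ _).trans ((min_le_right _ _).trans (by linarith))

/-- the height of the tent -/
def haMu {n : ℕ} (y : E n) : ℝ := ∏ i, haNu (y i)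

lemma haMu_cont {n : ℕ} : Continuous (haMu : E n → ℝ) :=
  continuous_finsetProd _ fun i _ => haNu_cont.comp (continuous_apply i)

lemma haMu_nonneg {n : ℕ} (y : E n) : 0 ≤ haMu y :=
  Finset.prod_nonneg fun _ _ => haNu_nonneg _

lemma haMu_le {n : ℕ} (y : E n) : haMu y ≤ 1 :=
  Finset.prod_le_one (fun _ _ => haNu_nonneg _) fun _ _ => haNu_le _

lemma haMu_eq {n : ℕ} {y : E n} (i : Fin n) (h : ∀ j, j ≠ i → 0 ≤ y j ∧ y j ≤ 1) :
    haMu y = haNu (y i) :=
  Finset.prod_eq_single i (fun j _ hj => haNu_one (h j hj).1 (h j hj).2) fun h => absurd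
    (Finset.mem_univ i) h

/-- the homotopy -/
def haH {n : ℕ} : C(E n × Tm, E (n + 1)) :=
  ⟨fun z => Fin.cons (z.2.1 * haMu z.1) (cl01 z.1), by
    refine continuous_pi fun k => ?_
    refine Fin.cases ?_ (fun j => ?_) k
    · simp only [Fin.cons_zero]
      exact (continuous_subtype_val.comp continuous_snd).mul (haMu_cont.comp continuous_fst)
    · simp only [Fin.cons_succ]
      exact (continuous_apply j).comp (cl01.continuous.comp continuous_fst)⟩

/-- the end of the homotopy -/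
def haE {n : ℕ} : C(E n, E (n + 1)) := haH.comp (sl 1)

lemma haE_apply {n : ℕ} (y : E n) : haE y = Fin.cons (haMu y) (cl01 y) := by
  change (Fin.cons ((1 : ℝ) * haMu y) (cl01 y) : E (n + 1)) = _
  rw [one_mul]

/-- the faces of codimension two of the unit cube -/
def haB (n : ℕ) : Set (E n) :=
  {z | (∀ k, 0 ≤ z k ∧ z k ≤ 1) ∧ ∃ i j, i ≠ j ∧ (z i = 0 ∨ z i = 1) ∧ (z j = 0 ∨ z j = 1)}

lemma haCl_mem {n : ℕ} (y : E n) (i : Fin n) : 0 ≤ cl01 y i ∧ cl01 y i ≤ 1 :=
  ⟨le_max_left _ _, max_le zero_le_one (min_le_right _ _)⟩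

lemma haCl_eq {n : ℕ} {y : E n} {i : Fin n} (h : 0 ≤ y i ∧ y i ≤ 1) : cl01 y i = y i := by
  rw [cl01_apply, min_eq_left h.2, max_eq_right h.1]

lemma haCl_lo {n : ℕ} {y : E n} {i : Fin n} (h : y i ≤ 0) : cl01 y i = 0 := by
  rw [cl01_apply, max_eq_left ((min_le_left _ _).trans h)]

lemma haCl_hi {n : ℕ} {y : E n} {i : Fin n} (h : 1 ≤ y i) : cl01 y i = 1 := by
  rw [cl01_apply, min_eq_right h, max_eq_right zero_le_one]

lemma haCl_out {n : ℕ} {y : E n} {i : Fin n} (h : ¬(0 < y i ∧ y i < 1)) :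
    cl01 y i = 0 ∨ cl01 y i = 1 := by
  rcases not_and_or.mp h with h | h
  exacts [.inl (haCl_lo (not_lt.mp h)), .inr (haCl_hi (not_lt.mp h))]

lemma haCons_mem {n : ℕ} {y : E n} {a : ℝ} (h0 : 0 ≤ a) (h1 : a ≤ 1) (k : Fin (n + 1)) :
    0 ≤ (Fin.cons a (cl01 y) : E (n + 1)) k ∧ (Fin.cons a (cl01 y) : E (n + 1)) k ≤ 1 := by
  refine Fin.cases ?_ (fun j => ?_) k
  · simpa using ⟨h0, h1⟩
  · simpa using haCl_mem y j

lemma haCons_one {n : ℕ} {y : E n} {a : ℝ} (h : a = 0 ∨ a = 1) {i : Fin n}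
    (hi : ¬(0 < y i ∧ y i < 1)) : (Fin.cons a (cl01 y) : E (n + 1)) ∈ haB (n + 1) :=
  ⟨haCons_mem (by rcases h with h | h <;> simp [h]) (by rcases h with h | h <;> simp [h]),
    0, i.succ, (Fin.succ_ne_zero i).symm, by simpa using h, by simpa using haCl_out hi⟩

lemma haCons_two {n : ℕ} {y : E n} {a : ℝ} (h0 : 0 ≤ a) (h1 : a ≤ 1) {i j : Fin n} (hij : i ≠ j)
    (hi : ¬(0 < y i ∧ y i < 1)) (hj : ¬(0 < y j ∧ y j < 1)) :
    (Fin.cons a (cl01 y) : E (n + 1)) ∈ haB (n + 1) :=
  ⟨haCons_mem h0 h1, i.succ, j.succ, fun h => hij (Fin.succ_injective _ h),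
    by simpa using haCl_out hi, by simpa using haCl_out hj⟩

/-- the structure is trivial on the faces of codimension two -/
lemma haSkel {n : ℕ} (W : St (E (n + 1))) (h0 : ∀ i, Ag (pull (fc i 0) W) triv (oc n)ᶜ)
    (h1 : ∀ i, Ag (pull (fc i 1) W) triv (oc n)ᶜ) : Ag W triv (haB (n + 1)) := by
  refine ag_of_cover (T := fun k : Fin (n + 1) × Bool => {z | z k.1 = if k.2 then 1 else 0})
    (locallyFinite_of_finite _) (fun k => isClosed_eq (continuous_apply _) continuous_const)
    (fun z ⟨_, i, _, _, hi, _⟩ => ?_) fun k => ?_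
  · rcases hi with hi | hi
    exacts [⟨(i, false), hi⟩, ⟨(i, true), hi⟩]
  obtain ⟨i, b⟩ := k
  let r : C(E (n + 1), E n) := ⟨fun z j => z (i.succAbove j), by fun_prop⟩
  have hW : Ag (pull (fc i (if b then 1 else 0)) W) triv (oc n)ᶜ := by
    cases b
    exacts [h0 i, h1 i]
  refine (ag_pull_self (f := (fc i (if b then 1 else 0)).comp r) (fun z hz => ?_) W).symm.trans ?_
  · change Fin.insertNth i (if b then 1 else 0) (cl01 (r z)) = z
    rw [Fin.insertNth_eq_iff]
    exact ⟨hz.2.symm, funext fun j => haCl_eq (y := r z) (hz.1.1 _)⟩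
  · rw [← pull_comp]
    refine hW.pull_triv r fun z hz hoc => ?_
    obtain ⟨-, a, a', haa, ha, ha'⟩ := hz.1
    have key : ∀ a, a ≠ i → ¬(z a = 0 ∨ z a = 1) := fun a ha h => by
      obtain ⟨j, rfl⟩ := Fin.exists_succAbove_eq ha
      have := hoc j
      change 0 < z (i.succAbove j) ∧ z (i.succAbove j) < 1 at this
      rcases h with h | h <;> linarith [this.1, this.2]
    by_cases e : a = i
    · exact key a' (fun e' => haa (e.trans e'.symm)) ha'
    · exact key a e ha

/-- open unit boxes -/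
def haBx {n : ℕ} (a : Fin n → ℤ) : Set (E n) := {y | ∀ j, (a j : ℝ) < y j ∧ y j < a j + 1}

lemma haBx_pi {n : ℕ} (a : Fin n → ℤ) :
    haBx a = Set.pi univ fun j => Ioo (a j : ℝ) (a j + 1) := by
  ext y
  simp [haBx]

lemma haBx_open {n : ℕ} (a : Fin n → ℤ) : IsOpen (haBx a) :=
  haBx_pi a ▸ isOpen_set_pi finite_univ fun _ _ => isOpen_Ioo

lemma haBx_convex {n : ℕ} (a : Fin n → ℤ) : Convex ℝ (haBx a) :=
  haBx_pi a ▸ convex_pi fun _ _ => convex_Ioo _ _

lemma haBx_sub {n : ℕ} (a : Fin n → ℤ) :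
    haBx a ⊆ Icc (fun j => (a j : ℝ)) fun j => (a j : ℝ) + 1 :=
  fun _ hy => ⟨fun j => (hy j).1.le, fun j => (hy j).2.le⟩

lemma haBx_bdd {n : ℕ} (a : Fin n → ℤ) : Bornology.IsBounded (haBx a) :=
  (Metric.isBounded_Icc _ _).subset (haBx_sub a)

lemma haBx_cl {n : ℕ} {a : Fin n → ℤ} {y : E n} (h : y ∈ closure (haBx a)) (j : Fin n) :
    (a j : ℝ) ≤ y j ∧ y j ≤ a j + 1 :=
  have := closure_minimal (haBx_sub a) isClosed_Icc h
  ⟨this.1 j, this.2 j⟩

lemma haBx_disj {n : ℕ} {a b : Fin n → ℤ} (h : a ≠ b) : Disjoint (haBx a) (haBx b) := by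
  refine Set.disjoint_left.mpr fun y ha hb => h (funext fun j => ?_)
  have e1 : (a j : ℝ) < b j + 1 := (ha j).1.trans (hb j).2
  have e2 : (b j : ℝ) < a j + 1 := (hb j).1.trans (ha j).2
  have e3 : a j < b j + 1 := by exact_mod_cast e1
  have e4 : b j < a j + 1 := by exact_mod_cast e2
  omega

lemma haBx_zero (n : ℕ) : haBx (0 : Fin n → ℤ) = oc n := by
  ext y
  simp [haBx, oc]

lemma haBx_single {n : ℕ} {i : Fin n} {e : ℤ} {y : E n} :
    y ∈ haBx (Pi.single i e) ↔ ((e : ℝ) < y i ∧ y i < e + 1) ∧ ∀ j, j ≠ i → 0 < y j ∧ y j < 1 := by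
  refine ⟨fun h => ⟨by simpa using h i, fun j hj => by simpa [hj] using h j⟩, fun h j => ?_⟩
  by_cases hj : j = i
  · simpa [hj] using h.1
  · simpa [hj] using h.2 j hj

/-- the offsets of the boxes -/
def haOff {n : ℕ} : Option (Fin n × Bool) → Fin n → ℤ
  | none => 0
  | some k => Pi.single k.1 (if k.2 then 1 else -1)

lemma haOff_inj {n : ℕ} : Function.Injective (haOff : Option (Fin n × Bool) → Fin n → ℤ) := by
  have hz : ∀ k : Fin n × Bool, haOff (some k) ≠ haOff none := fun k h => by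
    have := congrFun h k.1
    rcases k with ⟨i, _ | _⟩ <;> simp [haOff] at this
  rintro (_ | k) (_ | l) h
  · rfl
  · exact absurd h.symm (hz l)
  · exact absurd h (hz k)
  · obtain ⟨i, b⟩ := k
    obtain ⟨j, b'⟩ := l
    have := congrFun h i
    by_cases e : i = j
    · subst e
      cases b <;> cases b' <;> simp [haOff] at this ⊢
    · cases b <;> simp [haOff, e] at this

/-- the motion of a neighbouring box before the permutation -/
def haU {n : ℕ} (i : Fin n) : Bool → C(E n, E n)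
  | false => trl (Pi.single i 1)
  | true => (trl (Pi.single i 2)).comp (mir i)

lemma haU_ne {n : ℕ} {i j : Fin n} (h : j ≠ i) (b : Bool) (y : E n) : haU i b y j = y j := by
  cases b <;> simp [haU, mir_apply, h]

lemma haU_false {n : ℕ} (i : Fin n) (y : E n) : haU i false y i = y i + 1 := by simp [haU]

lemma haU_true {n : ℕ} (i : Fin n) (y : E n) : haU i true y i = -y i + 2 := by
  simp [haU, mir_apply]

lemma haFace {n : ℕ} (i : Fin (n + 1)) (ε : ℝ) (y u : E (n + 1)) (hu : ∀ j, j ≠ i → u j = y j)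
    (hi : cl01 y i = ε) (hμ : haMu y = max 0 (min (u i) 1)) :
    haE y = fc i.succ ε (prm i.cycleRange.symm u) := by
  rw [haE_apply]
  change _ = (Fin.insertNth i.succ ε (cl01 (prm i.cycleRange.symm u)) : E (n + 2))
  rw [Fin.eq_insertNth_iff]
  refine ⟨by simpa using hi, funext fun l => ?_⟩
  refine Fin.cases ?_ (fun k => ?_) l
  · simp only [Fin.removeNth, Fin.succ_succAbove_zero, Fin.cons_zero, cl01_apply, prm_apply,
      Fin.cycleRange_symm_zero, hμ]
  · simp only [Fin.removeNth, Fin.succ_succAbove_succ, Fin.cons_succ, cl01_apply, prm_apply,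
      Fin.cycleRange_symm_succ, hu _ (Fin.succAbove_ne i k)]

lemma haPrm_triv {n : ℕ} {G : St (E n)} (hG : Ag G triv (oc n)ᶜ) (τ : Equiv.Perm (Fin n)) :
    Ag (pull (prm τ) G) triv (oc n)ᶜ :=
  hG.pull_triv _ fun y hy h => hy fun j => by simpa using h (τ.symm j)

lemma haOc_bdd (n : ℕ) : Bornology.IsBounded (oc n) := haBx_zero n ▸ haBx_bdd 0

/-- Hints. Put `n = m + 2`, `h (y, s) = Fin.cons (s * μ y) (cl01 y)` with
`μ y = ∏ i, max 0 (min (1 + y i) (min 1 (2 - y i)))`. At `s = 0` the pull-back of `W` is the face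
`fc 0 0`. If `μ y = 0`, or two coordinates of `y` are outside `(0, 1)`, then `h (y, s)` lies on a face
`fc (succ i) ε` over the complement of `oc`, where `W` is trivial. At `s = 1` apply `IsCls.c_sum` to
the open unit cube and its `2 n` neighbours `y i ∈ (-1, 0)`, `y i ∈ (1, 2)`; on these the pull-back is
the face `fc i.succ 0` or `fc i.succ 1` composed with `prm` of `Fin.cycleRange i` (or its inverse; sign
`(-1) ^ i`, `Fin.sign_cycleRange`), a translation and, for the second, `mir i`. -/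
theorem IsCls.ha {m : ℕ} {A : Type} [AddCommGroup A] {c : St (E (m + 2)) → A} (hc : IsCls c)
    (W : St (E (m + 3))) (h0 : ∀ i, Ag (pull (fc i 0) W) triv (oc (m + 2))ᶜ)
    (h1 : ∀ i, Ag (pull (fc i 1) W) triv (oc (m + 2))ᶜ) :
    ∑ i : Fin (m + 3), (-1 : ℤ) ^ i.1 • (c (pull (fc i 1) W) - c (pull (fc i 0) W)) = 0 := by
  classical
  have hB := haSkel W h0 h1
  let G : Fin (m + 3) → Bool → St (E (m + 2)) := fun i b => pull (fc i (if b then 1 else 0)) W
  have hG : ∀ i b, Ag (G i b) triv (oc (m + 2))ᶜ := fun i b => by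
    cases b
    exacts [h0 i, h1 i]
  let F : Option (Fin (m + 2) × Bool) → St (E (m + 2)) := fun k => k.elim (G 0 true) fun k =>
    pull (haU k.1 k.2) (pull (prm k.1.cycleRange.symm) (G k.1.succ k.2))
  have e0 : c (G 0 false) = c (pull haE W) := by
    refine hc.cc ⟨3, ht_pull haH hB (fun y hy s => ?_) (fun y => ?_) fun y => rfl⟩
    · have : ∃ i, 3 ≤ ‖y i‖ := by
        by_contra! h
        exact absurd ((pi_norm_lt_iff (by norm_num)).mpr h) (not_lt.mpr hy)
      obtain ⟨i, hi⟩ := this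
      have hi' : y i ≤ -1 ∨ 2 ≤ y i := by
        rw [Real.norm_eq_abs, le_abs] at hi
        rcases hi with hi | hi
        exacts [.inr (by linarith), .inl (by linarith)]
      have : haMu y = 0 := Finset.prod_eq_zero (Finset.mem_univ i) (haNu_zero hi')
      refine haCons_one (i := i) (.inl (by simp [this])) fun h => ?_
      rcases hi' with hi' | hi' <;> linarith [h.1, h.2]
    · change (Fin.cons ((0 : ℝ) * haMu y) (cl01 y) : E (m + 3)) = Fin.insertNth 0 0 (cl01 y)
      rw [zero_mul, Fin.insertNth_zero']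
  have e1 : c (pull haE W) = ∑ k, c (F k) := by
    refine hc.c_sum Finset.univ (fun k => haBx (haOff k)) F _ (fun _ _ => haBx_open _)
      (fun _ _ => haBx_convex _) (fun _ _ => haBx_bdd _)
      (fun _ _ _ _ h => haBx_disj (haOff_inj.ne h)) (fun k _ => ?_) (fun k _ => ?_) ?_
    · rcases k with _ | ⟨i, b⟩
      · change Ag (G 0 true) triv (haBx 0)ᶜ
        rw [haBx_zero]
        exact hG 0 true
      · refine (haPrm_triv (hG _ _) _).pull_triv _ fun y hy h => hy ?_
        refine haBx_single.mpr ⟨?_, fun j hj => by simpa only [haU_ne hj] using h j⟩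
        have := h i
        cases b
        · rw [haU_false] at this
          simp only [Bool.false_eq_true, if_false, Int.cast_neg, Int.cast_one]
          constructor <;> linarith [this.1, this.2]
        · rw [haU_true] at this
          simp only [if_true, Int.cast_one]
          constructor <;> linarith [this.1, this.2]
    · rcases k with _ | ⟨i, b⟩
      · refine ag_pull_congr (fun y hy => ?_) W
        have hy' : ∀ j, 0 ≤ y j ∧ y j ≤ 1 := fun j => by simpa [haOff] using haBx_cl hy j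
        have : haMu y = 1 := Finset.prod_eq_one fun j _ => haNu_one (hy' j).1 (hy' j).2
        rw [haE_apply, this]
        change _ = (Fin.insertNth 0 1 (cl01 y) : E (m + 3))
        rw [Fin.insertNth_zero']
      · change Ag _ (pull _ (pull _ (pull _ W))) _
        rw [pull_comp, pull_comp]
        refine ag_pull_congr (fun y hy => ?_) W
        have hy' : ∀ j, j ≠ i → 0 ≤ y j ∧ y j ≤ 1 := fun j hj => by
          simpa [haOff, hj] using haBx_cl hy j
        have hi := haBx_cl hy i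
        refine haFace i _ y (haU i b y) (fun j hj => haU_ne hj b y) ?_ ?_
        · cases b
          · exact haCl_lo (by simpa [haOff] using hi.2)
          · exact haCl_hi (by simpa [haOff] using hi.1)
        · rw [haMu_eq i hy']
          cases b
          · rw [haU_false, haNu_lo (by simpa [haOff] using hi.2)]
          · rw [haU_true, haNu_hi (by simpa [haOff] using hi.1)]
    · refine hB.pull_triv _ fun y hy => ?_
      rw [haE_apply]
      have a0 : y ∉ oc (m + 2) := haBx_zero _ ▸ hy none (Finset.mem_univ _)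
      obtain ⟨i, hi⟩ := not_forall.mp a0
      by_cases a1 : ∀ j, j ≠ i → 0 < y j ∧ y j < 1
      · refine haCons_one ?_ hi
        rw [haMu_eq i fun j hj => ⟨(a1 j hj).1.le, (a1 j hj).2.le⟩]
        have b0 : ¬((-1 : ℝ) < y i ∧ y i < 0) := fun h => hy (some (i, false)) (Finset.mem_univ _)
          (haBx_single.mpr ⟨by simpa using h, a1⟩)
        have b1 : ¬((1 : ℝ) < y i ∧ y i < 2) := fun h => hy (some (i, true)) (Finset.mem_univ _)
          (haBx_single.mpr ⟨by simpa [one_add_one_eq_two] using h, a1⟩)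
        by_cases c0 : y i ≤ -1 ∨ 2 ≤ y i
        · exact .inl (haNu_zero c0)
        · push Not at c0 b0 b1
          exact .inr (haNu_one (b0 c0.1) (by
            by_contra! h
            linarith [b1 h, c0.2]))
      · push Not at a1
        obtain ⟨j, hj, a2⟩ := a1
        exact haCons_two (haMu_nonneg y) (haMu_le y) hj (fun h => absurd h.2 (not_lt.mpr (a2 h.1)))
          hi
  have e2 : ∀ i b, c (F (some (i, b))) = (if b then -1 else 1 : ℤ) • (-1 : ℤ) ^ i.1 • c (G i.succ b) := by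
    intro i b
    have p0 := cpt_of_bdd (haOc_bdd _) (hG i.succ b)
    have p1 := cpt_of_bdd (haOc_bdd _) (haPrm_triv (hG i.succ b) i.cycleRange.symm)
    have p2 := hc.c_prm p0 i.cycleRange.symm
    rw [Equiv.Perm.sign_symm, Fin.sign_cycleRange] at p2
    push_cast at p2
    cases b
    · change c (pull (trl _) _) = _
      rw [hc.c_trl p1, p2]
      simp
    · change c (pull ((trl _).comp (mir i)) _) = _
      rw [← pull_comp, hc.c_mir (p1.cc_trl _).right, hc.c_trl p1, p2]
      simp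
  rw [e1, Fintype.sum_option, Fintype.sum_prod_type] at e0
  simp only [e2, Fintype.sum_bool] at e0
  rw [Fin.sum_univ_succ]
  change (-1 : ℤ) ^ (0 : ℕ) • (c (G 0 true) - c (G 0 false)) +
    ∑ i : Fin (m + 2), (-1 : ℤ) ^ (i.1 + 1) • (c (G i.succ true) - c (G i.succ false)) = 0
  rw [e0]
  change (-1 : ℤ) ^ (0 : ℕ) • (c (G 0 true) - (c (G 0 true) + _)) + _ = 0
  rw [pow_zero, one_smul, sub_add_cancel_left, neg_add_eq_zero]
  refine Finset.sum_congr rfl fun i _ => ?_
  simp only [if_true, Bool.false_eq_true, if_false, one_smul, pow_succ, mul_smul, smul_sub, neg_smul,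
    smul_neg]
  abel

end

end Pool.Agent.P.MP_7bb7e1_gt.H
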