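import Pool.Agent.P.MP_7bb7e1_gt.H.Cell
import Pool.Agent.P.MP_7bb7e1_gt.H.HA

/-! The cochain defined by a family that is trivial in low dimensions is a cocycle. -/

namespace Pool.Agent.P.MP_7bb7e1_gt.H

open Pool.Agent.P.MP_7bb7e1_gt.D Filter Topology Set

noncomputable section

variable {m : ℕ} {A : Type} [AddCommGroup A] {c : St (E (m + 2)) → A}
  {V : ∀ p q, Ce p q → St (Pz p q)}

/-- the cochain -/
def Ph (c : St (E (m + 2)) → A) (V : ∀ p q, Ce p q → St (Pz p q)) (p q : ℕ) : Ch p q →+ A :=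
  FreeAbelianGroup.lift fun σ => c (pull (kap (m + 2) p q) (V p q σ))

lemma Ph_of (p q : ℕ) (σ : Ce p q) :
    Ph c V p q (.of σ) = c (pull (kap (m + 2) p q) (V p q σ)) := FreeAbelianGroup.lift_apply_of _ _

/-! Hints. Apply `IsCls.ha` to `W = pull (kap (m + 3) p q) (V p q σ)`. Let `ins j ε z` insert `ε` at the
place `j` of a sequence; `ex (insertNth j ε x) = ins j ε (ex x)`, and `cl01` does not matter
(`kp_congr`). For `j ≤ r`: `kp (r + 1) (ins j 1 z) = incl j (kp r z)`,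
`kp (r + 1) (ins r 0 z) = incl (last) (kp r z)`, and for `j < r`,
`kp (r + 1) (ins j 0 z) = incl (last) (kp r (ins j 0 z))` with the last coordinate of
`kp r (ins j 0 z)` zero, so that this face is trivial by `Cmp.bd`. The faces are trivial off `oc` by
`kap_bd`, `Op_subset_oc`, `Cmp.bd`. Split the sum over `range (p + q)` at `p`. -/

/-- insertion of a term into a sequence -/
def ins (j : ℕ) (ε : ℝ) (z : ℕ → ℝ) (k : ℕ) : ℝ :=
  if k < j then z k else if k = j then ε else z (k - 1)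

lemma phi_ex {n : ℕ} (i : Fin (n + 1)) (ε : ℝ) (x : E n) :
    ex (fc i ε x) = ins i ε (ex (cl01 x)) := by
  funext k
  by_cases hk : k < n + 1
  · have key : ∀ l : Fin (n + 1), fc i ε x l = ins i ε (ex (cl01 x)) l := fun l => by
      change (Fin.insertNth i ε (cl01 x) : E (n + 1)) l = _
      refine Fin.succAboveCases i ?_ (fun l => ?_) l
      · simp [ins]
      · rw [Fin.insertNth_apply_succAbove]
        by_cases h : l.castSucc < i
        · have h' : l.1 < i.1 := h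
          simp [Fin.succAbove_of_castSucc_lt _ _ h, ins, h', ex]
        · have h' : ¬l.1 < i.1 := h
          rw [Fin.succAbove_of_le_castSucc _ _ (not_lt.mp h), ins, Fin.val_succ,
            if_neg (by omega), if_neg (by omega)]
          simp [ex]
    rw [ex, dif_pos hk]
    exact key ⟨k, hk⟩
  · have := i.2
    rw [ex, dif_neg hk, ins, if_neg (by omega), if_neg (by omega), ex, dif_neg (by omega)]

lemma phi_cl {n : ℕ} (x : E n) (k : ℕ) :
    max 0 (min (ex (cl01 x) k) 1) = max 0 (min (ex x k) 1) := by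
  unfold ex
  split_ifs with h
  · rw [cl01_apply, min_eq_left (max_le zero_le_one (min_le_right _ _)),
      max_eq_right (le_max_left _ _)]
  · rfl

lemma phi_mn_le {j k : ℕ} (ε : ℝ) (z : ℕ → ℝ) (h : k ≤ j) : mn (ins j ε z) k = mn z k := by
  induction k with
  | zero => rfl
  | succ k ih => rw [mn, mn, ih (by omega), ins, if_pos (by omega)]

lemma phi_mn_le_one (z : ℕ → ℝ) (k : ℕ) : mn z k ≤ 1 := by
  induction k with
  | zero => exact le_rfl
  | succ k ih => exact (mn_succ_le z k).trans ih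

lemma phi_mn_one {j k : ℕ} (z : ℕ → ℝ) (h : j ≤ k) : mn (ins j 1 z) (k + 1) = mn z k := by
  induction k, h using Nat.le_induction with
  | base =>
    rw [mn, phi_mn_le _ _ le_rfl, ins, if_neg (lt_irrefl _), if_pos rfl,
      max_eq_right zero_le_one, min_eq_left (phi_mn_le_one _ _)]
  | succ k h ih =>
    rw [mn, ih, ins, if_neg (by omega), if_neg (by omega)]
    rfl

lemma phi_mn_zero {j k : ℕ} (z : ℕ → ℝ) (h : j < k) : mn (ins j 0 z) k = 0 := by
  refine le_antisymm ?_ (mn_nonneg _ _)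
  induction k, h using Nat.le_induction with
  | base =>
    rw [mn, ins, if_neg (lt_irrefl _), if_pos rfl, max_self]
    exact min_le_right _ _
  | succ k h ih => exact (mn_succ_le _ k).trans ih

lemma phi_one {r : ℕ} (j : Fin (r + 2)) (hj : j.1 ≤ r) (z : ℕ → ℝ) :
    kp (r + 1) (ins j 1 z) = incl j (kp r z) := by
  ext l
  refine Fin.succAboveCases j ?_ (fun l => ?_) l
  · rw [incl_self, kp_apply, if_pos (by omega), phi_mn_le _ _ le_rfl, phi_mn_one _ le_rfl, sub_self]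
  · rw [incl_above, kp_apply, kp_apply]
    by_cases h : l.castSucc < j
    · have h' : l.1 < j.1 := h
      rw [Fin.succAbove_of_castSucc_lt _ _ h, Fin.val_castSucc, if_pos (by omega),
        if_pos (by omega), phi_mn_le _ _ h'.le, phi_mn_le _ _ h']
    · have h' : j.1 ≤ l.1 := not_lt.mp h
      rw [Fin.succAbove_of_le_castSucc _ _ (not_lt.mp h), Fin.val_succ, phi_mn_one _ h',
        phi_mn_one _ (by omega)]
      simp

lemma phi_last {r : ℕ} {z : ℕ → ℝ} (h : mn z (r + 1) = 0) :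
    kp (r + 1) z = incl (Fin.last _) (kp r z) := by
  ext l
  refine Fin.succAboveCases (Fin.last _) ?_ (fun l => ?_) l
  · rw [incl_self, kp_apply]
    simp [h]
  · rw [incl_above, kp_apply, kp_apply, Fin.succAbove_last, Fin.val_castSucc, if_pos l.2]
    split_ifs with h'
    · rfl
    · rw [show l.1 = r by omega, h]

lemma phi_kp_ins {r j : ℕ} (h : r ≤ j) (ε : ℝ) (z : ℕ → ℝ) : kp r (ins j ε z) = kp r z :=
  kp_congr fun k hk => by rw [ins, if_pos (by omega)]

lemma phi_zero (r : ℕ) (z : ℕ → ℝ) : kp (r + 1) (ins r 0 z) = incl (Fin.last _) (kp r z) := by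
  rw [phi_last (phi_mn_zero _ (Nat.lt_succ_self r)), phi_kp_ins le_rfl]

lemma phi_low {r j : ℕ} (h : j < r) (z : ℕ → ℝ) :
    ∃ u : Sx r, u (Fin.last r) = 0 ∧ kp (r + 1) (ins j 0 z) = incl (Fin.last _) u :=
  ⟨kp r (ins j 0 z), by simp [kp_apply, phi_mn_zero _ h],
    phi_last (phi_mn_zero _ (by omega))⟩

lemma phi_sh_lt {p j : ℕ} (h : j ≤ p) (ε : ℝ) (z : ℕ → ℝ) : sh (p + 1) (ins j ε z) = sh p z := by
  funext k
  rw [sh, sh, ins, if_neg (by omega), if_neg (by omega)]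
  congr 1
  omega

lemma phi_sh_ge (p j : ℕ) (ε : ℝ) (z : ℕ → ℝ) : sh p (ins (p + j) ε z) = ins j ε (sh p z) := by
  funext k
  simp only [sh, ins, Nat.add_lt_add_iff_left, Nat.add_left_cancel_iff]
  split_ifs with h1 h2
  · rfl
  · rfl
  · congr 1
    omega

lemma phi_kp_cl {n : ℕ} (r : ℕ) (x : E n) : kp r (ex (cl01 x)) = kp r (ex x) :=
  kp_congr fun _ _ => phi_cl _ _

lemma phi_kp_cl' {n : ℕ} (r p : ℕ) (x : E n) : kp r (sh p (ex (cl01 x))) = kp r (sh p (ex x)) :=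
  kp_congr fun _ _ => phi_cl _ _

/-- the faces of the pull-back to the cube -/
def phF (m : ℕ) (V : ∀ p q, Ce p q → St (Pz p q)) {p q : ℕ} (σ : Ce p q) (i : ℕ) (ε : ℝ) :
    St (E (m + 2)) :=
  pull ((kap (m + 3) p q).comp (fc (Fin.ofNat (m + 3) i) ε)) (V p q σ)

lemma phi_pt {p q i : ℕ} (h : i < m + 3) (ε : ℝ) (x : E (m + 2)) :
    (kap (m + 3) p q).comp (fc (Fin.ofNat (m + 3) i) ε) x =
      (kp p (ins i ε (ex (cl01 x))), kp q (sh p (ins i ε (ex (cl01 x))))) := by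
  rw [ContinuousMap.comp_apply, kap_apply, phi_ex, Fin.val_ofNat, Nat.mod_eq_of_lt h]

section Faces

variable (hV : Cmp (m + 3) V) (h0 : ∀ p q σ, p + q < m + 2 → V p q σ = triv) {p q : ℕ}

include hV

lemma phi_h1 (h : p + 1 + q = m + 3) (σ : Ce (p + 1) q) (j : Fin (p + 2)) (hj : j.1 ≤ p) :
    phF m V σ j 1 = pull (kap (m + 2) p q) (V p q ((face j).comp σ)) := by
  rw [phF, hV.1 p q h.le, pull_comp]
  refine pull_congr (fun x => ?_) _
  rw [phi_pt (by omega), phi_one j hj, phi_sh_lt hj, phi_kp_cl, phi_kp_cl']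
  rfl

lemma phi_h0 (h : p + 1 + q = m + 3) (σ : Ce (p + 1) q) :
    phF m V σ p 0 = pull (kap (m + 2) p q) (V p q ((face (Fin.last _)).comp σ)) := by
  rw [phF, hV.1 p q h.le, pull_comp]
  refine pull_congr (fun x => ?_) _
  rw [phi_pt (by omega), phi_zero, phi_sh_lt le_rfl, phi_kp_cl, phi_kp_cl']
  rfl

lemma phi_v1 (h : p + (q + 1) = m + 3) (σ : Ce p (q + 1)) (j : Fin (q + 2)) (hj : j.1 ≤ q) :
    phF m V σ (p + j) 1 = pull (kap (m + 2) p q) (V p q (σ.comp (incl j))) := by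
  rw [phF, hV.2 p q h.le, pull_comp]
  refine pull_congr (fun x => ?_) _
  rw [phi_pt (by omega), phi_kp_ins (Nat.le_add_right _ _), phi_sh_ge, phi_one j hj, phi_kp_cl,
    phi_kp_cl']
  rfl

lemma phi_v0 (h : p + (q + 1) = m + 3) (σ : Ce p (q + 1)) :
    phF m V σ (p + q) 0 = pull (kap (m + 2) p q) (V p q (σ.comp (incl (Fin.last _)))) := by
  rw [phF, hV.2 p q h.le, pull_comp]
  refine pull_congr (fun x => ?_) _
  rw [phi_pt (by omega), phi_kp_ins (Nat.le_add_right _ _), phi_sh_ge, phi_zero, phi_kp_cl,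
    phi_kp_cl']
  rfl

include h0

lemma phi_hz (h : p + 1 + q = m + 3) (σ : Ce (p + 1) q) {j : ℕ} (hj : j < p) :
    phF m V σ j 0 = triv := by
  obtain ⟨d, hd, -⟩ := exists_dg (Fin.last (p + 1))
  have key : Ag (V (p + 1) q σ) triv {z | ∃ u ∈ Bd p q, z = fh (Fin.last _) u} := by
    refine (ag_pull_self (f := (fh (Fin.last _)).comp (d.prodMap (ContinuousMap.id _)))
      (fun z hz => ?_) _).symm.trans ?_
    · obtain ⟨u, -, rfl⟩ := hz
      exact Prod.ext (congrArg (incl _) (hd u.1)) rfl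
    rw [← pull_comp, ← hV.1 p q h.le]
    refine (hV.bd h0 (by omega) (by omega) _).pull_triv _ ?_
    rintro _ ⟨u, hu, rfl⟩
    change (d (incl _ u.1), u.2) ∈ _
    rwa [hd]
  rw [phF, key.pull_eq _ fun x => ?_, pull_triv]
  obtain ⟨u, h1, h2⟩ := phi_low hj (ex (cl01 x))
  exact ⟨(u, _), ⟨.inl (Fin.last p), h1⟩, by rw [phi_pt (by omega), h2]; rfl⟩

lemma phi_vz (h : p + (q + 1) = m + 3) (σ : Ce p (q + 1)) {j : ℕ} (hj : j < q) :
    phF m V σ (p + j) 0 = triv := by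
  obtain ⟨d, hd, -⟩ := exists_dg (Fin.last (q + 1))
  have key : Ag (V p (q + 1) σ) triv {z | ∃ u ∈ Bd p q, z = fv (Fin.last _) u} := by
    refine (ag_pull_self (f := (fv (Fin.last _)).comp ((ContinuousMap.id _).prodMap d))
      (fun z hz => ?_) _).symm.trans ?_
    · obtain ⟨u, -, rfl⟩ := hz
      exact Prod.ext rfl (congrArg (incl _) (hd u.2))
    rw [← pull_comp, ← hV.2 p q h.le]
    refine (hV.bd h0 (by omega) (by omega) _).pull_triv _ ?_
    rintro _ ⟨u, hu, rfl⟩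
    change (u.1, d (incl _ u.2)) ∈ _
    rwa [hd]
  rw [phF, key.pull_eq _ fun x => ?_, pull_triv]
  obtain ⟨u, h1, h2⟩ := phi_low hj (sh p (ex (cl01 x)))
  exact ⟨(_, u), ⟨.inr (Fin.last q), h1⟩, by rw [phi_pt (by omega), phi_sh_ge, h2]; rfl⟩

lemma phi_oc (h : p + q = m + 2) (σ : Ce p q) :
    Ag (pull (kap (m + 2) p q) (V p q σ)) triv (oc (m + 2))ᶜ :=
  (hV.bd h0 h.le (by omega) σ).pull_triv _ fun _ hx => kap_bd fun h' => hx (Op_subset_oc h h')

lemma phi_ag (h : p + q = m + 3) (σ : Ce p q) {i : ℕ} (hi : i < m + 3) :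
    Ag (phF m V σ i 0) triv (oc (m + 2))ᶜ ∧ Ag (phF m V σ i 1) triv (oc (m + 2))ᶜ := by
  rcases lt_or_ge i p with h1 | h1
  · obtain ⟨p, rfl⟩ : ∃ r, p = r + 1 := ⟨p - 1, by omega⟩
    refine ⟨?_, (phi_h1 hV h σ ⟨i, by omega⟩ (by simpa using h1)).symm ▸ phi_oc hV h0 (by omega) _⟩
    rcases (Nat.le_of_lt_succ h1).eq_or_lt with rfl | h2
    · exact (phi_h0 hV h σ).symm ▸ phi_oc hV h0 (by omega) _
    · exact (phi_hz hV h0 h σ h2).symm ▸ .refl _ _
  · obtain ⟨j, rfl⟩ := Nat.exists_eq_add_of_le h1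
    obtain ⟨q, rfl⟩ : ∃ r, q = r + 1 := ⟨q - 1, by omega⟩
    have h2 : j ≤ q := by omega
    refine ⟨?_, (phi_v1 hV h σ ⟨j, by omega⟩ h2).symm ▸ phi_oc hV h0 (by omega) _⟩
    rcases h2.eq_or_lt with rfl | h2
    · exact (phi_v0 hV h σ).symm ▸ phi_oc hV h0 (by omega) _
    · exact (phi_vz hV h0 h σ h2).symm ▸ .refl _ _

omit hV h0 in
lemma phi_sum {r : ℕ} (a : Fin (r + 2) → A) (u v : ℕ → A)
    (hu : ∀ j : Fin (r + 2), j.1 ≤ r → u j = a j) (hv : ∀ j < r, v j = 0)
    (hr : v r = a (Fin.last _)) :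
    ∑ j ∈ Finset.range (r + 1), (-1 : ℤ) ^ j • (u j - v j) = ∑ j, (-1 : ℤ) ^ j.1 • a j := by
  rw [Fin.sum_univ_castSucc, ← Finset.sum_congr rfl fun j _ =>
    congrArg _ (hu (Fin.castSucc j) (Nat.le_of_lt_succ j.2))]
  simp only [Fin.val_castSucc, smul_sub, Finset.sum_sub_distrib, Fin.val_last]
  rw [Fin.sum_univ_eq_sum_range (fun j => (-1 : ℤ) ^ j • u j), Finset.sum_range_succ (n := r)
    (fun j => (-1 : ℤ) ^ j • v j), Finset.sum_eq_zero (s := Finset.range r) fun j hj => by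
      rw [hv j (Finset.mem_range.mp hj), smul_zero], hr, pow_succ]
  simp [sub_eq_add_neg]

variable (hc : IsCls c)

include hc

lemma phi_tot (h : p + q = m + 3) (σ : Ce p q) :
    ∑ i ∈ Finset.range p, (-1 : ℤ) ^ i • (c (phF m V σ i 1) - c (phF m V σ i 0)) +
      (-1 : ℤ) ^ p • ∑ j ∈ Finset.range q,
        (-1 : ℤ) ^ j • (c (phF m V σ (p + j) 1) - c (phF m V σ (p + j) 0)) = 0 := by
  have e : ∀ (i : Fin (m + 3)) ε, pull (fc i ε) (pull (kap (m + 3) p q) (V p q σ)) =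
      phF m V σ i ε := fun i ε => by
    rw [phF, pull_comp, Fin.ofNat_val_eq_self]
  have := hc.ha (pull (kap (m + 3) p q) (V p q σ)) (fun i => e i 0 ▸ (phi_ag hV h0 h σ i.2).1)
    fun i => e i 1 ▸ (phi_ag hV h0 h σ i.2).2
  simp only [e] at this
  rw [Fin.sum_univ_eq_sum_range
    (fun i => (-1 : ℤ) ^ i • (c (phF m V σ i 1) - c (phF m V σ i 0))), ← h,
    Finset.sum_range_add] at this
  simpa only [Finset.smul_sum, smul_smul, pow_add] using this

lemma phi_left (h : p + 1 + q = m + 3) (σ : Ce (p + 1) q) :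
    ∑ i ∈ Finset.range (p + 1), (-1 : ℤ) ^ i • (c (phF m V σ i 1) - c (phF m V σ i 0)) =
      Ph c V p q (dh (.of σ)) := by
  rw [phi_sum (fun j => Ph c V p q (.of ((face j).comp σ))) (fun i => c (phF m V σ i 1))
    (fun i => c (phF m V σ i 0)) (fun j hj => by rw [phi_h1 hV h σ j hj, Ph_of])
    (fun j hj => by rw [phi_hz hV h0 h σ hj, hc.c_triv]) (by rw [phi_h0 hV h σ, Ph_of]), dh,
    FreeAbelianGroup.lift_apply_of, map_sum]
  simp only [map_zsmul]

lemma phi_right (h : p + (q + 1) = m + 3) (σ : Ce p (q + 1)) :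
    ∑ j ∈ Finset.range (q + 1), (-1 : ℤ) ^ j •
      (c (phF m V σ (p + j) 1) - c (phF m V σ (p + j) 0)) = Ph c V p q (dv (.of σ)) := by
  rw [phi_sum (fun j => Ph c V p q (.of (σ.comp (incl j)))) (fun i => c (phF m V σ (p + i) 1))
    (fun i => c (phF m V σ (p + i) 0)) (fun j hj => by rw [phi_v1 hV h σ j hj, Ph_of])
    (fun j hj => by rw [phi_vz hV h0 h σ hj, hc.c_triv]) (by rw [phi_v0 hV h σ, Ph_of]), dv,
    FreeAbelianGroup.lift_apply_of, map_sum]
  simp only [map_zsmul]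

end Faces

theorem ph_hv (hc : IsCls c) (hV : Cmp (m + 3) V) (h0 : ∀ p q σ, p + q < m + 2 → V p q σ = triv)
    {p q : ℕ} (h : p + 1 + (q + 1) = m + 3) (z : Ch (p + 1) (q + 1)) :
    Ph c V p (q + 1) (dh z) + (-1 : ℤ) ^ (p + 1) • Ph c V (p + 1) q (dv z) = 0 := by
  induction z using FreeAbelianGroup.induction_on with
  | zero => simp
  | of σ => rw [← phi_left hV h0 hc h, ← phi_right hV h0 hc h, phi_tot hV h0 hc h]
  | neg σ ih => rw [map_neg, map_neg, map_neg, map_neg, smul_neg, ← neg_add, ih, neg_zero]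
  | add x y h1 h2 =>
    rw [map_add, map_add, map_add, map_add, smul_add, add_add_add_comm, h1, h2, add_zero]

theorem ph_h (hc : IsCls c) (hV : Cmp (m + 3) V) (h0 : ∀ p q σ, p + q < m + 2 → V p q σ = triv)
    (z : Ch (m + 3) 0) : Ph c V (m + 2) 0 (dh z) = 0 := by
  induction z using FreeAbelianGroup.induction_on with
  | zero => simp
  | of σ =>
    rw [← phi_left hV h0 hc (add_zero _)]
    simpa using phi_tot hV h0 hc (add_zero _) σ
  | neg σ ih => rw [map_neg, map_neg, ih, neg_zero]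
  | add x y h1 h2 => rw [map_add, map_add, h1, h2, add_zero]

theorem ph_v (hc : IsCls c) (hV : Cmp (m + 3) V) (h0 : ∀ p q σ, p + q < m + 2 → V p q σ = triv)
    (z : Ch 0 (m + 3)) : Ph c V 0 (m + 2) (dv z) = 0 := by
  induction z using FreeAbelianGroup.induction_on with
  | zero => simp
  | of σ =>
    rw [← phi_right hV h0 hc (zero_add _)]
    simpa using phi_tot hV h0 hc (zero_add _) σ
  | neg σ ih => rw [map_neg, map_neg, ih, neg_zero]
  | add x y h1 h2 => rw [map_add, map_add, h1, h2, add_zero]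

end

end Pool.Agent.P.MP_7bb7e1_gt.H
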