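import Pool.Agent.P.MP_7bb7e1_gt.H.GDef

/-! The top cells tile euclidean space. -/

namespace Pool.Agent.P.MP_7bb7e1_gt.H

open Pool.Agent.P.MP_7bb7e1_gt.D Filter Topology Set

noncomputable section

variable {n p : ℕ} {v : Zn n} {τ : Equiv.Perm (Fin n)}

lemma top_vt_lt (v : Zn n) (τ : Equiv.Perm (Fin n)) {k l : ℕ} (h : k < l) (hk : k < n) :
    vt v τ k < vt v τ l := by
  refine lt_of_le_of_ne (vt_mono v τ h.le) fun e => ?_
  have := congrFun e (τ ⟨k, hk⟩)
  simp [vt, h] at this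

lemma vd_top (v : Zn n) (τ : Equiv.Perm (Fin n)) (hp : p ≤ n) :
    Vd (ta v τ p) (tb v τ p (n - p)) := by
  refine ⟨fun i j h => ?_, fun i j h => ?_, nr_top v τ p (n - p)⟩
  · have h' : i.1 < j.1 := h
    exact top_vt_lt v τ h' (by omega)
  · have h' : i.1 < j.1 := h
    exact top_vt_lt v τ (by omega) (by omega)

lemma top_pt {q : ℕ} (v : Zn n) (τ : Equiv.Perm (Fin n)) (f : Fin (q + 1) → ℕ) (u : Sx q)
    (k : Fin n) :
    pt (fun i => vt v τ (f i)) u (τ k) = v (τ k) + ∑ i : Fin (q + 1) with k.1 < f i, u i := by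
  rw [pt_apply, Finset.sum_filter]
  have : (v (τ k) : ℝ) = ∑ i, u i * v (τ k) := by
    rw [← Finset.sum_mul, stdSimplex.sum_eq_one, one_mul]
  rw [this, ← Finset.sum_add_distrib]
  refine Finset.sum_congr rfl fun i _ => ?_
  simp only [vt, Equiv.symm_apply_apply]
  split_ifs <;> push_cast <;> ring

/-- Hints. In the coordinate `τ k` the first summand is `v (τ k) + io u k` and the second is
`v (τ k) + 1` for `k < p` and `v (τ k) + io s (k - p)` otherwise; `io_of_le`, `iot_kap`. -/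
lemma jm_km (hp : p ≤ n) {y : E n} (hy : y ∈ Ct v τ p) :
    jm (ta v τ p) (tb v τ p (n - p)) (km v τ p y) = y := by
  funext m
  obtain ⟨k, rfl⟩ := τ.surjective m
  have h := congrFun (iot_kap (p := p) (q := n - p) (by omega) hy) k
  rw [am_apply] at h
  change (if k.1 < p then io (km v τ p y).1 k else io (km v τ p y).2 (k - p)) = _ at h
  generalize km v τ p y = z at h
  have h1 : pt (ta v τ p) z.1 (τ k) = v (τ k) + io z.1 k := top_pt v τ (fun i => i.1) z.1 k
  have h2 : pt (tb v τ p (n - p)) z.2 (τ k) =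
      v (τ k) + ∑ i : Fin (n - p + 1) with k.1 < p + i.1, z.2 i :=
    top_pt v τ (fun i => p + i.1) z.2 k
  rw [jm_apply, Pi.add_apply, h1, h2]
  split_ifs at h with hk
  · rw [Finset.filter_true_of_mem fun i _ => by omega, stdSimplex.sum_eq_one]
    linarith
  · have e : ∑ i : Fin (n - p + 1) with k.1 < p + i.1, z.2 i = io z.2 (k - p) :=
      Finset.sum_congr (Finset.filter_congr fun i _ => by omega) fun _ _ => rfl
    rw [e, io_of_le z.1 (by omega)]
    linarith

/-- Hints. `v m = ⌊y m / 2⌋`, sort the `y m - 2 * v m` decreasingly (`Tuple.sort`), `p` is the number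
of those that are at least one; `mem_Cp`. -/
lemma exists_Ct (y : E n) : ∃ v τ, ∃ p ≤ n, y ∈ Ct v τ p := by
  classical
  let v : Zn n := fun m => ⌊y m / 2⌋
  let w : Fin n → ℝ := fun m => y m - 2 * (v m : ℝ)
  have w0 : ∀ m, 0 ≤ w m := fun m => by
    have := Int.floor_le (y m / 2)
    simp only [w, v]
    linarith
  have w2 : ∀ m, w m < 2 := fun m => by
    have := Int.lt_floor_add_one (y m / 2)
    simp only [w, v]
    linarith
  let τ := Tuple.sort fun m => -w m
  have ha : ∀ k l : Fin n, k ≤ l → w (τ l) ≤ w (τ k) := fun k l h =>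
    neg_le_neg_iff.mp (Tuple.monotone_sort (fun m => -w m) h)
  have hex : ∃ p : ℕ, ∀ h : p < n, w (τ ⟨p, h⟩) < 1 := ⟨n, fun h => absurd h (lt_irrefl n)⟩
  have hp : Nat.find hex ≤ n := Nat.find_min' hex fun h => absurd h (lt_irrefl n)
  have h1 : ∀ k : Fin n, k.1 < Nat.find hex → 1 ≤ w (τ k) := fun k hk =>
    not_lt.mp fun h => Nat.find_min hex hk fun _ => h
  have h2 : ∀ k : Fin n, Nat.find hex ≤ k.1 → w (τ k) < 1 := fun k hk =>
    (ha ⟨_, hk.trans_lt k.2⟩ k hk).trans_lt (Nat.find_spec hex _)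
  refine ⟨v, τ, Nat.find hex, hp, ?_⟩
  generalize Nat.find hex = p at hp h1 h2
  have e : ∀ k : Fin n, am v τ p y k = w (τ k) - if k.1 < p then 1 else 0 := fun k => by
    rw [am_apply]
    simp only [w]
    ring
  refine (mem_Cp (by omega)).mpr ⟨fun k => ?_, fun k l hkl h => ?_⟩
  · rw [e]
    split_ifs with hk
    · constructor <;> linarith [h1 k hk, w2 (τ k)]
    · constructor <;> linarith [h2 k (by omega), w0 (τ k)]
  · have hkl' : k.1 ≤ l.1 := hkl
    rw [e, e]
    have := ha k l hkl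
    split_ifs <;> first | linarith | omega

lemma Ct_bound (hp : p ≤ n) {y : E n} (hy : y ∈ Ct v τ p) (m : Fin n) :
    2 * (v m : ℝ) ≤ y m ∧ y m ≤ 2 * v m + 2 := by
  obtain ⟨k, rfl⟩ := τ.surjective m
  have h := Cp_mem (p := p) (q := n - p) (by omega) hy k
  rw [am_apply] at h
  split_ifs at h <;> constructor <;> linarith [h.1, h.2]

/-- finitely many lattice points in a ball -/
lemma finite_cst (R : ℝ) : {v : Zn n | ‖cst v‖ < R}.Finite := by
  refine (Set.finite_Icc (fun _ => -⌈R⌉) fun _ => ⌈R⌉).subset fun v hv => ?_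
  have h : ∀ m, |(v m : ℝ)| ≤ (⌈R⌉ : ℝ) := fun m =>
    ((norm_le_pi_norm (cst v) m).trans (le_of_lt hv)).trans (Int.le_ceil R)
  refine ⟨fun m => ?_, fun m => ?_⟩
  · have := (abs_le.mp (h m)).1
    exact_mod_cast this
  · have := (abs_le.mp (h m)).2
    exact_mod_cast this

lemma locallyFinite_Ct : LocallyFinite fun c : Zn n × Equiv.Perm (Fin n) × Fin (n + 1) =>
    Ct c.1 c.2.1 c.2.2 := by
  intro y
  refine ⟨Metric.ball y 1, Metric.ball_mem_nhds y one_pos, ?_⟩
  refine ((finite_cst (n := n) (‖y‖ + 3)).prod finite_univ).subset ?_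
  rintro ⟨v, τ, p⟩ ⟨z, hz, hzy⟩
  refine ⟨?_, mem_univ _⟩
  have hy := norm_nonneg y
  refine (pi_norm_lt_iff (by linarith)).mpr fun m => ?_
  have h1 := Ct_bound (Nat.lt_succ_iff.mp p.2) hz m
  have h2 : ‖z‖ < ‖y‖ + 1 := norm_lt_of_mem_ball hzy
  have h3 : |z m| ≤ ‖z‖ := norm_le_pi_norm z m
  have h4 := abs_le.mp h3
  change |(v m : ℝ)| < _
  rw [abs_lt]
  constructor <;> linarith [h1.1, h1.2, h4.1, h4.2]

lemma isClosed_Ct : IsClosed (Ct v τ p) := isClosed_Cp.preimage (am v τ p).continuous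

lemma isOpen_Ot : IsOpen (Ot v τ p) := isOpen_Op.preimage (am v τ p).continuous

lemma Ot_subset_Ct : Ot v τ p ⊆ Ct v τ p := preimage_mono Op_subset_Cp

lemma convex_Ot : Convex ℝ (Ot v τ p) := by
  intro x hx y hy a b ha hb hab
  have e : am v τ p (a • x + b • y) = a • am v τ p x + b • am v τ p y := by
    funext k
    simp only [am_apply, Pi.add_apply, Pi.smul_apply, smul_eq_mul]
    linear_combination (2 * (v (τ k) : ℝ) + if k.1 < p then 1 else 0) * hab
  change am v τ p (a • x + b • y) ∈ Op n p (n - p)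
  rw [e]
  exact convex_Op hx hy ha hb hab

lemma isBounded_Ct (hp : p ≤ n) : Bornology.IsBounded (Ct v τ p) :=
  (Metric.isBounded_Icc (fun m => 2 * (v m : ℝ)) fun m => 2 * (v m : ℝ) + 2).subset fun _ hy =>
    ⟨fun m => (Ct_bound hp hy m).1, fun m => (Ct_bound hp hy m).2⟩

lemma top_Ot (hp : p ≤ n) {y : E n} (hy : y ∈ Ot v τ p) :
    (∀ m, 2 * (v m : ℝ) < y m ∧ y m < 2 * v m + 2) ∧
      (∀ k : Fin n, k.1 < p ↔ 1 < y (τ k) - 2 * v (τ k)) ∧
        StrictMono fun k => 2 * (v (τ k) : ℝ) - y (τ k) := by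
  obtain ⟨h1, h2⟩ := (mem_Op (p := p) (q := n - p) (by omega)).mp hy
  simp only [am_apply] at h1 h2
  refine ⟨fun m => ?_, fun k => ?_, fun k l hkl => ?_⟩
  · obtain ⟨k, rfl⟩ := τ.surjective m
    have h := h1 k
    split_ifs at h <;> constructor <;> linarith [h.1, h.2]
  · have h := h1 k
    split_ifs at h with hk
    · exact ⟨fun _ => by linarith [h.1], fun _ => hk⟩
    · exact ⟨fun h' => absurd h' hk, fun h' => by linarith [h.2]⟩
  · have hkl' : k.1 < l.1 := hkl
    have a1 := h1 k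
    have a2 := h1 l
    have a3 := h2 k l hkl
    beta_reduce
    by_cases hk : k.1 < p <;> by_cases hl : l.1 < p
    · have := a3 (Or.inl hl)
      simp only [hk, hl, if_true] at this
      linarith
    · simp only [hk, hl, if_true, if_false] at a1 a2
      linarith [a1.1, a2.2]
    · omega
    · have := a3 (Or.inr (by omega))
      simp only [hk, hl, if_false] at this
      linarith

lemma Ot_unique {p' : ℕ} {v' : Zn n} {τ' : Equiv.Perm (Fin n)} (hp : p ≤ n) (hp' : p' ≤ n) {y : E n}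
    (hy : y ∈ Ot v τ p) (hy' : y ∈ Ot v' τ' p') : v = v' ∧ τ = τ' ∧ p = p' := by
  obtain ⟨a1, a2, a3⟩ := top_Ot hp hy
  obtain ⟨b1, b2, b3⟩ := top_Ot hp' hy'
  have hv : v = v' := by
    funext m
    have c1 : (v m : ℝ) < v' m + 1 := by linarith [(a1 m).1, (b1 m).2]
    have c2 : (v' m : ℝ) < v m + 1 := by linarith [(b1 m).1, (a1 m).2]
    have d1 : v m < v' m + 1 := by exact_mod_cast c1
    have d2 : v' m < v m + 1 := by exact_mod_cast c2
    omega
  subst hv
  have hτ : τ = τ' := by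
    let w : Fin n → ℝ := fun m => 2 * (v m : ℝ) - y m
    have e : w ∘ τ = w ∘ τ' := (StrictMono.range_inj a3 b3).mp (by
      change range (w ∘ τ) = range (w ∘ τ')
      rw [τ.surjective.range_comp, τ'.surjective.range_comp])
    have hw : Function.Injective w := (Function.Injective.of_comp_iff' w τ.bijective).mp a3.injective
    exact Equiv.ext fun k => hw (congrFun e k)
  subst hτ
  refine ⟨rfl, rfl, ?_⟩
  by_contra h
  rcases lt_or_gt_of_ne h with h | h
  · exact lt_irrefl p ((a2 ⟨p, by omega⟩).mpr ((b2 ⟨p, by omega⟩).mp h))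
  · exact lt_irrefl p' ((b2 ⟨p', by omega⟩).mpr ((a2 ⟨p', by omega⟩).mp h))

lemma norm_vt (v : Zn n) (τ : Equiv.Perm (Fin n)) (k : ℕ) : ‖cst (vt v τ k) - cst v‖ ≤ 1 := by
  refine (pi_norm_le_iff_of_nonneg zero_le_one).mpr fun m => ?_
  simp only [cst, vt, Pi.sub_apply]
  split_ifs <;> simp

end

end Pool.Agent.P.MP_7bb7e1_gt.H
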