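import Pool.Agent.P.MP_7bb7e1_gt.H.Univ
import Pool.Agent.P.MP_7bb7e1_gt.H.Grid
import Pool.Agent.P.MP_7bb7e1_gt.H.Top
import Pool.Agent.P.MP_7bb7e1_gt.H.Phi

/-! The class of a structure as a sum over the top cells. -/

namespace Pool.Agent.P.MP_7bb7e1_gt.H

open Pool.Agent.P.MP_7bb7e1_gt.D Filter Topology Set

noncomputable section

lemma realB_sum_sign {n : ℕ} (hn : 2 ≤ n) :
    ∑ τ : Equiv.Perm (Fin n), (Equiv.Perm.sign τ : ℤ) = 0 := by
  have hne : (⟨0, by omega⟩ : Fin n) ≠ ⟨1, by omega⟩ := by simp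
  have h := Equiv.sum_comp (Equiv.mulLeft (Equiv.swap (⟨0, by omega⟩ : Fin n) ⟨1, by omega⟩))
    fun τ : Equiv.Perm (Fin n) => (Equiv.Perm.sign τ : ℤ)
  simp only [Equiv.coe_mulLeft, Equiv.Perm.sign_mul, Equiv.Perm.sign_swap hne,
    Units.val_neg, neg_mul, one_mul, Finset.sum_neg_distrib] at h
  omega

lemma realB_far {n : ℕ} {ψ : Zn n → E n → Om} {R : ℝ}
    (hR : ∀ v, R ≤ ‖cst v‖ → ψ v = fun _ => o0) {v : Zn n} (hv : ¬‖cst v‖ < R + 1)
    (τ : Equiv.Perm (Fin n)) (p q : ℕ) : cell ψ (ta v τ p) (tb v τ p q) = tc p q := by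
  refine cell_far (fun i => hR _ ?_) _
  have h1 := norm_vt v τ i
  have h2 := norm_sub_norm_le (cst v) (cst (vt v τ i))
  rw [norm_sub_rev] at h2
  change R ≤ ‖cst (vt v τ i)‖
  linarith [not_lt.mp hv]

lemma realB_support {n : ℕ} (hn : 2 ≤ n) {ψ : Zn n → E n → Om} {R : ℝ}
    (hR : ∀ v, R ≤ ‖cst v‖ → ψ v = fun _ => o0) (p q : ℕ) :
    Function.support (wv ψ p q) ⊆ {v | ‖cst v‖ < R + 1} := by
  intro v hv
  by_contra h
  refine hv ?_
  simp only [wv, realB_far hR h]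
  rw [← Finset.sum_smul, realB_sum_sign hn, zero_smul]

lemma GD.wv_finite {n : ℕ} (hn : 2 ≤ n) {F : St (E n)} {ψ : Zn n → E n → Om} (h : GD F ψ)
    (p q : ℕ) : (Function.support (wv ψ p q)).Finite := by
  obtain ⟨R, hR⟩ := h.far
  exact (finite_cst (R + 1)).subset (realB_support hn hR p q)

lemma realB_piece {m : ℕ} {A : Type} [AddCommGroup A] {c : St (E (m + 2)) → A} (hc : IsCls c)
    {V : ∀ p q, Ce p q → St (Pz p q)} (hV : Cmp (m + 2) V)
    (h0 : ∀ p q σ, p + q < m + 2 → V p q σ = triv) (v : Zn (m + 2))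
    (τ : Equiv.Perm (Fin (m + 2))) {p : ℕ} (hp : p ≤ m + 2) (σ : Ce p (m + 2 - p)) :
    c (pull (km v τ p) (V p (m + 2 - p) σ)) =
      (Equiv.Perm.sign τ : ℤ) • Ph c V p (m + 2 - p) (.of σ) := by
  have e : p + (m + 2 - p) = m + 2 := by omega
  have hb : Bornology.IsBounded (Op (m + 2) p (m + 2 - p)) :=
    (Metric.isBounded_Icc (0 : E (m + 2)) 1).subset fun x hx =>
      ⟨fun k => (Cp_mem e (Op_subset_Cp hx) k).1, fun k => (Cp_mem e (Op_subset_Cp hx) k).2⟩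
  have hX : Cpt (pull (kap (m + 2) p (m + 2 - p)) (V p (m + 2 - p) σ)) :=
    cpt_of_bdd hb ((hV.bd h0 e.le e.le σ).pull_triv _ fun y hy => kap_bd hy)
  rw [km, ← pull_comp, am, ← pull_comp, hc.c_prm (hX.cc_trl _).right, hc.c_trl hX, Ph_of]

/-- Hints. `IsCls.c_sum` over the cells `(v, τ, p)` with `‖cst v‖ < R + 1`, open sets `Ot`; each piece is
trivial off `Ot` (`kap_bd`, `Cmp.bd`), its class is `sign τ` times `Ph` (`c_trl`, `c_prm`,
`pull_comp`); `closure_minimal Ot_subset_Ct isClosed_Ct`; off the union use `ag_of_cover` with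
`locallyFinite_Ct`, far cells are `tc`. Then `finsum_eq_sum_of_support_subset`. -/
theorem real_sum {m : ℕ} {A : Type} [AddCommGroup A] {c : St (E (m + 2)) → A} (hc : IsCls c)
    {F : St (E (m + 2))} {ψ : Zn (m + 2) → E (m + 2) → Om} (h : GD F ψ)
    {V : ∀ p q, Ce p q → St (Pz p q)} (hV : Cmp (m + 2) V)
    (h0 : ∀ p q σ, p + q < m + 2 → V p q σ = triv) (ht : ∀ p q, V p q (tc p q) = triv)
    {G : St (E (m + 2))} (hG : Rl ψ G V) :
    c G = ∑ p ∈ Finset.range (m + 3), Ph c V p (m + 2 - p) (wch ψ p (m + 2 - p)) := by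
  classical
  obtain ⟨R, hR⟩ := h.far
  set T : Finset (Zn (m + 2)) := (finite_cst (R + 1)).toFinset with hT
  have mT : ∀ v, v ∈ T ↔ ‖cst v‖ < R + 1 := fun v => by simp [hT]
  set s : Finset (ℕ × Zn (m + 2) × Equiv.Perm (Fin (m + 2))) :=
    Finset.range (m + 3) ×ˢ T ×ˢ Finset.univ with hs
  have ms : ∀ i, i ∈ s ↔ i.1 ≤ m + 2 ∧ ‖cst i.2.1‖ < R + 1 := fun i => by
    simp [hs, mT, Nat.lt_succ_iff]
  have off : ∀ v τ p, p ≤ m + 2 → ∀ σ, Ag (pull (km v τ p) (V p (m + 2 - p) σ)) triv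
      (Ot v τ p)ᶜ := fun v τ p hp σ =>
    (hV.bd h0 (by omega) (by omega) σ).pull_triv _ fun y hy => kap_bd hy
  have key := hc.c_sum s (fun i => Ot i.2.1 i.2.2 i.1)
    (fun i => pull (km i.2.1 i.2.2 i.1) (V i.1 (m + 2 - i.1)
      (cell ψ (ta i.2.1 i.2.2 i.1) (tb i.2.1 i.2.2 i.1 (m + 2 - i.1))))) G
    (fun i _ => isOpen_Ot) (fun i _ => convex_Ot)
    (fun i hi => (isBounded_Ct ((ms i).mp hi).1).subset Ot_subset_Ct)
    (fun i hi j hj hij => Set.disjoint_left.mpr fun y a b => hij (by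
      obtain ⟨e1, e2, e3⟩ := Ot_unique ((ms i).mp hi).1 ((ms j).mp hj).1 a b
      exact Prod.ext e3 (Prod.ext e1 e2)))
    (fun i hi => off _ _ _ ((ms i).mp hi).1 _)
    (fun i hi => (hG _ _ _ ((ms i).mp hi).1).mono (closure_minimal Ot_subset_Ct isClosed_Ct))
    (ag_of_cover locallyFinite_Ct (fun i => isClosed_Ct)
      (fun x _ => by
        obtain ⟨v, τ, p, hp, hx⟩ := exists_Ct x
        exact ⟨(v, τ, ⟨p, by omega⟩), hx⟩)
      fun i => by
        obtain ⟨v, τ, p⟩ := i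
        have hp : p.1 ≤ m + 2 := by omega
        refine ((hG v τ p hp).mono inter_subset_right).trans ?_
        by_cases hv : ‖cst v‖ < R + 1
        · exact (off v τ p hp _).mono fun x hx => hx.1 (p.1, v, τ) ((ms _).mpr ⟨hp, hv⟩)
        · rw [realB_far hR hv, ht, pull_triv]
          exact .refl _ _)
  rw [key, hs, Finset.sum_product]
  refine Finset.sum_congr rfl fun p hp => ?_
  have hp' : p ≤ m + 2 := Nat.lt_succ_iff.mp (Finset.mem_range.mp hp)
  rw [wch, finsum_eq_sum_of_support_subset (s := T) _ (by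
    rw [hT, Set.Finite.coe_toFinset]
    exact realB_support (by omega) hR _ _), map_sum, Finset.sum_product]
  refine Finset.sum_congr rfl fun v _ => ?_
  rw [wv, map_sum]
  refine Finset.sum_congr rfl fun τ _ => ?_
  rw [map_zsmul]
  exact realB_piece hc hV h0 v τ hp' _

end

end Pool.Agent.P.MP_7bb7e1_gt.H
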