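import Pool.Agent.P.MP_7bb7e1_gt.H.Stokes
import Pool.Agent.P.MP_7bb7e1_gt.H.RealB
import Pool.Agent.P.MP_7bb7e1_gt.H.Edge

/-! The Godbillon-Vey number is the value of the cocycle on the chain of the grid. -/

namespace Pool.Agent.P.MP_7bb7e1_gt.H

open Pool.Agent.P.MP_7bb7e1_gt.D Filter Topology Set
open scoped ContDiff

noncomputable section

/-- the last edge of a simplex of the unit cube -/
def gviLn (v : Zn 3) (τ : Equiv.Perm (Fin 3)) (s : ℝ) : E 3 :=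
  cst (vt v τ 2) + s • Pi.single (τ 2) 1

lemma gvi_pt (v : Zn 3) (τ : Equiv.Perm (Fin 3)) (u : Sx 1) :
    pt (tb v τ 2 1) u = gviLn v τ (u 1) := by
  have h1 : u 0 + u 1 = 1 := (Fin.sum_univ_two _).symm.trans (stdSimplex.sum_eq_one u)
  have h0 : u 0 = 1 - u 1 := by linarith
  ext m
  have h3 : (τ.symm m).1 < 3 := (τ.symm m).2
  rw [pt_apply, Fin.sum_univ_two, h0]
  simp only [gviLn, tb, vt, cst, Pi.add_apply, Pi.smul_apply, smul_eq_mul, Fin.val_zero,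
    Fin.val_one, add_zero, Nat.reduceAdd, if_pos h3]
  by_cases hm : m = τ 2
  · subst hm
    simp
    ring
  · have h2 : (τ.symm m).1 < 2 := by
      by_contra h
      exact hm (τ.symm_apply_eq.mp (Fin.ext (by simp only [Fin.val_two]; omega)))
    rw [if_pos h2, Pi.single_eq_of_ne hm]
    ring

lemma gvi_near (v : Zn 3) (τ : Equiv.Perm (Fin 3)) {s : ℝ} (hs : s ∈ Icc (0 : ℝ) 1) (i : Fin 3) :
    ‖gviLn v τ s - cst (vt v τ i)‖ ≤ 2 := by
  let u : Sx 1 := ⟨![1 - s, s], fun j => by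
    fin_cases j
    · exact sub_nonneg.mpr hs.2
    · exact hs.1, by simp⟩
  have := (nr_top v τ 2 1).norm_le i u
  rw [gvi_pt] at this
  exact this.trans one_le_two

lemma gvi_der (v : Zn 3) (τ : Equiv.Perm (Fin 3)) (s : ℝ) :
    HasDerivAt (gviLn v τ) (Pi.single (τ 2) 1) s := by
  have := ((hasDerivAt_id s).smul_const (Pi.single (τ 2) (1 : ℝ) : E 3)).const_add
    (cst (vt v τ 2))
  rwa [one_smul] at this

lemma gvi_smooth (v : Zn 3) (τ : Equiv.Perm (Fin 3)) : ContDiff ℝ ∞ (gviLn v τ) :=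
  contDiff_const.add (contDiff_id.smul contDiff_const)

lemma gvi_cover (x : E 3) : ∃ v : Zn 3, ‖x - cst v‖ ≤ 2 := by
  refine ⟨fun i => ⌊x i⌋, (pi_norm_le_iff_of_nonneg zero_le_two).mpr fun i => ?_⟩
  change |x i - (⌊x i⌋ : ℝ)| ≤ 2
  rw [abs_le]
  constructor <;> linarith [Int.floor_le (x i), Int.lt_floor_add_one (x i)]

lemma gvi_lg_snd : lg (Prod.snd : E 3 × ℝ → ℝ) = fun _ => 0 := by
  ext x
  simp [lg, fderiv_snd]

lemma gvi_cell {I : Ch 2 1 →+ ℝ} (hI : IsGV I) {a : E 3 × ℝ → E 3} {F : St (E 3)}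
    {Y : Zn 3 → E 3 × ℝ → ℝ} (hY : ∀ v x, ‖x - cst v‖ ≤ 2 → FI a (Y v) x)
    (hG : GD F fun v => oy (Y v)) (v : Zn 3) (τ : Equiv.Perm (Fin 3)) :
    I (.of (cell (fun v => oy (Y v)) (ta v τ 2) (tb v τ 2 1))) =
      ∫ s in (0 : ℝ)..1, (fun x => (lg (Y (vt v τ 2)) x - lg (Y (vt v τ 1)) x) *
        (dd (τ 2) (lg (Y (vt v τ 1))) x - dd (τ 2) (lg (Y (vt v τ 0))) x))
          (cst (vt v τ 2) + s • Pi.single (τ 2) 1) := by
  have hf : ∀ s ∈ Icc (0 : ℝ) 1, ∀ i : Fin 3, FI a (Y (vt v τ i)) (gviLn v τ s) :=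
    fun s hs i => hY _ _ (gvi_near v τ hs i)
  rw [edge hI _ (fun s => Y (vt v τ 0) (gviLn v τ s, 0))
    (fun s => lg (Y (vt v τ 1)) (gviLn v τ s) - lg (Y (vt v τ 0)) (gviLn v τ s))
    (fun s => lg (Y (vt v τ 2)) (gviLn v τ s) - lg (Y (vt v τ 1)) (gviLn v τ s))]
  · refine intervalIntegral.integral_congr fun s hs => ?_
    rw [uIcc_of_le zero_le_one] at hs
    have d : ∀ i : Fin 3, HasDerivAt (fun s => lg (Y (vt v τ i)) (gviLn v τ s))
        (dd (τ 2) (lg (Y (vt v τ i))) (gviLn v τ s)) s := fun i =>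
      ((hf s hs i).1.lg_smooth.differentiableAt (by simp)).hasFDerivAt.comp_hasDerivAt s
        (gvi_der v τ s)
    exact congrArg _ ((d 1).sub (d 0)).deriv
  · intro s₀ hs
    have f0 : FI a (Y (vt v τ 0)) (gviLn v τ s₀) := hf s₀ hs 0
    have f1 : FI a (Y (vt v τ 1)) (gviLn v τ s₀) := hf s₀ hs 1
    have f2 : FI a (Y (vt v τ 2)) (gviLn v τ s₀) := hf s₀ hs 2
    obtain ⟨f, ef⟩ := f0.trans f1
    obtain ⟨g, eg⟩ := f1.trans f2
    refine ⟨f, g, ?_⟩
    have c := (gvi_smooth v τ).continuous.tendsto s₀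
    filter_upwards [c.eventually f0.ev, c.eventually (f0.1.lg_smul ef),
      c.eventually (f1.1.lg_smul eg), c.eventually (ev_base ef), c.eventually (f0.1.oy_smul ef),
      c.eventually (f1.1.oy_smul eg)] with s a0 a1 a2 a3 a4 a5
    refine ⟨?_, a1, by rw [a2, a3], fun u hu => ?_⟩
    · exact (a0.1.self_of_nhds.1.comp s
        ((gvi_smooth v τ).prodMk contDiff_const).contDiffAt).of_le (by simp)
    · rw [hG.cell_apply (nr_top v τ 2 1), gvi_pt, hu, ← a0.1.ev_oy]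
      refine nv_eq fun i => ?_
      fin_cases i
      · exact (one_smul _ _).symm
      · exact a4
      · exact a5.trans (by rw [a4, ← mul_smul]; rfl)

/-- Hints. `stokes` with `b = et a`, `g v = lg (Y v)`; `edge` for each cell, with `FI.trans`,
`Sv.oy_smul`, `nv_eq`, `Sv.lg_smul`, `GD.cell_apply`; `AddMonoidHom.map_finsum`, `GD.wv_finite`. -/
theorem gv_wch {I : Ch 2 1 →+ ℝ} (hI : IsGV I) {a : E 3 × ℝ → E 3} {F : St (E 3)}
    (hF : ∀ x Y, FI a Y x → F.ch x (oy Y)) (hc : HF.IsCpt a) {Y : Zn 3 → E 3 × ℝ → ℝ}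
    (hY : ∀ v x, ‖x - cst v‖ ≤ 2 → FI a (Y v) x)
    (h0 : ∃ R : ℝ, ∀ v, R ≤ ‖cst v‖ → Y v = Prod.snd) :
    I (wch (fun v => oy (Y v)) 2 1) = HF.gv a := by
  have hG : GD F fun v => oy (Y v) :=
    ⟨fun v x h => hF x _ (hY v x h), h0.imp fun R hR v hv => by rw [hR v hv, oy_snd]⟩
  rw [gv_eq, stokes (et a) (fun v => lg (Y v))
    (fun i => contDiff_iff_contDiffAt.mpr fun x =>
      (gvi_cover x).elim fun v hv => (hY v x hv).et_smooth i)
    (hc.imp fun R hR i x hx => et_zero (hR x hx) i) (fun v x h => (hY v x h).1.lg_smooth)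
    (h0.imp fun R hR v hv => by rw [hR v hv, gvi_lg_snd]) (fun v x h => (hY v x h).p1)
    (fun v w x h h' => (hY v x h).p2 (hY w x h')),
    wch, I.map_finsum (hG.wv_finite (by norm_num) 2 1)]
  refine finsum_congr fun v => ?_
  rw [wv, map_sum]
  refine Finset.sum_congr rfl fun τ _ => ?_
  rw [map_zsmul, gvi_cell hI hY hG]

end

end Pool.Agent.P.MP_7bb7e1_gt.H
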