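import Pool.Agent.P.MP_7bb7e1_gt.H.Hur
import Pool.Agent.P.MP_7bb7e1_gt.H.End
import Pool.Agent.P.MP_7bb7e1_gt.H.GvI
import Pool.Agent.P.MP_7bb7e1_gt.D.Bridge

/-! Foliations with the same Godbillon-Vey number are concordant. -/

namespace Pool.Agent.P.MP_7bb7e1_gt.H

open Pool.Agent.P.MP_7bb7e1_gt.D Filter Topology Set

noncomputable section

theorem exists_model {I : Ch 2 1 →+ ℝ} (hI : IsGV I) {a : E 3 × ℝ → E 3} (h : HF.IsFol a)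
    (hc : HF.IsCpt a) : ∃ F F' : St (E 3), (∀ x, ∃ Y, FI a Y x ∧ F.ch x (oy Y)) ∧ Cc F F' ∧
      ∃ ψ, GD F' ψ ∧ I (wch ψ 2 1) = HF.gv a := by
  rw [isFol_iff] at h
  obtain ⟨F, hF⟩ := exists_st h
  obtain ⟨R, hR⟩ := hc
  obtain ⟨δ, hδ, Y, h1, R', h2⟩ := exists_grid (fun x Y => FI a Y x) Prod.snd
    (fun x => (h x).imp fun _ hY => hY.ev) ⟨R, fun x hx => fi_snd (hR x hx)⟩
  have h3 : ∀ x, ∃ Y, FI (sc δ a) Y x := fun x => (h (δ • x)).elim fun _ hY => ⟨_, hY.sc⟩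
  obtain ⟨F', hF'⟩ := exists_st h3
  have e : pull (scl δ) F = F' := St.ext' fun x => (h (δ • x)).elim fun Y hY =>
    ⟨_, St.pull_ch (scl δ) (hF _ Y hY), hF' x _ hY.sc⟩
  have hC : Cpt F := ⟨R, ag_of_ch fun x hx => ⟨_, _, hF x _ (fi_snd (hR x hx)), triv_ch x o0,
    .of_forall fun y => by rw [oy_snd]⟩⟩
  have h4 : ∀ v, R' ≤ ‖cst v‖ → (fun p : E 3 × ℝ => Y v (δ • p.1, p.2)) = Prod.snd :=
    fun v hv => by rw [h2 v hv]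
  refine ⟨F, F', fun x => (h x).imp fun Y hY => ⟨hY, hF x Y hY⟩, e ▸ hC.cc_scl hδ,
    fun v => oy fun p => Y v (δ • p.1, p.2), ⟨fun v x hx => hF' x _ (h1 v x hx).sc, R',
      fun v hv => by rw [h4 v hv, oy_snd]⟩, ?_⟩
  rw [gv_wch hI hF' ⟨R / δ, fun x hx => ?_⟩ (fun v x hx => (h1 v x hx).sc) ⟨R', h4⟩, gv_sc h hδ]
  have h5 : R ≤ ‖δ • x‖ := by
    rw [norm_smul, Real.norm_of_nonneg hδ.le]
    exact (div_le_iff₀' hδ).mp hx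
  have h6 : Tendsto (fun p : E 3 × ℝ => (δ • p.1, p.2)) (𝓝 (x, 0)) (𝓝 (δ • x, 0)) :=
    (by fun_prop : Continuous fun p : E 3 × ℝ => (δ • p.1, p.2)).tendsto (x, 0)
  exact (h6.eventually (hR _ h5)).mono fun p hp => by rw [sc, hp, smul_zero]

theorem conc_of_gv {a₀ a₁ : E 3 × ℝ → E 3} (h0 : HF.IsFol a₀) (h1 : HF.IsFol a₁)
    (c0 : HF.IsCpt a₀) (c1 : HF.IsCpt a₁) (e : HF.gv a₀ = HF.gv a₁) : HF.Conc a₀ a₁ := by
  obtain ⟨I, hI, -⟩ := D.main.1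
  obtain ⟨F₀, G₀, a1, a2, ψ₀, a3, a4⟩ := exists_model hI h0 c0
  obtain ⟨F₁, G₁, b1, b2, ψ₁, b3, b4⟩ := exists_model hI h1 c1
  exact conc_of_cc a1 b1 c0 c1 (a2.trans ((cc_three s_perf D.main hI a3 b3
    (a4.trans (e.trans b4.symm))).trans b2.symm))

end

end Pool.Agent.P.MP_7bb7e1_gt.H
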