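import Pool.Agent.P.MP_7bb7e1_gt.H.Cell

/-! Lattice points, chains and the cells of the doubled grid. -/

namespace Pool.Agent.P.MP_7bb7e1_gt.H

open Pool.Agent.P.MP_7bb7e1_gt.D Filter Topology Set

noncomputable section

variable {n p q : ℕ}

/-- lattice points -/
abbrev Zn (n : ℕ) : Type := Fin n → ℤ

/-- a lattice point as a real point -/
def cst (v : Zn n) : E n := fun i => (v i : ℝ)

/-- the vertices of the simplex of the unit cube at `v` given by the order `τ` of the directions -/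
def vt (v : Zn n) (τ : Equiv.Perm (Fin n)) (k : ℕ) : Zn n :=
  fun m => v m + if (τ.symm m).1 < k then 1 else 0

/-- the affine simplex with vertices `b` -/
def pt (b : Fin (q + 1) → Zn n) : C(Sx q, E n) :=
  ⟨fun s => ∑ j, s j • cst (b j),
    continuous_finsetSum _ fun j _ => (cont_coord j).smul continuous_const⟩

lemma pt_apply (b : Fin (q + 1) → Zn n) (s : Sx q) (m : Fin n) :
    pt b s m = ∑ j, s j * (b j m : ℝ) := by
  change (∑ j, s j • cst (b j)) m = _
  simp [Finset.sum_apply, cst]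

/-- the tuples `a`, `b` lie in one unit cube, `a` below `b` -/
def Nr (a : Fin (p + 1) → Zn n) (b : Fin (q + 1) → Zn n) : Prop :=
  ∀ i j, a i ≤ b j ∧ b j ≤ a i + 1

/-- pairs of chains -/
def Vd (a : Fin (p + 1) → Zn n) (b : Fin (q + 1) → Zn n) : Prop :=
  StrictMono a ∧ StrictMono b ∧ Nr a b

/-- the front chain of a top cell -/
def ta (v : Zn n) (τ : Equiv.Perm (Fin n)) (p : ℕ) (i : Fin (p + 1)) : Zn n := vt v τ i

/-- the back chain of a top cell -/
def tb (v : Zn n) (τ : Equiv.Perm (Fin n)) (p q : ℕ) (j : Fin (q + 1)) : Zn n := vt v τ (p + j)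

/-- the parametrisation of a cell -/
def jm (a : Fin (p + 1) → Zn n) (b : Fin (q + 1) → Zn n) : C(Pz p q, E n) :=
  ⟨fun z => pt a z.1 + pt b z.2, by fun_prop⟩

lemma jm_apply (a : Fin (p + 1) → Zn n) (b : Fin (q + 1) → Zn n) (z : Pz p q) :
    jm a b z = pt a z.1 + pt b z.2 := rfl

/-- the affine map from a top cell to the standard prism -/
def am (v : Zn n) (τ : Equiv.Perm (Fin n)) (p : ℕ) : C(E n, E n) :=
  (trl fun k => -(2 * (v (τ k) : ℝ) + if k.1 < p then 1 else 0)).comp (prm τ)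

lemma am_apply (v : Zn n) (τ : Equiv.Perm (Fin n)) (p : ℕ) (y : E n) (k : Fin n) :
    am v τ p y k = y (τ k) - (2 * (v (τ k) : ℝ) + if k.1 < p then 1 else 0) :=
  (sub_eq_add_neg _ _).symm

/-- the projection onto the prism of a top cell -/
def km (v : Zn n) (τ : Equiv.Perm (Fin n)) (p : ℕ) : C(E n, Pz p (n - p)) :=
  (kap n p (n - p)).comp (am v τ p)

/-- closed top cells -/
def Ct (v : Zn n) (τ : Equiv.Perm (Fin n)) (p : ℕ) : Set (E n) := am v τ p ⁻¹' Cp n p (n - p)

/-- open top cells -/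
def Ot (v : Zn n) (τ : Equiv.Perm (Fin n)) (p : ℕ) : Set (E n) := am v τ p ⁻¹' Op n p (n - p)

/-- the staircase function: slope one on `[2 k, 2 k + 1]`, constant on `[2 k + 1, 2 k + 2]` -/
def sta (t : ℝ) : ℝ := ⌊t / 2⌋ + min 1 (t - 2 * ⌊t / 2⌋)

lemma exists_ne_zero (u : Sx p) : ∃ i, u i ≠ 0 := by
  by_contra! h
  have := stdSimplex.sum_eq_one u
  simp [h] at this

/-- the first vertex with nonzero weight -/
def fi (u : Sx p) : Fin (p + 1) := Fin.find _ (exists_ne_zero u)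

lemma fi_ne (u : Sx p) : u (fi u) ≠ 0 := Fin.find_spec (exists_ne_zero u)

lemma fi_min (u : Sx p) {i : Fin (p + 1)} (h : i < fi u) : u i = 0 :=
  not_not.mp (Fin.find_min (exists_ne_zero u) h)

lemma Nr.left {a : Fin (p + 1) → Zn n} {b : Fin (q + 1) → Zn n} (h : Nr a b) {r : ℕ}
    (f : Fin (r + 1) → Fin (p + 1)) : Nr (fun i => a (f i)) b := fun _ _ => h _ _

lemma Nr.right {a : Fin (p + 1) → Zn n} {b : Fin (q + 1) → Zn n} (h : Nr a b) {r : ℕ}
    (f : Fin (r + 1) → Fin (q + 1)) : Nr a fun j => b (f j) := fun _ _ => h _ _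

lemma vt_mono (v : Zn n) (τ : Equiv.Perm (Fin n)) : Monotone (vt v τ) := fun k l h m => by
  simp only [vt]
  split_ifs <;> omega

lemma vt_le (v : Zn n) (τ : Equiv.Perm (Fin n)) (k l : ℕ) : vt v τ k ≤ vt v τ l + 1 := fun m => by
  simp only [vt, Pi.add_apply, Pi.one_apply]
  split_ifs <;> omega

lemma nr_top (v : Zn n) (τ : Equiv.Perm (Fin n)) (p q : ℕ) : Nr (ta v τ p) (tb v τ p q) :=
  fun i j => ⟨vt_mono v τ (by omega), vt_le v τ _ _⟩

lemma Nr.norm_le {a : Fin (p + 1) → Zn n} {b : Fin (q + 1) → Zn n} (h : Nr a b) (i : Fin (p + 1))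
    (s : Sx q) : ‖pt b s - cst (a i)‖ ≤ 1 := by
  refine (pi_norm_le_iff_of_nonneg zero_le_one).mpr fun m => ?_
  have e : pt b s m - a i m = ∑ j, s j * ((b j m : ℝ) - a i m) := by
    simp only [pt_apply, mul_sub, Finset.sum_sub_distrib, ← Finset.sum_mul, stdSimplex.sum_eq_one,
      one_mul]
  have a1 : ∀ j, (0 : ℝ) ≤ b j m - a i m := fun j => by
    have : a i m ≤ b j m := (h i j).1 m
    exact sub_nonneg.mpr (by exact_mod_cast this)
  have a2 : ∀ j, (b j m : ℝ) - a i m ≤ 1 := fun j => by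
    have : b j m ≤ a i m + 1 := (h i j).2 m
    exact sub_le_iff_le_add'.mpr (by exact_mod_cast this)
  change |pt b s m - a i m| ≤ 1
  rw [e, abs_of_nonneg (Finset.sum_nonneg fun j _ => mul_nonneg (stdSimplex.zero_le s j) (a1 j)),
    ← stdSimplex.sum_eq_one s]
  exact Finset.sum_le_sum fun j _ => mul_le_of_le_one_right (stdSimplex.zero_le s j) (a2 j)

end

end Pool.Agent.P.MP_7bb7e1_gt.H
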