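import Pool.Agent.P.MP_7bb7e1_gt.Aff
import Pool.Agent.P.MP_7bb7e1_gt.D.Cone

/-! The set of germs at the origin of compactly supported diffeomorphisms of the line. -/

namespace Pool.Agent.P.MP_7bb7e1_gt.H

open Pool.Agent.P.MP_7bb7e1_gt.D Filter Topology Set

noncomputable section

theorem sAff : S_Aff := fun l m a b hl hab => by
  obtain ⟨g, -, hg⟩ := exists_aff (l := l) (m := m) (α := min a (l * a + m) - 1)
    (β := max b (l * b + m) + 1) hl hab (by linarith [min_le_left a (l * a + m)])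
    (by linarith [le_max_left b (l * b + m)]) (by linarith [min_le_right a (l * a + m)])
    (by linarith [le_max_right b (l * b + m)])
  exact ⟨g, hg⟩

/-- germs at the origin -/
def Om : Type := Gc ⧸ KF (𝓝 (0 : ℝ))

instance : MulAction Gc Om := inferInstanceAs (MulAction Gc (Gc ⧸ KF (𝓝 (0 : ℝ))))

/-- the germ of the identity -/
def o0 : Om := QuotientGroup.mk (1 : Gc)

/-- a representative -/
def rep (ω : Om) : Gc := Quotient.out (s := QuotientGroup.leftRel (KF (𝓝 (0 : ℝ)))) ω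

lemma smul_o0 (g : Gc) : g • o0 = (QuotientGroup.mk g : Gc ⧸ KF (𝓝 (0 : ℝ))) := by
  change (QuotientGroup.mk (g • (1 : Gc)) : Gc ⧸ KF (𝓝 (0 : ℝ))) = _
  rw [smul_eq_mul, mul_one]

lemma rep_smul (ω : Om) : rep ω • o0 = ω := (smul_o0 _).trans (QuotientGroup.out_eq' _)

lemma smul_o0_eq_iff {g g' : Gc} : g • o0 = g' • o0 ↔ fn g =ᶠ[𝓝 0] fn g' := by
  rw [smul_o0, smul_o0]
  refine QuotientGroup.eq.trans ⟨fun h => ?_, fun h => ?_⟩
  · refine Eventually.mono h fun y hy => ?_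
    rw [mul_smul, inv_smul_eq_iff] at hy
    exact hy.symm
  · refine Eventually.mono h fun y hy => ?_
    rw [mul_smul, inv_smul_eq_iff]
    exact hy.symm

/-- the value at the origin -/
def ev (ω : Om) : ℝ := rep ω • (0 : ℝ)

lemma ev_smul_o0 (g : Gc) : ev (g • o0) = g • (0 : ℝ) :=
  (smul_o0_eq_iff.mp (rep_smul (g • o0))).eq_of_nhds

lemma ev_o0 : ev o0 = 0 := by simpa using ev_smul_o0 1

lemma ev_smul (g : Gc) (ω : Om) : ev (g • ω) = g • ev ω := by
  conv_lhs => rw [← rep_smul ω, ← mul_smul, ev_smul_o0, mul_smul]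
  rfl

lemma exists_smul (ω ω' : Om) : ∃ g : Gc, g • ω = ω' :=
  ⟨rep ω' * (rep ω)⁻¹, by
    conv_lhs => rw [← rep_smul ω]
    rw [rep_smul, mul_smul, inv_smul_eq_iff.mpr (rep_smul ω).symm, rep_smul]⟩

/-- rigidity -/
lemma smul_eq_iff {g g' : Gc} {ω : Om} : g • ω = g' • ω ↔ fn g =ᶠ[𝓝 (ev ω)] fn g' := by
  conv_lhs => rw [← rep_smul ω, ← mul_smul, ← mul_smul, smul_o0_eq_iff, fn_mul, fn_mul]
  refine ⟨fun h => ?_, fun h => ((fn_cont (rep ω)).tendsto 0).eventually h⟩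
  have : Tendsto (fn (rep ω)⁻¹) (𝓝 (ev ω)) (𝓝 0) := by
    simpa [fn, ev] using (fn_cont (rep ω)⁻¹).tendsto (rep ω • 0)
  filter_upwards [this.eventually h] with y hy
  simpa [fn] using hy

lemma smul_congr {g g' : Gc} {ω ω' : Om} (h : g • ω = g' • ω) (e : ev ω = ev ω') :
    g • ω' = g' • ω' := smul_eq_iff.mpr (e ▸ smul_eq_iff.mp h)

/-- rigidity along a chart -/
lemma smul_eventually {X : Type} {l : Filter X} {ψ : X → Om} {g g' : Gc} {ω : Om}
    (h : g • ω = g' • ω) (hψ : Tendsto (fun y => ev (ψ y)) l (𝓝 (ev ω))) :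
    ∀ᶠ y in l, g • ψ y = g' • ψ y :=
  (hψ.eventually (smul_eq_iff.mp h).eventuallyEq_nhds).mono fun _ hy => smul_eq_iff.mpr hy

lemma exists_ev (r : ℝ) : ∃ ω, ev ω = r ∧ (r = 0 → ω = o0) := by
  by_cases h : r = 0
  · exact ⟨o0, h ▸ ev_o0, fun _ => rfl⟩
  · obtain ⟨g, hg⟩ := sAff 1 r 0 0 one_pos le_rfl
    exact ⟨g • o0, by rw [ev_smul_o0, hg 0 le_rfl le_rfl]; ring, fun h' => absurd h' h⟩

/-- a germ with a given value -/
def lf (r : ℝ) : Om := (exists_ev r).choose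

lemma ev_lf (r : ℝ) : ev (lf r) = r := (exists_ev r).choose_spec.1

lemma lf_zero : lf 0 = o0 := (exists_ev 0).choose_spec.2 rfl

/-- the equivariant map that sends `a` to `θ` -/
def rl (a θ ω : Om) : Om := (exists_smul a ω).choose • θ

lemma rl_eq {a θ : Om} (h : ev a = ev θ) (g : Gc) : rl a θ (g • a) = g • θ :=
  smul_congr (exists_smul a (g • a)).choose_spec h

lemma rl_smul {a θ : Om} (h : ev a = ev θ) (g : Gc) (ω : Om) :
    rl a θ (g • ω) = g • rl a θ ω := by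
  obtain ⟨k, rfl⟩ := exists_smul a ω
  rw [← mul_smul, rl_eq h, rl_eq h, mul_smul]

lemma ev_rl {a θ : Om} (h : ev a = ev θ) (ω : Om) : ev (rl a θ ω) = ev ω := by
  obtain ⟨k, rfl⟩ := exists_smul a ω
  rw [rl_eq h, ev_smul, ev_smul, h]

lemma rl_refl (a ω : Om) : rl a a ω = ω := (exists_smul a ω).choose_spec

open Classical in
/-- the germ at the origin of a local diffeomorphism -/
def og (f : ℝ → ℝ) : Om := if h : ∃ g : Gc, fn g =ᶠ[𝓝 0] f then h.choose • o0 else o0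

lemma og_eq {f : ℝ → ℝ} {g : Gc} (h : fn g =ᶠ[𝓝 0] f) : og f = g • o0 := by
  have h' : ∃ g : Gc, fn g =ᶠ[𝓝 0] f := ⟨g, h⟩
  rw [og, dif_pos h']
  exact smul_o0_eq_iff.mpr (h'.choose_spec.trans h.symm)

lemma og_id : og (fun t => t) = o0 := by
  rw [og_eq (g := 1) (.of_forall fun y => one_smul _ y), one_smul]

lemma ev_og {f : ℝ → ℝ} (h : LocDiff f 0) : ev (og f) = f 0 := by
  obtain ⟨g, hg⟩ := exists_ext sAff h
  rw [og_eq hg, ev_smul_o0]
  exact hg.eq_of_nhds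

lemma og_smul {f f' : ℝ → ℝ} (h : LocDiff f 0) {k : Gc} (e : ∀ᶠ t in 𝓝 0, f' t = k • f t) :
    og f' = k • og f := by
  obtain ⟨g, hg⟩ := exists_ext sAff h
  rw [og_eq hg, ← mul_smul]
  refine og_eq ((hg.and e).mono fun y hy => ?_)
  rw [hy.2, ← hy.1]
  exact mul_smul k g y

end

end Pool.Agent.P.MP_7bb7e1_gt.H
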