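import Pool.Agent.P.MP_7bb7e1_gt.D.Fin
import Pool.Agent.P.MP_7bb7e1_gt.H.Om

/-! The second homology group of the total complex vanishes. -/

namespace Pool.Agent.P.MP_7bb7e1_gt.H

open Pool.Agent.P.MP_7bb7e1_gt.D Filter Topology Set

noncomputable section

/-- boundaries of total degree two -/
def H2_Bd (a : Ch 2 0) (b : Ch 1 1) (c : Ch 0 2) : Prop :=
  ∃ (u : Ch 3 0) (v : Ch 2 1) (w : Ch 1 2) (x : Ch 0 3),
    a = dh u + dv v ∧ b = dh v - dv w ∧ c = dh w + dv x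

lemma H2_step {a : Ch 2 0} {b : Ch 1 1} {c : Ch 0 2} (e1 : dh a - dv b = 0)
    (e2 : dh b + dv c = 0) :
    (dh a - dv (sd1 b) = 0 ∧ dh (sd1 b) + dv (c + dh (T1 b)) = 0) ∧
      (H2_Bd a (sd1 b) (c + dh (T1 b)) → H2_Bd a b c) := by
  refine ⟨⟨by rw [dv_sd1]; exact e1, ?_⟩, ?_⟩
  · rw [map_add, ← dh_dv, dv_T1, map_sub]
    linear_combination (norm := abel) e2
  · rintro ⟨u, v, w, x, a1, a2, a3⟩
    refine ⟨u, v, w - T1 b, x, a1, ?_, ?_⟩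
    · rw [map_sub, dv_T1]
      linear_combination (norm := abel) a2
    · rw [map_sub]
      linear_combination (norm := abel) a3

lemma H2_steps {a : Ch 2 0} {b : Ch 1 1} {c : Ch 0 2} (e1 : dh a - dv b = 0)
    (e2 : dh b + dv c = 0) (m : ℕ) :
    ∃ c', (dh a - dv (itr sd1 m b) = 0 ∧ dh (itr sd1 m b) + dv c' = 0) ∧
      (H2_Bd a (itr sd1 m b) c' → H2_Bd a b c) := by
  induction m with
  | zero => exact ⟨c, ⟨e1, e2⟩, id⟩
  | succ m ih =>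
    obtain ⟨c', k1, k2⟩ := ih
    exact ⟨_, (H2_step k1.1 k1.2).1, fun h => k2 ((H2_step k1.1 k1.2).2 h)⟩

lemma H2_eps_h2 (z : FA ((Gc × Gc) × Pa 0)) : eps (D.h2 z) = eps z := by
  refine hom_eq (eps.comp D.h2) eps (fun ⟨⟨f, g⟩, y⟩ => ?_) z
  simp [h2_of, eps]

lemma H2_eps_dvE (z : FA (Gc × Pa 1)) : eps (dvE z) = 0 := by
  refine hom_eq (eps.comp dvE) 0 (fun ⟨f, y⟩ => ?_) z
  simp [dvE_of, eps, Fin.sum_univ_two]

lemma H2_cycle (a : FA ((Gc × Gc) × Pa 0)) (b : FA (Gc × Pa 1)) (c : FA (Unit × Pa 2))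
    (ha : D.h2 a = dvE b) (hb : D.h1 b + dvE c = 0) : H2_Bd (Pr v2 a) (Pr v1 b) (Pr v0 c) := by
  have e0 : eps a = 0 := by rw [← H2_eps_h2, ha, H2_eps_dvE]
  have e1 := ev_eq (l := atTop) (fun x => D.h2.comp (D.mv x)) (fun x => (D.mv x).comp D.h2) (by
    rintro ⟨⟨f, g⟩, s⟩
    filter_upwards [ev_top f] with x hx
    have : f • D.pt x = D.pt x :=
      ContinuousMap.ext fun t => (mem_Ks.mp (mem_Ks_pt hx) t).self_of_nhds
    simp only [AddMonoidHom.comp_apply, D.mv, FreeAbelianGroup.map_of_apply, h2_of, map_add,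
      map_sub, this]) a
  have e2 := ev_eq (l := atTop) (fun x => (Pr v2).comp (D.mv x))
    (fun x => (zmultiplesHom _ (FreeAbelianGroup.of (pr v2 ((1, 1), D.pt x)))).comp eps) (by
    rintro ⟨⟨f, g⟩, s⟩
    filter_upwards [ev_top f, ev_top g] with x k1 k2
    have := inv2_pr 1 1 (D.pt x) f (mem_Ks_pt k1) g (by simpa using mem_Ks_pt k2)
    simp only [one_mul] at this
    simp [D.mv, eps, this]) a
  obtain ⟨x, e1, e2⟩ := (e1.and e2).exists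
  simp only [AddMonoidHom.comp_apply, zmultiplesHom_apply, e0, zero_smul] at e1 e2
  have k1 : dvE (b - D.h2 (D.kp x a)) = 0 := by
    rw [map_sub, ← h2_dvE, dvE_kp0, map_sub, e1, ha, mv_dvE]
    abel
  set u := b - D.h2 (D.kp x a) with hu
  have k2 : dvE (c + D.h1 (D.kp x u)) = 0 := by
    rw [map_add, ← h1_dvE, dvE_kp, k1, map_zero, sub_zero, hu, map_sub, h1_h2, sub_zero,
      add_comm, hb]
  refine ⟨0, Pr v2 (D.kp x a), -Pr v1 (D.kp x u), Pr v0 (D.kp x (c + D.h1 (D.kp x u))), ?_, ?_, ?_⟩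
  · rw [map_zero, ← Pr_dvE, dvE_kp0, map_sub, e2]
    abel
  · rw [map_neg, ← Pr_dvE, ← Pr_h2, dvE_kp, k1, map_zero, sub_zero, hu, map_sub]
    abel
  · rw [map_neg, ← Pr_dvE, ← Pr_h1, dvE_kp, k2, map_zero, sub_zero, map_add]
    abel

/-- cycles of total degree two are boundaries -/
theorem bdry_two (hP : S_Perf) {a : Ch 2 0} {b : Ch 1 1} {c : Ch 0 2} (h1 : dh a - dv b = 0)
    (h2 : dh b + dv c = 0) : ∃ (u : Ch 3 0) (v : Ch 2 1) (w : Ch 1 2) (x : Ch 0 3),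
      a = dh u + dv v ∧ b = dh v - dv w ∧ c = dh w + dv x := by
  obtain ⟨m, b', hb⟩ := (lift1 (cov1 sAff) b).exists
  obtain ⟨c', ⟨z1, z2⟩, k⟩ := H2_steps h1 h2 m
  obtain ⟨a', rfl⟩ := Sm_le v2 (small0 (cov2 sAff) a)
  obtain ⟨c'', rfl⟩ := range_v0 sAff c'
  rw [← hb] at z1 z2 k
  simp only [← Pr_dvE, ← Pr_h1, ← Pr_h2, ← map_add, ← map_sub] at z1 z2
  obtain ⟨ρ, r1, r2⟩ := rel1 (fam_Ks hP 0) fib1 inv2_pr z1
  have := H2_cycle (a' - ρ) b' c'' (by rw [map_sub, r2]; abel) (Pr_v0_inj z2)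
  rw [map_sub, r1, sub_zero] at this
  exact k this

end

end Pool.Agent.P.MP_7bb7e1_gt.H
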