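import Pool.Agent.P.MP_7bb7e1_gt.H.St

/-! Homotopies of structures. -/

namespace Pool.Agent.P.MP_7bb7e1_gt.H

open Filter Topology Set

noncomputable section

variable {X Y : Type} [TopologicalSpace X] [TopologicalSpace Y] {F F' F'' : St X} {S S' : Set X}

/-- the time interval -/
abbrev Tm : Type := unitInterval

/-- euclidean space with the supremum norm -/
abbrev E (n : ℕ) : Type := Fin n → ℝ

/-- the slice at time `s` -/
def sl (s : Tm) : C(X, X × Tm) := ⟨fun x => (x, s), by fun_prop⟩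

@[simp] lemma sl_apply (s : Tm) (x : X) : sl s x = (x, s) := rfl

/-- the product of a map with the identity of the time interval -/
def xt (f : C(Y, X)) : C(Y × Tm, X × Tm) := f.prodMap (ContinuousMap.id _)

@[simp] lemma xt_apply (f : C(Y, X)) (z : Y × Tm) : xt f z = (f z.1, z.2) := rfl

lemma pull_sl_xt (f : C(Y, X)) (s : Tm) (W : St (X × Tm)) :
    pull (sl s) (pull (xt f) W) = pull f (pull (sl s) W) := by
  rw [pull_comp, pull_comp]
  rfl

lemma pull_sl_fst (s : Tm) (F : St X) : pull (sl s) (pull ContinuousMap.fst F) = F := by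
  rw [pull_comp]
  exact pull_id F

/-- a homotopy that is trivial over `S` -/
def Ht (F F' : St X) (S : Set X) : Prop :=
  ∃ W : St (X × Tm), pull (sl 0) W = F ∧ pull (sl 1) W = F' ∧ Ag W triv {z | z.1 ∈ S}

lemma Ht.refl (h : Ag F triv S) : Ht F F S :=
  ⟨pull ContinuousMap.fst F, pull_sl_fst _ _, pull_sl_fst _ _, h.pull_triv _ fun _ hz => hz⟩

lemma Ht.left (h : Ht F F' S) : Ag F triv S := by
  obtain ⟨W, rfl, -, h⟩ := h
  exact h.pull_triv _ fun _ hz => hz

lemma Ht.right (h : Ht F F' S) : Ag F' triv S := by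
  obtain ⟨W, -, rfl, h⟩ := h
  exact h.pull_triv _ fun _ hz => hz

lemma Ht.mono (h : Ht F F' S) (hS : S' ⊆ S) : Ht F F' S' := by
  obtain ⟨W, h0, h1, h⟩ := h
  exact ⟨W, h0, h1, h.mono fun _ hz => hS hz⟩

lemma Ht.pull (h : Ht F F' S) (f : C(Y, X)) {T : Set Y} (hf : ∀ y ∈ T, f y ∈ S) :
    Ht (pull f F) (pull f F') T := by
  obtain ⟨W, rfl, rfl, h⟩ := h
  exact ⟨H.pull (xt f) W, pull_sl_xt _ _ _, pull_sl_xt _ _ _, h.pull_triv _ fun _ hz => hf _ hz⟩

lemma Ht.symm (h : Ht F F' S) : Ht F' F S := by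
  obtain ⟨W, rfl, rfl, h⟩ := h
  refine ⟨H.pull ⟨fun z => (z.1, unitInterval.symm z.2), by fun_prop⟩ W, ?_, ?_,
    h.pull_triv _ fun _ hz => hz⟩ <;> rw [pull_comp] <;> exact pull_congr (fun x => by simp) W

/-- the pull-back along a homotopy of maps -/
lemma ht_pull (h : C(Y × Tm, X)) (hF : Ag F triv S) {T : Set Y} (hS : ∀ y ∈ T, ∀ s, h (y, s) ∈ S)
    {f₀ f₁ : C(Y, X)} (h0 : ∀ y, h (y, 0) = f₀ y) (h1 : ∀ y, h (y, 1) = f₁ y) :
    Ht (pull f₀ F) (pull f₁ F) T :=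
  ⟨pull h F, by rw [pull_comp]; exact pull_congr h0 F, by rw [pull_comp]; exact pull_congr h1 F,
    hF.pull_triv _ fun z hz => hS z.1 hz z.2⟩

/-- gluing of homotopies -/
theorem exists_ht {ι : Type} {T : ι → Set (X × Tm)} (hT : LocallyFinite T)
    (hc : ∀ i, IsClosed (T i)) (hU : ∀ z, ∃ i, z ∈ T i) (W : ι → St (X × Tm))
    (hW : ∀ i j, Ag (W i) (W j) (T i ∩ T j))
    (h0 : ∀ i, Ag F (pull (sl 0) (W i)) {x | (x, 0) ∈ T i})
    (hS : ∀ i, Ag (W i) triv ({z | z.1 ∈ S} ∩ T i)) :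
    ∃ F', Ht F F' S ∧ ∀ i, Ag F' (pull (sl 1) (W i)) {x | (x, 1) ∈ T i} := by
  obtain ⟨V, hV⟩ := glue hT hc hU W hW
  refine ⟨pull (sl 1) V, ⟨V, ?_, rfl, ag_of_cover hT hc (fun z _ => hU z) fun i =>
    ((hV i).mono inter_subset_right).trans (hS i)⟩, fun i => (hV i).pull _ fun _ hx => hx⟩
  refine (ag_of_cover (S := univ) (hT.preimage_continuous (sl (0 : Tm)).continuous)
    (fun i => (hc i).preimage (sl (0 : Tm)).continuous) (fun x _ => hU (x, 0)) fun i => ?_).eq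
    fun _ => trivial
  exact ((hV i).pull _ fun _ hx => hx.2).trans ((h0 i).symm.mono fun _ hx => hx.2)

theorem ht_of_glue {ι : Type} {T : ι → Set (X × Tm)} (hT : LocallyFinite T)
    (hc : ∀ i, IsClosed (T i)) (hU : ∀ z, ∃ i, z ∈ T i) (W : ι → St (X × Tm))
    (hW : ∀ i j, Ag (W i) (W j) (T i ∩ T j))
    (h0 : ∀ i, Ag F (pull (sl 0) (W i)) {x | (x, 0) ∈ T i})
    (h1 : ∀ i, Ag F' (pull (sl 1) (W i)) {x | (x, 1) ∈ T i})
    (hS : ∀ i, Ag (W i) triv ({z | z.1 ∈ S} ∩ T i)) : Ht F F' S := by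
  obtain ⟨V, hV, h⟩ := exists_ht hT hc hU W hW h0 hS
  have : V = F' := (ag_of_cover (S := univ) (hT.preimage_continuous (sl (1 : Tm)).continuous)
    (fun i => (hc i).preimage (sl (1 : Tm)).continuous) (fun x _ => hU (x, 1)) fun i =>
      ((h i).trans (h1 i).symm).mono fun _ hx => hx.2).eq fun _ => trivial
  exact this ▸ hV

lemma Ht.trans (h : Ht F F' S) (h' : Ht F' F'' S) : Ht F F'' S := by
  obtain ⟨W, rfl, h1, h2⟩ := h
  obtain ⟨W', h3, rfl, h4⟩ := h'
  let c : ℝ → C(X × Tm, X × Tm) := fun a =>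
    ⟨fun z => (z.1, projIcc 0 1 zero_le_one (2 * z.2.1 - a)), by fun_prop⟩
  have c0 : ∀ a (z : X × Tm), 2 * z.2.1 ≤ a → c a z = (z.1, 0) := fun a z hz =>
    Prod.ext rfl (projIcc_of_le_left zero_le_one (show 2 * z.2.1 - a ≤ 0 by linarith))
  have c1 : ∀ a (z : X × Tm), a + 1 ≤ 2 * z.2.1 → c a z = (z.1, 1) := fun a z hz =>
    Prod.ext rfl (projIcc_of_right_le zero_le_one (show 1 ≤ 2 * z.2.1 - a by linarith))
  obtain ⟨V, a1, a2⟩ := glue2 (F := H.pull (c 0) W) (F' := H.pull (c 1) W')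
    (S := {z | 2 * z.2.1 ≤ 1}) (S' := {z | 1 ≤ 2 * z.2.1}) (isClosed_le (by fun_prop) (by fun_prop))
    (isClosed_le (by fun_prop) (by fun_prop)) (fun z => le_total (2 * z.2.1) 1) (by
      refine (ag_pull_congr (g := (sl 1).comp ContinuousMap.fst) (fun z hz => c1 0 z ?_) W).trans
        (Ag.trans ?_ (ag_pull_congr (f := (sl 0).comp ContinuousMap.fst)
          (fun z hz => (c0 1 z hz.1).symm) W'))
      · rw [zero_add]; exact hz.2
      · rw [← pull_comp, ← pull_comp, h1, h3]; exact .refl _ _)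
  refine ⟨V, ?_, ?_, ag_union (S := {z : X × Tm | 2 * z.2.1 ≤ 1})
    (S' := {z : X × Tm | 1 ≤ 2 * z.2.1}) (isClosed_le (by fun_prop) (by fun_prop))
    (isClosed_le (by fun_prop) (by fun_prop)) (fun z _ => le_total (2 * z.2.1 : ℝ) 1)
    ((a1.mono inter_subset_right).trans (h2.pull_triv _ fun _ hz => hz.1))
    ((a2.mono inter_subset_right).trans (h4.pull_triv _ fun _ hz => hz.1))⟩
  · rw [a1.pull_eq (sl 0) fun x => by simp, pull_comp]
    exact pull_congr (fun x => c0 0 _ (by simp)) W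
  · rw [a2.pull_eq (sl 1) fun x => by simp, pull_comp]
    exact pull_congr (fun x => c1 1 _ (by norm_num)) W'

/-- a structure with a global chart is null-homotopic -/
lemma ht_glob (ψ : X → Om) (hψ : Continuous fun x => ev (ψ x)) (h : ∀ x ∈ S, ψ x = o0) :
    Ht (glob ψ hψ) triv S := by
  classical
  have e : ∀ z : X × Tm, ev (if z.2 = 0 then ψ z.1 else lf ((1 - z.2.1) * ev (ψ z.1))) =
      (1 - z.2.1) * ev (ψ z.1) := fun z => by
    split_ifs with hz
    · simp [hz]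
    · exact ev_lf _
  refine ⟨glob (fun z => if z.2 = 0 then ψ z.1 else lf ((1 - z.2.1) * ev (ψ z.1)))
    (by simp only [e]; exact (by fun_prop : Continuous fun z : X × Tm => 1 - z.2.1).mul (hψ.comp continuous_fst)),
    ?_, ?_, ag_glob _ _ fun z hz => ?_⟩
  · rw [pull_glob]
    simp
  · rw [pull_glob]
    simp [lf_zero, triv]
  · simp [h _ hz, ev_o0, lf_zero]

/-- a change of trivialisation is a homotopy -/
lemma ht_relab {R : X → Om → Om} (hR : IsRl R) (hF : Ag F triv S) (e : ∀ x ∈ S, ∀ ω, R x ω = ω) :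
    Ht F (relab R hR F) S := by
  classical
  have h : IsRl fun (z : X × Tm) ω => if z.2 = 1 then R z.1 ω else ω :=
    ⟨fun z g ω => by beta_reduce; split_ifs; exacts [hR.1 _ _ _, rfl],
      fun z ω => by beta_reduce; split_ifs; exacts [hR.2 _ _, rfl]⟩
  refine ⟨relab _ h (pull ContinuousMap.fst F), ?_, ?_,
    (ag_relab h (fun z hz ω => by simp [e _ hz]) _).trans (hF.pull_triv _ fun _ hz => hz)⟩
  · rw [pull_relab, pull_sl_fst]
    exact (ag_relab (S := univ) _ (fun x _ ω => by simp) F).eq fun _ => trivial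
  · rw [pull_relab, pull_sl_fst]
    simp

variable {n : ℕ}

/-- trivial outside a ball -/
def Cpt (F : St (E n)) : Prop := ∃ R : ℝ, Ag F triv {x | R ≤ ‖x‖}

/-- homotopic with bounded support -/
def Cc (F F' : St (E n)) : Prop := ∃ R : ℝ, Ht F F' {x | R ≤ ‖x‖}

lemma cpt_triv : Cpt (triv : St (E n)) := ⟨0, .refl _ _⟩

lemma Cpt.cc {F : St (E n)} (h : Cpt F) : Cc F F := h.imp fun _ h => .refl h

lemma Cc.left {F F' : St (E n)} (h : Cc F F') : Cpt F := h.imp fun _ h => h.left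

lemma Cc.right {F F' : St (E n)} (h : Cc F F') : Cpt F' := h.imp fun _ h => h.right

lemma Cc.symm {F F' : St (E n)} (h : Cc F F') : Cc F' F := h.imp fun _ h => h.symm

lemma Cc.trans {F F' F'' : St (E n)} (h : Cc F F') (h' : Cc F' F'') : Cc F F'' := by
  obtain ⟨R, h⟩ := h
  obtain ⟨R', h'⟩ := h'
  exact ⟨max R R', (h.mono fun x (hx : max R R' ≤ ‖x‖) => le_of_max_le_left hx).trans
    (h'.mono fun x (hx : max R R' ≤ ‖x‖) => le_of_max_le_right hx)⟩

/-- `c` is the class in the group of homotopy classes of structures with bounded support -/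
structure IsCls {m : ℕ} {A : Type} [AddCommGroup A] (c : St (E (m + 2)) → A) : Prop where
  cc : ∀ {F F'}, Cc F F' → c F = c F'
  inj : ∀ {F F'}, Cpt F → Cpt F' → c F = c F' → Cc F F'
  split : ∀ {W F F'} (a : ℝ), Cpt F → Cpt F' → Ag W F {x | x 0 ≤ a} → Ag W F' {x | a ≤ x 0} →
    Ag F triv {x | a ≤ x 0} → Ag F' triv {x | x 0 ≤ a} → c W = c F + c F'

lemma IsCls.c_triv {m : ℕ} {A : Type} [AddCommGroup A] {c : St (E (m + 2)) → A} (h : IsCls c) :
    c triv = 0 :=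
  left_eq_add.mp (h.split 0 cpt_triv cpt_triv (.refl _ _) (.refl _ _) (.refl _ _) (.refl _ _))

end

end Pool.Agent.P.MP_7bb7e1_gt.H
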