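import Pool.Agent.P.MP_7bb7e1_gt.H.Univ
import Pool.Agent.P.MP_7bb7e1_gt.H.Top

/-! Low dimensions, and charts on a fine grid. -/

namespace Pool.Agent.P.MP_7bb7e1_gt.H

open Pool.Agent.P.MP_7bb7e1_gt.D Filter Topology Set

noncomputable section

theorem null_zero (F : St (E 0)) (hF : Cpt F) : Cc F triv := by
  have : F = triv := St.ext' fun x => by
    obtain ⟨ψ, h, e⟩ := F.ex_val x o0
    refine ⟨ψ, h, St.congr (triv_ch x o0) (.of_forall fun y => ?_)⟩
    rw [Subsingleton.elim y x, e]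
  exact this ▸ hF.cc

/-- development along a half line -/
lemma low_dev (G : St ℝ) {a : ℝ} (h : ∀ t ≤ a, G.ch t fun _ => o0) (b : ℝ) :
    ∃ ψ, (∀ t ≤ b, G.ch t ψ) ∧ ∃ a, ∀ t ≤ a, ψ t = o0 := by
  classical
  let S : ℝ → Prop := fun b => ∃ ψ, (∀ t ≤ b, G.ch t ψ) ∧ ∃ a, ∀ t ≤ a, ψ t = o0
  have key : ∀ (θ : ℝ → Om) (u v : ℝ), G.ch u θ → (∀ t, u < t → t ≤ v → G.ch t θ) → S u → S v := by
    rintro θ u v hu hθ ⟨ψ, h1, c, h2⟩
    obtain ⟨g, hg⟩ := exists_smul (θ u) (ψ u)
    have e := St.eq_of_val (h1 u le_rfl) (St.smul hu g) hg.symm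
    refine ⟨fun t => if t ≤ u then ψ t else g • θ t, fun t ht => ?_, min c u, fun t ht => ?_⟩
    · rcases lt_trichotomy t u with htu | rfl | htu
      · exact St.congr (h1 t htu.le) ((eventually_lt_nhds htu).mono fun y hy => (if_pos hy.le).symm)
      · refine St.congr (h1 t le_rfl) (e.mono fun y hy => ?_)
        split_ifs
        exacts [rfl, hy]
      · exact St.congr (St.smul (hθ t htu ht) g)
          ((eventually_gt_nhds htu).mono fun y hy => (if_neg (not_le.mpr hy)).symm)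
    · exact (if_pos (ht.trans (min_le_right _ _))).trans (h2 t (ht.trans (min_le_left _ _)))
  refine PreconnectedSpace.induction₂' (fun u v => S u → S v) (fun u => ?_)
    ⟨fun _ _ _ h1 h2 h3 => h2 (h1 h3)⟩ a b ⟨_, h, a, fun _ _ => rfl⟩
  obtain ⟨θ, hθ⟩ := G.ex u
  obtain ⟨ε, hε, hb⟩ := Metric.eventually_nhds_iff.mp (G.op hθ)
  filter_upwards [Metric.ball_mem_nhds u hε] with v hv
  have hv' := abs_lt.mp (show |v - u| < ε from hv)
  exact ⟨key θ u v hθ fun t h1 h2 => hb (abs_lt.mpr ⟨by linarith, by linarith⟩),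
    key θ v u (hb hv) fun t h1 h2 => hb (abs_lt.mpr ⟨by linarith, by linarith⟩)⟩

/-- a global chart, constant on the far left and on the far right -/
lemma low_glob (G : St ℝ) {R : ℝ} (h : Ag G triv {t | R ≤ |t|}) :
    ∃ (ψ : ℝ → Om) (g : Gc) (a b : ℝ), (∀ t, G.ch t ψ) ∧ (∀ t ≤ a, ψ t = o0) ∧
      ∀ t, b ≤ t → ψ t = g • o0 := by
  have c : ∀ t, R < |t| → ∀ ω, G.ch t fun _ => ω := fun t ht ω =>
    h.ch (mem_of_superset ((isOpen_lt continuous_const continuous_abs).mem_nhds ht)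
      fun y (hy : R < |y|) => hy.le) (triv_ch t ω)
  have c' : ∀ t, |R| + 1 ≤ t → R < |t| := fun t ht => by linarith [le_abs_self R, le_abs_self t]
  obtain ⟨ψ, h1, a, h2⟩ := low_dev G (a := -(|R| + 1))
    (fun t ht => c t (by linarith [le_abs_self R, neg_le_abs t]) o0) (|R| + 1)
  obtain ⟨g, hg⟩ := exists_smul o0 (ψ (|R| + 1))
  refine ⟨fun t => ψ (min t (|R| + 1)), g, min a (|R| + 1), |R| + 1, fun t => ?_, fun t ht => ?_,
    fun t ht => ?_⟩
  · rcases lt_trichotomy t (|R| + 1) with ht | rfl | ht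
    · exact St.congr (h1 t ht.le) ((eventually_lt_nhds ht).mono fun y hy => by rw [min_eq_left hy.le])
    · refine St.congr (h1 _ le_rfl)
        ((St.eq_of_val (h1 _ le_rfl) (c _ (c' _ le_rfl) (ψ (|R| + 1))) rfl).mono fun y hy => ?_)
      rcases le_total y (|R| + 1) with e | e
      · rw [min_eq_left e]
      · rw [min_eq_right e, hy]
    · exact St.congr (c t (c' t ht.le) (ψ (|R| + 1)))
        ((eventually_gt_nhds ht).mono fun y hy => by rw [min_eq_right hy.le])
  · exact h2 _ ((min_le_left _ _).trans (ht.trans (min_le_left _ _)))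
  · exact (congrArg ψ (min_eq_right ht)).trans hg.symm

lemma low_line (G : St ℝ) {R : ℝ} (h : Ag G triv {t | R ≤ |t|}) :
    ∃ R' : ℝ, Ht G triv {t | R' ≤ |t|} := by
  classical
  obtain ⟨ψ, g, a, b, h1, h2, h3⟩ := low_glob G h
  obtain ⟨M, hM⟩ := fn_cpt g
  have hψ : Continuous fun t => ev (ψ t) := continuous_iff_continuousAt.mpr fun t => G.cont (h1 t)
  let χ : ℝ → ℝ := fun t => (|M| + 1) * max 0 (1 - |t - (b + 1)|)
  have cχ : Continuous χ := by fun_prop
  have χ0 : ∀ t, t ≤ b ∨ b + 2 ≤ t → χ t = 0 := fun t ht => by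
    have : 1 - |t - (b + 1)| ≤ 0 := by
      rcases ht with ht | ht
      · linarith [neg_le_abs (t - (b + 1))]
      · linarith [le_abs_self (t - (b + 1))]
    simp only [χ, max_eq_left this, mul_zero]
  let Ξ : ℝ × Tm → Om := fun z => if z.1 ≤ b then ψ z.1 else g • lf (z.2.1 * χ z.1)
  have e : ∀ z, ev (Ξ z) = ev (ψ z.1) + (fn g (z.2.1 * χ z.1) - fn g 0) := fun z => by
    simp only [Ξ]
    split_ifs with hz
    · rw [χ0 _ (.inl hz), mul_zero, sub_self, add_zero]
    · rw [ev_smul, ev_lf, h3 _ (not_le.mp hz).le, ev_smul_o0]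
      simp [fn]
  have cΞ : Continuous fun z => ev (Ξ z) := by
    simp only [e]
    exact (hψ.comp continuous_fst).add (((fn_cont g).comp (by fun_prop)).sub continuous_const)
  let Ψ : ℝ → Om := fun t => if t ≤ b + 1 then Ξ (t, 1) else lf (χ t)
  have far : ∀ t, |a| + |b| + 2 ≤ |t| → (t ≤ a ∧ t ≤ b) ∨ b + 2 ≤ t := fun t ht => by
    have := abs_nonneg a
    have := abs_nonneg b
    rcases abs_cases t with e | e
    · exact .inr (by linarith [le_abs_self b])
    · exact .inl ⟨by linarith [neg_abs_le a], by linarith [neg_abs_le b]⟩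
  have hΨ : ∀ t, (pull (sl 1) (glob Ξ cΞ)).ch t Ψ := fun t => by
    have c := St.pull_ch (sl (1 : Tm)) (glob_ch Ξ cΞ (sl 1 t))
    have d : ∀ y, b < y → Ξ (y, 1) = g • lf (χ y) := fun y hy => by
      simp only [Ξ, if_neg (not_le.mpr hy), Icc.coe_one, one_mul]
    rcases lt_trichotomy t (b + 1) with ht | rfl | ht
    · exact St.congr c ((eventually_lt_nhds ht).mono fun y hy => (if_pos hy.le).symm)
    · have d1 : |M| < χ (b + 1) := by simp [χ]
      refine St.congr c (((eventually_gt_nhds (lt_add_one b)).and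
        (cχ.continuousAt.eventually (eventually_gt_nhds d1))).mono fun y hy => ?_)
      simp only [Ψ, sl_apply]
      split_ifs
      · rfl
      · rw [d y hy.1]
        conv_rhs => rw [← one_smul Gc (lf (χ y))]
        rw [smul_eq_iff, ev_lf]
        refine (eventually_gt_nhds hy.2).mono fun r hr => ?_
        exact (hM r (by linarith [le_abs_self M, le_abs_self r])).trans (one_smul _ r).symm
    · refine St.congr (St.smul c g⁻¹) ((eventually_gt_nhds ht).mono fun y hy => ?_)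
      simp only [Ψ, sl_apply, if_neg (not_le.mpr hy)]
      rw [d y (by linarith), inv_smul_smul]
  refine ⟨|a| + |b| + 2, Ht.trans (F' := pull (sl 1) (glob Ξ cΞ)) ⟨glob Ξ cΞ, ?_, rfl, ?_⟩ ?_⟩
  · refine St.ext' fun t => ⟨ψ, St.congr (St.pull_ch (sl (0 : Tm)) (glob_ch Ξ cΞ (sl 0 t)))
      (.of_forall fun y => ?_), h1 t⟩
    simp only [Ξ, sl_apply]
    split_ifs with hy
    · rfl
    · rw [Icc.coe_zero, zero_mul, lf_zero, h3 _ (not_le.mp hy).le]
  · refine ag_union (S := {z : ℝ × Tm | z.1 ≤ b}) (S' := {z : ℝ × Tm | b + 2 ≤ z.1})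
      (isClosed_le (by fun_prop) (by fun_prop)) (isClosed_le (by fun_prop) (by fun_prop))
      (fun z hz => (far z.1 hz).imp_left And.right) ?_ ?_
    · refine ag_glob _ _ fun z hz => ?_
      have hz2 : z.1 ≤ b := hz.2
      rcases far z.1 hz.1 with e | e
      · exact (if_pos e.2).trans (h2 _ e.1)
      · linarith
    · refine ag_of_ch fun z _ => ⟨Ξ, fun _ => g • o0, glob_ch _ _ z, triv_ch _ _,
        eventually_nhdsWithin_of_forall fun y hy => ?_⟩
      have hy2 : b + 2 ≤ y.1 := hy.2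
      simp only [Ξ, if_neg (show ¬y.1 ≤ b by linarith)]
      rw [χ0 _ (.inr hy2), mul_zero, lf_zero]
  · rw [eq_glob hΨ]
    refine ht_glob _ _ fun t ht => ?_
    rcases far t ht with e | e
    · simp only [Ψ, Ξ, if_pos e.2, if_pos (show t ≤ b + 1 by linarith [e.2])]
      exact h2 _ e.1
    · simp only [Ψ, if_neg (show ¬t ≤ b + 1 by linarith)]
      rw [χ0 _ (.inr e), lf_zero]

/-- Hints. Develop: the set of `b` such that one `ψ` is a chart at all `x` with `x 0 ≤ b` is nonempty,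
open and closed, so there is a global chart `ψ`, equal to `o0` on the far left and to a constant
`g • o0` on `R ≤ x 0` (`St.eq_of_val`, `triv_ch`, `Ag.ch`, locally constant on a half line). Choose `M`
with `g` the identity near `M` (`fn_cpt`). On `R ≤ x 0` take the global chart
`lf (M * max 0 (s - (x 0 - R)))`; on `x 0 ≤ R` a global chart with value at the origin
`ev (ψ x) + χ x * (g • (M * s) - g • 0)`, equal to `ψ x` for `s = 0` or `χ x = 0` and to `g • lf (M * s)` for
`x 0 = R`. Glue (`exists_ht` or `glue2`); the end has a global chart, `ht_glob`. -/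
theorem null_one (F : St (E 1)) (hF : Cpt F) : Cc F triv := by
  obtain ⟨R, hF⟩ := hF
  let e : C(ℝ, E 1) := ⟨fun t _ => t, by fun_prop⟩
  let c : C(E 1, ℝ) := ⟨fun x => x 0, by fun_prop⟩
  have hn : ∀ t, ‖e t‖ = |t| := fun t => pi_norm_const t
  have hec : ∀ x, e (c x) = x := fun x => funext fun i => by rw [Subsingleton.elim i 0]; rfl
  obtain ⟨R', h⟩ := low_line (pull e F) (R := R)
    (hF.pull_triv e fun t (ht : R ≤ |t|) => show R ≤ ‖e t‖ from hn t ▸ ht)
  have h' := h.pull c (T := {x | R' ≤ ‖x‖}) fun x (hx : R' ≤ ‖x‖) =>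
    show R' ≤ |c x| by rwa [← hn, hec]
  rw [pull_comp, pull_congr (g := ContinuousMap.id _) hec, pull_id, pull_triv] at h'
  exact ⟨R', h'⟩

/-- Hints. Lebesgue number of the cover of a closed ball by the interiors of `{x | P x y}`. -/
theorem exists_grid {n : ℕ} {β : Type} (P : E n → β → Prop) (y₀ : β)
    (h1 : ∀ x, ∃ y, ∀ᶠ x' in 𝓝 x, P x' y) (h2 : ∃ R : ℝ, ∀ x, R ≤ ‖x‖ → P x y₀) :
    ∃ δ : ℝ, 0 < δ ∧ ∃ y : Zn n → β, (∀ v x, ‖x - cst v‖ ≤ 2 → P (δ • x) (y v)) ∧
      ∃ R : ℝ, ∀ v, R ≤ ‖cst v‖ → y v = y₀ := by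
  classical
  obtain ⟨R, hR⟩ := h2
  obtain ⟨ε, hε, h⟩ := lebesgue_number_lemma_of_metric (isCompact_closedBall (0 : E n) (R + 1))
    (c := fun y => interior {x | P x y}) (fun _ => isOpen_interior) fun x _ =>
      mem_iUnion.mpr ((h1 x).imp fun y hy => mem_interior_iff_mem_nhds.mpr hy)
  have : Nonempty β := ⟨y₀⟩
  choose! y hy using h
  have hδ : 0 < min (ε / 3) (1 / 2) := lt_min (by positivity) (by norm_num)
  have a1 := min_le_left (ε / 3) (1 / 2)
  have a2 := min_le_right (ε / 3) (1 / 2)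
  generalize min (ε / 3) (1 / 2) = δ at hδ a1 a2
  refine ⟨δ, hδ, fun v => if ‖δ • cst v‖ ≤ R + 1 then y (δ • cst v) else y₀, fun v x hx => ?_,
    (R + 2) / δ, fun v hv => if_neg ?_⟩
  · have e : ‖δ • x - δ • cst v‖ ≤ δ * 2 := by
      rw [← smul_sub, norm_smul, Real.norm_of_nonneg hδ.le]
      exact mul_le_mul_of_nonneg_left hx hδ.le
    beta_reduce
    split_ifs with hv
    · exact (hy _ (mem_closedBall_zero_iff.mpr hv)).trans interior_subset
        (mem_ball_iff_norm.mpr (show ‖δ • x - δ • cst v‖ < ε by linarith))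
    · refine hR _ ?_
      linarith [norm_sub_norm_le (δ • cst v) (δ • x), norm_sub_rev (δ • x) (δ • cst v), not_le.mp hv]
  · rw [norm_smul, Real.norm_of_nonneg hδ.le]
    rw [div_le_iff₀ hδ] at hv
    linarith

end

end Pool.Agent.P.MP_7bb7e1_gt.H
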