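import Pool.Agent.P.MP_7bb7e1_gt.H.Ext

/-! Killing a family in one more dimension. -/

namespace Pool.Agent.P.MP_7bb7e1_gt.H

open Pool.Agent.P.MP_7bb7e1_gt.D Filter Topology Set

noncomputable section

variable {p q N : ℕ}

lemma pass_ag {X Y : Type} [TopologicalSpace X] [TopologicalSpace Y] {F F' : St X} {S : Set X}
    (f : C(Y, X)) (r : C(X, Y)) (h : ∀ x ∈ S, f (r x) = x) (e : pull f F = pull f F') :
    Ag F F' S := by
  refine (ag_pull_self (f := f.comp r) h F).symm.trans ?_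
  rw [← pull_comp, e, pull_comp]
  exact ag_pull_self (f := f.comp r) h F'

lemma pass_sec {X Y : Type} [TopologicalSpace X] [TopologicalSpace Y] (f : C(Y, X)) (r : C(X, Y))
    (h : ∀ y, r (f y) = y) (F : St Y) : pull f (pull r F) = F := by
  rw [pull_comp, pull_congr (g := ContinuousMap.id Y) h, pull_id]

/-- a retraction onto a face -/
def dg (i : Fin (p + 2)) : C(Sx (p + 1), Sx p) := (exists_dg i).choose

lemma dg_incl (i : Fin (p + 2)) (x : Sx p) : dg i (incl i x) = x := (exists_dg i).choose_spec.1 x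

lemma incl_dg (i : Fin (p + 2)) {x : Sx (p + 1)} (h : x i = 0) : incl i (dg i x) = x :=
  (exists_dg i).choose_spec.2 x h

lemma dg_above (i : Fin (p + 2)) {x : Sx (p + 1)} (h : x i = 0) (j : Fin (p + 1)) :
    dg i x j = x (i.succAbove j) := by
  rw [← incl_above i, incl_dg i h]

lemma incl_incl (i : Fin (p + 3)) (j : Fin (p + 2)) (x : Sx p) :
    incl (i.succAbove j) (incl (j.predAbove i) x) = incl i (incl j x) := by
  change stdSimplex.map _ (stdSimplex.map _ x) = stdSimplex.map _ (stdSimplex.map _ x)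
  rw [stdSimplex.map_comp_apply, stdSimplex.map_comp_apply]
  exact congrArg (stdSimplex.map · x) (funext fun k =>
    Fin.succAbove_succAbove_succAbove_predAbove i j k)

lemma face_face (i : Fin (p + 3)) (j : Fin (p + 2)) (γ : Nv (p + 2)) :
    face (j.predAbove i) (face (i.succAbove j) γ) = face j (face i γ) := by
  refine Subtype.ext (funext fun a => funext fun b => ?_)
  change γ.1 ((i.succAbove j).succAbove _) ((i.succAbove j).succAbove _) = γ.1 _ _
  rw [Fin.succAbove_succAbove_succAbove_predAbove, Fin.succAbove_succAbove_succAbove_predAbove]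

/-- the retractions onto the faces of a prism -/
def rh (i : Fin (p + 2)) : C(Pz (p + 1) q, Pz p q) := (dg i).prodMap (ContinuousMap.id _)

/-- the retractions onto the faces of a prism -/
def rv (j : Fin (q + 2)) : C(Pz p (q + 1), Pz p q) := (ContinuousMap.id _).prodMap (dg j)

@[simp] lemma rh_apply (i : Fin (p + 2)) (z : Pz (p + 1) q) : rh i z = (dg i z.1, z.2) := rfl

@[simp] lemma rv_apply (j : Fin (q + 2)) (z : Pz p (q + 1)) : rv j z = (z.1, dg j z.2) := rfl

lemma pull_rh (i : Fin (p + 2)) (X : St (Pz p q × Tm)) :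
    pull (xt (fh i)) (pull (xt (rh i)) X) = X :=
  pass_sec _ _ (fun y => by simp [dg_incl]) X

lemma pull_rv (j : Fin (q + 2)) (X : St (Pz p q × Tm)) :
    pull (xt (fv j)) (pull (xt (rv j)) X) = X :=
  pass_sec _ _ (fun y => by simp [dg_incl]) X

/-- the homotopies over the sides -/
def sd (W : ∀ p q, Ce p q → St (Pz p q × Tm)) :
    ∀ p q, Ce p q → Fin (p + 1) ⊕ Fin (q + 1) → St (Pz p q × Tm)
  | 0, _, _, .inl _ => triv
  | p + 1, q, σ, .inl i => pull (xt (rh i)) (W p q ((face i).comp σ))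
  | _, 0, _, .inr _ => triv
  | p, q + 1, σ, .inr j => pull (xt (rv j)) (W p q (σ.comp (incl j)))

variable {W : ∀ p q, Ce p q → St (Pz p q × Tm)}

lemma sd_inl (σ : Ce (p + 1) q) (i : Fin (p + 2)) :
    sd W (p + 1) q σ (.inl i) = pull (xt (rh i)) (W p q ((face i).comp σ)) := by
  rw [sd]

lemma sd_inr (σ : Ce p (q + 1)) (j : Fin (q + 2)) :
    sd W p (q + 1) σ (.inr j) = pull (xt (rv j)) (W p q (σ.comp (incl j))) := by
  rw [sd]

lemma sd_hv (h : CmpT N W) (hN : p + q ≤ N + 1) (σ : Ce p q) (i : Fin (p + 1)) (j : Fin (q + 1)) :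
    Ag (sd W p q σ (.inl i)) (sd W p q σ (.inr j)) {z | z.1.1 i = 0 ∧ z.1.2 j = 0} := by
  rcases p with _ | p
  · exact ag_empty fun z hz => sx_zero_ne _ i hz.1
  rcases q with _ | q
  · exact ag_empty fun z hz => sx_zero_ne _ j hz.2
  refine pass_ag ((xt (fh i)).comp (xt (fv j))) ((xt (rv j)).comp (xt (rh i)))
    (fun z hz => by simp [incl_dg i hz.1, incl_dg j hz.2]) ?_
  rw [sd_inl, sd_inr, ← pull_comp, pull_rh, ← h.2 p q (by omega),
    show (xt (fh i)).comp (xt (fv j)) = (xt (fv j)).comp (xt (fh i)) from rfl, ← pull_comp, pull_rv,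
    ← h.1 p q (by omega)]
  rfl

lemma sd_ag (h : CmpT N W) (hN : p + q ≤ N + 1) (σ : Ce p q) (k l : Fin (p + 1) ⊕ Fin (q + 1)) :
    Ag (sd W p q σ k) (sd W p q σ l) {z | co k z.1 = 0 ∧ co l z.1 = 0} := by
  rcases k with i | i <;> rcases l with j | j
  · rcases eq_or_ne j i with rfl | hij
    · exact .refl _ _
    rcases p with _ | p
    · exact ag_empty fun z hz => sx_zero_ne _ i hz.1
    obtain ⟨j, rfl⟩ := Fin.exists_succAbove_eq hij
    have e : ∀ z ∈ {z : Pz (p + 1) q × Tm | co (.inl i) z.1 = 0 ∧ co (.inl (i.succAbove j)) z.1 = 0},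
        dg i z.1.1 j = 0 := fun z hz => (dg_above i hz.1 j).trans hz.2
    rcases p with _ | p
    · exact ag_empty fun z hz => sx_zero_ne _ j (e z hz)
    refine pass_ag ((xt (fh i)).comp (xt (fh j))) ((xt (rh j)).comp (xt (rh i)))
      (fun z hz => by simp [incl_dg j (e z hz), incl_dg i hz.1]) ?_
    rw [sd_inl, sd_inl, ← pull_comp, pull_rh, ← h.1 p q (by omega),
      pull_congr (f := (xt (fh i)).comp (xt (fh j)))
        (g := (xt (fh (i.succAbove j))).comp (xt (fh (j.predAbove i))))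
        (fun z => by simp [incl_incl]), ← pull_comp, pull_rh, ← h.1 p q (by omega)]
    exact congrArg _ (ContinuousMap.ext fun s => (face_face i j _).symm)
  · exact sd_hv h hN σ i j
  · exact (sd_hv h hN σ j i).symm.mono fun z hz => ⟨hz.2, hz.1⟩
  · rcases eq_or_ne j i with rfl | hij
    · exact .refl _ _
    rcases q with _ | q
    · exact ag_empty fun z hz => sx_zero_ne _ i hz.1
    obtain ⟨j, rfl⟩ := Fin.exists_succAbove_eq hij
    have e : ∀ z ∈ {z : Pz p (q + 1) × Tm | co (.inr i) z.1 = 0 ∧ co (.inr (i.succAbove j)) z.1 = 0},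
        dg i z.1.2 j = 0 := fun z hz => (dg_above i hz.1 j).trans hz.2
    rcases q with _ | q
    · exact ag_empty fun z hz => sx_zero_ne _ j (e z hz)
    refine pass_ag ((xt (fv i)).comp (xt (fv j))) ((xt (rv j)).comp (xt (rv i)))
      (fun z hz => by simp [incl_dg j (e z hz), incl_dg i hz.1]) ?_
    rw [sd_inr, sd_inr, ← pull_comp, pull_rv, ← h.2 p q (by omega),
      pull_congr (f := (xt (fv i)).comp (xt (fv j)))
        (g := (xt (fv (i.succAbove j))).comp (xt (fv (j.predAbove i))))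
        (fun z => by simp [incl_incl]), ← pull_comp, pull_rv, ← h.2 p q (by omega)]
    exact congrArg _ (ContinuousMap.ext fun s => congrArg σ (incl_incl i j _).symm)

lemma sd_zero {V : ∀ p q, Ce p q → St (Pz p q)} (hV : Cmp N V) (hN : p + q ≤ N)
    (h : ∀ p q σ, pull (sl 0) (W p q σ) = V p q σ) (σ : Ce p q) (k : Fin (p + 1) ⊕ Fin (q + 1)) :
    Ag (V p q σ) (pull (sl 0) (sd W p q σ k)) {z | co k z = 0} := by
  rcases k with i | j
  · rcases p with _ | p
    · exact ag_empty fun z hz => sx_zero_ne _ i hz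
    rw [sd_inl, pull_sl_xt, h, hV.1 p q hN, pull_comp]
    exact (ag_pull_self (fun z hz => Prod.ext (incl_dg i hz) rfl) _).symm
  · rcases q with _ | q
    · exact ag_empty fun z hz => sx_zero_ne _ j hz
    rw [sd_inr, pull_sl_xt, h, hV.2 p q hN, pull_comp]
    exact (ag_pull_self (fun z hz => Prod.ext rfl (incl_dg j hz)) _).symm

lemma sd_triv {V : ∀ p q, Ce p q → St (Pz p q)} (hV : Cmp N V) (hN : p + q ≤ N)
    (h : ∀ p q σ, V p q σ = triv → W p q σ = triv) {σ : Ce p q} (e : Ag (V p q σ) triv (Bd p q))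
    (k : Fin (p + 1) ⊕ Fin (q + 1)) : sd W p q σ k = triv := by
  rcases k with i | j
  · rcases p with _ | p
    · rw [sd]
    rw [sd_inl, h p q _ (by
      rw [hV.1 p q hN, e.pull_eq _ fun y => ⟨.inl i, incl_self i y.1⟩, pull_triv]), pull_triv]
  · rcases q with _ | q
    · rw [sd]
    rw [sd_inr, h p q _ (by
      rw [hV.2 p q hN, e.pull_eq _ fun y => ⟨.inr j, incl_self j y.2⟩, pull_triv]), pull_triv]

lemma pass_aux (k N : ℕ) (hE : ∀ F : St (E k), Cpt F → Cc F triv)
    (V : ∀ p q, Ce p q → St (Pz p q)) (hV : Cmp N V) (h0 : ∀ p q σ, p + q < k → V p q σ = triv)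
    (M : ℕ) (hM : M ≤ N + 1) :
    ∃ W : ∀ p q, Ce p q → St (Pz p q × Tm), CmpT (M - 1) W ∧
      (∀ p q σ, pull (sl 0) (W p q σ) = V p q σ) ∧
      (∀ p q σ, p + q ≤ k → p + q < M → pull (sl 1) (W p q σ) = triv) ∧
        ∀ p q σ, V p q σ = triv → W p q σ = triv := by
  induction M with
  | zero => exact ⟨fun p q σ => pull ContinuousMap.fst (V p q σ),
      ⟨fun _ _ h => by omega, fun _ _ h => by omega⟩, fun _ _ _ => pull_sl_fst _ _,
      fun _ _ _ _ h => by omega, fun _ _ _ h => by simp only [h, pull_triv]⟩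
  | succ M ih =>
    obtain ⟨W, a1, a2, a3, a4⟩ := ih (by omega)
    have key : ∀ p q σ, ∃ X : St (Pz p q × Tm), pull (sl 0) X = V p q σ ∧
        (p + q ≤ k → p + q < M + 1 → pull (sl 1) X = triv) ∧ (V p q σ = triv → X = triv) ∧
        (p + q ≠ M → X = W p q σ) ∧
        (p + q = M → ∀ l, Ag X (sd W p q σ l) {z | co l z.1 = 0}) := fun p q σ => by
      by_cases e : p + q = M
      swap
      · exact ⟨_, a2 p q σ, fun b1 b2 => a3 p q σ b1 (by omega), a4 p q σ, fun _ => rfl,
          fun b => absurd b e⟩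
      by_cases e1 : V p q σ = triv
      · exact ⟨triv, by rw [e1, pull_triv], fun _ _ => pull_triv _, fun _ => rfl,
          fun b => absurd e b, fun _ l => by
            rw [sd_triv hV (by omega) a4 (e1 ▸ .refl _ _)]; exact .refl _ _⟩
      by_cases e2 : p + q ≤ k
      · have b := hV.bd h0 e2 (by omega) σ
        obtain ⟨X, c1, c2, c3⟩ := fill (le_antisymm e2 (not_lt.mp fun c => e1 (h0 p q σ c))) hE _ b
        exact ⟨X, c1, fun _ _ => c2, fun c => absurd c e1, fun c => absurd e c, fun _ l => by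
          rw [sd_triv hV (by omega) a4 b]; exact c3.mono fun z hz => ⟨l, hz⟩⟩
      · obtain ⟨X, c1, c2⟩ := ext_ht (V p q σ) (sd W p q σ) (sd_ag a1 (by omega) σ)
          (sd_zero hV (by omega) a2 σ)
        exact ⟨X, c1, fun c => absurd c e2, fun c => absurd c e1, fun c => absurd e c, fun _ => c2⟩
    choose X b1 b2 b3 b4 b5 using key
    refine ⟨X, ⟨fun p q e i σ => ?_, fun p q e j σ => ?_⟩, b1, b2, b3⟩
    · rw [b4 p q _ (by omega)]
      by_cases e' : p + 1 + q = M
      · rw [(b5 _ _ σ e' (.inl i)).pull_eq _ fun y => incl_self i y.1.1, sd_inl, pull_rh]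
      · rw [b4 _ _ _ e', a1.1 p q (by omega)]
    · rw [b4 p q _ (by omega)]
      by_cases e' : p + (q + 1) = M
      · rw [(b5 _ _ σ e' (.inr j)).pull_eq _ fun y => incl_self j y.1.2, sd_inr, pull_rv]
      · rw [b4 _ _ _ e', a1.2 p q (by omega)]

theorem pass (k N : ℕ) (hE : ∀ F : St (E k), Cpt F → Cc F triv) (V : ∀ p q, Ce p q → St (Pz p q))
    (hV : Cmp N V) (h0 : ∀ p q σ, p + q < k → V p q σ = triv) :
    ∃ W : ∀ p q, Ce p q → St (Pz p q × Tm), CmpT N W ∧ (∀ p q σ, pull (sl 0) (W p q σ) = V p q σ) ∧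
      (∀ p q σ, p + q ≤ k → p + q ≤ N → pull (sl 1) (W p q σ) = triv) ∧
        ∀ p q σ, V p q σ = triv → W p q σ = triv := by
  obtain ⟨W, a1, a2, a3, a4⟩ := pass_aux k N hE V hV h0 (N + 1) le_rfl
  exact ⟨W, a1, a2, fun p q σ b1 b2 => a3 p q σ b1 (by omega), a4⟩

end

end Pool.Agent.P.MP_7bb7e1_gt.H
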