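import Pool.Agent.P.MP_7bb7e1_gt.H.Univ
import Pool.Agent.P.MP_7bb7e1_gt.H.Grid
import Pool.Agent.P.MP_7bb7e1_gt.H.Top

/-! Homotopies of a family glue over the grid. -/

namespace Pool.Agent.P.MP_7bb7e1_gt.H

open Pool.Agent.P.MP_7bb7e1_gt.D Filter Topology Set

noncomputable section

variable {n : ℕ} {F : St (E n)} {ψ : Zn n → E n → Om}

/-- a map into a face of a cell factors through the smaller cell -/
lemma realA_red (h : GD F ψ) {W : ∀ p q, Ce p q → St (Pz p q × Tm)} (hW : CmpT n W) {p q : ℕ}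
    (h1 : p + q ≤ n) {a : Fin (p + 1) → Zn n} {b : Fin (q + 1) → Zn n} (hv : Vd a b) {B : Type}
    [TopologicalSpace B] (t₀ : B) (f : C(B, Pz p q × Tm)) (k : Fin (p + 1) ⊕ Fin (q + 1))
    (hk : ∀ t, co k (f t).1 = 0) :
    ∃ (r s : ℕ) (c : Fin (r + 1) → Zn n) (d : Fin (s + 1) → Zn n) (g : C(B, Pz r s × Tm)),
      r + s < p + q ∧ Vd c d ∧ (∀ t, jm c d (g t).1 = jm a b (f t).1) ∧ (∀ t, (g t).2 = (f t).2) ∧
        pull f (W p q (cell ψ a b)) = pull g (W r s (cell ψ c d)) := by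
  rcases k with i | j
  · rcases p with _ | p
    · exact absurd (hk t₀) (sx_zero_ne _ i)
    obtain ⟨d, -, hd⟩ := exists_dg i
    refine ⟨p, q, fun k => a (i.succAbove k), b, (xt (d.prodMap (ContinuousMap.id _))).comp f,
      by omega, ⟨hv.1.comp (Fin.strictMono_succAbove i), hv.2.1, hv.2.2.left _⟩, fun t => ?_,
      fun t => rfl, ?_⟩
    · change pt _ (d (f t).1.1) + pt b (f t).1.2 = pt a (f t).1.1 + pt b (f t).1.2
      rw [← pt_incl, hd _ (hk t)]
    · rw [← h.face_cell hv.2.2, hW.1 p q h1, pull_comp]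
      refine pull_congr (fun t => ?_) _
      exact Prod.ext (Prod.ext (hd _ (hk t)).symm rfl) rfl
  · rcases q with _ | q
    · exact absurd (hk t₀) (sx_zero_ne _ j)
    obtain ⟨d, -, hd⟩ := exists_dg j
    refine ⟨p, q, a, fun k => b (j.succAbove k), (xt ((ContinuousMap.id _).prodMap d)).comp f,
      by omega, ⟨hv.1, hv.2.1.comp (Fin.strictMono_succAbove j), hv.2.2.right _⟩, fun t => ?_,
      fun t => rfl, ?_⟩
    · change pt a (f t).1.1 + pt _ (d (f t).1.2) = pt a (f t).1.1 + pt b (f t).1.2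
      rw [← pt_incl, hd _ (hk t)]
    · rw [← h.cell_incl hv.2.2, hW.2 p q h1, pull_comp]
      refine pull_congr (fun t => ?_) _
      exact Prod.ext (Prod.ext rfl (hd _ (hk t)).symm) rfl

lemma realA_ind (h : GD F ψ) {W : ∀ p q, Ce p q → St (Pz p q × Tm)} (hW : CmpT n W) (m : ℕ) :
    ∀ {p q p' q' : ℕ}, p + q + (p' + q') < m → p + q ≤ n → p' + q' ≤ n →
      ∀ {a : Fin (p + 1) → Zn n} {b : Fin (q + 1) → Zn n} {a' : Fin (p' + 1) → Zn n}
        {b' : Fin (q' + 1) → Zn n}, Vd a b → Vd a' b' → ∀ {B : Type} [TopologicalSpace B]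
        (f : C(B, Pz p q × Tm)) (f' : C(B, Pz p' q' × Tm)),
        (∀ t, jm a b (f t).1 = jm a' b' (f' t).1) → (∀ t, (f t).2 = (f' t).2) →
          pull f (W p q (cell ψ a b)) = pull f' (W p' q' (cell ψ a' b')) := by
  induction m with
  | zero => exact fun hm => absurd hm (Nat.not_lt_zero _)
  | succ m ih =>
    intro p q p' q' hm h1 h2 a b a' b' hv hv' B _ f f' e1 e2
    by_cases hb : ∃ t, (f t).1 ∉ Bd p q ∧ (f' t).1 ∉ Bd p' q'
    · obtain ⟨t, ht, ht'⟩ := hb
      obtain ⟨c1, c2⟩ := hv.eq_of_jm hv' (e1 t) ht ht'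
      cases c1
      cases c2
      exact pull_congr (fun t => Prod.ext (hv.jm_injective (e1 t)) (e2 t)) _
    refine (ag_of_cover (S := univ)
      (T := fun k : (Fin (p + 1) ⊕ Fin (q + 1)) ⊕ (Fin (p' + 1) ⊕ Fin (q' + 1)) =>
        {t | Sum.elim (fun k => co k (f t).1) (fun k => co k (f' t).1) k = 0})
      (locallyFinite_of_finite _) (fun k => ?_) (fun t _ => ?_) fun k => ?_).eq fun _ => trivial
    · rcases k with k | k
      · exact isClosed_eq ((continuous_co k).comp f.continuous.fst) continuous_const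
      · exact isClosed_eq ((continuous_co k).comp f'.continuous.fst) continuous_const
    · by_cases c : (f t).1 ∈ Bd p q
      · exact c.elim fun k hk => ⟨.inl k, hk⟩
      · exact (not_not.mp fun c' => hb ⟨t, c, c'⟩).elim fun k hk => ⟨.inr k, hk⟩
    refine St.ext' fun t₀ => ?_
    suffices e : Ag (pull f (W p q (cell ψ a b))) (pull f' (W p' q' (cell ψ a' b'))) _ from
      ((pull _ _).ex t₀).imp fun θ hθ => ⟨hθ, (show pull _ _ = pull _ _ from e) ▸ hθ⟩
    rw [Ag, pull_comp, pull_comp]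
    rcases k with k | k
    · obtain ⟨r, s, c, d, g, g1, g2, g3, g4, g5⟩ :=
        realA_red h hW h1 hv t₀ (f.comp (inc _)) k fun t => t.2.2
      rw [g5]
      exact ih (by omega) (by omega) h2 g2 hv' _ _ (fun t => (g3 t).trans (e1 t))
        fun t => (g4 t).trans (e2 t)
    · obtain ⟨r, s, c, d, g, g1, g2, g3, g4, g5⟩ :=
        realA_red h hW h2 hv' t₀ (f'.comp (inc _)) k fun t => t.2.2
      rw [g5]
      exact ih (by omega) h1 (by omega) hv g2 _ _ (fun t => (e1 t).trans (g3 t).symm)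
        fun t => (e2 t).trans (g4 t).symm

/-- Hints. Strong induction on `p + q + p' + q'`. If some `t` has `(f t).1 ∉ Bd` and `(f' t).1 ∉ Bd`, then
the cells coincide (`Vd.eq_of_jm`, `cases`) and `f = f'` (`Vd.jm_injective`). Otherwise `B` is the union
of the closed sets where one barycentric coordinate of `f` or `f'` vanishes (`ag_of_cover`); on such a
set `T` use `exists_dg`, `CmpT`, `GD.face_cell`, `GD.cell_incl`, `pt_incl` and the induction hypothesis
for the subtype `T` (`Ag` is an equality of pull-backs along `inc T`; `pull_comp`). -/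
theorem cmp_cells (h : GD F ψ) {W : ∀ p q, Ce p q → St (Pz p q × Tm)} (hW : CmpT n W)
    {p q p' q' : ℕ} (h1 : p + q ≤ n) (h2 : p' + q' ≤ n) {a : Fin (p + 1) → Zn n}
    {b : Fin (q + 1) → Zn n} {a' : Fin (p' + 1) → Zn n} {b' : Fin (q' + 1) → Zn n} (hv : Vd a b)
    (hv' : Vd a' b') {B : Type} [TopologicalSpace B] (f : C(B, Pz p q × Tm))
    (f' : C(B, Pz p' q' × Tm)) (e1 : ∀ t, jm a b (f t).1 = jm a' b' (f' t).1)
    (e2 : ∀ t, (f t).2 = (f' t).2) :
    pull f (W p q (cell ψ a b)) = pull f' (W p' q' (cell ψ a' b')) :=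
  realA_ind h hW _ (Nat.lt_succ_self _) h1 h2 hv hv' f f' e1 e2

/-- Hints. `exists_ht` for the cover by the `Ct v τ p × Tm`, indexed as in `locallyFinite_Ct`, with
`pull (xt (km v τ p))`; overlaps by `cmp_cells`, `jm_km`, `vd_top`; far cells are `tc` (`cell_far`,
`norm_vt`, `Ct_bound`). -/
theorem real_pass (h : GD F ψ) {W : ∀ p q, Ce p q → St (Pz p q × Tm)} (hW : CmpT n W)
    (ht : ∀ p q, W p q (tc p q) = triv) {G : St (E n)}
    (hG : Rl ψ G fun p q σ => pull (sl 0) (W p q σ)) :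
    ∃ G', Cc G G' ∧ Rl ψ G' fun p q σ => pull (sl 1) (W p q σ) := by
  obtain ⟨R, hR⟩ := h.far
  obtain ⟨G', c1, c2⟩ := exists_ht (F := G) (S := {x : E n | 2 * R + 4 ≤ ‖x‖})
    (T := fun c : Zn n × Equiv.Perm (Fin n) × Fin (n + 1) =>
      {z : E n × Tm | z.1 ∈ Ct c.1 c.2.1 c.2.2})
    (locallyFinite_Ct.preimage_continuous continuous_fst)
    (fun c => isClosed_Ct.preimage continuous_fst)
    (fun z => by
      obtain ⟨v, τ, p, hp, hz⟩ := exists_Ct z.1
      exact ⟨(v, τ, ⟨p, Nat.lt_succ_of_le hp⟩), hz⟩)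
    (fun c => pull (xt (km c.1 c.2.1 c.2.2)) (W c.2.2 (n - c.2.2)
      (cell ψ (ta c.1 c.2.1 c.2.2) (tb c.1 c.2.1 c.2.2 (n - c.2.2)))))
    (fun c c' => by
      have hp := Nat.le_of_lt_succ c.2.2.2
      have hp' := Nat.le_of_lt_succ c'.2.2.2
      rw [Ag, pull_comp, pull_comp]
      exact cmp_cells h hW (by omega) (by omega) (vd_top _ _ hp) (vd_top _ _ hp') _ _
        (fun t => (jm_km hp t.2.1).trans (jm_km hp' t.2.2).symm) fun t => rfl)
    (fun c => by
      rw [pull_sl_xt]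
      exact hG c.1 c.2.1 c.2.2 (Nat.le_of_lt_succ c.2.2.2))
    (fun c => by
      have hp := Nat.le_of_lt_succ c.2.2.2
      by_cases hv : R + 1 ≤ ‖cst c.1‖
      · rw [cell_far (fun i => hR _ ?_), ht, pull_triv]
        · exact .refl _ _
        · have a1 := norm_vt c.1 c.2.1 i
          have a2 := norm_sub_norm_le (cst c.1) (cst (vt c.1 c.2.1 i))
          rw [norm_sub_rev] at a2
          change R ≤ ‖cst (vt c.1 c.2.1 i)‖
          linarith
      · refine ag_empty fun z hz => hv ?_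
        have a1 : 2 * R + 4 ≤ ‖z.1‖ := hz.1
        have a2 : ‖z.1‖ ≤ 2 * ‖cst c.1‖ + 2 := by
          refine (pi_norm_le_iff_of_nonneg (by positivity)).mpr fun m => ?_
          have b1 := Ct_bound hp hz.2 m
          have b2 : |(c.1 m : ℝ)| ≤ ‖cst c.1‖ := norm_le_pi_norm (cst c.1) m
          rw [abs_le] at b2
          rw [Real.norm_eq_abs, abs_le]
          constructor <;> linarith [b1.1, b1.2, b2.1, b2.2]
        linarith)
  refine ⟨G', ⟨_, c1⟩, fun v τ p hp => ?_⟩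
  have := c2 (v, τ, ⟨p, Nat.lt_succ_of_le hp⟩)
  rw [pull_sl_xt] at this
  exact this

end

end Pool.Agent.P.MP_7bb7e1_gt.H
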