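import Pool.Agent.P.MP_7bb7e1_gt.H.Univ
import Pool.Agent.P.MP_7bb7e1_gt.H.Grid
import Pool.Agent.P.MP_7bb7e1_gt.H.Top

/-! The start of the induction. -/

namespace Pool.Agent.P.MP_7bb7e1_gt.H

open Pool.Agent.P.MP_7bb7e1_gt.D Filter Topology Set

noncomputable section

/-- Hints. Let `st y m = sta (y m)`, `w y m = ⌊y m - sta (y m)⌋`, `θ y = ψ (w y) (st y)` and
`R y = rl (θ y) (lf (ev (θ y)))`; take `G = relab R (pull st F)`. `Cpt.cc_pull'` along
`(1 - s) • y + s • st y` (`sta_bound`), `ht_relab` (for far `y`, `θ y = o0`, `lf_zero`, `rl_refl`). On a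
top cell use `ag_of_ch` with the charts `R y (ψ (a 0) (st y))` and `ac (cell ..) (fi ..)`; `jm_km`,
`sta_jm`, `floor_pt`, `GD.cell_apply`, `ac_nv`. -/
theorem real_start {n : ℕ} {F : St (E n)} {ψ : Zn n → E n → Om} (h : GD F ψ) :
    ∃ G, Cc F G ∧ Rl ψ G Un := by
  let st : C(E n, E n) :=
    ⟨fun y m => sta (y m), continuous_pi fun m => continuous_sta.comp (continuous_apply m)⟩
  let w : E n → Zn n := fun y m => ⌊y m - sta (y m)⌋
  let θ : E n → Om := fun y => ψ (w y) (st y)
  have hR : IsRl fun y => rl (θ y) (lf (ev (θ y))) :=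
    ⟨fun y => rl_smul (ev_lf _).symm, fun y => ev_rl (ev_lf _).symm⟩
  have c1 : Cc F (pull st F) := by
    refine h.cpt.cc_pull' ⟨fun z => (1 - z.2.1) • z.1 + z.2.1 • st z.1, by fun_prop⟩
      (fun R => ⟨2 * R + 1, fun x s hx => ?_⟩) (fun y => by simp) fun y => by simp
    change R ≤ ‖(1 - s.1) • x + s.1 • st x‖
    set y := (1 - s.1) • x + s.1 • st x with hy
    have : ‖x‖ ≤ 2 * ‖y‖ + 1 := by
      refine (pi_norm_le_iff_of_nonneg (by positivity)).mpr fun m => ?_
      have a1 : y m = (1 - s.1) * x m + s.1 * sta (x m) := rfl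
      have a2 := abs_le.mp (sta_bound (x m))
      have a3 := abs_le.mp (norm_le_pi_norm y m)
      have s0 := s.2.1
      have s1 := s.2.2
      have hn := norm_nonneg y
      rw [Real.norm_eq_abs, abs_le]
      constructor
      · by_contra! hc
        nlinarith
      · by_contra! hc
        nlinarith
    linarith
  obtain ⟨R1, h1⟩ := c1.right
  obtain ⟨R0, h0⟩ := h.far
  refine ⟨relab _ hR (pull st F), c1.trans ⟨max R1 (2 * R0 + 3), ht_relab hR
    (h1.mono fun x (hx : max R1 (2 * R0 + 3) ≤ ‖x‖) => le_of_max_le_left hx)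
    fun x (hx : max R1 (2 * R0 + 3) ≤ ‖x‖) ω => ?_⟩, fun v τ p hp => ?_⟩
  · have : ‖x‖ ≤ 2 * ‖cst (w x)‖ + 3 := by
      refine (pi_norm_le_iff_of_nonneg (by positivity)).mpr fun m => ?_
      have a2 := abs_le.mp (sta_bound (x m))
      have a3 : |(⌊x m - sta (x m)⌋ : ℝ)| ≤ ‖cst (w x)‖ := norm_le_pi_norm (cst (w x)) m
      have a4 := Int.floor_le (x m - sta (x m))
      have a5 := Int.lt_floor_add_one (x m - sta (x m))
      rw [abs_le] at a3
      rw [Real.norm_eq_abs, abs_le]
      constructor <;> linarith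
    have e : θ x = o0 := congrFun (h0 (w x) (by linarith [le_of_max_le_right hx])) _
    simp only [e, ev_o0, lf_zero, rl_refl]
  · have hn := nr_top v τ p (n - p)
    have hm : Monotone (ta v τ p) := (vd_top v τ hp).1.monotone
    have e1 : ∀ y ∈ Ct v τ p, st y = pt (tb v τ p (n - p)) (km v τ p y).2 := fun y hy => by
      funext m
      rw [← sta_jm hm hn, jm_km hp hy]
      rfl
    have e2 : ∀ y ∈ Ct v τ p, w y = ta v τ p (fi (km v τ p y).1) := fun y hy => by
      funext m
      rw [← floor_pt hm (fun i j => vt_le v τ _ _)]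
      have a := congrFun (jm_km hp hy) m
      have b : sta (y m) = _ := congrFun (e1 y hy) m
      rw [jm_apply, Pi.add_apply, ← b] at a
      exact congrArg Int.floor (sub_eq_of_eq_add a.symm)
    refine ag_of_ch fun x hx => ⟨_, _, St.relab_ch hR (St.pull_ch st (h.ch (ta v τ p 0) (st x) ?_)),
      St.pull_ch (km v τ p) (glob_ch _ _ _), eventually_nhdsWithin_of_forall fun y hy => ?_⟩
    · rw [e1 x hx]
      exact (hn.norm_le 0 _).trans one_le_two
    · simp only [h.cell_apply hn, ac_nv, θ, e1 y hy, e2 y hy]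

end

end Pool.Agent.P.MP_7bb7e1_gt.H
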