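import Pool.Agent.P.MP_7bb7e1_gt.H.Pi
import Pool.Agent.P.MP_7bb7e1_gt.H.Pass
import Pool.Agent.P.MP_7bb7e1_gt.H.RealA
import Pool.Agent.P.MP_7bb7e1_gt.H.Cyc
import Pool.Agent.P.MP_7bb7e1_gt.H.Low
import Pool.Agent.P.MP_7bb7e1_gt.H.H2
import Pool.Agent.P.MP_7bb7e1_gt.H.RealC

/-! The Hurewicz argument. -/

namespace Pool.Agent.P.MP_7bb7e1_gt.H

open Pool.Agent.P.MP_7bb7e1_gt.D Filter Topology Set

noncomputable section

lemma Cmp.mono {N N' : ℕ} {V : ∀ p q, Ce p q → St (Pz p q)} (h : Cmp N V) (hN : N' ≤ N) :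
    Cmp N' V := ⟨fun p q e => h.1 p q (e.trans hN), fun p q e => h.2 p q (e.trans hN)⟩

lemma CmpT.mono {N N' : ℕ} {W : ∀ p q, Ce p q → St (Pz p q × Tm)} (h : CmpT N W) (hN : N' ≤ N) :
    CmpT N' W := ⟨fun p q e => h.1 p q (e.trans hN), fun p q e => h.2 p q (e.trans hN)⟩

theorem exists_family (n k : ℕ) (hk : k ≤ n) (hE : ∀ j < k, ∀ F : St (E j), Cpt F → Cc F triv) :
    ∃ V, Cmp (n + 1) V ∧ (∀ p q σ, p + q < k → V p q σ = triv) ∧ (∀ p q, V p q (tc p q) = triv) ∧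
      ∀ (F : St (E n)) ψ, GD F ψ → ∃ G, Cc F G ∧ Rl ψ G V := by
  induction k with
  | zero => exact ⟨Un, cmp_Un _, fun _ _ _ h => absurd h (Nat.not_lt_zero _), Un_tc,
      fun _ _ h => real_start h⟩
  | succ k ih =>
    obtain ⟨V, h1, h2, h3, h4⟩ := ih (by omega) fun j hj => hE j (by omega)
    obtain ⟨W, a1, a2, a3, a4⟩ := pass k (n + 1) (hE k (by omega)) V h1 h2
    refine ⟨_, a1.sl 1, fun p q σ h => a3 p q σ (by omega) (by omega),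
      fun p q => by rw [a4 p q _ (h3 p q), pull_triv], fun F ψ h => ?_⟩
    obtain ⟨G, b1, b2⟩ := h4 F ψ h
    obtain ⟨G', c1, c2⟩ := real_pass h (a1.mono (Nat.le_succ n)) (fun p q => a4 p q _ (h3 p q))
      (G := G) (by simpa only [a2] using b2)
    exact ⟨G', b1.trans c1, c2⟩

theorem hur (m : ℕ) (hE : ∀ j < m + 2, ∀ F : St (E j), Cpt F → Cc F triv) :
    ∃ (A : Type) (_ : AddCommGroup A) (c : St (E (m + 2)) → A) (V : ∀ p q, Ce p q → St (Pz p q)),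
      IsCls c ∧ Cmp (m + 3) V ∧ (∀ p q σ, p + q < m + 2 → V p q σ = triv) ∧
        ∀ F ψ, GD F ψ →
          c F = ∑ p ∈ Finset.range (m + 3), Ph c V p (m + 2 - p) (wch ψ p (m + 2 - p)) := by
  obtain ⟨A, _, c, hc⟩ := exists_cls m
  obtain ⟨V, h1, h2, h3, h4⟩ := exists_family (m + 2) (m + 2) le_rfl hE
  refine ⟨A, inferInstance, c, V, hc, h1, h2, fun F ψ h => ?_⟩
  obtain ⟨G, b1, b2⟩ := h4 F ψ h
  rw [hc.cc b1]
  exact real_sum hc h (h1.mono (Nat.le_succ _)) h2 h3 b2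

lemma Cpt.exists_gd {n : ℕ} {F : St (E n)} (hF : Cpt F) :
    ∃ δ : ℝ, 0 < δ ∧ ∃ ψ, GD (H.pull (scl δ) F) ψ := by
  obtain ⟨R, hR⟩ := hF
  obtain ⟨δ, hδ, y, h1, R', h2⟩ := exists_grid F.ch (fun _ => o0)
    (fun x => (F.ex x).imp fun _ => F.op) ⟨R + 1, fun x hx => hR.ch (mem_of_superset
      ((isOpen_lt continuous_const continuous_norm).mem_nhds (show R < ‖x‖ by linarith))
        fun z (hz : R < ‖z‖) => hz.le) (triv_ch _ _)⟩
  exact ⟨δ, hδ, fun v x => y v (δ • x), fun v x hx => St.pull_ch (scl δ) (h1 v x hx), R',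
    fun v hv => by rw [h2 v hv]⟩

theorem null_two (hP : S_Perf) (F : St (E 2)) (hF : Cpt F) : Cc F triv := by
  obtain ⟨A, _, c, V, hc, h1, h2, h3⟩ := hur 0 fun j hj => by
    obtain rfl | rfl : j = 0 ∨ j = 1 := by omega
    exacts [null_zero, null_one]
  obtain ⟨δ, hδ, ψ, h⟩ := hF.exists_gd
  refine hc.inj hF cpt_triv ?_
  obtain ⟨u, v, w, x, e1, e2, e3⟩ := bdry_two hP (cyc_two h).1 (cyc_two h).2
  rw [hc.cc (hF.cc_scl hδ), h3 _ ψ h, hc.c_triv]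
  simp only [Finset.sum_range_succ, Finset.sum_range_zero, zero_add]
  change Ph c V 0 2 (wch ψ 0 2) + Ph c V 1 1 (wch ψ 1 1) + Ph c V 2 0 (wch ψ 2 0) = 0
  have a1 : Ph c V 2 0 (dh u) = 0 := ph_h hc h1 h2 u
  have a2 := ph_hv hc h1 h2 (p := 1) (q := 0) rfl v
  have a3 := ph_hv hc h1 h2 (p := 0) (q := 1) rfl w
  have a4 : Ph c V 0 2 (dv x) = 0 := ph_v hc h1 h2 x
  norm_num at a2 a3
  rw [e1, e2, e3]
  simp only [map_add, map_sub, a1, a4]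
  linear_combination (norm := abel) a2 + a3

theorem cc_three (hP : S_Perf) (hM : Main) {I : Ch 2 1 →+ ℝ} (hI : IsGV I) {F F' : St (E 3)}
    {ψ ψ' : Zn 3 → E 3 → Om} (h : GD F ψ) (h' : GD F' ψ') (e : I (wch ψ 2 1) = I (wch ψ' 2 1)) :
    Cc F F' := by
  obtain ⟨A, _, c, V, hc, h1, h2, h3⟩ := hur 1 fun j hj => by
    obtain rfl | rfl | rfl : j = 0 ∨ j = 1 ∨ j = 2 := by omega
    exacts [null_zero, null_one, null_two hP]
  refine hc.inj h.cpt h'.cpt ?_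
  obtain ⟨b1, b2, b3⟩ := cyc_three h
  obtain ⟨c1, c2, c3⟩ := cyc_three h'
  simp only at b1 b2 b3 c1 c2 c3
  obtain ⟨t, u, v, w, x, e0⟩ := ((hM.2 I hI).1 (wch ψ 3 0 - wch ψ' 3 0, wch ψ 2 1 - wch ψ' 2 1,
    wch ψ 1 2 - wch ψ' 1 2, wch ψ 0 3 - wch ψ' 0 3) ⟨by
      simp only [map_sub]; linear_combination (norm := abel) b1 - c1, by
      simp only [map_sub]; linear_combination (norm := abel) b2 - c2, by
      simp only [map_sub]; linear_combination (norm := abel) b3 - c3⟩).mp (by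
        simp only [map_sub, e, sub_self])
  simp only [Prod.mk.injEq, sub_eq_iff_eq_add] at e0
  obtain ⟨e1, e2, e3, e4⟩ := e0
  rw [h3 _ ψ h, h3 _ ψ' h']
  simp only [Finset.sum_range_succ, Finset.sum_range_zero, zero_add]
  change Ph c V 0 3 (wch ψ 0 3) + Ph c V 1 2 (wch ψ 1 2) + Ph c V 2 1 (wch ψ 2 1) +
    Ph c V 3 0 (wch ψ 3 0) = Ph c V 0 3 (wch ψ' 0 3) + Ph c V 1 2 (wch ψ' 1 2) +
      Ph c V 2 1 (wch ψ' 2 1) + Ph c V 3 0 (wch ψ' 3 0)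
  have a1 : Ph c V 3 0 (dh t) = 0 := ph_h hc h1 h2 t
  have a2 := ph_hv hc h1 h2 (p := 2) (q := 0) rfl u
  have a3 := ph_hv hc h1 h2 (p := 1) (q := 1) rfl v
  have a4 := ph_hv hc h1 h2 (p := 0) (q := 2) rfl w
  have a5 : Ph c V 0 3 (dv x) = 0 := ph_v hc h1 h2 x
  norm_num at a2 a3 a4
  rw [e1, e2, e3, e4]
  simp only [map_add, map_sub, a1, a5]
  linear_combination (norm := abel) a2 + a3 + a4

end

end Pool.Agent.P.MP_7bb7e1_gt.H
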