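import Pool.Agent.P.MP_7bb7e1_gt.H.Eta

/-! The Godbillon-Vey number is a concordance invariant. -/

namespace Pool.Agent.P.MP_7bb7e1_gt.H.A

open Pool.Agent.P.MP_7bb7e1_gt.HF Filter Topology MeasureTheory Set
open scoped ContDiff

noncomputable section

variable {n : ℕ}

/-- a coefficient of `dB` -/
def dB (B : Fin n → (Fin n → ℝ) → ℝ) (j k : Fin n) (z : Fin n → ℝ) : ℝ :=
  dd (Pi.single j 1) (B k) z - dd (Pi.single k 1) (B j) z

/-- a coefficient of `B ∧ dB` -/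
def bdb (B : Fin n → (Fin n → ℝ) → ℝ) (i j k : Fin n) (z : Fin n → ℝ) : ℝ :=
  B i z * dB B j k z + B j z * dB B k i z + B k z * dB B i j z

variable {B : Fin n → (Fin n → ℝ) → ℝ}

lemma dB_sm (h : ∀ i, ContDiff ℝ ∞ (B i)) (j k : Fin n) : ContDiff ℝ ∞ (dB B j k) :=
  (dd_sm (h k) _).sub (dd_sm (h j) _)

lemma bdb_sm (h : ∀ i, ContDiff ℝ ∞ (B i)) (i j k : Fin n) : ContDiff ℝ ∞ (bdb B i j k) :=
  (((h i).mul (dB_sm h j k)).add ((h j).mul (dB_sm h k i))).add ((h k).mul (dB_sm h i j))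

lemma dd_dB (h : ∀ i, ContDiff ℝ ∞ (B i)) (j k : Fin n) (w z : Fin n → ℝ) :
    dd w (dB B j k) z = dd w (dd (Pi.single j 1) (B k)) z - dd w (dd (Pi.single k 1) (B j)) z :=
  dd_sub (dd_sm (h k) _).contDiffAt (dd_sm (h j) _).contDiffAt w

lemma dd_bdb (h : ∀ i, ContDiff ℝ ∞ (B i)) (i j k : Fin n) (w z : Fin n → ℝ) :
    dd w (bdb B i j k) z =
      dd w (B i) z * dB B j k z + B i z * dd w (dB B j k) z +
      (dd w (B j) z * dB B k i z + B j z * dd w (dB B k i) z) +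
      (dd w (B k) z * dB B i j z + B k z * dd w (dB B i j) z) := by
  have m := fun i j k => ((h i).mul (dB_sm h j k)).contDiffAt (x := z)
  have e := fun i j k => dd_mul (h i).contDiffAt (dB_sm h j k).contDiffAt (z := z) w
  rw [← e, ← e, ← e, ← dd_add (m i j k) (m j k i), ← dd_add ((m i j k).add (m j k i)) (m k i j)]
  rfl

/-- the vector field dual to `B ∧ dB` in dimension four -/
def vf (B : Fin 4 → (Fin 4 → ℝ) → ℝ) : Fin 4 → (Fin 4 → ℝ) → ℝ :=
  ![bdb B 1 2 3, bdb B 0 3 2, bdb B 0 1 3, bdb B 0 2 1]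

lemma vf_sm {B : Fin 4 → (Fin 4 → ℝ) → ℝ} (h : ∀ i, ContDiff ℝ ∞ (B i)) (l : Fin 4) :
    ContDiff ℝ ∞ (vf B l) := by
  fin_cases l <;> exact bdb_sm h _ _ _

lemma div_vf {B : Fin 4 → (Fin 4 → ℝ) → ℝ} (h : ∀ i, ContDiff ℝ ∞ (B i)) (z : Fin 4 → ℝ)
    {k f : Fin 4 → ℝ} (e : ∀ i j, dB B i j z = k i * f j - k j * f i) :
    ∑ l, fderiv ℝ (vf B l) z (Pi.single l 1) = 0 := by
  have c := fun i (a b : Fin 4) =>
    dd_comm (h i).contDiffAt (z := z) (Pi.single a 1) (Pi.single b 1)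
  have e' : ∀ i j, dd (Pi.single i 1) (B j) z =
      dd (Pi.single j 1) (B i) z + (k i * f j - k j * f i) := fun i j => by
    rw [← e, dB]; ring
  change ∑ l, dd (Pi.single l 1) (vf B l) z = 0
  simp only [Fin.sum_univ_four, vf, Matrix.cons_val, dd_bdb h, dd_dB h, e]
  rw [c 0 2 1, c 0 3 1, c 0 3 2, c 1 2 0, c 1 3 0, c 1 3 2, c 2 1 0, c 2 3 0, c 2 3 1, c 3 1 0,
    c 3 2 0, c 3 2 1, e' 1 0, e' 2 0, e' 3 0, e' 2 1, e' 3 1, e' 3 2]
  ring

lemma bdb_zero {z : Fin n → ℝ} (h : ∀ i, B i z = 0) (i j k : Fin n) : bdb B i j k z = 0 := by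
  simp [bdb, h]

lemma gv_eq (a : (Fin 3 → ℝ) × ℝ → Fin 3 → ℝ) : gv a = ∫ x, bdb (etaN a) 0 1 2 x := by
  refine integral_congr_ae (.of_forall fun x => ?_)
  simp only [Fin.sum_univ_three, bdb, dB, dd, eta_eq]
  rfl

lemma hasF_cons (s : ℝ) (x : Fin 3 → ℝ) :
    HasFDerivAt (fun y : Fin 3 → ℝ => (Matrix.vecCons s y : Fin 4 → ℝ))
      (ContinuousLinearMap.pi fun i : Fin 4 => (Fin.cases 0 (fun j => ContinuousLinearMap.proj j) i :
        (Fin 3 → ℝ) →L[ℝ] ℝ)) x := by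
  refine hasFDerivAt_pi.mpr fun i => ?_
  refine Fin.cases ?_ (fun j => ?_) i
  · simpa using hasFDerivAt_const s x
  · simpa using hasFDerivAt_apply j x

lemma dd_cons {u : (Fin 4 → ℝ) → ℝ} (h : ContDiff ℝ ∞ u) (s : ℝ) (x : Fin 3 → ℝ) (j : Fin 3) :
    dd (Pi.single j 1) (fun y => u (Matrix.vecCons s y)) x =
      dd (Pi.single j.succ 1) u (Matrix.vecCons s x) := by
  rw [dd_comp (φ := fun y : Fin 3 → ℝ => (Matrix.vecCons s y : Fin 4 → ℝ)) h.contDiffAt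
    (hasF_cons s x)]
  congr 1
  ext i
  refine Fin.cases ?_ (fun l => ?_) i
  · simp
  · simp [Pi.single_apply]

lemma bdb_cons {B : Fin 4 → (Fin 4 → ℝ) → ℝ} (h : ∀ i, ContDiff ℝ ∞ (B i)) (s : ℝ)
    {b : Fin 3 → (Fin 3 → ℝ) → ℝ} (e : ∀ i x, b i x = B i.succ (Matrix.vecCons s x))
    (x : Fin 3 → ℝ) : bdb b 0 1 2 x = vf B 0 (Matrix.vecCons s x) := by
  obtain rfl : b = fun i x => B i.succ (Matrix.vecCons s x) := by ext i x; exact e i x
  simp only [bdb, dB, dd_cons (h _), vf, Matrix.cons_val]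
  rfl

lemma slice_eq {B : Fin 4 → (Fin 4 → ℝ) → ℝ} (h : ∀ i, ContDiff ℝ ∞ (B i))
    (hd : ∀ z, ∑ l, fderiv ℝ (vf B l) z (Pi.single l 1) = 0) {R : ℝ}
    (hR : ∀ z : Fin 4 → ℝ, R ≤ ‖fun i : Fin 3 => z i.succ‖ → ∀ i, B i z = 0) :
    ∫ x : Fin 3 → ℝ, vf B 0 (Matrix.vecCons 0 x) = ∫ x : Fin 3 → ℝ, vf B 0 (Matrix.vecCons 1 x) := by
  set r := |R| with hr
  have r0 : 0 ≤ r := abs_nonneg R
  have v0 : ∀ z : Fin 4 → ℝ, r ≤ ‖fun i : Fin 3 => z i.succ‖ → ∀ l, vf B l z = 0 := fun z hz l => by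
    have := hR z ((le_abs_self R).trans hz)
    fin_cases l <;> exact bdb_zero this _ _ _
  have key := integral_divergence_of_hasFDerivAt_off_countable'
    (Matrix.vecCons 0 fun _ : Fin 3 => -r) (Matrix.vecCons 1 fun _ : Fin 3 => r)
    (fun i => by refine Fin.cases ?_ (fun j => ?_) i <;> simp [r0]) (vf B)
    (fun l z => fderiv ℝ (vf B l) z) ∅ countable_empty
    (fun l => (vf_sm h l).continuous.continuousOn)
    (fun z _ l => (smAt_diff (vf_sm h l).contDiffAt).hasFDerivAt) (by simp [hd])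
  have side : ∀ (j : Fin 3) (c : ℝ), |c| = r → ∀ x : Fin 3 → ℝ,
      vf B j.succ (Fin.insertNth j.succ c x) = 0 := fun j c hc x => by
    refine v0 _ ?_ _
    refine le_trans ?_ (norm_le_pi_norm _ j)
    simp [hc]
  have whole : ∀ s : ℝ, ∫ x in Icc (fun _ : Fin 3 => -r) fun _ => r,
      vf B 0 (Matrix.vecCons s x) = ∫ x : Fin 3 → ℝ, vf B 0 (Matrix.vecCons s x) := fun s => by
    refine setIntegral_eq_integral_of_forall_compl_eq_zero fun x hx => v0 _ ?_ _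
    by_contra hn
    refine hx ⟨fun i => ?_, fun i => ?_⟩
    · have := (norm_le_pi_norm _ i).trans (not_le.mp hn).le
      simp only [Matrix.cons_val_succ, Real.norm_eq_abs] at this
      exact (abs_le.mp this).1
    · have := (norm_le_pi_norm _ i).trans (not_le.mp hn).le
      simp only [Matrix.cons_val_succ, Real.norm_eq_abs] at this
      exact (abs_le.mp this).2
  rw [Fin.sum_univ_succ] at key
  simp only [hd, integral_zero, Matrix.cons_val_succ, side _ r (abs_of_nonneg r0),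
    side _ (-r) (by rw [abs_neg, abs_of_nonneg r0]), sub_zero, Finset.sum_const_zero,
    add_zero, Fin.insertNth_zero', Matrix.cons_val_zero] at key
  rw [← whole, ← whole]
  exact (sub_eq_zero.mp key.symm).symm

/-- concordant foliations have the same Godbillon-Vey number -/
theorem gv_eq_of_conc {a₀ a₁ : (Fin 3 → ℝ) × ℝ → Fin 3 → ℝ} (h : Conc a₀ a₁) : gv a₀ = gv a₁ := by
  obtain ⟨A, hA, ⟨R, hR⟩, he⟩ := h
  have sm := eta_sm hA
  have key := slice_eq sm (fun z => by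
    obtain ⟨Y, hY⟩ := isFol_iff.mp hA z
    exact div_vf sm z (k := fun i => dd (Pi.single i 1) (kz Y) z)
      (f := fun i => dd (Pi.single i 1) (fz Y) z) fun i j => deta_at hY i j) (R := R)
    fun z hz i => (eta_zero (hR z hz) i).self_of_nhds
  have ev : ∀ x : Fin 3 → ℝ, ∀ᶠ t in 𝓝 (0 : ℝ), ∀ i : Fin 3,
      A (Matrix.vecCons 0 x, t) i.succ = a₀ (x, t) i ∧
        A (Matrix.vecCons 1 x, t) i.succ = a₁ (x, t) i := fun x =>
    (show Continuous fun t : ℝ => (x, t) by fun_prop).continuousAt.eventually (he x)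
  rw [gv_eq, gv_eq]
  simp only [bdb_cons sm 0 (b := etaN a₀) fun i x =>
      Filter.EventuallyEq.deriv_eq ((ev x).mono fun t ht => (ht i).1.symm),
    bdb_cons sm 1 (b := etaN a₁) fun i x =>
      Filter.EventuallyEq.deriv_eq ((ev x).mono fun t ht => (ht i).2.symm)]
  exact key

end

end Pool.Agent.P.MP_7bb7e1_gt.H.A
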