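import Pool.Agent.P.MP_7bb7e1_gt.H.Mov

/-! The projection of euclidean space onto a product of two simplices. -/

namespace Pool.Agent.P.MP_7bb7e1_gt.H

open Pool.Agent.P.MP_7bb7e1_gt.D Filter Topology Set

noncomputable section

variable {n p q : ℕ}

/-- extension by zero -/
def ex (x : E n) (k : ℕ) : ℝ := if h : k < n then x ⟨k, h⟩ else 0

/-- the shift -/
def sh (p : ℕ) (z : ℕ → ℝ) (k : ℕ) : ℝ := z (p + k)

/-- successive minima -/
def mn (z : ℕ → ℝ) : ℕ → ℝ
  | 0 => 1
  | k + 1 => min (mn z k) (max 0 (z k))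

lemma mn_succ_le (z : ℕ → ℝ) (k : ℕ) : mn z (k + 1) ≤ mn z k := min_le_left _ _

lemma mn_nonneg (z : ℕ → ℝ) : ∀ k, 0 ≤ mn z k
  | 0 => zero_le_one
  | k + 1 => le_min (mn_nonneg z k) (le_max_left _ _)

/-- the point of the simplex whose tail sums are the successive minima -/
def kp (q : ℕ) (z : ℕ → ℝ) : Sx q :=
  ⟨fun i => mn z i - if i.1 < q then mn z (i + 1) else 0, fun i => by
    beta_reduce
    split_ifs
    · linarith [mn_succ_le z i]
    · linarith [mn_nonneg z i], by
    rw [Fin.sum_univ_castSucc]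
    simp only [Fin.val_castSucc, Fin.is_lt, if_true, Fin.val_last, lt_irrefl, if_false]
    rw [Fin.sum_univ_eq_sum_range (fun i => mn z i - mn z (i + 1)), Finset.sum_range_sub']
    simp [mn]⟩

lemma kp_apply (z : ℕ → ℝ) (i : Fin (q + 1)) :
    kp q z i = mn z i - if i.1 < q then mn z (i + 1) else 0 := rfl

lemma continuous_mn (k : ℕ) : Continuous fun z => mn z k := by
  induction k with
  | zero => exact continuous_const
  | succ k ih => exact ih.min (continuous_const.max (continuous_apply k))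

lemma continuous_kp : Continuous (kp q) := by
  refine Continuous.subtype_mk (continuous_pi fun i => (continuous_mn _).sub ?_) _
  split_ifs
  exacts [continuous_mn _, continuous_const]

lemma continuous_ex : Continuous (ex : E n → ℕ → ℝ) := by
  refine continuous_pi fun k => ?_
  unfold ex
  split_ifs
  exacts [continuous_apply _, continuous_const]

/-- products of two simplices -/
abbrev Pz (p q : ℕ) : Type := Sx p × Sx q

/-- the projection -/
def kap (n p q : ℕ) : C(E n, Pz p q) :=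
  ⟨fun x => (kp p (ex x), kp q (sh p (ex x))), (continuous_kp.comp continuous_ex).prodMk
    (continuous_kp.comp (continuous_pi fun _ => (continuous_apply _).comp continuous_ex))⟩

lemma kap_apply (x : E n) : kap n p q x = (kp p (ex x), kp q (sh p (ex x))) := rfl

/-- the sequence `1, z 0, ..., z (q - 1), 0, ...` -/
def tl (q : ℕ) (z : ℕ → ℝ) (i : ℕ) : ℝ := if i = 0 then 1 else if i ≤ q then z (i - 1) else 0

/-- `1 > z 0 > ... > z (q - 1) > 0` -/
def Opn (q : ℕ) (z : ℕ → ℝ) : Prop := ∀ i ≤ q, tl q z (i + 1) < tl q z i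

/-- `1 ≥ z 0 ≥ ... ≥ z (q - 1) ≥ 0` -/
def Cls (q : ℕ) (z : ℕ → ℝ) : Prop := ∀ i ≤ q, tl q z (i + 1) ≤ tl q z i

/-- the open prism -/
def Op (n p q : ℕ) : Set (E n) := {x | Opn p (ex x) ∧ Opn q (sh p (ex x))}

/-- the closed prism -/
def Cp (n p q : ℕ) : Set (E n) := {x | Cls p (ex x) ∧ Cls q (sh p (ex x))}

/-- tail sums -/
def io (u : Sx q) (k : ℕ) : ℝ := ∑ i : Fin (q + 1) with k < i.1, u i

lemma continuous_io (k : ℕ) : Continuous fun u : Sx q => io u k :=
  continuous_finsetSum _ fun i _ => cont_coord i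

/-- the embedding as the closed prism -/
def iot (n p q : ℕ) : C(Pz p q, E n) :=
  ⟨fun z k => if k.1 < p then io z.1 k else io z.2 (k - p), continuous_pi fun k => by
    split_ifs
    exacts [(continuous_io _).comp continuous_fst, (continuous_io _).comp continuous_snd]⟩

/-- barycentric coordinates -/
def co (k : Fin (p + 1) ⊕ Fin (q + 1)) (z : Pz p q) : ℝ := Sum.elim z.1 z.2 k

lemma continuous_co (k : Fin (p + 1) ⊕ Fin (q + 1)) : Continuous (co k : Pz p q → ℝ) := by
  rcases k with i | j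
  exacts [(cont_coord i).comp continuous_fst, (cont_coord j).comp continuous_snd]

/-- the boundary -/
def Bd (p q : ℕ) : Set (Pz p q) := {z | ∃ k, co k z = 0}

lemma mn_le_one (z : ℕ → ℝ) : ∀ k, mn z k ≤ 1
  | 0 => le_rfl
  | k + 1 => (mn_succ_le z k).trans (mn_le_one z k)

/-- only the first `q` terms, projected to the unit interval, matter -/
lemma kp_congr {z z' : ℕ → ℝ} (h : ∀ k < q, max 0 (min (z k) 1) = max 0 (min (z' k) 1)) :
    kp q z = kp q z' := by
  have e : ∀ (m a : ℝ), m ≤ 1 → min m (max 0 a) = min m (max 0 (min a 1)) := fun m a hm => by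
    rcases le_total a 1 with h | h
    · rw [min_eq_left h]
    · rw [min_eq_right h, min_eq_left (hm.trans (le_max_of_le_right h)),
        min_eq_left (le_max_of_le_right hm)]
  have k : ∀ k ≤ q, mn z k = mn z' k := fun k => by
    induction k with
    | zero => exact fun _ => rfl
    | succ k ih =>
      intro hk
      rw [mn, mn, e _ _ (mn_le_one z k), e _ _ (mn_le_one z' k), h k hk, ih (by omega)]
  ext i
  rw [kp_apply, kp_apply, k i (by omega)]
  split_ifs with hi
  · rw [k _ hi]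
  · rfl

lemma tl_zero (z : ℕ → ℝ) : tl q z 0 = 1 := if_pos rfl

lemma tl_succ (z : ℕ → ℝ) (i : ℕ) : tl q z (i + 1) = if i < q then z i else 0 := by
  simp [tl]

lemma kp_bd {z : ℕ → ℝ} (h : ¬Opn q z) : ∃ i, kp q z i = 0 := by
  by_contra! hc
  have a : ∀ i ≤ q, (if i < q then mn z (i + 1) else 0) < mn z i := fun i hi =>
    sub_pos.mp (lt_of_le_of_ne (stdSimplex.zero_le (kp q z) ⟨i, by omega⟩) (hc ⟨i, by omega⟩).symm)
  have b : ∀ i ≤ q, 0 < mn z i := fun i hi => lt_of_le_of_lt (by
    split_ifs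
    exacts [mn_nonneg z _, le_rfl]) (a i hi)
  have c : ∀ i < q, mn z (i + 1) = z i := fun i hi => by
    have a1 := a i hi.le
    have b1 := b (i + 1) hi
    rw [if_pos hi] at a1
    rw [mn] at a1 b1 ⊢
    rcases le_total (mn z i) (max 0 (z i)) with e | e
    · rw [min_eq_left e] at a1; exact absurd a1 (lt_irrefl _)
    · rw [min_eq_right e] at b1 ⊢
      exact max_eq_right ((lt_max_iff.mp b1).resolve_left (lt_irrefl _)).le
  have d : ∀ i ≤ q, tl q z i = mn z i := fun i hi => by
    rcases i with _ | i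
    · rfl
    · rw [tl_succ, if_pos (by omega), c i hi]
  refine h fun i hi => ?_
  have := a i hi
  rw [d i hi, tl_succ]
  split_ifs at this ⊢ with e
  · rwa [c i e] at this
  · exact this

lemma Cls.anti {z : ℕ → ℝ} (h : Cls q z) : Antitone (tl q z) := antitone_nat_of_succ_le fun i => by
  by_cases hi : i ≤ q
  · exact h i hi
  · rcases i with _ | i
    · omega
    · rw [tl_succ, tl_succ, if_neg (by omega), if_neg (by omega)]

lemma Cls.bd {z : ℕ → ℝ} (h : Cls q z) {k : ℕ} (hk : k < q) : 0 ≤ z k ∧ z k ≤ 1 := by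
  have a := h.anti (show k + 1 ≤ q + 1 by omega)
  have b := h.anti (Nat.zero_le (k + 1))
  rw [tl_succ, tl_succ, if_pos hk, if_neg (lt_irrefl _)] at a
  rw [tl_succ, if_pos hk, tl_zero] at b
  exact ⟨a, b⟩

lemma Cls.mn {z : ℕ → ℝ} (h : Cls q z) : ∀ i ≤ q, mn z i = tl q z i
  | 0, _ => rfl
  | i + 1, hi => by
    have a := h i (by omega)
    rw [H.mn, h.mn i (by omega), max_eq_right (h.bd hi).1]
    rw [tl_succ, if_pos (by omega)] at a ⊢
    exact min_eq_right a

lemma io_of_le (u : Sx q) {k : ℕ} (hk : q ≤ k) : io u k = 0 :=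
  Finset.sum_eq_zero fun i hi => by
    have := (Finset.mem_filter.mp hi).2
    omega

lemma tl_io (u : Sx q) (i : Fin (q + 1)) : tl q (io u) i = tl q (io u) (i + 1) + u i := by
  have a : ∀ k, tl q (io u) k = ∑ i : Fin (q + 1) with k ≤ i.1, u i := fun k => by
    rcases k with _ | k
    · simp [tl_zero, stdSimplex.sum_eq_one]
    · rw [tl_succ]
      split_ifs with e
      · rfl
      · exact (io_of_le u (not_lt.mp e)).symm
  rw [a, a, ← Finset.sum_erase_add _ _ (show i ∈ _ by simp)]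
  refine congrArg (· + u i) (Finset.sum_congr ?_ fun _ _ => rfl)
  ext j
  simp only [Finset.mem_erase, Finset.mem_filter, Finset.mem_univ, true_and, ne_eq, Fin.ext_iff]
  omega

lemma cls_io (u : Sx q) : Cls q (io u) := fun i hi => by
  have := tl_io u ⟨i, by omega⟩
  linarith [stdSimplex.zero_le u ⟨i, by omega⟩]

lemma Cls.kp {z : ℕ → ℝ} (h : Cls q z) (i : Fin (q + 1)) :
    kp q z i = tl q z i - tl q z (i + 1) := by
  rw [kp_apply, h.mn i (by omega)]
  split_ifs with e
  · rw [h.mn _ e]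
  · rw [tl_succ, if_neg e]

lemma io_kp {z : ℕ → ℝ} (h : Cls q z) {k : ℕ} (hk : k < q) : io (kp q z) k = z k := by
  have a : ∀ i ≤ q + 1, tl q (io (kp q z)) i = tl q z i := fun i => by
    induction i with
    | zero => exact fun _ => rfl
    | succ i ih =>
      intro hi
      have b := tl_io (kp q z) ⟨i, hi⟩
      rw [h.kp] at b
      simp only at b
      linarith [ih (by omega)]
  have := a (k + 1) (by omega)
  rwa [tl_succ, tl_succ, if_pos hk, if_pos hk] at this

lemma kp_io (u : Sx q) : kp q (io u) = u := by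
  ext i
  rw [(cls_io u).kp, tl_io u i]
  ring

lemma opn_io (u : Sx q) : Opn q (io u) ↔ ∀ i, u i ≠ 0 :=
  ⟨fun h i => by
    have := h i (by omega)
    rw [tl_io u i] at this
    linarith [this] |> fun e : 0 < u i => e.ne', fun h i hi => by
    have := tl_io u ⟨i, by omega⟩
    linarith [lt_of_le_of_ne (stdSimplex.zero_le u ⟨i, by omega⟩) (h _).symm]⟩

lemma kap_bd {x : E n} (h : x ∉ Op n p q) : kap n p q x ∈ Bd p q := by
  rcases not_and_or.mp h with h | h
  · exact (kp_bd h).elim fun i hi => ⟨.inl i, hi⟩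
  · exact (kp_bd h).elim fun i hi => ⟨.inr i, hi⟩

lemma ex_iot (h : p + q = n) (z : Pz p q) {k : ℕ} (hk : k < p) :
    ex (iot n p q z) k = io z.1 k := by
  rw [ex, dif_pos (by omega)]
  exact if_pos hk

lemma sh_iot (h : p + q = n) (z : Pz p q) {k : ℕ} (hk : k < q) :
    sh p (ex (iot n p q z)) k = io z.2 k := by
  rw [sh, ex, dif_pos (by omega)]
  exact (if_neg (by simp)).trans (by simp)

lemma tl_congr {z z' : ℕ → ℝ} (h : ∀ k < q, z k = z' k) : tl q z = tl q z' := funext fun i => by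
  rcases i with _ | i
  · rfl
  · rw [tl_succ, tl_succ]
    split_ifs with e
    exacts [h i e, rfl]

lemma kap_iot (h : p + q = n) (z : Pz p q) : kap n p q (iot n p q z) = z :=
  Prod.ext ((kp_congr fun _ hk => by rw [ex_iot h z hk]).trans (kp_io z.1))
    ((kp_congr fun _ hk => by rw [sh_iot h z hk]).trans (kp_io z.2))

lemma iot_kap (h : p + q = n) {x : E n} (hx : x ∈ Cp n p q) : iot n p q (kap n p q x) = x := by
  ext k
  change (if k.1 < p then io (kp p (ex x)) k else io (kp q (sh p (ex x))) (k - p)) = _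
  split_ifs with e
  · rw [io_kp hx.1 e, ex, dif_pos k.2]
  · rw [io_kp hx.2 (by omega), sh, show p + (k - p) = k by omega, ex, dif_pos k.2]

lemma iot_mem (h : p + q = n) (z : Pz p q) : iot n p q z ∈ Op n p q ↔ z ∉ Bd p q := by
  change Opn p _ ∧ Opn q _ ↔ _
  rw [Opn, Opn, tl_congr fun _ hk => ex_iot h z hk, tl_congr fun _ hk => sh_iot h z hk,
    ← Opn, ← Opn, opn_io, opn_io]
  simp [Bd, co]

lemma continuous_tl (i : ℕ) : Continuous fun z => tl q z i := by
  unfold tl
  split_ifs
  exacts [continuous_const, continuous_apply _, continuous_const]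

lemma continuous_sh : Continuous (sh p) := continuous_pi fun _ => continuous_apply _

lemma isOpen_Op : IsOpen (Op n p q) := by
  have : ∀ q, IsOpen {z | Opn q z} := fun q => by
    have := (finite_le_nat q).isOpen_biInter fun i _ =>
      isOpen_lt (continuous_tl (q := q) (i + 1)) (continuous_tl (q := q) i)
    convert this using 1
    ext z
    simp [Opn]
  exact ((this p).preimage continuous_ex).inter
    ((this q).preimage (continuous_sh.comp continuous_ex))

lemma isClosed_Cp : IsClosed (Cp n p q) := by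
  have : ∀ q, IsClosed {z | Cls q z} := fun q => by
    have := isClosed_biInter (s := {i | i ≤ q}) fun i _ =>
      isClosed_le (continuous_tl (q := q) (i + 1)) (continuous_tl (q := q) i)
    convert this using 1
    ext z
    simp [Cls]
  exact ((this p).preimage continuous_ex).inter
    ((this q).preimage (continuous_sh.comp continuous_ex))

lemma convex_Op : Convex ℝ (Op n p q) := by
  intro x hx y hy a b ha hb hab
  have e : ex (a • x + b • y) = fun k => a * ex x k + b * ex y k := funext fun k => by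
    unfold ex
    split_ifs <;> simp
  have t : ∀ q (z w : ℕ → ℝ), Opn q z → Opn q w → Opn q fun k => a * z k + b * w k :=
    fun q z w hz hw i hi => by
      have u : ∀ i, tl q (fun k => a * z k + b * w k) i = a * tl q z i + b * tl q w i := fun i => by
        unfold tl
        split_ifs <;> linarith
      rw [u, u]
      have := (convex_Ioi (𝕜 := ℝ) (0 : ℝ)) (sub_pos.mpr (hz i hi)) (sub_pos.mpr (hw i hi)) ha hb hab
      simp only [mem_Ioi, smul_eq_mul] at this
      linarith
  refine ⟨?_, ?_⟩ <;> rw [e]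
  exacts [t _ _ _ hx.1 hy.1, t _ _ _ hx.2 hy.2]

lemma Op_subset_Cp : Op n p q ⊆ Cp n p q := fun _ h =>
  ⟨fun i hi => (h.1 i hi).le, fun i hi => (h.2 i hi).le⟩

lemma kap_chain {r : ℝ → ℝ → Prop} (tr : ∀ a b c, r a b → r b c → r a c) (h01 : r 0 1)
    (z : ℕ → ℝ) : (∀ i ≤ q, r (tl q z (i + 1)) (tl q z i)) ↔
      (∀ k < q, r 0 (z k) ∧ r (z k) 1) ∧ ∀ k l, k < l → l < q → r (z l) (z k) := by
  constructor
  · intro h
    have a : ∀ i j, i < j → j ≤ q + 1 → r (tl q z j) (tl q z i) := fun i j hij => by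
      induction j, hij using Nat.le_induction with
      | base => exact fun e => h i (by omega)
      | succ j _ ih => exact fun e => tr _ _ _ (h j (by omega)) (ih (by omega))
    refine ⟨fun k hk => ⟨?_, ?_⟩, fun k l hkl hl => ?_⟩
    · simpa [tl_succ, hk] using a (k + 1) (q + 1) (by omega) le_rfl
    · simpa [tl_succ, hk, tl_zero] using a 0 (k + 1) (by omega) (by omega)
    · simpa [tl_succ, hl, hkl.trans hl] using a (k + 1) (l + 1) (by omega) (by omega)
  · rintro ⟨h1, h2⟩ i hi
    rcases i with _ | i <;> simp only [tl_succ, tl_zero] <;> split_ifs with e1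
    · exact (h1 0 e1).2
    · exact h01
    · exact h2 _ _ (by omega) e1
    · omega
    · exact (h1 i hi).1
    · omega

lemma kap_mem {r : ℝ → ℝ → Prop} (tr : ∀ a b c, r a b → r b c → r a c) (h01 : r 0 1)
    (h : p + q = n) (x : E n) : ((∀ i ≤ p, r (tl p (ex x) (i + 1)) (tl p (ex x) i)) ∧
      ∀ i ≤ q, r (tl q (sh p (ex x)) (i + 1)) (tl q (sh p (ex x)) i)) ↔
      (∀ k, r 0 (x k) ∧ r (x k) 1) ∧
        ∀ k l : Fin n, k < l → (l.1 < p ∨ p ≤ k.1) → r (x l) (x k) := by
  have e : ∀ k : Fin n, ex x k = x k := fun k => dif_pos k.2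
  have e' : ∀ k : Fin n, p ≤ k.1 → sh p (ex x) (k - p) = x k := fun k hk => by
    rw [sh, show p + (k - p) = k by omega, e]
  rw [kap_chain tr h01, kap_chain tr h01]
  constructor
  · rintro ⟨⟨a1, a2⟩, a3, a4⟩
    refine ⟨fun k => ?_, fun k l hkl hp => ?_⟩
    · rcases lt_or_ge k.1 p with hk | hk
      · exact e k ▸ a1 k hk
      · exact e' k hk ▸ a3 _ (by omega)
    · have : k.1 < l.1 := hkl
      rcases hp with hp | hp
      · exact e k ▸ e l ▸ a2 k l hkl hp
      · exact e' k hp ▸ e' l (by omega) ▸ a4 _ _ (by omega) (by omega)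
  · rintro ⟨a1, a2⟩
    refine ⟨⟨fun k hk => e ⟨k, by omega⟩ ▸ a1 _, fun k l hkl hl =>
      e ⟨k, by omega⟩ ▸ e ⟨l, by omega⟩ ▸ a2 _ _ hkl (.inl hl)⟩,
      fun k hk => ?_, fun k l hkl hl => ?_⟩
    · rw [sh]
      exact e ⟨p + k, by omega⟩ ▸ a1 _
    · rw [sh, sh]
      exact e ⟨p + k, by omega⟩ ▸ e ⟨p + l, by omega⟩ ▸
        a2 _ _ (Nat.add_lt_add_left hkl p) (.inr (Nat.le_add_right p k))

/-- in terms of the coordinates -/
lemma mem_Cp (h : p + q = n) {x : E n} : x ∈ Cp n p q ↔ (∀ k, 0 ≤ x k ∧ x k ≤ 1) ∧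
    ∀ k l : Fin n, k ≤ l → (l.1 < p ∨ p ≤ k.1) → x l ≤ x k :=
  (kap_mem (r := (· ≤ ·)) (fun _ _ _ => le_trans) zero_le_one h x).trans (and_congr_right fun _ =>
    ⟨fun a k l hkl hp => hkl.lt_or_eq.elim (fun e => a k l e hp) fun e => e ▸ le_rfl,
      fun a k l hkl => a k l hkl.le⟩)

lemma mem_Op (h : p + q = n) {x : E n} : x ∈ Op n p q ↔ (∀ k, 0 < x k ∧ x k < 1) ∧
    ∀ k l : Fin n, k < l → (l.1 < p ∨ p ≤ k.1) → x l < x k :=
  kap_mem (r := (· < ·)) (fun _ _ _ => lt_trans) zero_lt_one h x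

lemma Op_subset_oc (h : p + q = n) : Op n p q ⊆ oc n := fun _ hx => ((mem_Op h).mp hx).1

lemma Cp_mem (h : p + q = n) {x : E n} (hx : x ∈ Cp n p q) (k : Fin n) : 0 ≤ x k ∧ x k ≤ 1 :=
  ((mem_Cp h).mp hx).1 k

lemma Op_nonempty (h : p + q = n) : (Op n p q).Nonempty := by
  refine ⟨fun k => 1 / ((k.1 : ℝ) + 2), (mem_Op h).mpr ⟨fun k => ⟨by positivity, ?_⟩,
    fun k l hkl _ => ?_⟩⟩
  · rw [div_lt_one (by positivity)]
    linarith [Nat.cast_nonneg (α := ℝ) k.1]
  · have : (k.1 : ℝ) < l.1 := Nat.cast_lt.mpr hkl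
    exact one_div_lt_one_div_of_lt (by positivity) (by linarith)

end

end Pool.Agent.P.MP_7bb7e1_gt.H
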