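import Pool.Agent.P.MP_7bb7e1_gt.H.FI2

/-! The local form of the Godbillon-Vey integrand. -/

namespace Pool.Agent.P.MP_7bb7e1_gt.H

open Pool.Agent.P.MP_7bb7e1_gt.D Filter Topology Set
open scoped ContDiff

noncomputable section

variable {n : ℕ} {a : E n × ℝ → E n} {Y Y' : E n × ℝ → ℝ} {x : E n}

/-- directional derivatives -/
def dd (i : Fin n) (h : E n → ℝ) (x : E n) : ℝ := fderiv ℝ h x (Pi.single i 1)

/-- the form `η` on the zero section -/
def et (a : E n × ℝ → E n) (i : Fin n) (x : E n) : ℝ := deriv (fun t => a (x, t) i) 0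

/-- the logarithm of the fibre derivative on the zero section -/
def lg (Y : E n × ℝ → ℝ) (x : E n) : ℝ := Real.log (fderiv ℝ Y (x, 0) (0, 1))

/-- the curl -/
def curl (b : Fin 3 → E 3 → ℝ) (i : Fin 3) (x : E 3) : ℝ :=
  dd (i + 1) (b (i + 2)) x - dd (i + 2) (b (i + 1)) x

lemma gv_eq (a : E 3 × ℝ → E 3) : HF.gv a = ∫ x, ∑ i, et a i x * curl (et a) i x := rfl

lemma Sv.lg_smooth (h : Sv Y (x, 0)) : ContDiffAt ℝ ∞ (lg Y) x :=
  A.gz_sm h.self_of_nhds.1 h.self_of_nhds.2.ne'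

lemma FI.et_smooth (h : FI a Y x) (i : Fin n) : ContDiffAt ℝ ∞ (et a i) x := by
  have h0 := h.1.self_of_nhds
  exact (((A.dd_smAt (A.gz_sm h0.1 h0.2.ne') _).neg).add ((A.kz_sm h0.1 h0.2.ne').mul
    (A.dd_smAt (A.fz_sm h0.1) _))).congr_of_eventuallyEq (A.eta_ev (fi_iff.mp h).fi i)

lemma et_zero (h : ∀ᶠ p in 𝓝 (x, (0 : ℝ)), a p = 0) (i : Fin n) : et a i x = 0 :=
  (A.eta_zero h i).self_of_nhds

lemma FI.loc_at (h : FI a Y x) (i : Fin n) :
    et a i x + dd i (lg Y) x = A.kz Y x * dd i (fun y => Y (y, 0)) x :=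
  (congrArg (· + dd i (lg Y) x) (A.eta_at (fi_iff.mp h).fi i)).trans (by
    change -dd i (lg Y) x + A.kz Y x * dd i (fun y => Y (y, 0)) x + _ = _
    ring)

/-- Hints. `a i = -Y_i / Y_t` near `(x, 0)` (`FI.slp`), so `∂_t a i = -∂_i log Y_t + (Y_tt / Y_t ^ 2) Y_i`
(symmetry of second derivatives, `ContDiffAt.isSymmSndFDerivAt`). -/
theorem FI.loc (h : FI a Y x) : ∃ κ : E n → ℝ, ∀ᶠ y in 𝓝 x, ContDiffAt ℝ ∞ κ y ∧
    ∀ i, et a i y + dd i (lg Y) y = κ y * dd i (fun y => Y (y, 0)) y :=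
  ⟨A.kz Y, h.ev.mono fun _ hy => ⟨A.kz_sm hy.1.self_of_nhds.1 hy.1.self_of_nhds.2.ne',
    fun i => hy.loc_at i⟩⟩

/-- the exterior derivative of `η` is decomposable -/
theorem FI.dec (h : FI a Y x) : ∃ u : E n, ∀ j k, dd j (et a k) x - dd k (et a j) x =
    u j * dd k (fun y => Y (y, 0)) x - u k * dd j (fun y => Y (y, 0)) x :=
  ⟨fun j => A.dd (Pi.single j 1) (A.kz Y) x, fun j k => A.deta_at (fi_iff.mp h).fi j k⟩

theorem FI.p1 {a : E 3 × ℝ → E 3} {Y : E 3 × ℝ → ℝ} {x : E 3} (h : FI a Y x) :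
    ∑ i, (et a i x + dd i (lg Y) x) * curl (et a) i x = 0 := by
  obtain ⟨u, hu⟩ := h.dec
  simp only [h.loc_at, curl, hu, Fin.sum_univ_three]
  change _ * (u 1 * dd 2 _ x - u 2 * dd 1 _ x) + _ * (u 2 * dd 0 _ x - u 0 * dd 2 _ x) +
    _ * (u 0 * dd 1 _ x - u 1 * dd 0 _ x) = 0
  ring

lemma Sv.lg_smul (h : Sv Y (x, 0)) {g : Gc} (e : ∀ᶠ p in 𝓝 (x, (0 : ℝ)), Y' p = g • Y p) :
    ∀ᶠ y in 𝓝 x, lg Y' y - lg Y y = Real.log (deriv (fn g) (Y (y, 0))) := by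
  filter_upwards [ev_zero_section h, ev_zero_section e] with y h1 h2
  have h3 := h1.self_of_nhds
  have h4 : fderiv ℝ Y' (y, 0) (0, 1) = deriv (fn g) (Y (y, 0)) * fderiv ℝ Y (y, 0) (0, 1) :=
    (A.dd_congr h2 _).trans (A.dd_fn g h3.1 _)
  rw [lg, lg, h4, Real.log_mul (fn_pos g _).ne' h3.2.ne']
  ring

theorem FI.p2 (h : FI a Y x) (h' : FI a Y' x) (j k : Fin n) :
    (dd j (lg Y') x - dd j (lg Y) x) * (et a k x + dd k (lg Y) x) =
      (dd k (lg Y') x - dd k (lg Y) x) * (et a j x + dd j (lg Y) x) := by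
  obtain ⟨g, hg⟩ := h.trans h'
  have s : ContDiffAt ℝ ∞ (fun t => Real.log (deriv (fn g) t)) (Y (x, 0)) :=
    ((contDiff_infty_iff_deriv.mp (fn_smooth g)).2.contDiffAt).log (fn_pos g _).ne'
  have e : ∀ j, dd j (lg Y') x - dd j (lg Y) x =
      deriv (fun t => Real.log (deriv (fn g) t)) (Y (x, 0)) * dd j (fun y => Y (y, 0)) x := by
    intro j
    have e1 := A.dd_sub h'.1.lg_smooth h.1.lg_smooth (Pi.single j 1)
    rw [A.dd_congr (h.1.lg_smul hg)] at e1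
    refine e1.symm.trans ?_
    have := ((A.smAt_diff s).hasDerivAt.comp_hasFDerivAt x
      (A.smAt_diff (A.fz_sm h.1.self_of_nhds.1)).hasFDerivAt).fderiv
    change fderiv ℝ ((fun t => Real.log (deriv (fn g) t)) ∘ A.fz Y) x _ = _
    rw [this]
    rfl
  rw [e, e, h.loc_at, h.loc_at]
  ring

/-- the pull-back along a dilation of the base -/
def sc (δ : ℝ) (a : E n × ℝ → E n) (p : E n × ℝ) : E n := δ • a (δ • p.1, p.2)

lemma FI.sc {δ : ℝ} (h : FI a Y (δ • x)) : FI (sc δ a) (fun p => Y (δ • p.1, p.2)) x := by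
  have hL : ∀ p : E n × ℝ, HasFDerivAt (fun p : E n × ℝ => (δ • p.1, p.2))
      ((δ • ContinuousLinearMap.fst ℝ (E n) ℝ).prod (ContinuousLinearMap.snd ℝ (E n) ℝ)) p :=
    fun p => ((δ • ContinuousLinearMap.fst ℝ (E n) ℝ).prod
      (ContinuousLinearMap.snd ℝ (E n) ℝ)).hasFDerivAt
  have c : Tendsto (fun p : E n × ℝ => (δ • p.1, p.2)) (𝓝 (x, 0)) (𝓝 (δ • x, 0)) :=
    (hL (x, 0)).continuousAt
  have d : ∀ p : E n × ℝ, ContDiffAt ℝ ∞ Y (δ • p.1, p.2) → ∀ w : E n × ℝ,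
      fderiv ℝ (fun p : E n × ℝ => Y (δ • p.1, p.2)) p w = fderiv ℝ Y (δ • p.1, p.2) (δ • w.1, w.2) :=
    fun p hp w => A.dd_comp (φ := fun p : E n × ℝ => (δ • p.1, p.2)) hp (hL p) w
  refine ⟨(c.eventually h.1).mono fun p hp => ⟨hp.1.comp p (by fun_prop), ?_⟩,
    ((c.eventually h.1).and (c.eventually h.2)).mono fun p hp v => ?_⟩
  · rw [d p hp.1, smul_zero]
    exact hp.2
  · rw [d p hp.1.1, ← hp.2 (δ • v)]
    simp only [H.sc, Pi.smul_apply, smul_eq_mul, mul_assoc, mul_left_comm δ]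

/-- Hints: `MeasureTheory.Measure.integral_comp_smul`. -/
theorem gv_sc {a : E 3 × ℝ → E 3} (h : ∀ x, ∃ Y, FI a Y x) {δ : ℝ} (hδ : 0 < δ) :
    HF.gv (sc δ a) = HF.gv a := by
  have sm : ∀ i x, ContDiffAt ℝ ∞ (et a i) x := fun i x => (h x).elim fun _ hY => hY.et_smooth i
  have e1 : ∀ i, et (sc δ a) i = fun x => δ * et a i (δ • x) := fun i => funext fun x =>
    deriv_const_mul_field (v := fun t => a (δ • x, t) i) δ
  have e2 : ∀ i j x, dd j (et (sc δ a) i) x = δ * (δ * dd j (et a i) (δ • x)) := fun i j x => by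
    have hL : HasFDerivAt (fun y : E 3 => δ • y) (δ • ContinuousLinearMap.id ℝ (E 3)) x :=
      (hasFDerivAt_id x).const_smul δ
    have := (((A.smAt_diff (sm i (δ • x))).hasFDerivAt.comp x hL).const_mul δ).fderiv
    rw [e1, dd]
    refine (congrArg (fun L : E 3 →L[ℝ] ℝ => L (Pi.single j 1)) this).trans ?_
    simp [dd]
  have e3 : ∀ x, ∑ i, et (sc δ a) i x * curl (et (sc δ a)) i x =
      δ ^ 3 * (fun y => ∑ i, et a i y * curl (et a) i y) (δ • x) := fun x => by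
    simp only [curl, e2, Finset.mul_sum]
    refine Finset.sum_congr rfl fun i _ => ?_
    rw [e1]
    ring
  rw [gv_eq, gv_eq]
  simp only [e3]
  rw [MeasureTheory.integral_const_mul, MeasureTheory.Measure.integral_comp_smul MeasureTheory.volume
    (fun y => ∑ i, et a i y * curl (et a) i y) δ]
  have : 0 < δ ^ 3 := by positivity
  simp only [Module.finrank_fin_fun, abs_of_pos (inv_pos.mpr this), smul_eq_mul]
  field_simp

end

end Pool.Agent.P.MP_7bb7e1_gt.H
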