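import Pool.Agent.P.MP_7bb7e1_gt.H.Mov

/-! The group of homotopy classes of structures with bounded support. -/

namespace Pool.Agent.P.MP_7bb7e1_gt.H

open Pool.Agent.P.MP_7bb7e1_gt.D Filter Topology Set

noncomputable section

/-- gluing of two homotopies -/
lemma pi_ht_glue {X : Type} [TopologicalSpace X] {F G F' G' W V : St X} {S S' A A' T : Set X}
    (hS : IsClosed S) (hS' : IsClosed S') (hU : ∀ x, x ∈ S ∨ x ∈ S') (h : Ht F G A)
    (h' : Ht F' G' A') (e : S ∩ S' ⊆ A) (e' : S ∩ S' ⊆ A') (t : T ⊆ A) (t' : T ⊆ A')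
    (w : Ag W F S) (w' : Ag W F' S') (v : Ag V G S) (v' : Ag V G' S') : Ht W V T := by
  obtain ⟨U, rfl, rfl, u⟩ := h
  obtain ⟨U', rfl, rfl, u'⟩ := h'
  have c : IsClosed {z : X × Tm | z.1 ∈ S} := hS.preimage continuous_fst
  have c' : IsClosed {z : X × Tm | z.1 ∈ S'} := hS'.preimage continuous_fst
  obtain ⟨Z, z, z'⟩ := glue2 (F := U) (F' := U') c c' (fun z => hU z.1)
    ((u.mono fun _ hz => e hz).trans (u'.mono fun _ hz => e' hz).symm)
  have key : ∀ (s : Tm) (B : St X), Ag B (pull (sl s) U) S → Ag B (pull (sl s) U') S' →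
      pull (sl s) Z = B := fun s B b b' =>
    (ag_union (A := univ) hS hS' (fun x _ => hU x)
      (((z.pull (sl s) fun _ hx => hx).trans b.symm).mono inter_subset_right)
      (((z'.pull (sl s) fun _ hx => hx).trans b'.symm).mono inter_subset_right)).eq
      fun _ => trivial
  exact ⟨Z, key 0 W w w', key 1 V v v', ag_union c c' (fun z _ => hU z.1)
    ((z.mono inter_subset_right).trans (u.mono fun _ hz => t hz.1))
    ((z'.mono inter_subset_right).trans (u'.mono fun _ hz => t' hz.1))⟩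

/-- a commutative group from its sum -/
lemma pi_grp {A : Type} (ad : A → A → A) (z : A)
    (h1 : ∀ p q r, ad (ad p q) r = ad p (ad q r)) (h2 : ∀ p q, ad p q = ad q p)
    (h3 : ∀ p, ad z p = p) (h4 : ∀ p, ∃ q, ad p q = z) :
    ∃ _ : AddCommGroup A, ∀ p q : A, p + q = ad p q := by
  choose ng hng using h4
  let _ : Add A := ⟨ad⟩
  let _ : Neg A := ⟨ng⟩
  let _ : Zero A := ⟨z⟩
  exact ⟨{ AddGroup.ofLeftAxioms (G := A) h1 h3 (fun p => (h2 _ _).trans (hng p)) with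
    add_comm := h2 }, fun _ _ => rfl⟩

variable {m : ℕ} {F F' G G' W V : St (E (m + 2))} {a b : ℝ}

/-- translation along the first axis -/
def piSh (t : ℝ) : C(E (m + 2), E (m + 2)) := trl (Pi.single 0 t)

lemma piSh_zero (t : ℝ) (x : E (m + 2)) : piSh t x 0 = x 0 + t := by simp [piSh]

lemma pi_cc_sh (hF : Cpt F) (t : ℝ) : Cc F (pull (piSh t) F) := hF.cc_trl _

lemma pi_abs_le (x : E (m + 2)) : |x 0| ≤ ‖x‖ := norm_le_pi_norm x 0

lemma pi_closed_le (a : ℝ) : IsClosed {x : E (m + 2) | x 0 ≤ a} :=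
  isClosed_le (by fun_prop) (by fun_prop)

lemma pi_closed_ge (a : ℝ) : IsClosed {x : E (m + 2) | a ≤ x 0} :=
  isClosed_le (by fun_prop) (by fun_prop)

lemma pi_norm_shift (x : E (m + 2)) {t L : ℝ} (h : |t| ≤ L) :
    ‖x‖ ≤ ‖x + Pi.single 0 t‖ + L := by
  have h1 := norm_sub_le (x + Pi.single 0 t) (Pi.single 0 t)
  rw [add_sub_cancel_right, Pi.norm_single, Real.norm_eq_abs] at h1
  linarith

/-- pushing a structure away from a half space where it is trivial -/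
lemma pi_push {σ L R : ℝ} (hσ : σ * σ = 1) (hL : 0 ≤ L) (h : Ag F triv {x | R ≤ ‖x‖})
    (h' : Ag F triv {x | 0 ≤ σ * x 0}) :
    Ht F (pull (piSh (σ * L)) F) {x | 0 ≤ σ * x 0 ∨ R + L ≤ ‖x‖} := by
  have h1 : Ag F triv {x | 0 ≤ σ * x 0 ∨ R ≤ ‖x‖} :=
    ag_union (S := {x : E (m + 2) | 0 ≤ σ * x 0}) (S' := {x | R ≤ ‖x‖})
      (isClosed_le (by fun_prop) (by fun_prop)) (isClosed_le (by fun_prop) (by fun_prop))
      (fun _ hx => hx) (h'.mono inter_subset_right) (h.mono inter_subset_right)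
  have hs : |σ| = 1 := by
    rcases mul_self_eq_one_iff.mp hσ with rfl | rfl <;> simp
  have hc : Continuous fun z : E (m + 2) × Tm => z.1 + Pi.single 0 (σ * (z.2.1 * L)) :=
    continuous_fst.add ((continuous_single (A := fun _ : Fin (m + 2) => ℝ) 0).comp
      (show Continuous fun z : E (m + 2) × Tm => σ * (z.2.1 * L) by fun_prop))
  have := ht_pull (T := {x | 0 ≤ σ * x 0 ∨ R + L ≤ ‖x‖})
    (⟨fun z => z.1 + Pi.single 0 (σ * (z.2.1 * L)), hc⟩ : C(E (m + 2) × Tm, E (m + 2)))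
    h1 (f₀ := ContinuousMap.id _) (f₁ := piSh (σ * L)) (fun y hy s => ?_) (fun y => by simp)
    fun y => by simp [piSh]
  · rwa [pull_id] at this
  have s0 : 0 ≤ s.1 * L := mul_nonneg s.2.1 hL
  have s1 : s.1 * L ≤ L := mul_le_of_le_one_left hL s.2.2
  change 0 ≤ σ * piSh (σ * (s.1 * L)) y 0 ∨ R ≤ ‖y + Pi.single 0 (σ * (s.1 * L))‖
  refine Or.imp (fun hy => ?_) (fun hy => ?_) hy
  · rw [piSh_zero, mul_add, ← mul_assoc, hσ]
    linarith
  · have := pi_norm_shift y (t := σ * (s.1 * L)) (L := L) (by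
      rw [abs_mul, hs, one_mul, abs_of_nonneg s0]; exact s1)
    linarith

/-- a homotopy may be taken trivial on a half space where both ends are trivial -/
lemma pi_half {σ : ℝ} (hσ : σ * σ = 1) (h : Cc F G) (hF : Ag F triv {x | 0 ≤ σ * x 0})
    (hG : Ag G triv {x | 0 ≤ σ * x 0}) : ∃ R : ℝ, Ht F G {x | 0 ≤ σ * x 0 ∨ R ≤ ‖x‖} := by
  obtain ⟨R, h⟩ := h
  have hs : |σ| = 1 := by
    rcases mul_self_eq_one_iff.mp hσ with rfl | rfl <;> simp
  refine ⟨R + |R|, ((pi_push hσ (abs_nonneg R) h.left hF).trans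
    (h.pull (piSh (σ * |R|)) fun y hy => ?_)).trans (pi_push hσ (abs_nonneg R) h.right hG).symm⟩
  change R ≤ ‖piSh (σ * |R|) y‖
  rcases hy with hy | hy
  · have h1 := pi_abs_le (piSh (σ * |R|) y)
    rw [piSh_zero, ← one_mul |y 0 + σ * _|, ← hs, ← abs_mul, mul_add, ← mul_assoc, hσ] at h1
    linarith [le_abs_self (σ * y 0 + 1 * |R|), le_abs_self R]
  · have := pi_norm_shift y (t := σ * |R|) (L := |R|) (by rw [abs_mul, hs, one_mul, abs_abs])
    change R ≤ ‖y + Pi.single 0 (σ * |R|)‖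
    linarith

/-- `W` is the juxtaposition of `F` and `F'` along the hyperplane at `a` -/
structure PiSp (a : ℝ) (F F' W : St (E (m + 2))) : Prop where
  l : Ag W F {x | x 0 ≤ a}
  r : Ag W F' {x | a ≤ x 0}
  tl : Ag F triv {x | a ≤ x 0}
  tr : Ag F' triv {x | x 0 ≤ a}

lemma PiSp.cpt (h : PiSp a F F' W) (hF : Cpt F) (hF' : Cpt F') : Cpt W := by
  obtain ⟨R, hF⟩ := hF
  obtain ⟨R', hF'⟩ := hF'
  exact ⟨max R R', ag_union (pi_closed_le a) (pi_closed_ge a) (fun x _ => le_total (x 0) a)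
    ((h.l.mono inter_subset_right).trans (hF.mono fun x hx =>
      le_of_max_le_left (show max R R' ≤ ‖x‖ from hx.1)))
    ((h.r.mono inter_subset_right).trans (hF'.mono fun x hx =>
      le_of_max_le_right (show max R R' ≤ ‖x‖ from hx.1)))⟩

lemma pi_sp_ex (hF : Ag F triv {x | a ≤ x 0}) (hF' : Ag F' triv {x | x 0 ≤ a}) :
    ∃ W, PiSp a F F' W := by
  obtain ⟨W, h, h'⟩ := glue2 (F := F) (F' := F') (pi_closed_le a) (pi_closed_ge a)
    (fun x => le_total (x 0) a)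
    ((hF.mono inter_subset_right).trans (hF'.mono inter_subset_left).symm)
  exact ⟨W, h, h', hF, hF'⟩

lemma PiSp.sh (h : PiSp a F F' W) :
    PiSp 0 (pull (piSh a) F) (pull (piSh a) F') (pull (piSh a) W) := by
  have e1 : ∀ y ∈ {x : E (m + 2) | x 0 ≤ 0}, piSh a y ∈ {x : E (m + 2) | x 0 ≤ a} :=
    fun y (hy : y 0 ≤ 0) => by
      change piSh a y 0 ≤ a
      rw [piSh_zero]; linarith
  have e2 : ∀ y ∈ {x : E (m + 2) | 0 ≤ x 0}, piSh a y ∈ {x : E (m + 2) | a ≤ x 0} :=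
    fun y (hy : 0 ≤ y 0) => by
      change a ≤ piSh a y 0
      rw [piSh_zero]; linarith
  exact ⟨h.l.pull _ e1, h.r.pull _ e2, h.tl.pull_triv _ e2, h.tr.pull_triv _ e1⟩

lemma pi_cc_zero (h : PiSp 0 F F' W) (h' : PiSp 0 G G' V) (e : Cc F G) (e' : Cc F' G') :
    Cc W V := by
  obtain ⟨R, k⟩ := pi_half (σ := 1) (by norm_num) e (h.tl.mono fun x hx => by simpa using hx)
    (h'.tl.mono fun x hx => by simpa using hx)
  obtain ⟨R', k'⟩ := pi_half (σ := -1) (by norm_num) e' (h.tr.mono fun x hx => by simpa using hx)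
    (h'.tr.mono fun x hx => by simpa using hx)
  exact ⟨max R R', pi_ht_glue (pi_closed_le 0) (pi_closed_ge 0) (fun x => le_total (x 0) 0) k k'
    (fun x hx => Or.inl (by simpa using hx.2)) (fun x hx => Or.inl (by simpa using hx.1))
    (fun x hx => Or.inr (le_of_max_le_left hx)) (fun x hx => Or.inr (le_of_max_le_right hx))
    h.l h.r h'.l h'.r⟩

/-- the class of a juxtaposition depends on the classes of the two parts only -/
lemma PiSp.cc (h : PiSp a F F' W) (h' : PiSp b G G' V) (e : Cc F G) (e' : Cc F' G') : Cc W V :=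
  ((pi_cc_sh (h.cpt e.left e'.left) a).trans (pi_cc_zero h.sh h'.sh
    (((pi_cc_sh e.left a).symm.trans e).trans (pi_cc_sh e.right b))
    (((pi_cc_sh e'.left a).symm.trans e').trans (pi_cc_sh e'.right b)))).trans
    (pi_cc_sh (h'.cpt e.right e'.right) b).symm

lemma pi_ex_left (hF : Cpt F) (a : ℝ) : ∃ G, Cc F G ∧ Ag G triv {x | a ≤ x 0} := by
  obtain ⟨R, h⟩ := id hF
  refine ⟨_, pi_cc_sh hF (R - a), h.pull_triv _ fun y (hy : a ≤ y 0) => ?_⟩
  have h1 := pi_abs_le (piSh (R - a) y)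
  rw [piSh_zero] at h1
  change R ≤ ‖piSh (R - a) y‖
  linarith [le_abs_self (y 0 + (R - a))]

lemma pi_ex_right (hF : Cpt F) (a : ℝ) : ∃ G, Cc F G ∧ Ag G triv {x | x 0 ≤ a} := by
  obtain ⟨R, h⟩ := id hF
  refine ⟨_, pi_cc_sh hF (-R - a), h.pull_triv _ fun y (hy : y 0 ≤ a) => ?_⟩
  have h1 := pi_abs_le (piSh (-R - a) y)
  rw [piSh_zero] at h1
  change R ≤ ‖piSh (-R - a) y‖
  linarith [neg_abs_le (y 0 + (-R - a))]

/-- the half turn -/
def piRo : C(E (m + 2), E (m + 2)) := (rot 0 1).comp (rot 0 1)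

lemma piRo_zero (x : E (m + 2)) : piRo x 0 = -x 0 := by
  simp [piRo, rot_apply]

lemma pi_cc_ro (hF : Cpt F) : Cc F (pull piRo F) := by
  have h1 := hF.cc_rot (i := 0) (j := 1) zero_ne_one
  have h2 := h1.trans (h1.right.cc_rot (i := 0) (j := 1) zero_ne_one)
  rwa [pull_comp] at h2

lemma PiSp.ro (h : PiSp 0 F F' W) : PiSp 0 (pull piRo F') (pull piRo F) (pull piRo W) := by
  have e1 : ∀ y ∈ {x : E (m + 2) | x 0 ≤ 0}, piRo y ∈ {x : E (m + 2) | 0 ≤ x 0} :=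
    fun y (hy : y 0 ≤ 0) => by
      change 0 ≤ piRo y 0
      rw [piRo_zero]; linarith
  have e2 : ∀ y ∈ {x : E (m + 2) | 0 ≤ x 0}, piRo y ∈ {x : E (m + 2) | x 0 ≤ 0} :=
    fun y (hy : 0 ≤ y 0) => by
      change piRo y 0 ≤ 0
      rw [piRo_zero]; linarith
  exact ⟨h.r.pull _ e1, h.l.pull _ e2, h.tr.pull_triv _ e2, h.tl.pull_triv _ e1⟩

/-- folding onto a half space, then pushing -/
def piFo (t : ℝ) : C(E (m + 2), E (m + 2)) :=
  ⟨fun x => Function.update x 0 (-|x 0| - t), by fun_prop⟩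

lemma pi_norm_update (x : E (m + 2)) {u : ℝ} (h : |x 0| ≤ |u|) : ‖x‖ ≤ ‖Function.update x 0 u‖ := by
  refine (pi_norm_le_iff_of_nonneg (norm_nonneg _)).mpr fun k => ?_
  have := norm_le_pi_norm (Function.update x 0 u) k
  by_cases hk : k = 0
  · subst hk
    rw [Function.update_self] at this
    exact h.trans this
  · rwa [Function.update_of_ne hk] at this

lemma pi_inv (hG : Cpt G) (h : Ag G triv {x | 0 ≤ x 0}) :
    ∃ G' W, Cpt G' ∧ PiSp 0 G G' W ∧ Cc W triv := by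
  refine ⟨pull (mir 0) G, pull (piFo 0) G, hG.pull _ fun R => ⟨R, fun x hx => ?_⟩,
    ⟨ag_pull_self (fun (y : E (m + 2)) (hy : y 0 ≤ 0) => ?_) G,
      ag_pull_congr (fun (y : E (m + 2)) (hy : 0 ≤ y 0) => ?_) G, h,
      h.pull_triv _ fun (y : E (m + 2)) (hy : y 0 ≤ 0) => ?_⟩, ?_⟩
  · exact hx.trans (pi_norm_update x (by rw [abs_neg]))
  · change Function.update y 0 (-|y 0| - 0) = y
    rw [abs_of_nonpos hy, neg_neg, sub_zero, Function.update_eq_self]
  · change Function.update y 0 (-|y 0| - 0) = Function.update y 0 (-y 0)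
    rw [abs_of_nonneg hy, sub_zero]
  · change 0 ≤ Function.update y 0 (-y 0) 0
    rw [Function.update_self]; linarith
  obtain ⟨R, hR⟩ := id hG
  have e : pull (piFo |R|) G = triv := by
    rw [hR.pull_eq (piFo |R|) fun y => ?_, pull_triv]
    have h1 := pi_abs_le (piFo |R| y)
    have h2 : piFo |R| y 0 = -|y 0| - |R| := by simp [piFo]
    rw [h2] at h1
    change R ≤ ‖piFo |R| y‖
    linarith [neg_abs_le (-|y 0| - |R|), le_abs_self R, abs_nonneg (y 0)]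
  rw [← e]
  refine hG.cc_pull ⟨fun z => Function.update z.1 0 (-|z.1 0| - z.2.1 * |R|), by fun_prop⟩
    (fun R' => ⟨R', fun x s hx => hx.trans (pi_norm_update x ?_)⟩) (fun y => by simp [piFo])
    fun y => by simp [piFo]
  have := mul_nonneg s.2.1 (abs_nonneg R)
  linarith [neg_abs_le (-|x 0| - s.1 * |R|)]

lemma pi_assoc (hF : Cpt F) (hG : Cpt G) (hV : Cpt V) : ∃ (a b : ℝ) (F' V' X Y W : St (E (m + 2))),
    Cc F F' ∧ Cc V V' ∧ PiSp a F' G X ∧ PiSp b X V' W ∧ PiSp b G V' Y ∧ PiSp a F' Y W := by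
  obtain ⟨R, hR⟩ := hG
  have ab : -|R| ≤ |R| := by linarith [abs_nonneg R]
  obtain ⟨F', f1, f2⟩ := pi_ex_left hF (-|R|)
  obtain ⟨V', v1, v2⟩ := pi_ex_right hV |R|
  have g1 : Ag G triv {x | x 0 ≤ -|R|} := hR.mono fun x (hx : x 0 ≤ -|R|) => by
    change R ≤ ‖x‖
    linarith [pi_abs_le x, neg_abs_le (x 0), le_abs_self R]
  have g2 : Ag G triv {x | |R| ≤ x 0} := hR.mono fun x (hx : |R| ≤ x 0) => by
    change R ≤ ‖x‖
    linarith [pi_abs_le x, le_abs_self (x 0), le_abs_self R]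
  have s1 : {x : E (m + 2) | x 0 ≤ -|R|} ⊆ {x | x 0 ≤ |R|} := fun x hx => le_trans hx ab
  have s2 : {x : E (m + 2) | |R| ≤ x 0} ⊆ {x | -|R| ≤ x 0} := fun x hx => le_trans ab hx
  obtain ⟨X, hX⟩ := pi_sp_ex f2 g1
  obtain ⟨Y, hY⟩ := pi_sp_ex g2 v2
  obtain ⟨W, hW⟩ := pi_sp_ex ((hX.r.mono s2).trans g2) v2
  exact ⟨_, _, F', V', X, Y, W, f1, v1, hX, hW, hY, (hW.l.mono s1).trans hX.l,
    ag_union (pi_closed_le |R|) (pi_closed_ge |R|) (fun x _ => le_total (x 0) |R|)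
      (((hW.l.mono inter_subset_right).trans (hX.r.mono inter_subset_left)).trans
        (hY.l.mono inter_subset_right).symm)
      ((hW.r.trans hY.r.symm).mono inter_subset_right), f2, (hY.l.mono s1).trans g1⟩

/-- the set of homotopy classes -/
lemma pi_quot (m : ℕ) : ∃ (A : Type) (c : St (E (m + 2)) → A), (∀ {F F'}, Cc F F' → c F = c F') ∧
    (∀ {F F'}, Cpt F → Cpt F' → c F = c F' → Cc F F') ∧ ∀ p, ∃ F, Cpt F ∧ c F = p := by
  classical
  let s : Setoid {F : St (E (m + 2)) // Cpt F} :=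
    ⟨fun F G => Cc F.1 G.1, fun F => F.2.cc, Cc.symm, Cc.trans⟩
  refine ⟨Quotient s, fun F => if h : Cpt F then Quotient.mk s ⟨F, h⟩ else
    Quotient.mk s ⟨triv, cpt_triv⟩, fun h => ?_, fun h h' e => ?_, fun p => ?_⟩
  · beta_reduce
    rw [dif_pos h.left, dif_pos h.right]
    exact Quotient.sound h
  · beta_reduce at e
    rw [dif_pos h, dif_pos h'] at e
    exact Quotient.exact e
  · obtain ⟨F, rfl⟩ := Quotient.exists_rep p
    exact ⟨F.1, F.2, dif_pos F.2⟩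

/-- Take `A` the quotient of `{F // Cpt F}` by `Cc`, `c F` the class if `Cpt F` and the class of
`triv` otherwise. The sum is the class of a juxtaposition of translates. -/
theorem exists_cls (m : ℕ) :
    ∃ (A : Type) (_ : AddCommGroup A) (c : St (E (m + 2)) → A), IsCls c := by
  obtain ⟨A, c, cc, inj, sur⟩ := pi_quot m
  have ex : ∀ p q, ∃ F F' W, Cpt F ∧ Cpt F' ∧ PiSp 0 F F' W ∧ c F = p ∧ c F' = q := fun p q => by
    obtain ⟨F, hF, rfl⟩ := sur p
    obtain ⟨F', hF', rfl⟩ := sur q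
    obtain ⟨G, g1, g2⟩ := pi_ex_left hF 0
    obtain ⟨G', g1', g2'⟩ := pi_ex_right hF' 0
    obtain ⟨W, hW⟩ := pi_sp_ex g2 g2'
    exact ⟨G, G', W, g1.right, g1'.right, hW, (cc g1).symm, (cc g1').symm⟩
  choose l r w h1 h2 h3 h4 h5 using ex
  have sp : ∀ {a F F' W}, Cpt F → Cpt F' → PiSp a F F' W → c (w (c F) (c F')) = c W :=
    fun hF hF' h => cc ((h3 _ _).cc h (inj (h1 _ _) hF (h4 _ _)) (inj (h2 _ _) hF' (h5 _ _)))
  refine (pi_grp (fun p q => c (w p q)) (c triv) (fun p q r => ?_) (fun p q => ?_)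
    (fun p => ?_) fun p => ?_).elim fun i hi => ⟨A, i, c, cc, inj, fun a hF hF' e1 e2 e3 e4 =>
      ((hi _ _).trans (sp hF hF' ⟨e1, e2, e3, e4⟩)).symm⟩
  · obtain ⟨F, hF, rfl⟩ := sur p
    obtain ⟨G, hG, rfl⟩ := sur q
    obtain ⟨V, hV, rfl⟩ := sur r
    obtain ⟨a, b, F', V', X, Y, W, f, v, e1, e2, e3, e4⟩ := pi_assoc hF hG hV
    rw [cc f, cc v, sp f.right hG e1, sp (e1.cpt f.right hG) v.right e2, sp hG v.right e3,
      sp f.right (e3.cpt hG v.right) e4]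
  · have e1 := pi_cc_ro (h1 p q)
    have e2 := pi_cc_ro (h2 p q)
    have e := sp e2.right e1.right (h3 p q).ro
    rw [← cc e1, ← cc e2, h4, h5] at e
    rw [e]
    exact cc (pi_cc_ro ((h3 p q).cpt (h1 p q) (h2 p q)))
  · obtain ⟨F, hF, rfl⟩ := sur p
    obtain ⟨G, g1, g2⟩ := pi_ex_right hF 0
    rw [cc g1]
    exact sp cpt_triv g1.right ⟨g2, .refl _ _, .refl _ _, g2⟩
  · obtain ⟨F, hF, rfl⟩ := sur p
    obtain ⟨G, g1, g2⟩ := pi_ex_left hF 0
    obtain ⟨G', W, k1, k2, k3⟩ := pi_inv g1.right g2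
    exact ⟨c G', by rw [cc g1, sp g1.right k1 k2, cc k3]⟩

end

end Pool.Agent.P.MP_7bb7e1_gt.H
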