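import Pool.Agent.P.MP_7bb7e1_gt.H.Mov

/-! The data for smoothing a structure. -/

namespace Pool.Agent.P.MP_7bb7e1_gt.H

open Pool.Agent.P.MP_7bb7e1_gt.D Filter Topology Set
open scoped ContDiff Manifold

noncomputable section

/-- charts with constant transitions, a partition of unity and smooth approximations -/
structure SmD {m : ℕ} (F : St (E m)) (U C : Set (E m)) where
  ψ : E m → E m → Om
  g : E m → E m → Gc
  lam : E m → E m → ℝ
  χ : E m → ℝ
  f : E m → E m → ℝ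
  N : Set (E m)
  J : E m → Finset (E m)
  lam_smooth : ∀ α, ContDiff ℝ ∞ (lam α)
  chi_smooth : ContDiff ℝ ∞ χ
  f_smooth : ∀ α, ContDiff ℝ ∞ (f α)
  lam_nonneg : ∀ α x, 0 ≤ lam α x
  chi_nonneg : ∀ x, 0 ≤ χ x
  J_ev : ∀ x, ∀ᶠ y in 𝓝 x, J y ⊆ J x
  lam_zero : ∀ x α, α ∉ J x → lam α x = 0
  sum_one : ∀ x, χ x + ∑ α ∈ J x, lam α x = 1
  ch : ∀ x, ∀ α ∈ J x, F.ch x (ψ α)
  tr : ∀ x, ∀ α ∈ J x, ∀ β ∈ J x, ψ β x = g α β • ψ α x
  J_C : ∀ x ∈ C, J x = ∅
  N_open : IsOpen N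
  N_sub : N ⊆ U
  chi_zero : ∀ x ∉ N, ∀ᶠ y in 𝓝 x, χ y = 0
  f_eq : ∀ x ∈ N, ∀ β ∈ J x, f β x = ev (ψ β x)
  coc : ∀ x, ∀ α ∈ J x, ∀ β ∈ J x, ∀ r ∈ uIcc (ev (ψ α x)) ((g α β)⁻¹ • f β x),
    ∀ γ ∈ J x, ∀ δ ∈ J x, fn (g γ δ * g α γ) =ᶠ[𝓝 r] fn (g α δ)

/-- a locally finite closed cover by small sets whose interiors cover -/
lemma smA_cover {m : ℕ} {P : E m → E m → Prop} (h : ∀ i, ∀ᶠ y in 𝓝 i, P y i) :
    ∃ V : E m → Set (E m), (∀ i, IsClosed (V i)) ∧ (∀ x, ∃ i, V i ∈ 𝓝 x) ∧ LocallyFinite V ∧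
      ∀ i, ∀ y ∈ V i, P y i := by
  choose U u1 u2 u3 using fun i => eventually_nhds_iff.mp (h i)
  obtain ⟨v, v1, v2, v3, v4⟩ := precise_refinement U u2
    (eq_univ_of_forall fun x => mem_iUnion.mpr ⟨x, u3 x⟩)
  obtain ⟨w, w1, w2, w3⟩ := exists_iUnion_eq_closure_subset v1 v3.point_finite v2
  refine ⟨fun i => closure (w i), fun _ => isClosed_closure, fun x => ?_, v3.subset w3,
    fun i y hy => u1 i y (v4 i (w3 i hy))⟩
  obtain ⟨i, hi⟩ := mem_iUnion.mp (w1 ▸ mem_univ x : x ∈ ⋃ i, w i)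
  exact ⟨i, mem_of_superset ((w2 i).mem_nhds hi) subset_closure⟩

/-- Hints. Choose charts `θ i` on open `U i ∋ i`, a locally finite closed cover `C i ⊆ U i` whose
interiors cover (`precise_refinement`, `exists_iUnion_eq_closure_subset`). For each `x` choose `k x`
with `x` in the interior of `C (k x)` and an open `W x ∋ x` inside it that meets `C j` only if
`x ∈ C j` and on which `θ j = γ x j • θ (k x)` for these `j`. -/
theorem exists_const_tr {m : ℕ} (F : St (E m)) : ∃ (W : E m → Set (E m)) (ψ : E m → E m → Om)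
    (g : E m → E m → Gc), (∀ α, IsOpen (W α) ∧ α ∈ W α) ∧ (∀ α, ∀ x ∈ W α, F.ch x (ψ α)) ∧
      ∀ α β, ∀ x ∈ W α, x ∈ W β → ψ β x = g α β • ψ α x := by
  choose θ hθ using F.ex
  obtain ⟨V, v1, v2, v3, v4⟩ := smA_cover fun i => F.op (hθ i)
  choose k hk using v2
  have : ∀ x, ∃ γ : E m → Gc, ∀ᶠ y in 𝓝 x, y ∈ V (k x) ∧ ∀ j, y ∈ V j →
      θ j y = γ j • θ (k x) y := fun x => by
    have a1 : ∀ j, ∃ γ : Gc, x ∈ V j → ∀ᶠ y in 𝓝 x, θ j y = γ • θ (k x) y := fun j => by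
      by_cases hj : x ∈ V j
      · exact ((F.rel (v4 _ _ (mem_of_mem_nhds (hk x)))).mp (v4 _ _ hj)).imp fun _ h _ => h
      · exact ⟨1, fun h => absurd h hj⟩
    choose γ hγ using a1
    refine ⟨γ, ?_⟩
    filter_upwards [hk x, v3.iInter_compl_mem_nhds v1 x,
      (eventually_all_finite (v3.point_finite x)).mpr hγ] with y b1 b2 b3
    refine ⟨b1, fun j hj => b3 j ?_⟩
    by_contra hx
    exact mem_iInter₂.mp b2 j hx hj
  choose γ hγ using this
  choose W w1 w2 w3 using fun x => eventually_nhds_iff.mp (hγ x)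
  exact ⟨W, fun α => θ (k α), fun α β => γ α (k β), fun α => ⟨w2 α, w3 α⟩,
    fun α x hx => v4 _ _ (w1 α x hx).1, fun α β x h1 h2 => (w1 α x h1).2 _ (w1 β x h2).1⟩

/-- Hints. `SmoothPartitionOfUnity.exists_isSubordinate` for the cover indexed by `Option (E m)` by `U`
and the `W α \ C`; `J x` is the set of `α` with `x ∈ tsupport (lam α)`. Choose an open `N` with
`tsupport χ ⊆ N ⊆ closure N ⊆ U` (`normal_exists_closure_subset`). For each `β` get `f β` from
`exists_contMDiff_forall_mem_convex_of_local` (or its `ContDiff` form) for the convex sets `t x`: everything if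
`β ∉ J x`, otherwise the `r` that satisfy `coc` for all `α ∈ J x` and equal `ev (ψ β x)` if
`x ∈ closure N`. Local solutions: `ev (ψ β ·)` near a point of `U` with `β ∈ J x`, the constant
`ev (ψ β x)` near a point off `closure N`. The cocycle identity holds near `ev (ψ α x)` by `smul_eq_iff`,
it is an open condition on `r`, and `J y ⊆ J x` near `x`. -/
theorem exists_smD {m : ℕ} (F : St (E m)) {U C : Set (E m)} (hU : IsOpen U) (hC : IsClosed C)
    (hCU : C ⊆ U)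
    (hs : ∀ x ∈ U, ∀ ψ, F.ch x ψ → ∀ᶠ y in 𝓝 x, ContDiffAt ℝ ∞ (fun y => ev (ψ y)) y) :
    Nonempty (SmD F U C) := by
  classical
  obtain ⟨W, ψ, g, w1, w2, w3⟩ := exists_const_tr F
  obtain ⟨ρ, hρ⟩ := SmoothPartitionOfUnity.exists_isSubordinate 𝓘(ℝ, E m) isClosed_univ
    (fun o : Option (E m) => o.elim U fun α => W α \ C)
    (fun o => by
      cases o
      · exact hU
      · exact (w1 _).1.sdiff hC)
    (fun x _ => by
      by_cases hx : x ∈ U
      · exact mem_iUnion.mpr ⟨none, hx⟩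
      · exact mem_iUnion.mpr ⟨some x, (w1 x).2, fun h => hx (hCU h)⟩)
  obtain ⟨N, n1, n2, n3⟩ := normal_exists_closure_subset (isClosed_tsupport (ρ none)) hU (hρ none)
  let J : E m → Finset (E m) := fun x => Finset.eraseNone (ρ.fintsupport x)
  have mJ : ∀ x α, α ∈ J x ↔ x ∈ tsupport (ρ (some α)) := fun x α =>
    Finset.mem_eraseNone.trans (ρ.mem_fintsupport_iff x _)
  have jW : ∀ {x α}, α ∈ J x → x ∈ W α := fun h => (hρ _ ((mJ _ _).mp h)).1
  have jev : ∀ x, ∀ᶠ y in 𝓝 x, J y ⊆ J x := fun x =>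
    (ρ.eventually_fintsupport_subset x).mono fun _ hy => Finset.eraseNone.monotone hy
  have tr : ∀ x, ∀ α ∈ J x, ∀ β ∈ J x, ψ β x = g α β • ψ α x := fun x α ha β hb =>
    w3 α β x (jW ha) (jW hb)
  let P : E m → E m → ℝ → Prop := fun x α r =>
    ∀ γ ∈ J x, ∀ δ ∈ J x, fn (g γ δ * g α γ) =ᶠ[𝓝 r] fn (g α δ)
  have p0 : ∀ x, ∀ α ∈ J x, P x α (ev (ψ α x)) := fun x α ha γ hc δ hd =>
    smul_eq_iff.mp (by rw [mul_smul, ← tr x α ha γ hc, ← tr x γ hc δ hd, ← tr x α ha δ hd])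
  have e0 : ∀ x, ∀ α ∈ J x, ∀ β ∈ J x, (g α β)⁻¹ • ev (ψ β x) = ev (ψ α x) := fun x α ha β hb => by
    rw [tr x α ha β hb, ev_smul, inv_smul_smul]
  have : ∀ β, ∃ f : E m → ℝ, ContDiff ℝ ∞ f ∧ ∀ x, β ∈ J x →
      (∀ α ∈ J x, ∀ r ∈ uIcc (ev (ψ α x)) ((g α β)⁻¹ • f x), P x α r) ∧
        (x ∈ closure N → f x = ev (ψ β x)) := fun β => by
    obtain ⟨f, hf⟩ := exists_contMDiffMap_forall_mem_convex_of_local (n := ⊤) 𝓘(ℝ, E m)
      (t := fun x => {s | β ∈ J x → (∀ α ∈ J x, ∀ r ∈ uIcc (ev (ψ α x)) ((g α β)⁻¹ • s), P x α r) ∧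
        (x ∈ closure N → s = ev (ψ β x))}) (fun x => by
      refine OrdConnected.convex ⟨fun s1 h1 s2 h2 s hs hb => ⟨fun α ha r hr => ?_, fun hx => ?_⟩⟩
      · rcases mem_uIcc.mp hr with hr | hr
        · exact (h2 hb).1 α ha r (mem_uIcc.mpr (.inl ⟨hr.1,
            hr.2.trans ((fn_mono (g α β)⁻¹).monotone hs.2)⟩))
        · exact (h1 hb).1 α ha r (mem_uIcc.mpr (.inr
            ⟨((fn_mono (g α β)⁻¹).monotone hs.1).trans hr.1, hr.2⟩))
      · exact le_antisymm ((h2 hb).2 hx ▸ hs.2) ((h1 hb).2 hx ▸ hs.1)) (fun x => by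
      by_cases hb : β ∈ J x
      swap
      · exact ⟨_, jev x, fun _ => 0, contMDiffOn_const, fun y hy h => absurd (hy h) hb⟩
      by_cases hx : x ∈ U
      · refine ⟨_, hs x hx _ (w2 β x (jW hb)), fun y => ev (ψ β y),
          fun y hy => (ContDiffAt.contMDiffAt (mem_ofPred.mp hy)).contMDiffWithinAt, fun y _ h => ⟨fun α ha r hr => ?_,
            fun _ => rfl⟩⟩
        rw [e0 y α ha β h, uIcc_self, mem_singleton_iff] at hr
        exact hr ▸ p0 y α ha
      · have a1 : ∀ α ∈ J x, ∀ᶠ y in 𝓝 x, ∀ r ∈ uIcc (ev (ψ α y)) (ev (ψ α x)), P x α r := by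
          intro α ha
          have b1 : ∀ᶠ r in 𝓝 (ev (ψ α x)), P x α r :=
            (eventually_all_finset _).mpr fun γ hc => (eventually_all_finset _).mpr fun δ hd =>
              (p0 x α ha γ hc δ hd).eventuallyEq_nhds
          obtain ⟨ε, ε0, hε⟩ := Metric.eventually_nhds_iff_ball.mp b1
          exact ((F.cont (w2 α x (jW ha))).eventually (Metric.ball_mem_nhds _ ε0)).mono
            fun y hy r hr => hε r ((convex_ball _ ε).ordConnected.uIcc_subset hy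
              (Metric.mem_ball_self ε0) hr)
        refine ⟨_, ((jev x).and ((eventually_all_finset _).mpr a1)).and
          (isClosed_closure.isOpen_compl.mem_nhds fun h => hx (n3 h)), fun _ => ev (ψ β x),
          contMDiffOn_const, fun y hy _ => ⟨fun α ha r hr γ hc δ hd => ?_, fun h => absurd h hy.2⟩⟩
        rw [e0 x α (hy.1.1 ha) β hb] at hr
        exact hy.1.2 α (hy.1.1 ha) r hr γ (hy.1.1 hc) δ (hy.1.1 hd))
    exact ⟨f, f.contMDiff.contDiff, hf⟩
  choose f f1 f2 using this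
  refine ⟨⟨ψ, g, fun α => ρ (some α), ρ none, f, N, J, fun α => (ρ _).contMDiff.contDiff,
    (ρ _).contMDiff.contDiff, f1, fun α x => ρ.nonneg _ x, ρ.nonneg _, jev,
    fun x α h => image_eq_zero_of_notMem_tsupport (mt (mJ x α).mpr h), fun x => ?_,
    fun x α h => w2 α x (jW h), tr, fun x hx => ?_, n1, subset_closure.trans n3,
    fun x hx => notMem_tsupport_iff_eventuallyEq.mp fun h => hx (n2 h),
    fun x hx β hb => (f2 β x hb).2 (subset_closure hx),
    fun x α ha β hb => (f2 β x hb).1 α ha⟩⟩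
  · have : ρ.finsupport x ⊆ Finset.insertNone (J x) := fun o ho => by
      cases o
      · exact Finset.none_mem_insertNone
      · exact Finset.some_mem_insertNone.mpr
          (Finset.mem_eraseNone.mpr (ρ.finsupport_subset_fintsupport x ho))
    rw [← ρ.sum_finsupport' x (mem_univ x) this, Finset.sum_insertNone]
  · exact Finset.eq_empty_of_forall_notMem fun α h => (hρ _ ((mJ _ _).mp h)).2 hx

end

end Pool.Agent.P.MP_7bb7e1_gt.H
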