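import Pool.Agent.P.MP_7bb7e1_gt.H.FI2
import Pool.Agent.P.MP_7bb7e1_gt.H.SmA

/-! Smoothing a structure. -/

namespace Pool.Agent.P.MP_7bb7e1_gt.H

open Pool.Agent.P.MP_7bb7e1_gt.D Filter Topology Set
open scoped ContDiff

noncomputable section

/-- Hints. Let `N i` be the interior of the set of `y` with `Sv (Y i) (y, 0)` and the relation of `h2`;
take a locally finite closed cover `C i ⊆ N i`, choose `k y` with `y ∈ C (k y)` and put
`A p = slp (Y (k p.1)) p`; `Sv.slp_smul`, `fi_of_slp`. -/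
theorem assemble {m : ℕ} (Y : E m → E m × ℝ → ℝ) (h1 : ∀ x, Sv (Y x) (x, 0))
    (h2 : ∀ x, ∀ᶠ y in 𝓝 x, ∃ g : Gc, ∀ᶠ p in 𝓝 (y, (0 : ℝ)), Y y p = g • Y x p) :
    ∃ A, ∀ x, FI A (Y x) x := by
  obtain ⟨V, v1, v2, v3, v4⟩ := smA_cover (P := fun y i => Sv (Y i) (y, 0) ∧
    ∃ g : Gc, ∀ᶠ p in 𝓝 (y, (0 : ℝ)), Y y p = g • Y i p) fun i =>
      (ev_zero_section (h1 i)).and (h2 i)
  choose k hk using v2
  refine ⟨fun p => slp (Y (k p.1)) p, fun x => fi_of_slp (h1 x) ?_⟩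
  have a1 : ∀ j, x ∈ V j → ∀ᶠ p in 𝓝 (x, (0 : ℝ)), slp (Y x) p = slp (Y j) p := fun j hj =>
    (v4 j x hj).2.elim fun _ hg => (v4 j x hj).1.slp_smul hg
  filter_upwards [(eventually_all_finite (v3.point_finite x)).mpr a1,
    continuousAt_fst.preimage_mem_nhds (v3.iInter_compl_mem_nhds v1 x)] with p b1 b2
  refine (b1 _ ?_).symm
  by_contra hx
  exact mem_iInter₂.mp (mem_preimage.mp b2) _ hx (mem_of_mem_nhds (hk p.1))

section smB

variable {m : ℕ} {F : St (E m)} {U C : Set (E m)} (D : SmD F U C) {a : E m × ℝ → E m} {x : E m}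
  {r : ℝ} {Z Z' : E m × ℝ → ℝ}

/-- the new fibre coordinate -/
def SmD.tt (u : E m → E m × ℝ → ℝ) (p : E m × ℝ) : ℝ :=
  D.χ p.1 * p.2 + ∑ β ∈ D.J p.1, D.lam β p.1 * (u β p - D.f β p.1)

lemma SmD.tt_sv {u : E m → E m × ℝ → ℝ} (h : ∀ β ∈ D.J x, Sv (u β) (x, r)) : Sv (D.tt u) (x, r) := by
  have e : ∀ᶠ p in 𝓝 (x, r), D.χ p.1 * p.2 + ∑ β ∈ D.J x, D.lam β p.1 * (u β p - D.f β p.1) =
      D.tt u p := (continuousAt_fst.eventually (D.J_ev x)).mono fun p hp => by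
    rw [SmD.tt, Finset.sum_subset hp fun β _ hb => by rw [D.lam_zero _ β hb, zero_mul]]
  have s : ∀ᶠ p in 𝓝 (x, r), ContDiffAt ℝ ∞ (fun p : E m × ℝ =>
      D.χ p.1 * p.2 + ∑ β ∈ D.J x, D.lam β p.1 * (u β p - D.f β p.1)) p :=
    ((eventually_all_finset _).mpr h).mono fun p hp =>
      ((D.chi_smooth.contDiffAt.comp p contDiffAt_fst).mul contDiffAt_snd).add
        (ContDiffAt.sum fun β hb => (((D.lam_smooth β).contDiffAt.comp p contDiffAt_fst).mul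
          ((hp β hb).1.sub ((D.f_smooth β).contDiffAt.comp p contDiffAt_fst))))
  refine (sv_of s ?_).congr e
  have d1 := A.hasDerivAt_dd (c := fun t : ℝ => (x, t)) s.self_of_nhds
    ((hasDerivAt_const _ _).prodMk (hasDerivAt_id _))
  have d2 := ((hasDerivAt_id r).const_mul (D.χ x)).fun_add (HasDerivAt.fun_sum fun β hb =>
    (((h β hb).deriv_fibre.sub_const (D.f β x)).const_mul (D.lam β x)))
  refine lt_of_lt_of_eq ?_ (d2.unique d1)
  have n : ∀ β ∈ D.J x, 0 ≤ D.lam β x * fderiv ℝ (u β) (x, r) (0, 1) := fun β hb =>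
    mul_nonneg (D.lam_nonneg β x) (h β hb).self_of_nhds.2.le
  by_contra! hn
  have c0 := D.chi_nonneg x
  have n' := Finset.sum_nonneg n
  have z := (Finset.sum_eq_zero_iff_of_nonneg n).mp (by linarith)
  have := D.sum_one x
  rw [Finset.sum_eq_zero fun β hb =>
    (mul_eq_zero.mp (z β hb)).resolve_right (h β hb).self_of_nhds.2.ne'] at this
  linarith

lemma SmD.tt_congr {u u' : E m → E m × ℝ → ℝ} {σ : E m × ℝ → ℝ}
    (h0 : ∀ᶠ p in 𝓝 (x, r), D.χ p.1 * σ p = D.χ p.1 * p.2)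
    (h : ∀ β ∈ D.J x, ∀ᶠ p in 𝓝 (x, r), u' β (p.1, σ p) = u β p) :
    ∀ᶠ p in 𝓝 (x, r), D.tt u' (p.1, σ p) = D.tt u p := by
  filter_upwards [h0, (eventually_all_finset _).mpr h, continuousAt_fst.eventually (D.J_ev x)]
    with p h1 h2 h3
  simp only [SmD.tt, h1]
  rw [Finset.sum_congr rfl fun β hb => by rw [h2 β (h3 hb)]]

lemma SmD.mem_J {α : E m} (h : D.lam α x ≠ 0) : α ∈ D.J x := by
  by_contra hn
  exact h (D.lam_zero x α hn)

lemma SmD.tt_mono {α : E m} (h0 : D.χ x = 0) (h : D.lam α x ≠ 0) :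
    StrictMono fun t => D.tt (fun β p => D.g α β • p.2) (x, t) := fun s t hst => by
  simp only [SmD.tt, h0, zero_mul, zero_add]
  refine Finset.sum_lt_sum (fun β _ => mul_le_mul_of_nonneg_left
    (sub_le_sub_right (fn_mono _ hst).le _) (D.lam_nonneg β x)) ⟨α, D.mem_J h, ?_⟩
  exact mul_lt_mul_of_pos_left (sub_lt_sub_right (fn_mono _ hst) _)
    ((D.lam_nonneg α x).lt_of_ne h.symm)

lemma SmD.tt_zero {u : E m → E m × ℝ → ℝ} (hx : x ∈ D.N) (h0 : D.χ x * r = 0)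
    (h : ∀ β ∈ D.J x, u β (x, r) = ev (D.ψ β x)) : D.tt u (x, r) = 0 := by
  simp only [SmD.tt, h0, zero_add]
  exact Finset.sum_eq_zero fun β hb => by rw [h β hb, D.f_eq x hx β hb, sub_self, mul_zero]

/-- the local first integrals of the new foliation -/
def SmD.Gd (a : E m × ℝ → E m) (x : E m) (Z : E m × ℝ → ℝ) : Prop :=
  (x ∈ D.N ∧ ∃ (Y : E m × ℝ → ℝ) (k : E m → Gc), FI a Y x ∧ F.ch x (oy Y) ∧
    (∀ β ∈ D.J x, D.ψ β x = k β • oy Y x) ∧ Sv Z (x, 0) ∧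
      ∀ᶠ p in 𝓝 (x, (0 : ℝ)), Z (p.1, D.tt (fun β p => k β • Y p) p) = Y p) ∨
  ((∀ᶠ y in 𝓝 x, D.χ y = 0) ∧ ∃ α r, D.lam α x ≠ 0 ∧
    (∀ γ ∈ D.J x, ∀ δ ∈ D.J x, fn (D.g γ δ * D.g α γ) =ᶠ[𝓝 r] fn (D.g α δ)) ∧
      D.tt (fun β p => D.g α β • p.2) (x, r) = 0 ∧ Sv Z (x, 0) ∧
        ∀ᶠ p in 𝓝 (x, r), Z (p.1, D.tt (fun β p => D.g α β • p.2) p) = p.2)

variable {D}

lemma SmD.Gd.sv (h : D.Gd a x Z) : Sv Z (x, 0) := by
  rcases h with ⟨-, _, _, -, -, -, h, -⟩ | ⟨-, _, _, -, -, -, h, -⟩ <;> exact h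

lemma smB_sv (g : Gc) (z : E m × ℝ) : Sv (fun p => g • p.2) z := A.Up.smul (sv_snd z) g

lemma SmD.Gd.ev (h : D.Gd a x Z) : ∀ᶠ y in 𝓝 x, D.Gd a y Z := by
  rcases h with ⟨h1, Y, k, h2, h3, h4, h5, h6⟩ | ⟨h1, α, r, h2, h3, h4, h5, h6⟩
  · filter_upwards [D.N_open.mem_nhds h1, h2.ev, F.op h3, D.J_ev x,
      (eventually_all_finset _).mpr fun β hb =>
        St.eq_of_val (D.ch x β hb) (St.smul h3 (k β)) (h4 β hb),
      ev_zero_section h5, ev_zero_section h6] with y b1 b2 b3 b4 b5 b6 b7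
    exact .inl ⟨b1, Y, k, b2, b3, fun β hb => b5 β (b4 hb), b6, b7⟩
  · have c : ∀ᶠ s in 𝓝 r, ∀ γ ∈ D.J x, ∀ δ ∈ D.J x,
        fn (D.g γ δ * D.g α γ) =ᶠ[𝓝 s] fn (D.g α δ) :=
      (eventually_all_finset _).mpr fun γ hc => (eventually_all_finset _).mpr fun δ hd =>
        (h3 γ hc δ hd).eventuallyEq_nhds
    filter_upwards [h1.eventually_nhds, (D.lam_smooth α).continuous.continuousAt.eventually_ne h2,
      D.J_ev x, ev_zero_section h5, (D.tt_sv fun β _ => smB_sv _ _).zero_near h4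
        ((continuousAt_snd.eventually c).and h6.eventually_nhds)] with y b1 b2 b3 b4 ⟨s, b5, b6, b7⟩
    exact .inr ⟨b1, α, s, b2, fun γ hc δ hd => b6 γ (b3 hc) δ (b3 hd), b5, b4, b7⟩

lemma smB_cmp {T T' Y Y' σ : E m × ℝ → ℝ} {g : Gc} {r' : ℝ} (hT : Sv T (x, r)) (h0 : T (x, r) = 0)
    (hσ : ContinuousAt σ (x, r)) (e : σ (x, r) = r')
    (h1 : ∀ᶠ p in 𝓝 (x, r), T' (p.1, σ p) = T p) (h2 : ∀ᶠ p in 𝓝 (x, r), Z (p.1, T p) = Y p)
    (h3 : ∀ᶠ p in 𝓝 (x, r'), Z' (p.1, T' p) = Y' p)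
    (h4 : ∀ᶠ p in 𝓝 (x, r), Y' (p.1, σ p) = g • Y p) : ∀ᶠ p in 𝓝 (x, (0 : ℝ)), Z' p = g • Z p := by
  have c := (continuousAt_fst.prodMk hσ).tendsto
  rw [e] at c
  rw [← h0]
  refine hT.ev_of ?_
  filter_upwards [h1, h2, c.eventually h3, h4] with p b1 b2 b3 b4
  rw [b2, ← b4, ← b3, b1]

lemma smB_near {Y : E m × ℝ → ℝ} (h : Sv Y (x, 0)) {k k' : Gc} (e : k • oy Y x = k' • oy Y x) :
    ∀ᶠ p in 𝓝 (x, (0 : ℝ)), k • Y p = k' • Y p := by
  have := smul_eq_iff.mp e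
  rw [h.ev_oy] at this
  exact h.self_of_nhds.1.continuousAt.eventually this

lemma smB_ab {Y : E m × ℝ → ℝ} {k : E m → Gc} {α : E m} (h1 : x ∈ D.N) (h2 : FI a Y x)
    (h4 : ∀ β ∈ D.J x, D.ψ β x = k β • oy Y x)
    (h6 : ∀ᶠ p in 𝓝 (x, (0 : ℝ)), Z (p.1, D.tt (fun β p => k β • Y p) p) = Y p)
    (b1 : ∀ᶠ y in 𝓝 x, D.χ y = 0) (b2 : D.lam α x ≠ 0)
    (b4 : D.tt (fun β p => D.g α β • p.2) (x, r) = 0)
    (b6 : ∀ᶠ p in 𝓝 (x, r), Z' (p.1, D.tt (fun β p => D.g α β • p.2) p) = p.2) :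
    ∀ᶠ p in 𝓝 (x, (0 : ℝ)), Z' p = k α • Z p := by
  have ha := D.mem_J b2
  have v : ∀ β ∈ D.J x, k β • Y (x, 0) = ev (D.ψ β x) := fun β hb => by
    rw [h4 β hb, ev_smul, h2.1.ev_oy]
  refine smB_cmp (σ := fun p => k α • Y p) (D.tt_sv fun β _ => A.Up.smul h2.1 _)
    (D.tt_zero h1 (mul_zero _) v) (A.sm_fn _ h2.1.self_of_nhds.1).continuousAt ?_
    (D.tt_congr ((continuousAt_fst.eventually b1).mono fun p hp => by simp only [hp, zero_mul])
      fun β hb => ?_) h6 b6 (.of_forall fun _ => rfl)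
  · refine (D.tt_mono b1.self_of_nhds b2).injective (Eq.trans ?_ b4.symm)
    refine D.tt_zero h1 (by rw [b1.self_of_nhds, zero_mul]) fun β hb => ?_
    simp only [v α ha, D.tr x α ha β hb, ev_smul]
  · simp only [← mul_smul]
    refine smB_near h2.1 ?_
    rw [mul_smul, ← h4 α ha, ← h4 β hb, D.tr x α ha β hb]

lemma SmD.Gd.cmp (h : D.Gd a x Z) (h' : D.Gd a x Z') :
    ∃ g : Gc, ∀ᶠ p in 𝓝 (x, (0 : ℝ)), Z' p = g • Z p := by
  rcases h with ⟨h1, Y, k, h2, -, h4, -, h6⟩ | ⟨h1, α, r, h2, h3, h4, -, h6⟩ <;>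
    rcases h' with ⟨b1, Y', k', b2, -, b4, -, b6⟩ | ⟨b1, α', r', b2, -, b4, -, b6⟩
  · obtain ⟨g, hg⟩ := h2.trans b2
    refine ⟨g, smB_cmp (σ := Prod.snd) (D.tt_sv fun β _ => A.Up.smul h2.1 _)
      (D.tt_zero h1 (mul_zero _) fun β hb => by rw [h4 β hb, ev_smul, h2.1.ev_oy])
      continuousAt_snd rfl (D.tt_congr (.of_forall fun _ => rfl) fun β hb => ?_) h6 b6 hg⟩
    filter_upwards [hg, smB_near h2.1 (k := k' β * g) (k' := k β) (by
      rw [mul_smul, ← (h2.1.oy_smul hg).self_of_nhds, ← b4 β hb, h4 β hb])] with p c1 c2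
    rw [← c2, mul_smul, ← c1]
  · exact ⟨_, smB_ab h1 h2 h4 h6 b1 b2 b4 b6⟩
  · exact ⟨_, (smB_ab b1 b2 b4 b6 h1 h2 h4 h6).mono fun p hp => (inv_smul_eq_iff.mpr hp).symm⟩
  · have e := D.tt_congr (x := x) (r := r) (σ := fun p => D.g α α' • p.2)
      (u := fun β p => D.g α β • p.2) (u' := fun β p => D.g α' β • p.2)
      ((continuousAt_fst.eventually h1).mono fun p hp => by simp only [hp, zero_mul])
      fun β hb => (continuousAt_snd.eventually (h3 α' (D.mem_J b2) β hb).eventually).mono fun p hp =>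
        (mul_smul _ _ _).symm.trans hp
    exact ⟨D.g α α', smB_cmp (D.tt_sv fun β _ => smB_sv _ _) h4
      (smB_sv _ _).self_of_nhds.1.continuousAt ((D.tt_mono b1.self_of_nhds b2).injective
        (e.self_of_nhds.trans (h4.trans b4.symm))) e h6 b6 (.of_forall fun _ => rfl)⟩

variable (D)

lemma SmD.exists_gd (h : ∀ x ∈ U, ∃ Y, FI a Y x ∧ F.ch x (oy Y)) (x : E m) : ∃ Z, D.Gd a x Z := by
  by_cases hx : x ∈ D.N
  · obtain ⟨Y, h1, h2⟩ := h x (D.N_sub hx)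
    choose k hk using fun β => exists_smul (oy Y x) (D.ψ β x)
    obtain ⟨Z, h3, h4⟩ := h1.1.exists_chart (D.tt_sv (u := fun β p => k β • Y p)
      fun β _ => A.Up.smul h1.1 _) (D.tt_zero hx (mul_zero _) fun β _ => by
        rw [← hk β, ev_smul, h1.1.ev_oy])
    exact ⟨Z, .inl ⟨hx, Y, k, h1, h2, fun β _ => (hk β).symm, h3, h4⟩⟩
  · have h0 := D.chi_zero x hx
    obtain ⟨α, ha, h1⟩ := Finset.exists_ne_zero_of_sum_ne_zero (s := D.J x)
      (f := fun α => D.lam α x) (by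
        have := D.sum_one x
        rw [h0.self_of_nhds, zero_add] at this
        rw [this]
        exact one_ne_zero)
    obtain ⟨β₁, m1, l1⟩ := (D.J x).exists_min_image (fun β => (D.g α β)⁻¹ • D.f β x) ⟨α, ha⟩
    obtain ⟨β₂, m2, l2⟩ := (D.J x).exists_max_image (fun β => (D.g α β)⁻¹ • D.f β x) ⟨α, ha⟩
    have c : Continuous fun t => D.tt (fun β p => D.g α β • p.2) (x, t) := by
      simp only [SmD.tt]
      fun_prop
    obtain ⟨r, r1, r2⟩ := intermediate_value_Icc (l1 β₂ m2) c.continuousOn (show (0 : ℝ) ∈ _ from by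
      simp only [SmD.tt, h0.self_of_nhds, zero_mul, zero_add]
      refine ⟨Finset.sum_nonpos fun β hb => mul_nonpos_of_nonneg_of_nonpos (D.lam_nonneg β x) ?_,
        Finset.sum_nonneg fun β hb => mul_nonneg (D.lam_nonneg β x) ?_⟩
      · have := (fn_mono (D.g α β)).monotone (l1 β hb)
        simp only [fn, smul_inv_smul] at this
        exact sub_nonpos.mpr this
      · have := (fn_mono (D.g α β)).monotone (l2 β hb)
        simp only [fn, smul_inv_smul] at this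
        exact sub_nonneg.mpr this)
    obtain ⟨Z, h3, h4⟩ := (sv_snd (x, r)).exists_chart (D.tt_sv fun β _ => smB_sv _ _) r2
    refine ⟨Z, .inr ⟨h0, α, r, h1, ?_, r2, h3, h4⟩⟩
    rcases le_total (ev (D.ψ α x)) r with e | e
    · exact D.coc x α ha β₂ m2 r (mem_uIcc.mpr (.inl ⟨e, r1.2⟩))
    · exact D.coc x α ha β₁ m1 r (mem_uIcc.mpr (.inr ⟨r1.1, e⟩))

end smB

/-- Hints. Take `D : SmD F U C`. At `x ∈ D.N` take the first integral `Y` of `h`, elements `k β` with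
`ψ β = k β • oy Y` near `x` for `β ∈ J x`, and the fibre coordinate
`T p = χ p.1 * p.2 + ∑ β ∈ J x, lam β p.1 * (k β • Y p - f β p.1)`, which vanishes on the zero section near
`x`. At `x ∉ D.N` choose `α ∈ J x`, take `Y = Prod.snd` and
`T p = ∑ β ∈ J x, lam β p.1 * (g α β • p.2 - f β p.1)`, strictly increasing in `p.2` near `x`, with a
zero `r` between the least and the largest of the `(g α β)⁻¹ • f β x`, so that the cocycle identities
hold near `r` (`coc`). `Sv.exists_chart` gives `Z x`. For `assemble` move to `y` near `x` with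
`Sv.zero_near` and compare through `Sv.ev_of`; three cases: both in `N` (`FI.trans`,
`smul_eq_iff`), both off `N`, and `x ∉ N`, `y ∈ N` (there `χ = 0` near `y`). At `x ∈ C`, `T = Prod.snd`
near `(x, 0)`; `FI.slp`. -/
theorem smooth {m : ℕ} (F : St (E m)) (a : E m × ℝ → E m) {U C : Set (E m)} (hU : IsOpen U)
    (hC : IsClosed C) (hCU : C ⊆ U) (h : ∀ x ∈ U, ∃ Y, FI a Y x ∧ F.ch x (oy Y)) :
    ∃ A, (∀ x, ∃ Y, FI A Y x) ∧ ∀ x ∈ C, ∀ᶠ p in 𝓝 (x, (0 : ℝ)), A p = a p := by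
  obtain ⟨D⟩ := exists_smD F hU hC hCU fun x hx ψ hψ => by
    obtain ⟨Y, h1, h2⟩ := h x hx
    obtain ⟨g, hg⟩ := (F.rel h2).mp hψ
    filter_upwards [hg.eventually_nhds, h1.ev.eventually_nhds] with y a1 a2
    refine (A.sm_fn g (A.fz_sm a2.self_of_nhds.1.self_of_nhds.1)).congr_of_eventuallyEq ?_
    filter_upwards [a1, a2] with z b1 b2
    rw [b1, ev_smul, b2.1.ev_oy]
    rfl
  choose Z hZ using D.exists_gd h
  obtain ⟨A, hA⟩ := assemble Z (fun x => (hZ x).sv) fun x =>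
    (hZ x).ev.mono fun y hy => hy.cmp (hZ y)
  refine ⟨A, fun x => ⟨_, hA x⟩, fun x hx => ?_⟩
  rcases hZ x with ⟨-, Y, k, a1, -, -, -, a2⟩ | ⟨-, α, r, a1, -⟩
  · have e : ∀ᶠ p in 𝓝 (x, (0 : ℝ)), Z x p = (1 : Gc) • Y p := by
      filter_upwards [a2, continuousAt_fst.eventually (D.J_ev x)] with p b1 b2
      have b3 : D.J p.1 = ∅ := Finset.subset_empty.mp (D.J_C x hx ▸ b2)
      have b4 := D.sum_one p.1
      rw [b3, Finset.sum_empty, add_zero] at b4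
      rw [one_smul, ← b1, SmD.tt, b3, Finset.sum_empty, b4, one_mul, add_zero]
    filter_upwards [(hA x).slp, a1.slp, a1.1.slp_smul e] with p b1 b2 b3
    rw [b1, b2, b3]
  · exact absurd (D.lam_zero x α (by simp [D.J_C x hx])) a1

end

end Pool.Agent.P.MP_7bb7e1_gt.H
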