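import Pool.Agent.P.MP_7bb7e1_gt.H.Loc
import Pool.Agent.P.MP_7bb7e1_gt.H.Top

/-! The zigzag from the integral over space to integrals over the edges of the grid. -/

namespace Pool.Agent.P.MP_7bb7e1_gt.H

open Pool.Agent.P.MP_7bb7e1_gt.D Filter Topology Set MeasureTheory
open scoped ContDiff

noncomputable section

variable {n : ℕ} {h k : E n → ℝ} {x : E n} {i j : Fin n}

/-- the average along a unit segment -/
def av (i : Fin n) (h : E n → ℝ) (x : E n) : ℝ := ∫ s in (0 : ℝ)..1, h (x + s • Pi.single i 1)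

lemma av_cont (hh : Continuous h) (i : Fin n) : Continuous (av i h) :=
  intervalIntegral.continuous_parametric_intervalIntegral_of_continuous'
    (f := fun x (s : ℝ) => h (x + s • Pi.single i 1)) (by fun_prop) 0 1

lemma av_cs (hh : Continuous h) (w : E n) : Continuous fun y => h (y + w) := by fun_prop

lemma av_ca (hh : Continuous h) (hk : Continuous k) : Continuous fun y => h y + k y := hh.add hk

lemma av_congr (e : ∀ s ∈ Icc (0 : ℝ) 1, h (x + s • Pi.single i 1) = k (x + s • Pi.single i 1)) :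
    av i h x = av i k x :=
  intervalIntegral.integral_congr (by rwa [uIcc_of_le zero_le_one])

lemma av_add (hh : Continuous h) (hk : Continuous k) (i : Fin n) :
    av i (fun y => h y + k y) = fun y => av i h y + av i k y := funext fun x =>
  intervalIntegral.integral_add (Continuous.intervalIntegrable (by fun_prop) _ _)
    (Continuous.intervalIntegrable (by fun_prop) _ _)

lemma av_sub (hh : Continuous h) (hk : Continuous k) (i : Fin n) :
    av i (fun y => h y - k y) = fun y => av i h y - av i k y := funext fun x =>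
  intervalIntegral.integral_sub (Continuous.intervalIntegrable (by fun_prop) _ _)
    (Continuous.intervalIntegrable (by fun_prop) _ _)

lemma av_neg (h : E n → ℝ) (i : Fin n) : av i (fun y => -h y) = fun y => -av i h y :=
  funext fun _ => intervalIntegral.integral_neg

lemma av_zero (i : Fin n) : av i (fun _ => 0) = fun _ => 0 :=
  funext fun _ => intervalIntegral.integral_zero

lemma av_shift (h : E n → ℝ) (i : Fin n) (w : E n) :
    av i (fun y => h (y + w)) = fun y => av i h (y + w) := funext fun y => by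
  simp only [av, add_right_comm]

lemma av_comm (hh : Continuous h) (i j : Fin n) : av i (av j h) = av j (av i h) := funext fun x => by
  simp only [av, intervalIntegral.integral_of_le zero_le_one]
  rw [integral_integral_swap]
  · simp only [add_right_comm]
  · rw [Measure.prod_restrict]
    refine IntegrableOn.mono_set (t := Icc 0 1 ×ˢ Icc 0 1) ?_
      (prod_mono Ioc_subset_Icc_self Ioc_subset_Icc_self)
    exact ContinuousOn.integrableOn_compact (isCompact_Icc.prod isCompact_Icc)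
      (Continuous.continuousOn (by fun_prop))

lemma av_dd (hh : ContDiff ℝ ∞ h) (i : Fin n) :
    av i (dd i h) = fun y => h (y + Pi.single i 1) - h y := funext fun x => by
  have := intervalIntegral.integral_eq_sub_of_hasDerivAt (a := 0) (b := 1)
    (f := fun s : ℝ => h (x + s • Pi.single i 1)) (f' := fun s => dd i h (x + s • Pi.single i 1))
    (fun s _ => A.hasDerivAt_dd (c := fun s : ℝ => x + s • Pi.single i 1) hh.contDiffAt (by
      simpa using ((hasDerivAt_id s).smul_const (Pi.single i 1 : E n)).const_add x))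
    (Continuous.intervalIntegrable ((A.dd_sm hh _).continuous.comp (by fun_prop)) _ _)
  simpa [av] using this

lemma cube_succ (a : E (n + 1)) {h : E (n + 1) → ℝ} (hh : Continuous h) :
    ∫ x in univ.pi fun i => Ioc (a i) (a i + 1), h x = ∫ s in (0 : ℝ)..1,
      ∫ y in univ.pi fun j : Fin n => Ioc (a j.succ) (a j.succ + 1), h (Fin.cons (a 0 + s) y) := by
  have hi : IntegrableOn h (univ.pi fun i => Ioc (a i) (a i + 1)) :=
    (hh.continuousOn.integrableOn_compact (isCompact_univ_pi fun i => isCompact_Icc)).mono_set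
      (pi_mono fun i _ => Ioc_subset_Icc_self)
  rw [IntegrableOn, volume_pi, Measure.restrict_pi_pi] at hi
  have m := (measurePreserving_piFinSuccAbove
    (fun i => (volume : Measure ℝ).restrict (Ioc (a i) (a i + 1))) 0).symm
  rw [intervalIntegral.integral_comp_add_left (fun t => ∫ y in univ.pi fun j : Fin n =>
    Ioc (a j.succ) (a j.succ + 1), h (Fin.cons t y)), add_zero,
    intervalIntegral.integral_of_le (by linarith), volume_pi, Measure.restrict_pi_pi,
    ← m.integral_comp' h, volume_pi, Measure.restrict_pi_pi]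
  refine (integral_prod _ ((m.integrable_comp_emb
    (MeasurableEquiv.measurableEmbedding _)).mpr hi)).trans ?_
  simp [MeasurableEquiv.piFinSuccAbove, Fin.insertNthEquiv]

lemma cube_three (a : E 3) {h : E 3 → ℝ} (hh : Continuous h) :
    ∫ x in univ.pi fun i => Ioc (a i) (a i + 1), h x = av 0 (av 1 (av 2 h)) a := by
  rw [cube_succ a hh]
  refine intervalIntegral.integral_congr fun s _ => ?_
  rw [cube_succ _ (by fun_prop)]
  refine intervalIntegral.integral_congr fun t _ => ?_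
  rw [cube_succ _ (by fun_prop)]
  refine intervalIntegral.integral_congr fun u _ => ?_
  rw [show (univ.pi _ : Set (E 0)) = univ from eq_univ_of_forall fun _ i => i.elim0,
    Measure.restrict_univ, Measure.volume_pi_eq_dirac, integral_dirac]
  congr 1
  ext m
  fin_cases m <;> simp
  rfl

lemma hasSum_cube {h : E 3 → ℝ} (hh : Continuous h) (h0 : ∃ R : ℝ, ∀ x, R ≤ ‖x‖ → h x = 0) :
    HasSum (fun v => av 0 (av 1 (av 2 h)) (cst v)) (∫ x, h x) := by
  obtain ⟨R, h0⟩ := h0
  have e : (⋃ v : Zn 3, univ.pi fun i => Ioc (cst v i) (cst v i + 1)) = univ :=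
    eq_univ_of_forall fun x => mem_iUnion.mpr ⟨fun i => ⌈x i⌉ - 1, fun i _ => by
      simp only [cst, Int.cast_sub, Int.cast_one, mem_Ioc]
      constructor <;> linarith [Int.le_ceil (x i), Int.ceil_lt_add_one (x i)]⟩
  have := hasSum_integral_iUnion (μ := volume) (f := h)
    (s := fun v : Zn 3 => univ.pi fun i => Ioc (cst v i) (cst v i + 1))
    (fun v => MeasurableSet.univ_pi fun i => measurableSet_Ioc) (fun v w hvw => by
      refine disjoint_left.mpr fun x h1 h2 => hvw (funext fun i => ?_)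
      have a := h1 i trivial
      have b := h2 i trivial
      have c : (v i : ℝ) < w i + 1 := a.1.trans_le b.2
      have d : (w i : ℝ) < v i + 1 := b.1.trans_le a.2
      have c' : v i < w i + 1 := by exact_mod_cast c
      have d' : w i < v i + 1 := by exact_mod_cast d
      omega)
    (hh.integrable_of_hasCompactSupport (HasCompactSupport.intro (isCompact_closedBall 0 R)
      fun x hx => h0 x (not_le.mp (by simpa using hx)).le)).integrableOn
  simpa only [e, Measure.restrict_univ, cube_three _ hh] using this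

lemma av_near (i : Fin 3) {s t u : ℝ} (hs : s ∈ Icc (0 : ℝ) 1) (ht : t ∈ Icc (0 : ℝ) 1)
    (hu : u ∈ Icc (0 : ℝ) 1) (a : E 3) : ‖a + s • Pi.single i 1 + t • Pi.single (i + 1) 1 +
      u • Pi.single (i + 2) 1 - a‖ ≤ 1 := by
  refine (pi_norm_le_iff_of_nonneg zero_le_one).mpr fun m => ?_
  fin_cases i <;> fin_cases m <;> simp [abs_of_nonneg, hs.1, hs.2, ht.1, ht.2, hu.1, hu.2]

/-- unit lattice vectors -/
def dz (i : Fin n) : Zn n := Pi.single i 1

lemma cst_dz (v : Zn n) (i : Fin n) : cst (v + dz i) = cst v + Pi.single i 1 := by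
  ext m
  by_cases e : m = i <;> simp [cst, dz, e]

lemma vt_zero (v : Zn n) (τ : Equiv.Perm (Fin n)) : vt v τ 0 = v := by
  ext m; simp [vt]

lemma vt_succ (v : Zn n) (τ : Equiv.Perm (Fin n)) (k : Fin n) :
    vt v τ (k + 1) = vt v τ k + dz (τ k) := by
  ext m
  have : m = τ k ↔ (τ.symm m).1 = k.1 := by rw [← Fin.ext_iff, Equiv.symm_apply_eq]
  simp only [vt, dz, Pi.add_apply, Pi.single_apply, this]
  split_ifs <;> omega

lemma sum_perm_three (T : Fin 3 → Fin 3 → Fin 3 → ℝ) :
    ∑ τ : Equiv.Perm (Fin 3), (Equiv.Perm.sign τ : ℤ) • T (τ 0) (τ 1) (τ 2) =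
      ∑ i, (T i (i + 1) (i + 2) - T i (i + 2) (i + 1)) := by
  have : (Finset.univ : Finset (Equiv.Perm (Fin 3))) = {1, .swap 0 1, .swap 0 2, .swap 1 2,
    .swap 0 1 * .swap 1 2, .swap 1 2 * .swap 0 1} := by decide
  rw [this, Finset.sum_insert (by decide), Finset.sum_insert (by decide),
    Finset.sum_insert (by decide), Finset.sum_insert (by decide), Finset.sum_insert (by decide)]
  simp [Fin.sum_univ_three, Equiv.swap_apply_def]
  ring

lemma hasSum_shift {u : Zn n → ℝ} (hu : (Function.support u).Finite) (d : Zn n) :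
    HasSum (fun v => u (v + d) - u v) 0 := by
  have : HasSum u (∑' v, u v) := (summable_of_hasFiniteSupport hu).hasSum
  simpa using ((Equiv.addRight d).hasSum_iff.mpr this).sub this

variable {b : Fin 3 → E 3 → ℝ} {g : Zn 3 → E 3 → ℝ}

lemma curl_sm (hb : ∀ i, ContDiff ℝ ∞ (b i)) (i : Fin 3) : ContDiff ℝ ∞ (curl b i) :=
  (A.dd_sm (hb _) _).sub (A.dd_sm (hb _) _)

lemma div_curl (hb : ∀ i, ContDiff ℝ ∞ (b i)) (x : E 3) : ∑ i, dd i (curl b i) x = 0 := by
  have e : ∀ i, dd i (curl b i) x = dd i (dd (i + 1) (b (i + 2))) x - dd i (dd (i + 2) (b (i + 1))) x :=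
    fun i => A.dd_sub (A.dd_sm (hb _) _).contDiffAt (A.dd_sm (hb _) _).contDiffAt _
  have c : ∀ i j k, dd i (dd j (b k)) x = dd j (dd i (b k)) x := fun i j k =>
    A.dd_comm (hb k).contDiffAt _ _
  simp only [e, Fin.sum_univ_three]
  change dd 0 (dd 1 (b 2)) x - dd 0 (dd 2 (b 1)) x + (dd 1 (dd 2 (b 0)) x - dd 1 (dd 0 (b 2)) x) +
    (dd 2 (dd 0 (b 1)) x - dd 2 (dd 1 (b 0)) x) = 0
  rw [c 0 1, c 0 2, c 1 2]
  ring

/-- the flux through a square -/
def skF (b : Fin 3 → E 3 → ℝ) (i : Fin 3) (u : E 3 → ℝ) : E 3 → ℝ :=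
  av (i + 1) (av (i + 2) fun y => u y * curl b i y)

/-- the primitive on a square -/
def skM (b : Fin 3 → E 3 → ℝ) (u u' : E 3 → ℝ) (k : Fin 3) (y : E 3) : ℝ :=
  (u' y - u y) * (b k y + dd k u y)

lemma skM_sm (hb : ∀ i, ContDiff ℝ ∞ (b i)) {u u' : E 3 → ℝ} (hu : ContDiff ℝ ∞ u)
    (hu' : ContDiff ℝ ∞ u') (k : Fin 3) : ContDiff ℝ ∞ (skM b u u' k) :=
  (hu'.sub hu).mul ((hb k).add (A.dd_sm hu _))

lemma sk_cube (hb : ∀ i, ContDiff ℝ ∞ (b i)) {u : E 3 → ℝ} (hu : ContDiff ℝ ∞ u) (a : E 3)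
    (h1 : ∀ x, ‖x - a‖ ≤ 1 → ∑ i, (b i x + dd i u x) * curl b i x = 0) :
    av 0 (av 1 (av 2 fun x => ∑ i, b i x * curl b i x)) a =
      -∑ i, (skF b i u (a + Pi.single i 1) - skF b i u a) := by
  have s : ∀ i, ContDiff ℝ ∞ fun y => u y * curl b i y := fun i => hu.mul (curl_sm hb i)
  have c : ∀ i, Continuous (dd i fun y => u y * curl b i y) := fun i => (A.dd_sm (s i) _).continuous
  have e : ∀ i, av (i + 1) (av (i + 2) (av i (dd i fun y => u y * curl b i y))) a =
      skF b i u (a + Pi.single i 1) - skF b i u a := fun i => by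
    have k := (s i).continuous
    rw [av_dd (s i), av_sub (av_cs k _) k, av_shift (fun y => u y * curl b i y),
      av_sub (av_cs (av_cont k _) _) (av_cont k _), av_shift]
    rfl
  rw [av_congr (k := av 1 (av 2 fun x => -((dd 0 (fun y => u y * curl b 0 y) x +
      dd 1 (fun y => u y * curl b 1 y) x) + dd 2 (fun y => u y * curl b 2 y) x)))
    fun s hs => av_congr fun t ht => av_congr fun r hr => ?_]
  · simp only [← e, Fin.sum_univ_three, av_neg]
    rw [av_add (av_ca (c 0) (c 1)) (c 2), av_add (c 0) (c 1),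
      av_add (av_ca (av_cont (c 0) _) (av_cont (c 1) _)) (av_cont (c 2) _),
      av_add (av_cont (c 0) _) (av_cont (c 1) _),
      av_add (av_ca (av_cont (av_cont (c 0) _) _) (av_cont (av_cont (c 1) _) _))
        (av_cont (av_cont (c 2) _) _),
      av_add (av_cont (av_cont (c 0) _) _) (av_cont (av_cont (c 1) _) _)]
    change _ = -(av 1 (av 2 (av 0 _)) a + av 2 (av 0 (av 1 _)) a + av 0 (av 1 (av 2 _)) a)
    rw [av_comm (c 0) 2 0, av_comm (av_cont (c 0) 2) 1 0, av_comm (av_cont (c 1) 1) 2 0,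
      av_comm (c 1) 2 1]
  · have a1 := h1 _ (av_near 0 hs ht hr a)
    have a2 := div_curl hb (a + s • Pi.single 0 1 + t • Pi.single 1 1 + r • Pi.single 2 1)
    have a3 : ∀ i x, dd i (fun y => u y * curl b i y) x =
        dd i u x * curl b i x + u x * dd i (curl b i) x := fun i x =>
      A.dd_mul hu.contDiffAt (curl_sm hb i).contDiffAt _
    simp only [Fin.sum_univ_three, a3, zero_add] at a1 a2 ⊢
    linear_combination a1 + u _ * a2

lemma sk_face (hb : ∀ i, ContDiff ℝ ∞ (b i)) {u u' : E 3 → ℝ} (hu : ContDiff ℝ ∞ u)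
    (hu' : ContDiff ℝ ∞ u') (i : Fin 3) (a : E 3)
    (h2 : ∀ x, ‖x - a‖ ≤ 1 → ‖x - (a + Pi.single i 1)‖ ≤ 1 → ∀ j k,
      (dd j u' x - dd j u x) * (b k x + dd k u x) = (dd k u' x - dd k u x) * (b j x + dd j u x)) :
    skF b i u' (a + Pi.single i 1) - skF b i u (a + Pi.single i 1) =
      (av (i + 2) (skM b u u' (i + 2)) (a + Pi.single i 1 + Pi.single (i + 1) 1) -
        av (i + 2) (skM b u u' (i + 2)) (a + Pi.single i 1)) -
      (av (i + 1) (skM b u u' (i + 1)) (a + Pi.single i 1 + Pi.single (i + 2) 1) -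
        av (i + 1) (skM b u u' (i + 1)) (a + Pi.single i 1)) := by
  have s := skM_sm hb hu hu'
  have c : ∀ j k, Continuous (dd j (skM b u u' k)) := fun j k => (A.dd_sm (s k) _).continuous
  have k1 := (hu.mul (curl_sm hb i)).continuous
  have k2 := (hu'.mul (curl_sm hb i)).continuous
  have e : ∀ j k y, av k (av j (dd j (skM b u u' k))) y =
      av k (skM b u u' k) (y + Pi.single j 1) - av k (skM b u u' k) y := fun j k y => by
    rw [av_dd (s k), av_sub (av_cs (s k).continuous _) (s k).continuous,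
      av_shift]
  rw [← e, ← e, av_comm (c _ _) (i + 2) (i + 1), skF, skF,
    ← congrFun (av_sub (av_cont k2 _) (av_cont k1 _) _), ← av_sub k2 k1,
    ← congrFun (av_sub (av_cont (c _ _) _) (av_cont (c _ _) _) _), ← av_sub (c _ _) (c _ _)]
  refine av_congr fun t ht => av_congr fun r hr => ?_
  have a1 := av_near i (right_mem_Icc.mpr zero_le_one) ht hr a
  have a2 := av_near i (left_mem_Icc.mpr zero_le_one) ht hr (a + Pi.single i 1)
  rw [one_smul] at a1
  rw [zero_smul, add_zero] at a2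
  have a3 := h2 _ a1 a2 (i + 1) (i + 2)
  have a4 : ∀ j k x, dd j (skM b u u' k) x = (dd j u' x - dd j u x) * (b k x + dd k u x) +
      (u' x - u x) * (dd j (b k) x + dd j (dd k u) x) := fun j k x => by
    refine (A.dd_mul (hu'.sub hu).contDiffAt ((hb k).add (A.dd_sm hu _)).contDiffAt _).trans ?_
    rw [A.dd_sub hu'.contDiffAt hu.contDiffAt, A.dd_add (hb k).contDiffAt (A.dd_sm hu _).contDiffAt]
    rfl
  have a5 : ∀ j k x, dd j (dd k u) x = dd k (dd j u) x := fun j k x => A.dd_comm hu.contDiffAt _ _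
  rw [a4, a4, a3, a5, curl]
  ring

lemma sk_far (hg0 : ∃ R : ℝ, ∀ v, R ≤ ‖cst v‖ → g v = fun _ => 0) {u : Zn 3 → ℝ}
    (h : ∀ v, (∀ w, ‖cst w - cst v‖ ≤ 1 → g w = fun _ => 0) → u v = 0) :
    (Function.support u).Finite := by
  obtain ⟨R, hR⟩ := hg0
  refine (finite_cst (R + 1)).subset fun v hv => mem_ofPred.mpr <| not_le.mp fun e => hv (h v fun w hw => hR w ?_)
  linarith [norm_sub_norm_le (cst v) (cst w), norm_sub_rev (cst v) (cst w)]

theorem stokes_sm (hb : ∀ i, ContDiff ℝ ∞ (b i)) (hb0 : ∃ R : ℝ, ∀ i x, R ≤ ‖x‖ → b i x = 0)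
    (hg : ∀ v, ContDiff ℝ ∞ (g v)) (hg0 : ∃ R : ℝ, ∀ v, R ≤ ‖cst v‖ → g v = fun _ => 0)
    (h1 : ∀ v x, ‖x - cst v‖ ≤ 1 → ∑ i, (b i x + dd i (g v) x) * curl b i x = 0)
    (h2 : ∀ v w x, ‖x - cst v‖ ≤ 1 → ‖x - cst w‖ ≤ 1 → ∀ j k,
      (dd j (g w) x - dd j (g v) x) * (b k x + dd k (g v) x) =
        (dd k (g w) x - dd k (g v) x) * (b j x + dd j (g v) x)) :
    ∫ x, ∑ i, b i x * curl b i x = ∑ᶠ v, ∑ τ : Equiv.Perm (Fin 3), (Equiv.Perm.sign τ : ℤ) •
      av (τ 2) (fun x => (g (vt v τ 2) x - g (vt v τ 1) x) *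
        (dd (τ 2) (g (vt v τ 1)) x - dd (τ 2) (g (vt v τ 0)) x)) (cst (vt v τ 2)) := by
  have n0 : ∀ v : Zn 3, ‖cst v - cst v‖ ≤ 1 := fun v => by simp
  have n1 : ∀ (v : Zn 3) j, ‖cst (v + dz j) - cst v‖ ≤ 1 := fun v j => by
    simp [cst_dz, Pi.norm_single]
  let L := fun k (u w p : Zn 3) => av k (skM b (g u) (g w) k) (cst p)
  have p1 : ∀ i, HasSum (fun v => skF b i (g (v + dz i)) (cst (v + dz i)) - skF b i (g v) (cst v)) 0 :=
    fun i => hasSum_shift (u := fun v => skF b i (g v) (cst v)) (sk_far hg0 fun v hv => by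
      simp [skF, hv v (n0 v), av_zero]) _
  have p2 : ∀ k j d, HasSum (fun v => L k (v + d) (v + d + dz j) (v + d + dz j) -
      L k v (v + dz j) (v + dz j)) 0 := fun k j d =>
    hasSum_shift (u := fun v => L k v (v + dz j) (v + dz j)) (sk_far hg0 fun v hv => by
      have : skM b (fun _ => 0) (fun _ => 0) k = fun _ => 0 := funext fun y => by simp [skM]
      simp [L, hv v (n0 v), hv _ (n1 v j), this, av_zero]) d
  have p3 := (hasSum_cube (h := fun x => ∑ i, b i x * curl b i x)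
    (continuous_finsetSum _ fun i _ => ((hb i).mul (curl_sm hb i)).continuous)
    (hb0.imp fun R hR x hx => by simp [hR _ x hx])).add (hasSum_sum (s := Finset.univ) fun i _ =>
      (p1 i).add ((p2 (i + 2) (i + 1) (dz i)).sub (p2 (i + 1) (i + 2) (dz i))))
  rw [← tsum_eq_finsum (L := SummationFilter.unconditional _) (sk_far hg0 fun v hv => by
    simp [hv _ (norm_vt v _ _), av_zero])]
  simp only [sub_self, add_zero, Finset.sum_const_zero] at p3
  rw [← p3.tsum_eq]
  refine tsum_congr fun v => ?_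
  have q1 : ∀ k u w z, av k (fun x => (g z x - g w x) * (dd k (g w) x - dd k (g u) x)) (cst z) =
      L k u w z + L k w z z - L k u z z := fun k u w z => by
    have c := fun u w => (skM_sm hb (hg u) (hg w) k).continuous
    rw [← congrFun (av_add (c _ _) (c _ _) k), ← congrFun (av_sub (av_ca (c _ _) (c _ _)) (c _ _) k)]
    exact av_congr fun s _ => by simp only [skM]; ring
  have q2 : ∀ τ : Equiv.Perm (Fin 3), vt v τ 1 = v + dz (τ 0) := fun τ =>
    (vt_succ v τ 0).trans (congrArg (· + _) (vt_zero v τ))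
  have q3 : ∀ τ : Equiv.Perm (Fin 3), vt v τ 2 = v + dz (τ 0) + dz (τ 1) := fun τ =>
    (vt_succ v τ 1).trans (congrArg (· + _) (q2 τ))
  have q4 := fun i => sk_face hb (hg v) (hg (v + dz i)) i (cst v) fun x a1 a2 =>
    h2 v (v + dz i) x a1 (by rwa [cst_dz])
  simp only [← cst_dz] at q4
  simp only [q1, q2, q3, vt_zero, sk_cube hb (hg v) _ (h1 v), ← cst_dz]
  rw [sum_perm_three fun i j k => L k v (v + dz i) (v + dz i + dz j) +
    L k (v + dz i) (v + dz i + dz j) (v + dz i + dz j) - L k v (v + dz i + dz j) (v + dz i + dz j)]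
  have r0 := q4 0
  have r1 := q4 1
  have r2 := q4 2
  simp only [Fin.sum_univ_three, L, zero_add, show (1 : Fin 3) + 1 = 2 from rfl,
    show (1 : Fin 3) + 2 = 0 from rfl, show (2 : Fin 3) + 1 = 0 from rfl,
    show (2 : Fin 3) + 2 = 1 from rfl, add_right_comm v (dz 1) (dz 0), add_right_comm v (dz 2) (dz 0),
    add_right_comm v (dz 2) (dz 1)] at r0 r1 r2 ⊢
  linarith

theorem stokes (b : Fin 3 → E 3 → ℝ) (g : Zn 3 → E 3 → ℝ) (hb : ∀ i, ContDiff ℝ ∞ (b i))
    (hb0 : ∃ R : ℝ, ∀ i x, R ≤ ‖x‖ → b i x = 0)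
    (hg : ∀ v x, ‖x - cst v‖ ≤ 2 → ContDiffAt ℝ ∞ (g v) x)
    (hg0 : ∃ R : ℝ, ∀ v, R ≤ ‖cst v‖ → g v = fun _ => 0)
    (h1 : ∀ v x, ‖x - cst v‖ ≤ 2 → ∑ i, (b i x + dd i (g v) x) * curl b i x = 0)
    (h2 : ∀ v w x, ‖x - cst v‖ ≤ 2 → ‖x - cst w‖ ≤ 2 → ∀ j k,
      (dd j (g w) x - dd j (g v) x) * (b k x + dd k (g v) x) =
        (dd k (g w) x - dd k (g v) x) * (b j x + dd j (g v) x)) :
    ∫ x, ∑ i, b i x * curl b i x = ∑ᶠ v, ∑ τ : Equiv.Perm (Fin 3), (Equiv.Perm.sign τ : ℤ) •
      ∫ s in (0 : ℝ)..1, (fun x => (g (vt v τ 2) x - g (vt v τ 1) x) *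
        (dd (τ 2) (g (vt v τ 1)) x - dd (τ 2) (g (vt v τ 0)) x))
          (cst (vt v τ 2) + s • Pi.single (τ 2) 1) := by
  let χ : ∀ v : Zn 3, ContDiffBump (cst v) := fun v => ⟨3 / 2, 2, by norm_num, by norm_num⟩
  let G : Zn 3 → E 3 → ℝ := fun v x => χ v x * g v x
  have e : ∀ v x, ‖x - cst v‖ ≤ 1 → G v =ᶠ[𝓝 x] g v := fun v x hx =>
    ((χ v).eventuallyEq_one_of_mem_ball (by
      rw [mem_ball_iff_norm]; exact hx.trans_lt (by norm_num [χ]))).mono fun y hy => by
        simp only [G, hy, Pi.one_apply, one_mul]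
  have d : ∀ v x, ‖x - cst v‖ ≤ 1 → ∀ i, dd i (G v) x = dd i (g v) x := fun v x hx i =>
    A.dd_congr (e v x hx) _
  have s : ∀ v, ContDiff ℝ ∞ (G v) := fun v => contDiff_iff_contDiffAt.mpr fun x => by
    by_cases hx : ‖x - cst v‖ ≤ 2
    · exact (χ v).contDiffAt.mul (hg v x hx)
    · refine (contDiffAt_const (c := 0)).congr_of_eventuallyEq ?_
      filter_upwards [(isOpen_lt continuous_const (continuous_id.sub continuous_const).norm).mem_nhds
        (not_le.mp hx)] with y (hy : 2 < ‖y - cst v‖)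
      simp only [G, (χ v).zero_of_le_dist (by rw [dist_eq_norm]; exact hy.le), zero_mul]
  rw [stokes_sm hb hb0 s (hg0.imp fun R hR v hv => by simp only [G, hR v hv, mul_zero])
    (fun v x hx => by simp only [d v x hx, h1 v x (hx.trans one_le_two)]) fun v w x a1 a2 j k => by
      simp only [d v x a1, d w x a2, h2 v w x (a1.trans one_le_two) (a2.trans one_le_two) j k]]
  refine finsum_congr fun v => Finset.sum_congr rfl fun τ _ => congrArg _ ?_
  change av _ _ _ = av (τ 2) (fun x => (g (vt v τ 2) x - g (vt v τ 1) x) *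
    (dd (τ 2) (g (vt v τ 1)) x - dd (τ 2) (g (vt v τ 0)) x)) _
  refine av_congr fun s hs => ?_
  have m : ∀ l ≤ 2, ‖cst (vt v τ 2) + s • Pi.single (τ 2) 1 - cst (vt v τ l)‖ ≤ 1 := fun l hl => by
    refine (pi_norm_le_iff_of_nonneg zero_le_one).mpr fun m => ?_
    obtain ⟨m, rfl⟩ := τ.surjective m
    obtain rfl | rfl | rfl : l = 0 ∨ l = 1 ∨ l = 2 := by omega
    all_goals fin_cases m <;> simp [cst, vt, abs_of_nonneg, hs.1, hs.2]
  rw [d _ _ (m 1 one_le_two), d _ _ (m 0 zero_le_two), (e _ _ (m 2 le_rfl)).self_of_nhds,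
    (e _ _ (m 1 one_le_two)).self_of_nhds]

end

end Pool.Agent.P.MP_7bb7e1_gt.H
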