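import Pool.Agent.P.MP_7bb7e1_gt.H.GDef

/-! The universal family and the cells given by charts on a grid. -/

namespace Pool.Agent.P.MP_7bb7e1_gt.H

open Pool.Agent.P.MP_7bb7e1_gt.D Filter Topology Set

noncomputable section

variable {n p q : ℕ}

/-- the point of the nerve given by a tuple of germs -/
def nv (ω : Fin (p + 1) → Om) : Nv p := sec (fun i => rep (ω i)) 0

lemma face_nv (i : Fin (p + 2)) (ω : Fin (p + 2) → Om) :
    face i (nv ω) = nv fun j => ω (i.succAbove j) := rfl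

/-- Hints: `sec_congr`, `rep_smul`, `smul_o0_eq_iff`, and `sec (fun i => g i * k) x = sec g (k • x)`. -/
lemma nv_eq {ω : Fin (p + 1) → Om} {g : Fin (p + 1) → Gc} {θ : Om} (h : ∀ i, ω i = g i • θ) :
    nv ω = sec g (ev θ) := by
  have e : nv ω = sec (fun i => g i * rep θ) 0 :=
    sec_congr fun i => smul_o0_eq_iff.mp (by rw [rep_smul, mul_smul, rep_smul, h])
  rw [e]
  ext i j
  simp [sec, mul_smul, mul_assoc, ev]

lemma Univ_chart {γ : Nv p} {F : Fin (p + 1) → Gc} (h : γ ∈ Uc F) :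
    (nv fun j => F j • lf (γ.1 0 0).1) = γ := by
  rw [nv_eq (g := F) (θ := lf (γ.1 0 0).1) fun _ => rfl, ev_lf]
  refine (eq_sec fun j => ?_).symm
  obtain ⟨x, -, hx⟩ := h j
  have : x = (γ.1 0 0).1 := by rw [← base_eq γ j, ← hx]; rfl
  rw [← this, hx]

/-- Hints: `exists_Uc sAff`, `eq_sec`, `lf`. -/
lemma exists_nv (γ : Nv p) : ∃ ω, nv ω = γ := by
  obtain ⟨F, -, h⟩ := exists_Uc sAff γ
  exact ⟨_, Univ_chart h⟩

/-- the chart at the vertex `0` of the label at the vertex `i` -/
def ac (γ : Nv p) (i : Fin (p + 1)) : Om :=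
  rl ((exists_nv γ).choose i) (lf (ev ((exists_nv γ).choose i))) ((exists_nv γ).choose 0)

lemma Univ_rl (a b : Om) : rl a (lf (ev a)) b = (rep b * (rep a)⁻¹) • lf (ev a) := by
  rw [← rl_eq (ev_lf (ev a)).symm, mul_smul, inv_smul_eq_iff.mpr (rep_smul a).symm, rep_smul]

lemma ac_nv (ω : Fin (p + 1) → Om) (i : Fin (p + 1)) :
    ac (nv ω) i = rl (ω i) (lf (ev (ω i))) (ω 0) := by
  have h := (exists_nv (nv ω)).choose_spec
  rw [ac]
  generalize (exists_nv (nv ω)).choose = ω' at h ⊢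
  obtain ⟨h1, h2⟩ := germ_eq_iff.mp (congrFun (congrFun (congrArg Subtype.val h) i) 0)
  have e : ev (ω' i) = ev (ω i) := h1
  rw [Univ_rl, Univ_rl, ← e, smul_eq_iff, ev_lf]
  exact h2

lemma ev_ac (γ : Nv p) (i : Fin (p + 1)) : ev (ac γ i) = (γ.1 0 0).1 := by
  obtain ⟨ω, rfl⟩ := exists_nv γ
  rw [ac_nv, ev_rl (ev_lf _).symm]
  rfl

/-- the universal family -/
def Un (p q : ℕ) (σ : Ce p q) : St (Pz p q) :=
  glob (fun z => ac (σ z.2) (fi z.1)) (by
    simp only [ev_ac]
    exact continuous_base.comp (((continuous_apply_apply 0 0).comp continuous_subtype_val).comp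
      (σ.continuous.comp continuous_snd)))

lemma Univ_fi (i : Fin (p + 2)) (u : Sx p) : fi (incl i u) = i.succAbove (fi u) := by
  rcases lt_trichotomy (fi (incl i u)) (i.succAbove (fi u)) with h | h | h
  · refine absurd ?_ (fi_ne (incl i u))
    generalize fi (incl i u) = k at h
    revert h
    refine Fin.succAboveCases i (fun _ => incl_self i u) (fun l hl => ?_) k
    rw [incl_above]
    exact fi_min u (Fin.succAbove_lt_succAbove_iff.mp hl)
  · exact h
  · exact absurd ((incl_above i u _).symm.trans (fi_min _ h)) (fi_ne u)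

/-- Hints. `fi (incl i u) = i.succAbove (fi u)`. Near a point, `σ` takes values in a chart `Uc F`
(`exists_Uc`, `isOpen_Uc`), so `σ s = sec F x = nv (fun j => F j • lf x)`, and the chart of the face is
`F (i.succAbove 0)` times the chart of the cell (`rl_smul`; `F 0 = 1`). -/
theorem cmp_Un (N : ℕ) : Cmp N Un := by
  refine ⟨fun p q _ i σ => ?_, fun p q _ j σ => by rw [Un, Un, pull_glob]; rfl⟩
  rw [Un, Un, pull_glob]
  refine St.ext' fun x => ⟨_, glob_ch _ _ x, ?_⟩
  obtain ⟨F, h0, hF⟩ := exists_Uc sAff (σ x.2)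
  refine ⟨F (i.succAbove 0), ?_⟩
  filter_upwards [(σ.continuous.comp continuous_snd).continuousAt.eventually
    ((isOpen_Uc F).mem_nhds hF)] with y hy
  have e := Univ_chart (γ := σ y.2) hy
  simp only [ContinuousMap.comp_apply, fh_apply, Univ_fi]
  generalize ((σ y.2).1 0 0).1 = t at e
  rw [← e, face_nv, ac_nv, ac_nv, ← rl_smul (ev_lf _).symm, h0, one_smul]

/-- the trivial cell -/
def tc (p q : ℕ) : Ce p q := ContinuousMap.const _ (nv fun _ => o0)

lemma Un_tc (p q : ℕ) : Un p q (tc p q) = triv := by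
  refine (ag_glob (S := univ) _ _ fun z _ => ?_).eq fun _ => trivial
  change ac (nv fun _ => o0) _ = o0
  rw [ac_nv, ev_o0, lf_zero, rl_refl]

/-- charts on the balls of radius two about the lattice points -/
structure GD (F : St (E n)) (ψ : Zn n → E n → Om) : Prop where
  ch : ∀ v x, ‖x - cst v‖ ≤ 2 → F.ch x (ψ v)
  far : ∃ R : ℝ, ∀ v, R ≤ ‖cst v‖ → ψ v = fun _ => o0

open Classical in
/-- the transition germs of the charts at the vertices `a` along the simplex with vertices `b` -/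
def cell (ψ : Zn n → E n → Om) (a : Fin (p + 1) → Zn n) (b : Fin (q + 1) → Zn n) : Ce p q :=
  if h : Continuous fun s => nv fun i => ψ (a i) (pt b s) then ⟨_, h⟩ else tc p q

variable {F : St (E n)} {ψ : Zn n → E n → Om}

/-- Hints. Near a point `ψ (a i) = g i • ψ (a 0)` (`St.rel`, `Nr.norm_le`), then `nv_eq`. -/
lemma GD.cell_apply (h : GD F ψ) {a : Fin (p + 1) → Zn n} {b : Fin (q + 1) → Zn n} (hn : Nr a b)
    (s : Sx q) : cell ψ a b s = nv fun i => ψ (a i) (pt b s) := by
  have hc : Continuous fun s => nv fun i => ψ (a i) (pt b s) := by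
    refine continuous_iff_continuousAt.mpr fun s => ?_
    have h1 : ∀ i, F.ch (pt b s) (ψ (a i)) := fun i =>
      h.ch _ _ ((hn.norm_le i s).trans one_le_two)
    choose g hg using fun i => (F.rel (h1 0)).mp (h1 i)
    have h2 : ContinuousAt (fun s => sec g (ev (ψ (a 0) (pt b s)))) s :=
      (sec g).continuous.continuousAt.comp
        ((F.cont (h1 0)).comp (pt b).continuous.continuousAt)
    refine h2.congr ?_
    filter_upwards [(pt b).continuous.continuousAt.eventually (eventually_all.mpr hg)] with t ht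
    exact (nv_eq ht).symm
  rw [cell, dif_pos hc]
  rfl

lemma GD.face_cell (h : GD F ψ) {a : Fin (p + 2) → Zn n} {b : Fin (q + 1) → Zn n} (hn : Nr a b)
    (i : Fin (p + 2)) : (face i).comp (cell ψ a b) = cell ψ (fun k => a (i.succAbove k)) b := by
  refine ContinuousMap.ext fun s => ?_
  rw [ContinuousMap.comp_apply, h.cell_apply hn, h.cell_apply (hn.left _), face_nv]

lemma Univ_pt (b : Fin (q + 2) → Zn n) (j : Fin (q + 2)) (s : Sx q) :
    pt b (incl j s) = pt (fun k => b (j.succAbove k)) s := by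
  ext m
  rw [pt_apply, pt_apply, Fin.sum_univ_succAbove _ j, incl_self, zero_mul, zero_add]
  simp only [incl_above]

lemma GD.cell_incl (h : GD F ψ) {a : Fin (p + 1) → Zn n} {b : Fin (q + 2) → Zn n} (hn : Nr a b)
    (j : Fin (q + 2)) : (cell ψ a b).comp (incl j) = cell ψ a fun k => b (j.succAbove k) := by
  refine ContinuousMap.ext fun s => ?_
  rw [ContinuousMap.comp_apply, h.cell_apply hn, h.cell_apply (hn.right _), Univ_pt]

lemma cell_far {a : Fin (p + 1) → Zn n} (h : ∀ i, ψ (a i) = fun _ => o0) (b : Fin (q + 1) → Zn n) :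
    cell ψ a b = tc p q := by
  rw [cell]
  split_ifs
  · refine ContinuousMap.ext fun s => ?_
    simp only [ContinuousMap.coe_mk, h]
    rfl
  · rfl

lemma GD.cpt (h : GD F ψ) : Cpt F := by
  obtain ⟨R, hR⟩ := h.far
  refine ⟨R + 1, ag_of_ch fun x (hx : R + 1 ≤ ‖x‖) => ?_⟩
  have h1 : ‖x - cst fun i => ⌊x i⌋‖ ≤ 1 := by
    refine (pi_norm_le_iff_of_nonneg zero_le_one).mpr fun i => ?_
    change |x i - ⌊x i⌋| ≤ 1
    exact abs_le.mpr ⟨by linarith [Int.floor_le (x i)], by linarith [Int.lt_floor_add_one (x i)]⟩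
  have h2 := h.ch _ x (h1.trans one_le_two)
  rw [hR _ (by linarith [norm_sub_norm_le x (cst fun i => ⌊x i⌋)])] at h2
  exact ⟨_, _, h2, triv_ch x o0, .of_forall fun _ => rfl⟩

/-- the part of the chain of the grid in the cube at `v` -/
def wv (ψ : Zn n → E n → Om) (p q : ℕ) (v : Zn n) : Ch p q :=
  ∑ τ : Equiv.Perm (Fin n), (Equiv.Perm.sign τ : ℤ) • .of (cell ψ (ta v τ p) (tb v τ p q))

/-- the chain of the grid -/
def wch (ψ : Zn n → E n → Om) (p q : ℕ) : Ch p q := ∑ᶠ v, wv ψ p q v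

/-- the structure is given by the family on each top cell -/
def Rl (ψ : Zn n → E n → Om) (W : St (E n)) (V : ∀ p q, Ce p q → St (Pz p q)) : Prop :=
  ∀ v τ, ∀ p ≤ n, Ag W (pull (km v τ p) (V p (n - p) (cell ψ (ta v τ p) (tb v τ p (n - p)))))
    (Ct v τ p)

end

end Pool.Agent.P.MP_7bb7e1_gt.H
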